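import Pool.Agent.MP_8d06cc_nt.H27.Ser

/-! A congruence for logarithmic derivatives of integral power series. -/

namespace Pool.Agent.MP_8d06cc_nt.H27

open PowerSeries

theorem u5_mul {R : Type} [CommRing R] (a p : R⟦X⟧) (m : ℕ) :
    coeff (5 * m) (expand 5 (by norm_num) a * p) = coeff m (a * mk fun j => coeff (5 * j) p) := by
  rw [coeff_mul, coeff_mul]
  symm
  refine Finset.sum_of_injOn (fun ij => (5 * ij.1, 5 * ij.2)) (fun i _ j _ h => ?_)
    (fun ij h => ?_) (fun ij h h' => ?_) fun ij _ => ?_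
  · simp only [Prod.mk.injEq] at h
    exact Prod.ext (by omega) (by omega)
  · simp only [Finset.mem_coe, Finset.HasAntidiagonal.mem_antidiagonal] at h ⊢
    omega
  · rw [coeff_expand_of_not_dvd, zero_mul]
    rintro ⟨i, hi⟩
    rw [Finset.HasAntidiagonal.mem_antidiagonal] at h
    exact h' ⟨(i, m - i), by simp; omega, Prod.ext hi.symm (by simp only; omega)⟩
  · rw [coeff_expand_mul, coeff_mk]

theorem u5_poly {R : Type} [CommRing R] {p : Polynomial R} (h : p.natDegree ≤ 8) :
    (mk fun j => coeff (5 * j) (X * (p : R⟦X⟧))) = C (p.coeff 4) * X := by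
  ext j
  rw [coeff_mk, coeff_C_mul, coeff_X]
  rcases j with _ | j
  · simp
  · rw [show 5 * (j + 1) = 5 * j + 4 + 1 by ring, coeff_succ_X_mul, Polynomial.coeff_coe]
    rcases j with _ | j
    · simp
    · rw [Polynomial.coeff_eq_zero_of_natDegree_lt (by omega)]
      simp

theorem th_expand {R : Type} [CommRing R] (u : R⟦X⟧) : X * d⁄dX R (expand 5 (by norm_num) u) =
    5 * expand 5 (by norm_num) (X * d⁄dX R u) := by
  have th : ∀ (u : R⟦X⟧) m, coeff m (X * d⁄dX R u) = m * coeff m u := fun u m => by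
    rcases m with _ | m
    · simp
    · rw [coeff_succ_X_mul, coeff_derivative]; push_cast; ring
  ext m
  rw [th, ← map_ofNat (C (R := R)) 5, coeff_C_mul, coeff_expand, coeff_expand, th]
  split_ifs with h
  · obtain ⟨j, rfl⟩ := h
    simp [mul_assoc]
  · simp

theorem frob5 (u : (ZMod 5)⟦X⟧) : expand 5 (by norm_num) u = u ^ 5 := by
  have := MvPowerSeries.map_frobenius_expand (σ := Unit) (R := ZMod 5) 5 (by norm_num) (f := u)
  rwa [ZMod.frobenius_zmod, MvPowerSeries.map_id] at this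

theorem dwork {U w : ℤ_[5]⟦X⟧} {k : ℤ_[5]} (k0 : k ≠ 0) (hU : IsUnit U)
    (h : X * d⁄dX _ U = C k * w * U) : ∃ e : ℕ, PadicInt.toZMod (coeff (5 ^ e) w) =
      PadicInt.toZMod (coeff (5 * 5 ^ e) w) := by
  obtain ⟨V, hV⟩ := hU.exists_right_inv
  have dV : X * d⁄dX _ V = -(C k * w * V) := by
    have := congrArg (d⁄dX _) hV
    simp only [Derivation.leibniz, smul_eq_mul, Derivation.map_one_eq_zero] at this
    linear_combination X * V * this - V ^ 2 * h - (X * d⁄dX _ V + C k * w * V) * hV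
  obtain ⟨g, hg⟩ : ∃ g, expand 5 (by norm_num) U * V ^ 5 = 1 + 5 * g := by
    have : map PadicInt.toZMod (expand 5 (by norm_num) U * V ^ 5 - 1) = 0 := by
      rw [map_sub, map_mul, map_expand, frob5, map_pow, ← mul_pow, ← map_mul, hV]
      simp
    have h5 : ∀ m, ∃ c, coeff m (expand 5 (by norm_num) U * V ^ 5 - 1) = 5 * c := fun m => by
      have := congrArg (coeff m) this
      rw [coeff_map, map_zero, ← RingHom.mem_ker, PadicInt.ker_toZMod,
        PadicInt.maximalIdeal_eq_span_p, Ideal.mem_span_singleton] at this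
      exact this
    choose c hc using h5
    refine ⟨mk c, eq_add_of_sub_eq' ?_⟩
    ext m
    rw [hc, ← map_ofNat (C (R := ℤ_[5])) 5, coeff_C_mul, coeff_mk]
  have e1 := th_expand U
  rw [h, map_mul, map_mul, expand_C] at e1
  have e2 := congrArg (fun z => X * d⁄dX _ z) hg
  simp only [Derivation.leibniz, Derivation.leibniz_pow, smul_eq_mul, map_add,
    Derivation.map_one_eq_zero, nsmul_eq_mul] at e2
  have d5 : d⁄dX ℤ_[5] (5 : ℤ_[5]⟦X⟧) = 0 := by
    rw [← map_ofNat (C (R := ℤ_[5])) 5, derivative_C]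
  have e3 : X * d⁄dX _ g = C k * (expand 5 (by norm_num) w - w +
      5 * (g * (expand 5 (by norm_num) w - w))) := by
    have n5 : (5 : ℤ_[5]⟦X⟧) ≠ 0 := by
      rw [← map_ofNat (C (R := ℤ_[5])) 5]
      exact fun h => absurd (C_injective (h.trans (map_zero _).symm)) (by norm_num)
    apply mul_left_cancel₀ n5
    rw [d5] at e2
    push_cast at e2
    linear_combination -e2 + V ^ 5 * e1 + 5 * expand 5 (by norm_num) U * V ^ 4 * dV +
      5 * C k * (expand 5 (by norm_num) w - w) * hg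
  refine ⟨k.valuation, ?_⟩
  have e4 := congrArg (coeff (5 * 5 ^ k.valuation)) e3
  obtain ⟨m, hm⟩ : ∃ m, 5 * 5 ^ k.valuation = m + 1 := Nat.exists_eq_succ_of_ne_zero (by positivity)
  rw [coeff_C_mul, map_add, map_sub, coeff_expand_mul, ← map_ofNat (C (R := ℤ_[5])) 5, coeff_C_mul,
    hm, coeff_succ_X_mul, coeff_derivative, ← hm] at e4
  have e5 := PadicInt.unitCoeff_spec k0
  generalize PadicInt.unitCoeff k0 = u at e5
  generalize k.valuation = e at *
  have e6 := mul_left_cancel₀ (pow_ne_zero e (by norm_num : (5 : ℤ_[5]) ≠ 0))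
    (show 5 ^ e * (5 * coeff (5 * 5 ^ e) g) = 5 ^ e * (u * (coeff (5 ^ e) w - coeff (5 * 5 ^ e) w +
      5 * coeff (5 * 5 ^ e) (g * (expand 5 (by norm_num) w - w)))) by
      have := congrArg (Nat.cast (R := ℤ_[5])) hm
      rw [e5] at e4
      push_cast at e4 this
      linear_combination e4 + coeff (5 * 5 ^ e) g * this)
  have e7 := congrArg PadicInt.toZMod e6
  have z5 : (5 : ZMod 5) = 0 := rfl
  simp only [map_mul, map_add, map_sub, map_ofNat, z5, zero_mul, add_zero] at e7
  exact sub_eq_zero.1 ((mul_eq_zero.1 e7.symm).resolve_left (u.isUnit.map _).ne_zero)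

theorem core5 {A B P T : Polynomial ℤ_[5]} {a k : ℤ_[5]} {n : ℕ} (ha : IsUnit a) (k0 : k ≠ 0)
    (hP : P.coeff 0 = 1) (h1 : A ^ 2 - B ^ 2 * P = (Polynomial.X - Polynomial.C a) ^ (2 * n))
    (h2 : A.derivative * (Polynomial.X - Polynomial.C a) - (n : Polynomial ℤ_[5]) * A = B * (Polynomial.C k * T))
    (h3 : 2 * P * (B.derivative * (Polynomial.X - Polynomial.C a) - (n : Polynomial ℤ_[5]) * B) +
      P.derivative * B * (Polynomial.X - Polynomial.C a) = 2 * A * (Polynomial.C k * T))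
    {τ : ZMod 5} (hT : T.map PadicInt.toZMod = Polynomial.C τ) (τ0 : τ ≠ 0)
    {H : Polynomial (ZMod 5)} (hH : H = P.map PadicInt.toZMod ^ 2) (dH : H.natDegree ≤ 8)
    (h4 : H.eval (PadicInt.toZMod a) = 1) :
    H.coeff 4 * (H.coeff 5 + H.coeff 6 * PadicInt.toZMod a + H.coeff 7 * PadicInt.toZMod a ^ 2 +
      H.coeff 8 * PadicInt.toZMod a ^ 3) = 0 := by
  obtain ⟨v, v1, v2⟩ := (IsAdicComplete.henselianRing ℤ_[5]⟦X⟧ (.span {X})).is_henselian
    (Polynomial.X ^ 2 - Polynomial.C (P : ℤ_[5]⟦X⟧)) (Polynomial.monic_X_pow_sub_C _ two_ne_zero) 1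
    (by simp [Ideal.mem_span_singleton, X_dvd_iff, hP]) (IsUnit.map _ (by
      have : IsUnit (2 : ℤ_[5]) := by
        simpa using PadicInt.isUnit_iff.2 (PadicInt.norm_natCast_eq_one_iff.2 (by norm_num :
          Nat.Coprime 5 2))
      simpa [one_add_one_eq_two, map_ofNat] using this.map (C (R := ℤ_[5]))))
  have v3 : v ^ 2 = P := by simpa [sub_eq_zero] using v1
  have v4 : constantCoeff v = 1 := by
    simpa [Ideal.mem_span_singleton, X_dvd_iff, sub_eq_zero] using v2
  obtain ⟨ν, hν⟩ := (isUnit_iff_constantCoeff.2 (v4 ▸ isUnit_one)).exists_right_inv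
  have ul : IsUnit (X - C a : ℤ_[5]⟦X⟧) := isUnit_iff_constantCoeff.2 (by simpa using ha)
  obtain ⟨μ, hμ⟩ := ul.exists_right_inv
  have g1 := congrArg (Polynomial.coeToPowerSeries.ringHom) h1
  have g2 := congrArg (Polynomial.coeToPowerSeries.ringHom) h2
  have g3 := congrArg (Polynomial.coeToPowerSeries.ringHom) h3
  simp only [map_sub, map_mul, map_pow, map_add, map_ofNat, map_natCast,
    Polynomial.coeToPowerSeries.ringHom_apply, Polynomial.coe_X, Polynomial.coe_C,
    ← derivative_coe] at g1 g2 g3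
  have rT : map PadicInt.toZMod (T : ℤ_[5]⟦X⟧) = C τ := by
    rw [← Polynomial.polynomial_map_coe, hT, Polynomial.coe_C]
  generalize (T : ℤ_[5]⟦X⟧) = T' at *
  generalize (A : ℤ_[5]⟦X⟧) = A' at *
  generalize (B : ℤ_[5]⟦X⟧) = B' at *
  have dv := congrArg (d⁄dX _) v3
  have dμ := congrArg (d⁄dX _) hμ
  simp only [Derivation.leibniz, Derivation.leibniz_pow, smul_eq_mul, nsmul_eq_mul, map_sub,
    derivative_X, derivative_C, Derivation.map_one_eq_zero] at dv dμ
  have n2 : (2 : ℤ_[5]⟦X⟧) ≠ 0 := by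
    rw [← map_ofNat (C (R := ℤ_[5])) 2]
    exact fun h => absurd (C_injective (h.trans (map_zero _).symm)) (by norm_num)
  have u0 : IsUnit (A' + B' * v) := isUnit_of_mul_isUnit_left (y := A' - B' * v) (by
    rw [show (A' + B' * v) * (A' - B' * v) = (X - C a) ^ (2 * n) by
      linear_combination g1 - B' ^ 2 * v3]
    exact ul.pow _)
  have d0 : (X - C a) * d⁄dX _ (A' + B' * v) = ((n : ℤ_[5]⟦X⟧) + C k * T' * ν) * (A' + B' * v) := by
    apply mul_left_cancel₀ n2
    simp only [Derivation.leibniz, smul_eq_mul, map_add]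
    push_cast at dv
    linear_combination 2 * g2 + ν * g3 + ν * B' * (X - C a) * dv +
      2 * ν * (d⁄dX _ B' * (X - C a) - n * B') * v3 -
      2 * ((X - C a) * (B' * d⁄dX _ v + v * d⁄dX _ B') - n * B' * v + C k * T' * B') * hν
  have dp : d⁄dX _ (μ ^ n) = -(n * μ * μ ^ n) := by
    clear g1 g2 g3 h1 h2 h3 d0 u0
    induction n with
    | zero => simp
    | succ n ih =>
      rw [pow_succ, Derivation.leibniz, ih, smul_eq_mul, smul_eq_mul]
      push_cast
      linear_combination μ ^ n * μ * dμ - μ ^ n * d⁄dX _ μ * hμ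
  obtain ⟨e, he⟩ := dwork (w := X * T' * ν * μ) k0
    (u0.mul ((IsUnit.of_mul_eq_one_right _ hμ).pow n)) (by
      rw [Derivation.leibniz, dp, smul_eq_mul, smul_eq_mul]
      linear_combination X * μ ^ n * μ * d0 - X * μ ^ n * d⁄dX _ (A' + B' * v) * hμ)
  rw [← coeff_map, ← coeff_map] at he
  have r1 := congrArg (map PadicInt.toZMod) hν
  have r2 := congrArg (map PadicInt.toZMod) hμ
  have r3 := congrArg (map PadicInt.toZMod) v3
  have r4 : constantCoeff (map PadicInt.toZMod ν) = 1 := by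
    have := congrArg constantCoeff hν
    rw [map_mul, v4, one_mul] at this
    rw [← coeff_zero_eq_constantCoeff_apply, coeff_map, coeff_zero_eq_constantCoeff_apply, this,
      map_one, map_one]
  simp only [map_mul, map_one, map_sub, map_X, map_C, map_pow, ← Polynomial.polynomial_map_coe,
    rT] at r1 r2 r3 he
  generalize map PadicInt.toZMod ν = ν' at *
  generalize map PadicInt.toZMod μ = μ' at *
  generalize map PadicInt.toZMod v = v' at *
  generalize PadicInt.toZMod a = a' at *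
  obtain ⟨G, hG⟩ : Polynomial.X - Polynomial.C a' ∣ H - 1 := by
    simpa [h4] using Polynomial.X_sub_C_dvd_sub_C_eval (a := a') (p := H)
  have cG : ∀ j, H.coeff (j + 1) = G.coeff j - a' * G.coeff (j + 1) := fun j => by
    have := congrArg (Polynomial.coeff · (j + 1)) hG
    simpa [sub_mul, Polynomial.coeff_one, Polynomial.coeff_X_mul] using this
  have dG : G.natDegree ≤ 7 := by
    by_cases h : G = 0
    · simp [h]
    have := congrArg Polynomial.natDegree hG
    rw [Polynomial.natDegree_mul (Polynomial.X_sub_C_ne_zero _) h, Polynomial.natDegree_X_sub_C,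
      ← Polynomial.C_1, Polynomial.natDegree_sub_C] at this
    omega
  have eH : (H : (ZMod 5)⟦X⟧) = v' ^ 4 := by
    rw [hH, Polynomial.coe_pow, ← r3]; ring
  have eG : v' ^ 4 = 1 + (X - C a') * (G : (ZMod 5)⟦X⟧) := by
    have := congrArg (Polynomial.coeToPowerSeries.ringHom) hG
    simp only [map_sub, map_mul, map_one, Polynomial.coeToPowerSeries.ringHom_apply,
      Polynomial.coe_X, Polynomial.coe_C, eH] at this
    linear_combination this
  have b1 : ∀ m, coeff (5 * m) (X * ν') = H.coeff 4 * coeff m (X * ν') := fun m => by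
    rw [show X * ν' = expand 5 (by norm_num) ν' * (X * (H : (ZMod 5)⟦X⟧)) by
      rw [frob5, eH]
      linear_combination (-X * ν' * (v' * ν' + 1) * ((v' * ν') ^ 2 + 1)) * r1, u5_mul, u5_poly dH,
      ← coeff_C_mul]
    congr 1
    rw [frob5, eH]
    linear_combination (-C (H.coeff 4) * X * ν' * (v' * ν' + 1) * ((v' * ν') ^ 2 + 1)) * r1
  have b2 : ∀ e, coeff (5 ^ e) (X * ν') = H.coeff 4 ^ e := fun e => by
    induction e with
    | zero =>
      exact (coeff_succ_X_mul 0 ν').trans ((coeff_zero_eq_constantCoeff_apply _).trans r4)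
    | succ e ih => rw [pow_succ', b1, ih, pow_succ']
  have l4 : (X - C a' : (ZMod 5)⟦X⟧) ^ 4 =
      Polynomial.toPowerSeries ((Polynomial.X - Polynomial.C a') ^ 4) := by
    simp
  have l5 : Polynomial.coeff ((Polynomial.X - Polynomial.C a') ^ 4) 4 = 1 := by
    simpa using ((Polynomial.monic_X_sub_C a').pow 4).coeff_natDegree
  have b3 : ∀ m, coeff (5 * m) (X * C τ * ν' * μ') =
      coeff m (X * C τ * ν' * μ') + τ * G.coeff 4 * coeff m (X * ν') := fun m => by
    have : X * C τ * ν' * μ' = expand 5 (by norm_num) (C τ * ν' * μ') * (X * (X - C a') ^ 4) +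
        expand 5 (by norm_num) (C τ * ν') * (X * (G : (ZMod 5)⟦X⟧)) := by
      simp only [map_mul, expand_C, frob5 ν', frob5 μ']
      have e1 : ν' = ν' ^ 5 * v' ^ 4 := by
        linear_combination (-ν' * (v' * ν' + 1) * ((v' * ν') ^ 2 + 1)) * r1
      linear_combination X * C τ * μ' * e1 + X * C τ * μ' * ν' ^ 5 * eG +
        (X * C τ * ν' ^ 5 * (G : (ZMod 5)⟦X⟧) - X * C τ * ν' ^ 5 * μ' * ((X - C a') * μ' + 1) *
          (((X - C a') * μ') ^ 2 + 1)) * r2
    conv_lhs => rw [this]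
    rw [map_add, u5_mul, l4, u5_poly (by simp), u5_mul, u5_poly (dG.trans (by norm_num)),
      l5, ← coeff_C_mul, show C τ * ν' * μ' * (C 1 * X) = X * C τ * ν' * μ' by rw [map_one]; ring,
      show C τ * ν' * (C (G.coeff 4) * X) = C (τ * G.coeff 4) * (X * ν') by rw [map_mul]; ring]
  rw [b3, b2, left_eq_add, mul_assoc, mul_eq_zero, or_iff_right τ0] at he
  have g8 : G.coeff 8 = 0 := Polynomial.coeff_eq_zero_of_natDegree_lt (by omega)
  rw [show H.coeff 5 + H.coeff 6 * a' + H.coeff 7 * a' ^ 2 + H.coeff 8 * a' ^ 3 = G.coeff 4 by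
    rw [cG 4, cG 5, cG 6, cG 7, g8]; ring]
  rcases mul_eq_zero.1 he with h | h
  · rw [h, mul_zero]
  · rw [(pow_eq_zero_iff'.1 h).1, zero_mul]

end Pool.Agent.MP_8d06cc_nt.H27
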