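import Pool.Agent.MP_8d06cc_nt.H90.Flower

/-! Counting abscissas that are not branch points, in discs and directions. -/

namespace Pool.Agent.MP_8d06cc_nt.H27

open Polynomial Finset

/-- Even powers of five. -/
def Ev (x : ℝ) : Prop := ∃ z : ℤ, x = 5 ^ (2 * z)

theorem ev_sq {q : ℚ} (h : q ≠ 0) : Ev (‖(q : K)‖ ^ 2) := by
  obtain ⟨z, hz⟩ := p5_rat h
  exact ⟨z, by rw [hz, ← zpow_natCast, ← zpow_mul, mul_comm]; rfl⟩

theorem rho_shift {f : K[X]} {ι : Type} [Fintype ι] {x : ι → K} (σ : Sol f x) {c : K}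
    (hc : ‖c‖ ≤ 1) (hx : ∀ i, ‖x i‖ ≤ 1) (h : gn s (σ.B ^ 2 * f) < gn s (den x σ.e) ^ 2) :
    gn s ((σ.shift c).B ^ 2 * f.comp (X + C c)) <
      gn s (den (fun i => x i - c) (σ.shift c).e) ^ 2 := by
  have := gn_comp s0 (hc.trans s1.le) (σ.B ^ 2 * f)
  rw [mul_comp, pow_comp] at this
  refine (this.trans_lt h).trans_eq ?_
  rw [gn_den_out s0 fun i => (hx i).trans s1.le,
    gn_den_out s0 fun i => (norm_sub_le' (hx i) hc).trans s1.le]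
  rfl

theorem rat5 {q : ℚ} (h : ‖(q : K)‖ ≤ 1) : ‖(q : K) ^ 5 - q‖ < 1 := by
  obtain ⟨z, hz⟩ := lift0 h
  have := (cong5 (q := q ^ 5 - q) (z := z ^ 5 - z) (by push_cast [hz]; rfl) 0).1 (by
    rw [map_sub, map_pow, ZMod.pow_card]; simp)
  simpa using this

theorem rat4 {q : ℚ} (h : q ≠ 0) : ∃ t : ℤ, ‖(q : K)‖ = 5 ^ t ∧ ‖(5 ^ t * q : K) ^ 4 - 1‖ ≤ 1 / 5 := by
  obtain ⟨t, ht⟩ := p5_rat h
  have e : ‖((5 ^ t * q : ℚ) : K)‖ = 1 := by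
    simp [ht, norm_five, zpow_ne_zero]
  have := rat5 e.le
  rw [show ∀ z : K, z ^ 5 - z = z * (z ^ 4 - 1) from fun z => by ring, norm_mul, e, one_mul] at this
  have := gap_lt P5.one (q := (5 ^ t * q) ^ 4 - 1) (by simpa using this)
  push_cast at this
  exact ⟨t, ht, by linarith⟩

namespace Cfg

variable (Z : Cfg)

/-- An abscissa that is not a branch point. -/
def Fre (a : ℚ) : Prop := a ∈ Z.T ∧ Z.f.eval a ≠ 0

theorem fre_aff (α γ : ℚ) (hα : α ≠ 0) {a : ℚ} (h : Z.Fre a) :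
    (Z.aff α γ hα).Fre ((a - γ) / α) := by
  have e : (C α * X + C γ).eval ((a - γ) / α) = a := by simp; field_simp; ring
  exact ⟨mem_image_of_mem _ h.1, by simpa only [aff, eval_comp, e] using h.2⟩

theorem fr_aff (α γ : ℚ) (hα : α ≠ 0) (p : K → Prop) :
    (Z.aff α γ hα).fr p = Z.fr fun z => p ((z - γ) / α) := by
  classical
  simp only [fr, card_filter]
  simp only [aff]
  rw [sum_image fun a _ b _ h => by simpa [hα] using h]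
  refine sum_congr rfl fun a _ => ?_
  have e : (C α * X + C γ).eval ((a - γ) / α) = a := by simp; field_simp; ring
  simp only [eval_comp, e, Rat.cast_div, Rat.cast_sub]

theorem fr_inv (h0 : 0 ∉ Z.T) (hβ : ∀ i, Z.β i ≠ 0) (p : K → Prop) :
    (Z.inv h0 hβ).fr p = Z.fr fun z => p z⁻¹ := by
  classical
  simp only [fr, card_filter]
  simp only [inv]
  rw [sum_image fun a _ b _ h => inv_injective h]
  refine sum_congr rfl fun a ha => ?_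
  have h : a ≠ 0 := fun h => h0 (h ▸ ha)
  simp [ev_refl (inv_ne_zero h) Z.f_deg.le, h]

variable {Z}

open Classical in
theorem mem_fr {p : K → Prop} {a : ℚ} :
    a ∈ Z.T.filter (fun a : ℚ => p a ∧ Z.f.eval a ≠ 0) ↔ Z.Fre a ∧ p a := by
  rw [mem_filter, Fre]; tauto

theorem fr_mono {p q : K → Prop} (h : ∀ a : ℚ, Z.Fre a → p a → q a) : Z.fr p ≤ Z.fr q :=
  card_le_card fun a ha => mem_fr.2 ⟨(mem_fr.1 ha).1, h a (mem_fr.1 ha).1 (mem_fr.1 ha).2⟩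

theorem fr_cover {ι : Type} [Fintype ι] {p : K → Prop} (q : ι → K → Prop)
    (h : ∀ a : ℚ, Z.Fre a → p a → ∃ c, q c a) : Z.fr p ≤ ∑ c, Z.fr (q c) := by
  classical
  refine le_trans (card_le_card fun a ha => ?_) card_biUnion_le
  obtain ⟨c, hc⟩ := h a (mem_fr.1 ha).1 (mem_fr.1 ha).2
  exact mem_biUnion.2 ⟨c, mem_univ _, mem_fr.2 ⟨(mem_fr.1 ha).1, hc⟩⟩

theorem fr_or {p q r : K → Prop} (h : ∀ a : ℚ, Z.Fre a → p a → q a ∨ r a) :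
    Z.fr p ≤ Z.fr q + Z.fr r := by
  simpa using fr_cover ![q, r] fun a h1 h2 => by simpa using h a h1 h2

theorem fr_zero {p : K → Prop} : Z.fr p = 0 ↔ ∀ a : ℚ, Z.Fre a → ¬ p a := by
  simp only [fr, card_eq_zero, eq_empty_iff_forall_notMem, mem_fr, not_and]

theorem fr_ex {p : K → Prop} (h : Z.fr p ≠ 0) : ∃ a : ℚ, Z.Fre a ∧ p a := by
  simpa [fr_zero] using h

theorem fr_one {p : K → Prop} :
    Z.fr p ≤ 1 ↔ ∀ a b : ℚ, Z.Fre a → p a → Z.Fre b → p b → a = b := by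
  simp only [fr, card_le_one, mem_fr, and_imp]
  exact ⟨fun h a b h1 h2 h3 h4 => h a h1 h2 b h3 h4, fun h a h1 h2 b h3 h4 => h a b h1 h2 h3 h4⟩

theorem fr_pts {p : K → Prop} {m : ℕ} (h : m ≤ Z.fr p) : ∃ x : Fin m → ℚ, Function.Injective x ∧
    ∀ i, Z.Fre (x i) ∧ p (x i) := by
  obtain ⟨S, h1, h2⟩ := exists_subset_card_eq h
  exact ⟨fun i => (equivFinOfCardEq h2).symm i,
    Subtype.val_injective.comp (Equiv.injective _), fun i => mem_fr.1 (h1 (Subtype.prop _))⟩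

theorem Fre.ne {a : ℚ} (h : Z.Fre a) (i : Fin 8) : (a : K) - Z.β i ≠ 0 := fun e =>
  h.2 ((Z.root_iff a).2 ⟨i, (sub_eq_zero.1 e).symm⟩)

theorem Fre.sq {a : ℚ} (h : Z.Fre a) : ∃ y : ℚ, y ≠ 0 ∧ (y : K) ^ 2 = Z.F.eval (a : K) := by
  obtain ⟨y, hy⟩ := (Z.good a h.1).1
  exact ⟨y, fun e => h.2 (by simp [hy, e]), by simp [F_eval, hy, pow_two]⟩

theorem odd_s {E j : ℕ} (h2 : 2 ≤ E) (hE : ∀ i, ‖Z.β i‖ ≤ 1 ∨ s ^ E ≤ ‖Z.β i‖)
    (hk : Z.nr (‖·‖ ≤ 1) = 2 * j + 1) : ∃ c, P5 c ∧ gn s Z.F = c * s ^ (2 * j + 1) := by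
  have sE : s < s ^ E := by simpa using pow_lt_pow_right₀ s1 (show 1 < E by omega)
  have := (Z.top s0).1
  rw [nr_congr (q := (‖·‖ ≤ 1)) fun i => ⟨fun h => (hE i).resolve_right fun e => by linarith,
    fun h => h.trans s1.le⟩, hk] at this
  exact ⟨_, Z.F_rt.p5 fun h => by simp [h, (Z.gn_pos s0).ne] at this, this.symm⟩

theorem disc1 (hk : Z.nr (‖·‖ ≤ 1) = 1) : Z.fr (‖·‖ ≤ 1) = 0 := by
  classical
  have hE := Z.outer (j := 8) (E := 3) (by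
    have := nr_not (Z := Z) fun z => 1 < ‖z‖ ∧ ‖z‖ < 5
    omega) le_rfl (by norm_num)
  refine fr_zero.2 fun a ha h => ?_
  obtain ⟨σ, r, hW, -⟩ := Z.base (fun _ : Unit => a) () ha.1 ha.2
  obtain ⟨c, c1, c2⟩ := odd_s (j := 0) (by norm_num) hE hk
  rw [nr_eq] at hk
  obtain ⟨i, hi⟩ := card_eq_one.1 hk
  have i1 : ‖Z.β i‖ ≤ 1 := by simpa using hi.ge (mem_singleton_self i)
  have hF := fac_of (fun j => Z.β j - Z.β i) Z.c (fun _ => False) (fun i => ‖Z.β i‖ ≤ 1)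
    (R₁ := 1 / 2) (by norm_num) (pow_pos s0 3) (d := True) (by simp) (fun j _ h => by
      rw [norm_sub_big (i1.trans_lt (not_le.1 h))]
      exact (hE j).resolve_left h) (by simp)
  simp only [filter_false, card_empty, Nat.cast_zero, LaurentPolynomial.T_zero, one_mul,
    not_false_eq_true, true_and, ← F_comp, hi, prod_singleton, sub_self, map_zero, sub_zero,
    toLaurent_X] at hF
  exact reg1' (σ.shift _) (Z.comp_deg _) (fun _ => ha.ne i) (fun _ => norm_sub_le' h i1) hF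
    (rho_shift σ i1 (fun _ => h) (rho_odd σ r.1 r.2 (fun _ => h) c1 c2)) hW

/-- Reduction to the case that the origin is not a point. -/
theorem off {k E m : ℕ} (H : ∀ Z : Cfg, 0 ∉ Z.T → Z.nr (‖·‖ ≤ 1) = k →
    (∀ i, ‖Z.β i‖ ≤ 1 ∨ s ^ E ≤ ‖Z.β i‖) → Z.fr (‖·‖ ≤ 1) ≤ m) (hk : Z.nr (‖·‖ ≤ 1) = k)
    (hE : ∀ i, ‖Z.β i‖ ≤ 1 ∨ s ^ E ≤ ‖Z.β i‖) : Z.fr (‖·‖ ≤ 1) ≤ m := by
  obtain ⟨γ, h1, h2, -⟩ := Z.exists_near 0 one_pos
  rw [Rat.cast_zero, sub_zero] at h1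
  have e : ∀ z : K, ‖(z - γ) / (1 : ℚ)‖ ≤ 1 ↔ ‖z‖ ≤ 1 := fun z => by
    simpa using norm_sub_iff h1.le
  have := H (Z.aff 1 γ one_ne_zero) (by
      simp only [aff, mem_image, div_one, sub_eq_zero, not_exists, not_and]
      rintro a ha rfl
      exact h2 ha) (by rw [nr_aff, ← hk]; simp only [e]) fun i => by
    by_cases hi : ‖Z.β i‖ ≤ 1
    · exact .inl ((e _).2 hi)
    · right
      simp only [aff, Rat.cast_one, div_one]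
      rw [norm_sub_big (h1.trans (not_le.1 hi))]
      exact (hE i).resolve_left hi
  simpa only [fr_aff, e] using this

theorem facD {R : ℝ} (hR : 0 < R) (hE : ∀ i, ‖Z.β i‖ ≤ 1 ∨ R ≤ ‖Z.β i‖) : ∃ p : K[X],
    p.natDegree ≤ Z.nr (‖·‖ ≤ 1) ∧ p.coeff (Z.nr (‖·‖ ≤ 1)) = 1 ∧ gn 1 p ≤ 1 ∧
      Fac Z.F (toLaurent p) (1 / 2) R True := by
  classical
  have hF := fac_of Z.β Z.c (fun _ => False) (fun i => ‖Z.β i‖ ≤ 1) (R₁ := 1 / 2) (by norm_num)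
    hR (d := True) (by simp) (fun i _ h => (hE i).resolve_left h) (by simp)
  have hp := rts_props Z.β {i | ‖Z.β i‖ ≤ 1}
  simp only [filter_false, card_empty, Nat.cast_zero, LaurentPolynomial.T_zero, one_mul,
    not_false_eq_true, true_and, ← F_eq] at hF
  rw [← nr_eq (‖·‖ ≤ 1)] at hp
  exact ⟨_, hp.1, hp.2.1, hp.2.2.1 fun i hi => (mem_filter.1 hi).2, hF⟩

theorem disc23 (hk : Z.nr (‖·‖ ≤ 1) = 2 ∨ Z.nr (‖·‖ ≤ 1) = 3)
    (hE : ∀ i, ‖Z.β i‖ ≤ 1 ∨ s ^ 12 ≤ ‖Z.β i‖) : Z.fr (‖·‖ ≤ 1) ≤ 1 := by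
  rcases hk with hk | hk
  · exact off (fun Z h0 => Z.disc0 h0 (.inr (.inr (.inl ⟨rfl, rfl, rfl⟩)))) hk hE
  refine off (fun Z h0 hk hE => not_lt.1 fun h => ?_) hk hE
  obtain ⟨a, inj, ha⟩ := fr_pts h
  choose σ r w1 w2 using fun j => Z.base a j (ha j).1.1 (ha j).1.2
  obtain ⟨c, c1, c2⟩ := odd_s (j := 1) (by norm_num) hE hk
  obtain ⟨p, p1, p2, p3, p4⟩ := facD (pow_pos s0 12) hE
  rw [hk] at p1 p2
  exact reg3' σ Z.F_deg (fun i => Rat.cast_ne_zero.2 fun e => h0 (e ▸ (ha i).1.1)) (fun i => (ha i).2)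
    (by simpa using inj.ne (show (0 : Fin 2) ≠ 1 by simp)) p1 p2 p3 p4
    (fun j => rho_odd (σ j) (r j).1 (r j).2 (fun i => (ha i).2) c1 c2) w1 w2

theorem disc08 (hk : Z.nr (‖·‖ ≤ 1) = 0) (hE : ∀ i, ‖Z.β i‖ ≤ 1 ∨ s ^ 8 ≤ ‖Z.β i‖) :
    Z.fr (‖·‖ ≤ 1) ≤ 1 := off (fun Z h0 => Z.disc0 h0 (.inl ⟨rfl, rfl, rfl⟩)) hk hE

theorem Fre.far {a b : ℚ} (ha : Z.Fre a) (hb : Z.Fre b) (hab : a ≠ b) {ρ : ℝ} (hρ : P5 ρ)
    (h : ∀ i, ¬ ‖Z.β i - a‖ < ρ) : ρ ≤ ‖(a : K) - b‖ := Z.far ha.1 hb.1 hab ha.2 hb.2 hρ h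

theorem disc06 (hk : Z.nr (‖·‖ ≤ 1) = 0) (hE : ∀ i, ‖Z.β i‖ ≤ 1 ∨ s ^ 6 ≤ ‖Z.β i‖) :
    Z.fr (‖·‖ ≤ 1) ≤ 3 := by
  refine off (fun Z h0 hk hE => not_lt.1 fun h => ?_) hk hE
  obtain ⟨a, inj, ha⟩ := fr_pts h
  choose y hy using fun i => IsAlgClosed.exists_pow_nat_eq (Z.F.eval (a i : K)) two_pos
  choose σ m h1 h2 h3 h4 using fun j : Fin 3 => Z.gpair hy (fun i => (ha i).1.1)
    (fun i => (ha i).1.2) P5.one (Fin.succ_ne_zero j).symm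
  obtain ⟨p, p1, p2, -, p4⟩ := facD (pow_pos s0 6) hE
  rw [hk] at p1 p2
  rw [eq_C_of_natDegree_le_zero p1, p2, C_1, map_one, ← LaurentPolynomial.T_zero] at p4
  have no := nr_eq_zero.1 hk
  refine reg0' σ Z.F_deg (fun i => Rat.cast_ne_zero.2 fun e => h0 (e ▸ (ha i).1.1))
    (fun i => (ha i).2) (fun i => rat5 (ha i).2) (fun i j hij => le_antisymm
      (norm_sub_le' (ha i).2 (ha j).2) ((ha i).1.far (ha j).1 (inj.ne hij) P5.one fun l hl =>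
        no l ((norm_sub_iff (ha i).2).1 hl.le))) p4 (fun j => ?_) h4 h2
  simpa using rho_out (σ j) one_pos (h3 j) (fun i => (ha i).2) (Z.F_root 0)
    (le_trans (by norm_num [s]) ((hE 0).resolve_left (no 0)))

theorem dirB (h : Z.nr (‖·‖ < 5) ≤ 3) :
    Z.fr (‖·‖ ≤ 1) ≤ 1 ∧ (Z.nr (‖·‖ < 5) = 1 → Z.fr (‖·‖ ≤ 1) = 0) := by
  have h1 := Z.mid_ne_one
  rw [nr_split] at h ⊢
  by_cases h0 : Z.nr (‖·‖ ≤ 1) = 0
  · exact ⟨disc08 h0 (Z.outer (j := 3) (by omega) le_rfl (by norm_num)), by omega⟩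
  by_cases h2 : Z.nr (‖·‖ ≤ 1) = 1
  · simp [disc1 h2]
  exact ⟨disc23 (by omega) (Z.outer (j := 2) (by omega) le_rfl (by norm_num)), by omega⟩

variable (Z)

theorem dirF {ρ : ℝ} (hρ : P5 ρ) (γ : ℚ) (h : Z.nr (‖· - γ‖ < ρ) ≤ 3) :
    Z.fr (‖· - γ‖ < ρ) ≤ 1 ∧ (Z.nr (‖· - γ‖ < ρ) = 1 → Z.fr (‖· - γ‖ < ρ) = 0) := by
  obtain ⟨α, h0, hα⟩ := (hρ.mul P5.fifth).rat
  have p := hρ.pos
  have e : (Z.aff α γ h0).nr (‖·‖ < 5) = Z.nr (‖· - γ‖ < ρ) := by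
    rw [nr_aff]
    exact nr_congr fun i => by
      rw [norm_div, hα, div_lt_iff₀ (by positivity), show 5 * (ρ * (1 / 5)) = ρ by ring]
  have := dirB (e ▸ h)
  rw [e, fr_aff] at this
  have k : Z.fr (‖· - γ‖ < ρ) ≤ Z.fr fun z => ‖(z - γ) / α‖ ≤ 1 := fr_mono fun a _ ha => by
    have := gap_lt hρ (q := a - γ) (by simpa using ha)
    rw [norm_div, hα, div_le_one (by positivity)]
    push_cast at this
    linarith
  omega

variable {Z}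

theorem fr_class : Z.fr (‖·‖ ≤ 1) ≤ ∑ c : ZMod 5, Z.fr (‖· - rp c‖ < 1) :=
  fr_cover (fun (c : ZMod 5) z => ‖z - rp c‖ < 1) fun _ _ h => exists_class h

theorem five (hl : Z.Light) : Z.fr (‖·‖ ≤ 1) ≤ 5 :=
  fr_class.trans (sum_le_sum fun c _ => (Z.dirF P5.one _ (hl c)).1)

theorem ev_of {a : ℚ} (h : Z.Fre a) {r : ℝ} (hr : 0 < r) (ha : ‖(a : K)‖ ≤ r)
    (h' : ∀ i, ¬ ‖Z.β i - a‖ < r) : Ev (gn r Z.F) := by
  obtain ⟨y, y0, hy⟩ := h.sq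
  convert ev_sq y0
  rw [← norm_pow, hy, F_eval', F_eq, gn_mul hr, gn_C, gn_prod hr, norm_mul, norm_prod]
  refine congrArg _ (prod_congr rfl fun i _ => ?_)
  rw [gn_X_sub hr, norm_sub_rev]
  rcases le_or_gt ‖Z.β i‖ r with e | e
  · rw [max_eq_left e, le_antisymm (norm_sub_le' e ha) (not_lt.1 (h' i))]
  · rw [max_eq_right e.le, norm_sub_big (ha.trans_lt e)]

theorem par (hl : Z.Light) (h : ¬ Ev (gn 1 Z.F)) : 2 * Z.fr (‖·‖ ≤ 1) ≤ Z.nr (‖·‖ ≤ 1) := by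
  refine le_trans (Nat.mul_le_mul_left 2 fr_class) (le_trans ?_ sum_class)
  rw [mul_sum]
  refine sum_le_sum fun c _ => ?_
  have := Z.dirF P5.one _ (hl c)
  by_cases h0 : Z.nr (‖· - rp c‖ < 1) = 0
  · rw [fr_zero.2 fun a ha hc => h (ev_of ha one_pos ((norm_sub_iff (rp_le c)).1 hc.le)
      fun i hi => nr_eq_zero.1 h0 i (by simpa using norm_add_lt' hi hc))]
    omega
  · omega

end Cfg

end Pool.Agent.MP_8d06cc_nt.H27
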