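import Pool.Agent.MP_8d06cc_nt.H90.Six
import Pool.Agent.MP_8d06cc_nt.H27.Final

/-! From configurations to point counts. -/

namespace Pool.Agent.MP_8d06cc_nt.H27

open Polynomial Finset

/-- Weighted number of points above `a`. -/
noncomputable def wg (e : ℕ) (f : ℚ[X]) (a : ℚ) : ℕ := if f.eval a = 0 then e else 2

theorem ex_cfg {f : ℚ[X]} (hf : f.natDegree = 8) (hs : Squarefree f) (T : Finset ℚ)
    (hT : ∀ a ∈ T, Good f a) : ∃ Z : Cfg, Z.f = f ∧ Z.T = T := by
  classical
  have h0 : f ≠ 0 := hs.ne_zero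
  have sp : (f.map (Rat.castHom K)).Splits := IsAlgClosed.splits _
  have nd : (f.map (Rat.castHom K)).roots.Nodup :=
    nodup_roots (PerfectField.separable_iff_squarefree.2 hs).map
  have cd : (f.map (Rat.castHom K)).roots.toFinset.card = 8 := by
    rw [Multiset.toFinset_card_of_nodup nd, ← sp.natDegree_eq_card_roots, natDegree_map, hf]
  let e := (Finset.equivFinOfCardEq cd).symm
  exact ⟨{
      f := f, c := (f.map (Rat.castHom K)).leadingCoeff, β := fun i => e i, T := T
      c0 := leadingCoeff_ne_zero.2 (Polynomial.map_ne_zero h0)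
      inj := Subtype.val_injective.comp e.injective
      fac := by
        rw [e.prod_comp fun z => X - C (z : K), prod_coe_sort _ fun z => X - C z,
          prod_eq_multiset_prod, Multiset.toFinset_val, nd.dedup]
        exact sp.eq_prod_roots
      good := hT }, rfl, rfl⟩

theorem fiber_wg (e : ℕ) (f : ℚ[X]) (S : Finset (ℚ × ℚ))
    (hS : ∀ p ∈ S, p.2 ^ 2 = f.eval p.1 ∧ (e = 0 → p.2 ≠ 0)) :
    #S ≤ ∑ a ∈ S.image Prod.fst, wg e f a := by
  refine (fiber_le f S fun p hp => (hS p hp).1).trans (sum_le_sum fun a ha => ?_)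
  obtain ⟨p, hp, rfl⟩ := mem_image.1 ha
  rw [wt, wg]
  split_ifs with h
  · exact Nat.pos_of_ne_zero fun g => (hS p hp).2 g (by simpa [h] using (hS p hp).1)
  · rfl

open Classical in
theorem main_wg {e B : ℕ} (core : ∀ Z : Cfg, ∑ a ∈ Z.T, wg e Z.f a ≤ B) {F : Type} [Field F]
    [Algebra ℚ F] {x y : F} {f : ℚ[X]} (M : Model x y f) (hs : Squarefree f)
    (hd : f.natDegree = 7 ∨ f.natDegree = 8) (hr : Module.rank ℤ (Pic0 ℚ F) = 0) :
    {p : ℚ × ℚ | p.2 ^ 2 = f.eval p.1 ∧ (e = 0 → p.2 ≠ 0)}.encard +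
      (if f.natDegree = 7 then e else if IsSquare f.leadingCoeff then 2 else 0 : ℕ) ≤ B := by
  have h : ∀ S : Finset (ℚ × ℚ), (∀ p ∈ S, p.2 ^ 2 = f.eval p.1 ∧ (e = 0 → p.2 ≠ 0)) →
      #S + (if f.natDegree = 7 then e else if IsSquare f.leadingCoeff then 2 else 0) ≤ B := by
    intro S hS
    obtain ⟨c, hc⟩ := Infinite.exists_notMem_finset (S.image Prod.fst ∪ f.roots.toFinset)
    have c1 : c ∉ S.image Prod.fst := fun h => hc (mem_union_left _ h)
    have c2 : f.eval c ≠ 0 := fun h =>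
      hc (mem_union_right _ (by simpa [hs.ne_zero] using h))
    set g := f.comp (X + C c) with hg
    have dg : g.natDegree = f.natDegree := by simp [hg, natDegree_comp]
    have d8 : (reflect 8 g).natDegree = 8 := by
      refine le_antisymm (natDegree_reflect_le.trans (by omega)) (le_natDegree_of_ne_zero ?_)
      simpa [coeff_zero_eq_eval_zero, hg, eval_comp] using c2
    have g8 : g.natDegree ≤ 8 := by omega
    have s8 := sqf_reflect (g := g) (sqf_shift hs c) (by omega) g8 d8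
    have key : ∀ T : Finset ℚ, (∀ t ∈ T, IsSquare ((reflect 8 g).eval t)) →
        ∑ t ∈ T, wg e (reflect 8 g) t ≤ B := fun T hT => by
      obtain ⟨Z, e1, e2⟩ := ex_cfg d8 s8 T fun t ht =>
        ⟨hT t ht, ((M.shift c).inv g8).tors s8 d8 hr (hT t ht)⟩
      exact e1 ▸ e2 ▸ core Z
    have ev : ∀ a, a ≠ c → (reflect 8 g).eval (a - c)⁻¹ = (a - c)⁻¹ ^ 8 * f.eval a := fun a h => by
      rw [ev_refl (inv_ne_zero (sub_ne_zero.2 h)) (by omega)]
      simp [hg, eval_comp]
    have ne : ∀ a ∈ S.image Prod.fst, a ≠ c := fun a ha h => c1 (h ▸ ha)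
    set T := (S.image Prod.fst).image fun a => (a - c)⁻¹ with hT
    have t1 : #S ≤ ∑ t ∈ T, wg e (reflect 8 g) t := by
      rw [hT, sum_image fun a _ b _ h => by simpa using h]
      refine (fiber_wg e f S hS).trans (sum_le_sum fun a ha => ?_)
      simp [wg, ev a (ne a ha), sub_eq_zero, ne a ha]
    have t2 : ∀ t ∈ T, IsSquare ((reflect 8 g).eval t) := fun t ht => by
      obtain ⟨a, ha, rfl⟩ := mem_image.1 ht
      rw [ev a (ne a ha)]
      obtain ⟨p, hp, rfl⟩ := mem_image.1 ha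
      exact ⟨(p.1 - c)⁻¹ ^ 4 * p.2, by rw [← (hS p hp).1]; ring⟩
    have t3 : 0 ∉ T := fun h => by
      obtain ⟨a, ha, e⟩ := mem_image.1 h
      exact ne a ha (by simpa [sub_eq_zero] using e)
    have e0 : (reflect 8 g).eval 0 = g.coeff 8 := by simp [← coeff_zero_eq_eval_zero]
    have t4 : IsSquare (g.coeff 8) → #S + wg e (reflect 8 g) 0 ≤ B := fun h => by
      have := key (insert 0 T) (forall_mem_insert _ _ _ |>.2 ⟨e0 ▸ h, t2⟩)
      rw [sum_insert t3] at this
      omega
    rw [wg, e0] at t4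
    split_ifs with h7 h8
    · rw [coeff_eq_zero_of_natDegree_lt (by omega)] at t4
      simpa using t4
    · have : g.coeff 8 = f.leadingCoeff := by
        rw [← hd.resolve_left h7, ← dg, coeff_natDegree, hg, leadingCoeff_comp (by simp)]
        simp
      rw [this, if_neg (leadingCoeff_ne_zero.2 hs.ne_zero)] at t4
      exact t4 h8
    · exact t1.trans (key T t2)
  have fin : {p : ℚ × ℚ | p.2 ^ 2 = f.eval p.1 ∧ (e = 0 → p.2 ≠ 0)}.Finite := by
    by_contra h'
    obtain ⟨S, hS, e⟩ := Set.Infinite.exists_subset_card_eq h' (B + 1)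
    have := h S hS
    omega
  have := h fin.toFinset (by simp)
  rw [fin.encard_eq_coe_toFinset_card]
  exact_mod_cast this

theorem Cfg.wg_eq (Z : Cfg) (e : ℕ) : ∑ a ∈ Z.T, wg e Z.f a =
    e * #(Z.T.filter fun a => Z.f.eval a = 0) + 2 * Z.fr fun _ => True := by
  classical
  simp only [Cfg.fr, wg, card_filter, mul_sum, ← sum_add_distrib]
  refine sum_congr rfl fun a _ => ?_
  by_cases h2 : Z.f.eval a = 0 <;> simp [h2]

end Pool.Agent.MP_8d06cc_nt.H27
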