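import Pool.Agent.MP_8d06cc_nt.H90.Red

/-! A vertex whose four branch points form two pairs. -/

namespace Pool.Agent.MP_8d06cc_nt.H27

open Polynomial Finset Filter

theorem sqrt_near {v b : K} {δ : ℝ} (b0 : b ≠ 0) (h : ‖v - b ^ 2‖ ≤ δ * ‖b‖) :
    ∃ y, y ^ 2 = v ∧ ‖y - b‖ ≤ δ := by
  obtain ⟨y, rfl⟩ := IsAlgClosed.exists_pow_nat_eq v two_pos
  have p := norm_pos_iff.2 b0
  rw [sq_sub_sq, norm_mul] at h
  by_cases e : ‖y + b‖ < ‖b‖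
  · have : ‖b‖ ≤ ‖y - b‖ := not_lt.1 fun e' => by
      simpa [← two_mul, norm_two] using norm_sub_lt' e e'
    exact ⟨-y, by ring, by
      rw [← neg_add', norm_neg]
      exact le_of_mul_le_mul_right ((mul_le_mul_of_nonneg_left this (norm_nonneg _)).trans h) p⟩
  · rw [mul_comm] at h
    exact ⟨y, rfl, le_of_mul_le_mul_right
      ((mul_le_mul_of_nonneg_left (not_lt.1 e) (norm_nonneg _)).trans h) p⟩

theorem mprod_near (S : Multiset K) {t : ℝ} (t0 : 0 ≤ t) (t1 : t ≤ 1) (h : ∀ z ∈ S, ‖z - 1‖ ≤ t) :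
    ‖S.prod - 1‖ ≤ t := by
  induction S using Multiset.induction_on with
  | empty => simpa using t0
  | cons a S ih =>
    have h1 := ih fun z hz => h z (Multiset.mem_cons_of_mem hz)
    have h2 := h a (Multiset.mem_cons_self a S)
    have h3 : ‖(a - 1) * (S.prod - 1)‖ ≤ t := by
      rw [norm_mul]; exact (mul_le_of_le_one_left (norm_nonneg _) (h2.trans t1)).trans h1
    rw [Multiset.prod_cons]
    convert norm_add_le' (norm_add_le' h1 h2) h3 using 2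
    ring

theorem max_shift {z c : K} (hc : ‖c‖ ≤ 1) : max 1 ‖z - c‖ = max 1 ‖z‖ := by
  rcases le_or_gt ‖z‖ 1 with h | h
  · rw [max_eq_left h, max_eq_left (norm_sub_le' h hc)]
  · rw [norm_sub_big (hc.trans_lt h)]

theorem Sol.Bdd.shift {f : K[X]} {ι : Type} [Fintype ι] {x : ι → K} {σ : Sol f x} (h : σ.Bdd 1)
    {c : K} (hc : ‖c‖ ≤ 1) : (σ.shift c).Bdd 1 := by
  refine ((gn_comp one_pos hc _).trans h).trans (le_of_eq ?_)
  simp only [gn_den one_pos, max_shift hc]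
  rfl

theorem gn_sub_le {P Q : K[X]} {r c : ℝ} (hr : 0 < r) (h : gn r P ≤ c) (h' : gn r Q ≤ c) :
    gn r (P - Q) ≤ c := (gn_sub hr _ _).trans (max_le h h')

theorem s5 : s ^ (24 : ℤ) ≤ 5 := by exact_mod_cast s24

theorem s5' : 1 / 5 ≤ s ^ (-24 : ℤ) := by norm_num [s]

namespace Cfg

theorem F_comp (Z : Cfg) (c : K) : Z.F.comp (X + C c) = C Z.c * ∏ i, (X - C (Z.β i - c)) := by
  simp only [F_eq, mul_comp, C_comp, Polynomial.prod_comp, sub_comp, X_comp, map_sub]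
  exact congrArg (C Z.c * ·) (prod_congr rfl fun i _ => by ring)

theorem comp_deg (Z : Cfg) (c : K) : (Z.F.comp (X + C c)).natDegree = 8 := by
  rw [natDegree_comp, natDegree_X_add_C, mul_one, F_deg]

/-- Estimate in a residue disc with `κ` branch points close to the centre. -/
theorem cwin (Z : Cfg) {κ : ℕ} {a E : ℤ} (a1 : 1 ≤ a) (aE : a ≤ E) (h30 : a + E ≤ 30) (hκ : 2 ≤ κ)
    (hv : ∀ m, (κ : ℤ) ≤ m → ∀ v : ℕ, 20 * (v : ℤ) ≤ |2 * m - κ| + 15 → (v = 0 ∨ 5 ∣ 2 * m - κ) →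
      25 * v + E ≤ a * m ∧ 25 * v + E ≤ 30 + (a - 1) * m) {c : K} (hc : ‖c‖ ≤ 1)
    (hk : Z.nr (‖· - c‖ < 1) = κ) (hin : ∀ i, ‖Z.β i - c‖ < 1 → ‖Z.β i - c‖ ≤ s ^ (-2 * a))
    {ι : Type} [Fintype ι] {x : ι → K} (u : Sol Z.F x) (hb : u.Bdd 1) (hx : ∀ i, 1 ≤ ‖x i - c‖)
    {w : ℝ} (w0 : 0 < w) (hq : gn 1 (u.q - C (u.q.coeff 0)) ≤ w)
    (hW : ∀ i, ‖u.W i‖ ≤ w * ‖x i - c‖ ^ 2) :
    ‖u.q.eval c - ∑ i, u.W i * (x i - c)⁻¹‖ ≤ w * s ^ (-a) ∧ ∀ G, 0 < G →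
      G ^ 2 ≤ gn 1 Z.F * (s ^ (-a)) ^ κ → ∀ᶠ k in atTop, ∀ ξ η : K, ‖ξ - c‖ ≤ s ^ (-a) →
        η ^ 2 = Z.F.eval ξ → ‖u.val ξ η ^ (4 * 5 ^ k) - 1‖ ≤ (1 / 5) ^ k * (w * s ^ (-E) / G) := by
  classical
  have hF := fac_of (fun i => Z.β i - c) Z.c (fun i => ‖Z.β i - c‖ < 1) (fun _ => False)
    (zp (-2 * a)) one_pos (d := False) hin (fun i h _ => not_lt.1 h) False.elim
  rw [← nr_eq (‖· - c‖ < 1), hk, ← F_comp] at hF
  simp only [and_false, filter_false, prod_empty, map_one, mul_one] at hF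
  obtain ⟨i, hi⟩ : ∃ i, ‖Z.β i - c‖ < 1 := by
    by_contra h'
    rw [nr_eq_zero.2 fun i hi => h' ⟨i, hi⟩] at hk
    omega
  have x0 : ∀ i, x i - c ≠ 0 := fun i => norm_pos_iff.1 (one_pos.trans_le (hx i))
  obtain ⟨r1, r2⟩ := win a1 aE h30 (by exact_mod_cast hκ) hv (u.shift c) (Z.comp_deg c) hx
    (rho_in _ one_pos (hb.shift hc) hx (β := Z.β i - c) (by simpa using Z.F_root i)
      ((hin i hi).trans (by rw [one_div, ← zpow_neg_one]; exact zs (by omega)))) hF w0 fun m hm => by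
    rw [Sol.R_coeff _ x0]
    refine norm_sub_le' ?_ (IsUltrametricDist.norm_sum_le_of_forall_le_of_nonneg w0.le fun i _ => ?_)
    · have := (cf_le _ m).trans ((gn_comp one_pos hc _).trans hq)
      rwa [sub_comp, C_comp, coeff_sub, coeff_C, if_neg (by omega), sub_zero] at this
    · rw [norm_mul, norm_pow, norm_inv, inv_pow, mul_inv_le_iff₀ (by have := hx i; positivity)]
      exact (hW i).trans (by gcongr; exacts [hx i, by omega])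
  have e := (u.shift c).R_coeff x0 0
  simp only [Nat.cast_zero, zero_add, pow_one] at e
  rw [e] at r1
  refine ⟨by simpa [Sol.shift, coeff_zero_eq_eval_zero] using r1, fun G G0 hG => ?_⟩
  have t1 : s ^ (-a) < 1 := zl (by omega)
  refine (fin_ev (zp _) _ r2 G0 (hG.trans ?_) (.inl ⟨rfl, fun i => t1.trans_le (hx i)⟩)).mono
    fun k hk ξ η h1 h2 => ?_
  · obtain ⟨b1, -⟩ := bot_lem (fun i => Z.β i - c) one_pos univ
    rw [← nr_eq (‖· - c‖ < 1), hk, one_pow, mul_one] at b1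
    refine le_trans ?_ (le_gn (zp _) _ κ)
    rw [F_comp, Polynomial.coeff_C_mul, norm_mul, b1, F_eq, gn_mul one_pos, gn_C]
    simp only [gn_prod one_pos, gn_X_sub one_pos, max_shift hc, le_refl]
  · rw [← u.val_shift c]
    exact hk _ _ (fun _ => h1) (by norm_num) (by simpa using h2)

/-- Estimate outside a disc that contains four branch points. -/
theorem cwout {Z : Cfg} (h4 : Z.nr (‖·‖ ≤ 1) = 4) {r : ℝ} (r1 : 1 ≤ r)
    (ho : ∀ i, ‖Z.β i‖ ≤ 1 ∨ 5 * r ≤ ‖Z.β i‖) {ι : Type} [Fintype ι] {x : ι → K}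
    (u : Sol Z.F x) (hb : u.Bdd r) (hx : ∀ i, ‖x i‖ ≤ r) {w : ℝ} (w0 : 0 < w)
    (hW : ∀ i, ‖u.W i‖ ≤ w * r ^ 2) : gn 1 u.q ≤ w * r * s ^ (-24 : ℤ) ∧
      gn 1 (u.q - C (u.q.coeff 0)) ≤ w * s ^ (-36 : ℤ) ∧ ∀ G, 0 < G → G ^ 2 ≤ gn 1 Z.F →
      ∀ᶠ k in atTop, ∀ ξ η : K, r * s ^ (12 : ℤ) ≤ ‖ξ‖ → η ^ 2 = Z.F.eval ξ →
        ‖u.val ξ η ^ (4 * 5 ^ k) - 1‖ ≤ (1 / 5) ^ k * (w * s ^ (-24 : ℤ) / G) := by
  obtain ⟨j, hj⟩ := ex_out (Z := Z) (by omega)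
  have r0 := one_pos.trans_le r1
  have z1 : 1 < s ^ (12 : ℤ) := one_lt_zpow₀ s1 (by norm_num)
  have p : 0 < r * s ^ (12 : ℤ) := by positivity
  have l : 1 ≤ r * s ^ (12 : ℤ) := by nlinarith
  obtain ⟨k1, k2⟩ := wout u Z.F_deg r0 hx (rho_out u r0 hb hx (Z.F_root j)
    (le_trans (by rw [s]; linarith) ((ho j).resolve_left hj)))
    (fac4 h4 r1 (mul_pos r0 (zp _)) fun i => (ho i).imp_right (le_trans (by nlinarith [s5])))
    (mul_pos w0 (pow_pos r0 2)) hW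
  rw [gn_mul p, gn_X p, ← le_div_iff₀' p] at k1
  have e1 : w * r ^ 2 * s ^ (-12 : ℤ) / (r * s ^ (12 : ℤ)) = w * r * s ^ (-24 : ℤ) := by
    have := s0
    field_simp
  rw [e1] at k1
  refine ⟨(gn_mono one_pos l _).trans k1, gn_le fun i => ?_, fun G G0 hG => ?_⟩
  · rcases i with _ | i
    · simpa using (mul_pos w0 (zp (-36))).le
    have := (le_gn p u.q (i + 1)).trans k1
    rw [coeff_sub, coeff_C, if_neg (by omega), sub_zero, one_pow, mul_one]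
    refine le_of_mul_le_mul_right (((mul_le_mul_of_nonneg_left (le_self_pow₀ l i.succ_ne_zero)
      (norm_nonneg _)).trans this).trans (le_of_eq ?_)) p
    have := s0
    field_simp
  · refine (fin_ev p u k2 (mul_pos G0 (pow_pos p 2)) ?_ (.inr ⟨rfl, fun i => (hx i).trans_lt
      (lt_mul_of_one_lt_right r0 z1)⟩)).mono fun k hk ξ η h1 h2 =>
        (hk ξ η (by norm_num) (fun _ => h1) h2).trans (le_of_eq ?_)
    · have b1 := (Z.top one_pos).1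
      rw [h4, one_pow, mul_one] at b1
      refine le_trans ?_ (le_gn p _ 4)
      rw [b1, mul_pow, ← pow_mul]
      gcongr
    · have := s0
      field_simp

/-- Two pairs of branch points around `C₁` and `C₂`. -/
structure Fl (Z : Cfg) (l : ℚ) (C₁ C₂ : K) (r : ℝ) : Prop where
  h4 : Z.nr (‖·‖ ≤ 1) = 4
  r1 : 1 ≤ r
  ho : ∀ i, ‖Z.β i‖ ≤ 1 ∨ 5 * r ≤ ‖Z.β i‖
  c1 : ‖C₁‖ ≤ 1
  c2 : ‖C₂‖ ≤ 1
  far : ‖C₁ - C₂‖ = 1
  ap : gn 1 (C (l : K)⁻¹ * Z.F - ((X - C C₁) * (X - C C₂)) ^ 2) ≤ 1 / 5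

variable {Z : Cfg} {l : ℚ} {C₁ C₂ : K} {r : ℝ}

theorem Fl.symm (h : Z.Fl l C₁ C₂ r) : Z.Fl l C₂ C₁ r :=
  ⟨h.h4, h.r1, h.ho, h.c2, h.c1, by rw [norm_sub_rev, h.far], by rw [mul_comm (X - _)]; exact h.ap⟩

theorem Fl.g1 (h : Z.Fl l C₁ C₂ r) : gn 1 (((X - C C₁) * (X - C C₂)) ^ 2) = 1 := by
  simp [gn_pow one_pos, gn_mul one_pos, gn_X_sub one_pos, h.c1, h.c2]

theorem Fl.one (h : Z.Fl l C₁ C₂ r) : gn 1 (C (l : K)⁻¹ * Z.F) = 1 := by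
  rw [gn_near one_pos (h.ap.trans_lt (by rw [h.g1]; norm_num)), h.g1]

theorem Fl.near (h : Z.Fl l C₁ C₂ r) {i : Fin 8} (hi : ‖Z.β i - C₁‖ < 1) :
    ‖Z.β i - C₁‖ ≤ s ^ (-2 * 6 : ℤ) := by
  have := (eval_le one_pos ((norm_sub_iff h.c1).1 hi.le) _).trans h.ap
  have e : ‖Z.β i - C₂‖ = 1 := h.far ▸ norm_eq_of_sub_lt (by simpa [h.far] using hi)
  simp only [eval_sub, eval_mul, (Z.F_root i).eq_zero, mul_zero, zero_sub, norm_neg, eval_pow,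
    eval_X, eval_C, norm_pow, norm_mul, e, mul_one] at this
  exact le_of_sq_le_sq₀ (zp _).le (this.trans (by norm_num [s]))

theorem Fl.two (h : Z.Fl l C₁ C₂ r) : Z.nr (‖· - C₁‖ < 1) = 2 := by
  classical
  obtain ⟨b1, b2⟩ := bot_lem (fun i => Z.β i - C₁) one_pos univ
  rw [← nr_eq (‖· - C₁‖ < 1)] at b1 b2
  have g := (gn_comp one_pos h.c1 _).trans h.ap
  have e : (((X - C C₁) * (X - C C₂)) ^ 2).comp (X + C C₁) = C ((C₁ - C₂) ^ 2) * X ^ 2 +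
      C (2 * (C₁ - C₂)) * X ^ 3 + X ^ 4 := by
    simp [map_ofNat]; ring
  have o := h.one
  rw [F_eq, ← mul_assoc, ← map_mul, gn_mul one_pos, gn_C] at o
  rw [sub_comp, mul_comp, C_comp, F_comp, e, ← mul_assoc, ← map_mul] at g
  simp only [gn_prod one_pos, gn_X_sub one_pos, max_shift h.c1, one_pow, mul_one] at b1 b2 o
  generalize ∏ i, (X - C (Z.β i - C₁)) = P at *
  have k := fun j => (cf_le _ j).trans_lt (g.trans_lt (by norm_num : (1 / 5 : ℝ) < 1))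
  have k0 := k 0
  have k1 := k 1
  have k2 := norm_eq_of_sub_lt (y := (C₁ - C₂) ^ 2) (by simpa [h.far, -map_pow, -map_mul] using k 2)
  simp only [coeff_sub, coeff_add, Polynomial.coeff_C_mul, coeff_X_pow] at k0 k1
  norm_num at k0 k1
  rw [norm_mul, norm_pow, h.far] at k2
  have p := norm_nonneg ((l : K)⁻¹ * Z.c)
  rw [norm_mul, norm_inv] at o p k2
  generalize Z.nr (‖· - C₁‖ < 1) = m at *
  obtain rfl | rfl | rfl | hm : m = 0 ∨ m = 1 ∨ m = 2 ∨ 2 < m := by omega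
  · rw [b1] at k0; linarith
  · rw [b1] at k1; linarith
  · rfl
  · have := b2 2 hm
    rcases p.eq_or_lt with p | p
    · simp [← p] at o
    · nlinarith

theorem Fl.nm (h : Z.Fl l C₁ C₂ r) : ‖(l : K)‖ = gn 1 Z.F := by
  have := h.one
  rwa [gn_mul one_pos, gn_C, norm_inv, inv_mul_eq_one₀ fun e => by simp [e] at this] at this

/-- An approximate square root on the vertex and the annulus above it. -/
structure Rho (Z : Cfg) (C₁ C₂ : K) (r : ℝ) (γ : K) (ρ : K[X]) : Prop where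
  g0 : 0 < ‖γ‖
  g : ‖γ‖ ^ 2 = gn 1 Z.F
  d : 4 ≤ ρ.natDegree
  n : ∀ x, ‖x‖ ≤ r * s ^ (12 : ℤ) → ‖ρ.eval x - 1‖ ≤ s ^ (-12 : ℤ)
  e : ∀ x, ‖x‖ ≤ r * s ^ (12 : ℤ) →
    ‖Z.F.eval x - (γ * (x - C₁) * (x - C₂) * ρ.eval x) ^ 2‖ ≤ ‖γ‖ ^ 2 * (max 1 ‖x‖ ^ 3 / 5)

theorem Rho.symm {γ : K} {ρ : K[X]} (h : Z.Rho C₁ C₂ r γ ρ) : Z.Rho C₂ C₁ r γ ρ :=
  ⟨h.g0, h.g, h.d, h.n, fun x hx => by rw [mul_right_comm γ]; exact h.e x hx⟩

theorem Fl.rho (h : Z.Fl l C₁ C₂ r) : ∃ γ ρ, Z.Rho C₁ C₂ r γ ρ := by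
  classical
  have r1 := h.r1
  have p : 0 < 5 * r := by positivity
  obtain ⟨c, Po, Pi, e, o0, -, o1, -, i1⟩ := fac_of Z.β Z.c (fun _ => False) (fun i => ‖Z.β i‖ ≤ 1)
    one_pos p (d := True) (by simp) (fun i _ hi => (h.ho i).resolve_left hi) (by simp)
  have hp := rts_props Z.β {i | ‖Z.β i‖ ≤ 1}
  have mo : (∏ i with ‖Z.β i‖ ≤ 1, (X - C (Z.β i))).Monic :=
    monic_prod_of_monic _ _ fun i _ => monic_X_sub_C _
  simp only [filter_false, card_empty, Nat.cast_zero, LaurentPolynomial.T_zero, one_mul,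
    not_false_eq_true, true_and, ← F_eq, i1 trivial, map_one, mul_one] at e
  rw [← toLaurent_C, ← map_mul, ← map_mul, toLaurent_inj] at e
  rw [← nr_eq (‖·‖ ≤ 1), h.h4] at hp
  have g1 := hp.2.2.1 fun i hi => (mem_filter.1 hi).2
  generalize ∏ i with ‖Z.β i‖ ≤ 1, (X - C (Z.β i)) = Q at *
  have z1 : 1 < s ^ (12 : ℤ) := one_lt_zpow₀ s1 (by norm_num)
  have z2 : s ^ (12 : ℤ) ≤ 5 * s ^ (-12 : ℤ) := by norm_num [s]
  have z3 : s ^ (-12 : ℤ) < 1 := zl (by norm_num)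
  have p2 : 0 < r * s ^ (12 : ℤ) := by positivity
  have l2 : r * s ^ (12 : ℤ) < 5 * r := by nlinarith
  obtain ⟨ν, -, n1, n2⟩ := nu_lb l2 p o0 o1 (δ := 1 / 5 / (r * s ^ (12 : ℤ))) (by positivity)
  have sm : ∀ t, 0 < t → t ≤ 5 * r → gn t (Po - 1) ≤ t / (5 * r) := fun t t0 t1 => gn_of_lb (by
    simpa using small t0 t1 (k := 1) (P := Po - 1) (by simp [X_dvd_iff, o0])
      ((gn_sub p _ _).trans (max_le o1 (gn_one _).le)))
  have s1 := (sm 1 one_pos (by linarith)).trans (show 1 / (5 * r) ≤ 1 / 5 by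
    gcongr; linarith)
  have gP : gn 1 Po = 1 := by rw [gn_near one_pos (s1.trans_lt (by rw [gn_one]; norm_num)), gn_one]
  have gQ : gn 1 Q = 1 := le_antisymm g1 (by simpa [hp.2.1] using cf_le Q 4)
  have o := h.one
  have ap := h.ap
  set H := ((X - C C₁) * (X - C C₂)) ^ 2 with hH
  have dH : H.natDegree ≤ 4 := by rw [hH]; compute_degree
  have cH : H.coeff 4 = 1 := by rw [hH]; compute_degree!
  rw [e, ← mul_assoc, ← mul_assoc, ← map_mul] at o ap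
  rw [gn_mul one_pos, gn_mul one_pos, gn_C, gP, gQ, mul_one, mul_one] at o
  have a1 : gn 1 (C ((l : K)⁻¹ * c) * Q - H) ≤ 1 / 5 := by
    have : gn 1 (C ((l : K)⁻¹ * c) * Q * (Po - 1)) ≤ 1 / 5 := by
      rwa [gn_mul one_pos, gn_mul one_pos, gn_C, o, gQ, one_mul, one_mul]
    convert gn_sub_le one_pos ap this using 2
    ring
  have a2 : gn 1 (Q - H) ≤ 1 / 5 := by
    have := (cf_le _ 4).trans a1
    rw [coeff_sub, Polynomial.coeff_C_mul, hp.2.1, cH, mul_one] at this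
    convert gn_sub_le one_pos a1 ((gn_C_mul_le g1).trans this) using 2
    simp only [map_sub, map_one]
    ring
  have a3 : (Q - H).natDegree ≤ 3 := natDegree_le_iff_coeff_eq_zero.2 fun j hj => by
    rw [coeff_sub]
    obtain rfl | hj : j = 4 ∨ 4 < j := by omega
    · rw [hp.2.1, cH, sub_self]
    · rw [coeff_eq_zero_of_natDegree_lt (hp.1.trans_lt hj),
        coeff_eq_zero_of_natDegree_lt (dH.trans_lt hj), sub_self]
  obtain ⟨γ, rfl⟩ := IsAlgClosed.exists_pow_nat_eq c two_pos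
  have γ0 : γ ≠ 0 := by rintro rfl; simp at o
  have m1 := n1 _ p2 l2.le
  have m2 : gn (r * s ^ (12 : ℤ)) (ν * Po - 1) ≤ s ^ (-12 : ℤ) := by
    have q : r * s ^ (12 : ℤ) / (5 * r) ≤ s ^ (-12 : ℤ) := by rw [div_le_iff₀ p]; nlinarith
    have k1 : gn _ (ν - 1) ≤ _ := gn_of_lb (by simpa using m1.2.2)
    rw [show ν * Po - 1 = (ν - 1) * Po + (Po - 1) by ring]
    refine (gn_add p2 _ _).trans (max_le ?_ ((sm _ p2 l2.le).trans q))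
    rw [gn_mul p2]
    exact (mul_le_of_le_one_right (gn_nonneg p2 _) (gn_of_lb m1.2.1)).trans (k1.trans q)
  refine ⟨γ, ν * Po, norm_pos_iff.2 γ0, by
    rw [e, gn_mul one_pos, gn_mul one_pos, gn_C, gP, gQ, norm_pow, mul_one, mul_one], ?_,
    fun x hx => by simpa using (eval_le p2 hx _).trans m2, fun x hx => ?_⟩
  · have d := Z.F_deg
    have P0 : Po ≠ 0 := by rintro rfl; simp at o0
    have := hp.1
    rw [e, natDegree_mul (mul_ne_zero (by simpa using γ0) mo.ne_zero) P0,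
      natDegree_C_mul (pow_ne_zero 2 γ0)] at d
    rw [natDegree_mul (fun e => by
      rw [e, zero_mul, zero_sub, gn_neg p2, gn_one] at m2; exact z3.not_ge m2) P0]
    omega
  · have k1 : ‖(ν ^ 2 * Po - 1).eval x‖ ≤ 1 / 5 / (r * s ^ (12 : ℤ)) :=
      (eval_le p2 hx _).trans (gn_of_lb (by simpa using n2 _ p2 le_rfl))
    have m0 : (0 : ℝ) < max 1 ‖x‖ := lt_max_of_lt_left one_pos
    have k2 : ‖(Q - H).eval x‖ ≤ max 1 ‖x‖ ^ 3 / 5 := ((eval_le m0 (le_max_right _ _) _).trans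
      (gn_up one_pos (le_max_left _ _) a3)).trans (by
        rw [div_one, div_eq_mul_one_div, mul_comm]; gcongr)
    have k3 : ‖H.eval x‖ ≤ max 1 ‖x‖ ^ 4 := ((eval_le m0 (le_max_right _ _) _).trans
      (gn_up one_pos (le_max_left _ _) dH)).trans (by rw [hH, h.g1, div_one, one_mul])
    have k4 : max 1 ‖x‖ ≤ r * s ^ (12 : ℤ) := max_le (by nlinarith) hx
    rw [show Z.F.eval x - (γ * (x - C₁) * (x - C₂) * (ν * Po).eval x) ^ 2 = γ ^ 2 * (Po.eval x *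
      ((Q - H).eval x - H.eval x * (ν ^ 2 * Po - 1).eval x)) by simp [e, hH]; ring, norm_mul,
      norm_pow, norm_mul]
    refine mul_le_mul_of_nonneg_left ((mul_le_of_le_one_left (norm_nonneg _)
      ((eval_le p2 hx _).trans (gn_of_lb m1.2.1))).trans (norm_sub_le' k2 ?_)) (by positivity)
    rw [norm_mul]
    refine (mul_le_mul k3 k1 (norm_nonneg _) (by positivity)).trans ?_
    rw [← mul_div_assoc, div_le_iff₀ p2]
    calc _ = max 1 ‖x‖ ^ 3 / 5 * max 1 ‖x‖ := by ring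
      _ ≤ _ := by gcongr

variable {γ : K} {ρ : K[X]}

theorem Rho.n1 (h : Z.Rho C₁ C₂ r γ ρ) {x : K} (hx : ‖x‖ ≤ r * s ^ (12 : ℤ)) : ‖ρ.eval x‖ = 1 := by
  simpa using norm_eq_of_sub_lt (y := 1) (by simpa using (h.n x hx).trans_lt (zl (by norm_num)))

/-- The test polynomial. -/
noncomputable def aa (C₁ C₂ γ : K) (ρ : K[X]) : K[X] :=
  C γ * (X - C C₁) * (X - C (2 * C₁ - C₂)) * ρ

theorem Rho.root (h : Z.Rho C₁ C₂ r γ ρ) (far : ‖C₁ - C₂‖ = 1) (c1 : ‖C₁‖ ≤ 1) {ξ : K}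
    (hξ : (aa C₁ C₂ γ ρ).eval ξ ^ 2 = Z.F.eval ξ) :
    ‖ξ - C₁‖ ≤ s ^ (-6 : ℤ) ∨ r * s ^ (12 : ℤ) ≤ ‖ξ‖ := by
  refine (le_total _ _).imp_left fun hx => ?_
  have := h.e ξ hx
  have n4 : ‖(4 : K)‖ = 1 := by simpa using norm_int_eq 4 (by norm_num)
  rw [← hξ, show (aa C₁ C₂ γ ρ).eval ξ ^ 2 - (γ * (ξ - C₁) * (ξ - C₂) * ρ.eval ξ) ^ 2 =
    γ ^ 2 * (ρ.eval ξ ^ 2 * (4 * (C₂ - C₁) * (ξ - C₁) ^ 3)) by simp [aa]; ring] at this
  simp only [norm_mul, norm_pow, h.n1 hx, n4, norm_sub_rev C₂, far, one_pow, one_mul] at this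
  have := le_of_mul_le_mul_left this (pow_pos h.g0 2)
  rcases le_or_gt ‖ξ‖ 1 with g | g
  · rw [max_eq_left g] at this
    exact le_of_pow_le_pow_left₀ three_ne_zero (zp _).le (this.trans (by norm_num [s]))
  · rw [max_eq_right g.le, norm_sub_big (c1.trans_lt g)] at this
    linarith [pow_pos (one_pos.trans g) 3]

theorem Rho.sgn (h : Z.Rho C₁ C₂ r γ ρ) (r1 : 1 ≤ r) {x : K} (hx : ‖x‖ ≤ r)
    (h1 : ‖x - C₁‖ = max 1 ‖x‖) (h2 : ‖x - C₂‖ = max 1 ‖x‖) : ∃ y, y ^ 2 = Z.F.eval x ∧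
      ‖y - γ * (x - C₁) * (x - C₂) * ρ.eval x‖ ≤ ‖γ‖ * max 1 ‖x‖ / 5 := by
  have l := hx.trans (le_mul_of_one_le_right (by linarith)
    (one_le_zpow₀ (n := (12 : ℤ)) s1.le (by norm_num)))
  have e : ‖γ * (x - C₁) * (x - C₂) * ρ.eval x‖ = ‖γ‖ * max 1 ‖x‖ ^ 2 := by
    simp only [norm_mul, h1, h2, h.n1 l]; ring
  have := h.g0
  exact sqrt_near (norm_pos_iff.1 (by rw [e]; positivity)) ((h.e x l).trans (by rw [e]; ring_nf; rfl))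

theorem Rho.le12 (r1 : 1 ≤ r) {x : K} (hx : ‖x‖ ≤ r) : ‖x‖ ≤ r * s ^ (12 : ℤ) :=
  hx.trans (le_mul_of_one_le_right (by linarith) (one_le_zpow₀ s1.le (by norm_num)))

theorem Rho.yM (h : Z.Rho C₁ C₂ r γ ρ) (r1 : 1 ≤ r) {x y : K} (hx : ‖x‖ ≤ r)
    (h1 : ‖x - C₁‖ = max 1 ‖x‖) (h2 : ‖x - C₂‖ = max 1 ‖x‖)
    (hy : ‖y - γ * (x - C₁) * (x - C₂) * ρ.eval x‖ ≤ ‖γ‖ * max 1 ‖x‖ / 5) :
    ‖y‖ = ‖γ‖ * max 1 ‖x‖ ^ 2 := by
  have e : ‖γ * (x - C₁) * (x - C₂) * ρ.eval x‖ = ‖γ‖ * max 1 ‖x‖ ^ 2 := by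
    simp only [norm_mul, h1, h2, h.n1 (Rho.le12 r1 hx)]; ring
  have := h.g0
  have m := le_max_left 1 ‖x‖
  rw [← e]
  exact norm_eq_of_sub_lt (hy.trans_lt (by rw [e]; nlinarith [mul_pos this (one_pos.trans_le m)]))

theorem Rho.gM (h : Z.Rho C₁ C₂ r γ ρ) (r1 : 1 ≤ r) (far : ‖C₁ - C₂‖ = 1) {x y : K} (hx : ‖x‖ ≤ r)
    (h1 : ‖x - C₁‖ = max 1 ‖x‖)
    (hy : ‖y - γ * (x - C₁) * (x - C₂) * ρ.eval x‖ ≤ ‖γ‖ * max 1 ‖x‖ / 5) {t : ℤ}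
    (ht : ‖(5 ^ t * ((x - C₁) / (C₁ - C₂))) ^ 4 - 1‖ ≤ 1 / 5) :
    y - (aa C₁ C₂ γ ρ).eval x ≠ 0 ∧ y + (aa C₁ C₂ γ ρ).eval x ≠ 0 ∧
      ‖(5 ^ t * ((y + (aa C₁ C₂ γ ρ).eval x) / (y - (aa C₁ C₂ γ ρ).eval x))) ^ 4 - 1‖ ≤ 1 / 5 := by
  have g := h.g0
  have m := le_max_left 1 ‖x‖
  have m0 := one_pos.trans_le m
  have c0 : C₁ - C₂ ≠ 0 := norm_pos_iff.1 (far ▸ one_pos)
  have z1 : ‖5 ^ t * ((x - C₁) / (C₁ - C₂))‖ = 1 := by
    have := norm_eq_of_sub_lt (y := 1) (ht.trans_lt (by norm_num))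
    rwa [norm_pow, norm_one, pow_eq_one_iff_of_nonneg (norm_nonneg _) (by norm_num)] at this
  obtain ⟨δ, rfl⟩ : ∃ δ, y = δ + γ * (x - C₁) * (x - C₂) * ρ.eval x := ⟨_, (sub_add_cancel _ _).symm⟩
  rw [add_sub_cancel_right] at hy
  have e1 : ‖2 * γ * (x - C₁) * (C₁ - C₂) * ρ.eval x‖ = ‖γ‖ * max 1 ‖x‖ := by
    simp only [norm_mul, h1, far, h.n1 (Rho.le12 r1 hx), norm_two, one_mul, mul_one]
  have e2 : ‖δ + γ * (x - C₁) * (x - C₂) * ρ.eval x - (aa C₁ C₂ γ ρ).eval x‖ = ‖γ‖ * max 1 ‖x‖ := by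
    rw [← e1]
    refine norm_eq_of_sub_lt (lt_of_eq_of_lt (congrArg _ (by simp [aa]; ring))
      (hy.trans_lt (by rw [e1]; linarith [mul_pos g m0])))
  have n0 := norm_pos_iff.1 (e2 ▸ mul_pos g m0)
  have k : ‖5 ^ t * ((δ + γ * (x - C₁) * (x - C₂) * ρ.eval x + (aa C₁ C₂ γ ρ).eval x) /
      (δ + γ * (x - C₁) * (x - C₂) * ρ.eval x - (aa C₁ C₂ γ ρ).eval x)) -
      5 ^ t * ((x - C₁) / (C₁ - C₂))‖ ≤ 1 / 5 := by
    have k1 : ‖5 ^ t * (1 - (x - C₁) / (C₁ - C₂))‖ ≤ 1 := by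
      rw [mul_sub]
      refine norm_sub_le' ?_ z1.le
      rw [norm_mul, norm_div, far, h1, div_one] at z1
      rw [mul_one, ← z1]
      exact le_mul_of_one_le_right (norm_nonneg _) m
    rw [show _ - _ = 5 ^ t * (1 - (x - C₁) / (C₁ - C₂)) * (δ / (δ + γ * (x - C₁) * (x - C₂) *
      ρ.eval x - (aa C₁ C₂ γ ρ).eval x)) by
        field_simp
        simp [aa]
        ring, norm_mul, norm_div, e2]
    refine (mul_le_of_le_one_left (by positivity) k1).trans ?_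
    rw [div_le_iff₀ (by positivity)]
    linarith
  generalize 5 ^ t * ((x - C₁) / (C₁ - C₂)) = z at *
  refine ⟨n0, fun e => ?_, ?_⟩
  · rw [e, zero_div, mul_zero, zero_sub, norm_neg, z1] at k
    norm_num at k
  generalize 5 ^ t * (_ / _ : K) = w at *
  have w1 : ‖w‖ = 1 := z1 ▸ norm_eq_of_sub_lt (k.trans_lt (by rw [z1]; norm_num))
  rw [show w ^ 4 - 1 = (w - z) * ((w + z) * (w ^ 2 + z ^ 2)) + (z ^ 4 - 1) by ring]
  refine norm_add_le' ?_ ht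
  rw [norm_mul, norm_mul]
  exact (mul_le_of_le_one_right (norm_nonneg _) (mul_le_one₀ (norm_add_le' w1.le z1.le)
    (norm_nonneg _) (norm_add_le' (by simp [w1]) (by simp [z1])))).trans k

theorem Rho.gA (h : Z.Rho C₁ C₂ r γ ρ) (r1 : 1 ≤ r) (far : ‖C₁ - C₂‖ = 1) (c2 : ‖C₂‖ ≤ 1) {x y : K}
    (hx : ‖x - C₂‖ ≤ 1 / 5) (hy : y ^ 2 = Z.F.eval x) : ‖y‖ ≤ ‖γ‖ * s ^ (-12 : ℤ) ∧
    5 * ‖y‖ ^ 2 ≤ ‖γ‖ ^ 2 ∧ y - (aa C₁ C₂ γ ρ).eval x ≠ 0 ∧ y + (aa C₁ C₂ γ ρ).eval x ≠ 0 ∧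
      ‖((y + (aa C₁ C₂ γ ρ).eval x) / (y - (aa C₁ C₂ γ ρ).eval x)) ^ 4 - 1‖ = ‖y‖ / ‖γ‖ := by
  have g := h.g0
  have x1 : ‖x‖ ≤ 1 := (norm_sub_iff c2).1 (by linarith)
  have l := Rho.le12 r1 (x1.trans r1)
  have e1 : ‖x - C₁‖ = 1 := by
    rw [← far, norm_sub_rev C₁]
    exact norm_eq_of_sub_lt (by rw [sub_sub_sub_cancel_right, norm_sub_rev C₂, far]; linarith)
  have e2 : ‖x - (2 * C₁ - C₂)‖ = 1 := by
    have : ‖2 * (C₂ - C₁)‖ = 1 := by rw [norm_mul, norm_two, norm_sub_rev, far, one_mul]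
    rw [← this]
    exact norm_eq_of_sub_lt (lt_of_eq_of_lt (congrArg _ (by ring)) (hx.trans_lt (by linarith)))
  have e3 : ‖(aa C₁ C₂ γ ρ).eval x‖ = ‖γ‖ := by simp [aa, e1, e2, h.n1 l]
  have e4 : 5 * ‖y‖ ^ 2 ≤ ‖γ‖ ^ 2 := by
    have k := h.e x l
    have k2 : ‖(γ * (x - C₁) * (x - C₂) * ρ.eval x) ^ 2‖ ≤ ‖γ‖ ^ 2 * (max 1 ‖x‖ ^ 3 / 5) := by
      simp only [norm_pow, norm_mul, e1, h.n1 l, mul_one, max_eq_left x1, mul_pow, one_pow]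
      gcongr
      nlinarith [norm_nonneg (x - C₂)]
    have := norm_add_le' k k2
    rw [sub_add_cancel, ← hy, norm_pow, max_eq_left x1] at this
    linarith
  have e5 : ‖y‖ ≤ ‖γ‖ * s ^ (-12 : ℤ) := le_of_sq_le_sq₀ (mul_pos g (zp _)).le (by
    have : 1 / 5 ≤ (s ^ (-12 : ℤ)) ^ 2 := by norm_num [s]
    rw [mul_pow]
    nlinarith [pow_pos g 2])
  have e6 : ‖y‖ < ‖γ‖ := e5.trans_lt (mul_lt_of_lt_one_right g (zl (by norm_num)))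
  generalize (aa C₁ C₂ γ ρ).eval x = a at *
  have e7 : ‖y - a‖ = ‖γ‖ := by rw [norm_sub_rev, norm_sub_big (e3 ▸ e6), e3]
  have e8 : ‖y + a‖ = ‖γ‖ := e3 ▸ norm_eq_of_sub_lt (by simpa [e3] using e6)
  have e9 : ‖y ^ 2 + a ^ 2‖ = ‖γ‖ ^ 2 := by
    rw [← e3, ← norm_pow]
    exact norm_eq_of_sub_lt (by rw [add_sub_cancel_right, norm_pow, norm_pow, e3]; gcongr)
  have n0 := norm_pos_iff.1 (e7 ▸ g)
  have n8 : ‖(8 : K)‖ = 1 := by simpa using norm_int_eq 8 (by norm_num)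
  refine ⟨e5, e4, n0, norm_pos_iff.1 (e8 ▸ g), ?_⟩
  rw [show ((y + a) / (y - a)) ^ 4 - 1 = 8 * y * a * (y ^ 2 + a ^ 2) / (y - a) ^ 4 by
    field_simp; ring]
  simp only [norm_div, norm_mul, norm_pow, n8, e3, e7, e9]
  field_simp

/-- A point on the vertex or above it, with the sign of `y` chosen. -/
def Vm (C₁ C₂ : K) (r : ℝ) (γ : K) (ρ : K[X]) (x y : K) : Prop :=
  ‖x‖ ≤ r ∧ ‖x - C₁‖ = max 1 ‖x‖ ∧ ‖x - C₂‖ = max 1 ‖x‖ ∧
    ‖y - γ * (x - C₁) * (x - C₂) * ρ.eval x‖ ≤ ‖γ‖ * max 1 ‖x‖ / 5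

theorem Fl.wd (h : Z.Fl l C₁ C₂ r) {ι : Type} [Fintype ι] {x : ι → K} (u : Sol Z.F x)
    (b1 : u.Bdd 1) (br : u.Bdd r) (hx : ∀ i, ‖x i‖ ≤ r) (h1 : ∀ i, ‖x i - C₁‖ = max 1 ‖x i‖) {w : ℝ}
    (w0 : 0 < w) (hW : ∀ i, ‖u.W i‖ ≤ w * max 1 ‖x i‖ ^ 2) :
    gn 1 u.q ≤ w * r * s ^ (-24 : ℤ) ∧ gn 1 (u.q - C (u.q.coeff 0)) ≤ w * s ^ (-36 : ℤ) ∧
      ‖u.q.eval C₁ - ∑ i, u.W i * (x i - C₁)⁻¹‖ ≤ w * s ^ (-6 : ℤ) ∧
      ∀ γ ρ, Z.Rho C₁ C₂ r γ ρ → ∀ᶠ k in atTop,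
        ‖u.V (aa C₁ C₂ γ ρ) ^ (4 * 5 ^ k) - 1‖ ≤ (1 / 5) ^ k * (w * s ^ (-5 : ℤ) / ‖γ‖) := by
  obtain ⟨o1, o2, o3⟩ := cwout h.h4 h.r1 h.ho u br hx w0 fun i => (hW i).trans (by
    gcongr; exact max_le h.r1 (hx i))
  obtain ⟨i1, i2⟩ := Z.cwin (κ := 2) (a := 6) (E := 11) (by norm_num) (by norm_num) (by norm_num)
    le_rfl (by simp only [Int.abs_eq_natAbs]; omega) h.c1 h.two (fun i => h.near) u b1 (fun i => h1 i ▸ le_max_left _ _) w0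
    (o2.trans (mul_le_of_le_one_right w0.le (zl (by norm_num)).le)) fun i => h1 i ▸ hW i
  refine ⟨o1, o2, i1, fun γ ρ hρ => ?_⟩
  have g := hρ.g0
  have t := ((tendsto_pow_atTop_nhds_zero_of_lt_one (r := (1 / 5 : ℝ)) (by norm_num)
    (by norm_num)).mul_const (w * s ^ (-5 : ℤ) / ‖γ‖)).eventually_lt_const (u := 1) (by simp)
  filter_upwards [o3 _ g hρ.g.le, i2 _ (mul_pos g (zp (-6))) (by rw [mul_pow, hρ.g]), t]
    with k k1 k2 k3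
  have := s0
  rw [Sol.V, ← Multiset.prod_map_pow]
  refine mprod_near _ (by positivity) k3.le fun z hz => ?_
  obtain ⟨ξ, hξ, rfl⟩ := Multiset.mem_map.1 hz
  rcases hρ.root h.far h.c1 (root_sq hξ) with e | e
  · exact (k2 _ _ e (root_sq hξ)).trans (le_of_eq (by field_simp))
  · exact (k1 _ _ e (root_sq hξ)).trans (by gcongr; exacts [s1.le, by norm_num])

theorem Fl.log (h : Z.Fl l C₁ C₂ r) (hρ : Z.Rho C₁ C₂ r γ ρ) {ι : Type} [Fintype ι] {x y : ι → K}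
    {n t : ι → ℤ} (u : Sol Z.F x) (hu : Gd u y n) (hy : ∀ i, y i ^ 2 = Z.F.eval (x i))
    (b1 : u.Bdd 1) (br : u.Bdd r) (W0 : u.W ≠ 0) (i₀ : ι) (hA : ‖x i₀ - C₂‖ ≤ 1 / 5) (t0 : t i₀ = 0)
    (hM : ∀ i, i ≠ i₀ → Vm C₁ C₂ r γ ρ (x i) (y i) ∧
      ‖(5 ^ t i * ((x i - C₁) / (C₁ - C₂))) ^ 4 - 1‖ ≤ 1 / 5) {ν : ℝ} (ν0 : 0 ≤ ν)
    (hν : ∀ i, i ≠ i₀ → ‖(n i : K)‖ ≤ ν) :
    ∑ i, n i * t i = 0 ∧ ‖u.W i₀‖ ≤ ν * ‖γ‖ * s ^ (-5 : ℤ) := by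
  classical
  have g := hρ.g0
  have x1 : ‖x i₀‖ ≤ 1 := (norm_sub_iff h.c2).1 (by linarith)
  obtain ⟨-, a2, a3, a4, a5⟩ := hρ.gA h.r1 h.far h.c2 hA (hy i₀)
  have gM := fun i hi => hρ.gM h.r1 h.far (hM i hi).1.1 (hM i hi).1.2.1 (hM i hi).1.2.2.2 (hM i hi).2
  have wM : ∀ i, i ≠ i₀ → ‖u.W i‖ ≤ ν * ‖γ‖ * max 1 ‖x i‖ ^ 2 := fun i hi => by
    rw [hu.W, norm_mul, hρ.yM h.r1 (hM i hi).1.1 (hM i hi).1.2.1 (hM i hi).1.2.2.1 (hM i hi).1.2.2.2,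
      mul_assoc]
    gcongr
    exact hν i hi
  set w := max (ν * ‖γ‖) ‖u.W i₀‖ with hw
  have w0 : 0 < w := by
    by_contra! e
    obtain ⟨e1, e2⟩ := max_le_iff.1 e
    refine W0 (funext fun i => norm_le_zero_iff.1 ?_)
    by_cases hi : i = i₀
    · exact hi ▸ e2
    · exact (wM i hi).trans (mul_nonpos_of_nonpos_of_nonneg e1 (by positivity))
  have hV := (h.wd u b1 br (fun i => by
      by_cases hi : i = i₀
      exacts [hi ▸ x1.trans h.r1, (hM i hi).1.1]) (fun i => by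
      by_cases hi : i = i₀
      · rw [hi, max_eq_left x1, ← h.far, norm_sub_rev C₁]
        exact norm_eq_of_sub_lt (by rw [sub_sub_sub_cancel_right, norm_sub_rev C₂, h.far]; linarith)
      · exact (hM i hi).1.2.1) w0 fun i => by
      by_cases hi : i = i₀
      · rw [hi, max_eq_left x1, one_pow, mul_one]; exact le_max_right _ _
      · exact (wM i hi).trans (by gcongr; exact le_max_left _ _)).2.2.2 γ ρ hρ
  have da : (aa C₁ C₂ γ ρ).natDegree = ρ.natDegree + 2 := by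
    have := hρ.d
    have : ρ ≠ 0 := by rintro rfl; simp at this
    have := norm_pos_iff.1 g
    rw [aa, natDegree_mul (by simp [*, X_sub_C_ne_zero, -map_sub]) ‹_›, mul_assoc,
      natDegree_C_mul ‹_›, natDegree_mul (X_sub_C_ne_zero _) (X_sub_C_ne_zero _), natDegree_X_sub_C,
      natDegree_X_sub_C, add_comm]
  have wl := hu.weil (aa C₁ C₂ γ ρ) _ (by
    have := hρ.d
    rw [natDegree_sub_eq_left_of_natDegree_lt (by rw [F_deg, natDegree_pow]; omega), natDegree_pow])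
    le_rfl fun i => by
      rw [show (aa C₁ C₂ γ ρ ^ 2 - Z.F).eval (x i) = -((y i - (aa C₁ C₂ γ ρ).eval (x i)) *
        (y i + (aa C₁ C₂ γ ρ).eval (x i))) by simp only [eval_sub, eval_pow, ← hy]; ring, neg_ne_zero]
      by_cases hi : i = i₀
      exacts [hi ▸ mul_ne_zero a3 a4, mul_ne_zero (gM i hi).1 (gM i hi).2.1]
  have q0 : 0 ≤ ‖y i₀‖ / ‖γ‖ := by positivity
  have q1 : 5 * (‖y i₀‖ / ‖γ‖) ^ 2 ≤ 1 := by
    rwa [div_pow, ← mul_div_assoc, div_le_one (by positivity)]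
  obtain ⟨l1, l2⟩ := logl (t := t) wl (fun i => (add_sub_cancel _ _).symm) (fun i => by
    by_cases hi : i = i₀
    · rw [hi, t0, zpow_zero, one_mul, a5]
      nlinarith
    · exact le_trans (by gcongr; exact (gM i hi).2.2) (by norm_num : 5 * (1 / 5 : ℝ) ^ 3 ≤ 1)) hV
  refine ⟨l1, rfix (zp _).le (zl (by norm_num)) (by positivity) ?_⟩
  have s5 : 1 / 5 ≤ s ^ (-5 : ℤ) := by norm_num [s]
  have kM : ∀ i, i ≠ i₀ → ∀ c, 0 ≤ c → c ≤ 1 / 5 → ‖(n i : K)‖ * c ≤ w * s ^ (-5 : ℤ) / ‖γ‖ :=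
    fun i hi c c0 c1 => by
      rw [le_div_iff₀ g, mul_right_comm]
      gcongr
      exacts [le_trans (by gcongr; exact hν i hi) (le_max_left _ _), c1.trans s5]
  have T0 : 0 ≤ w * s ^ (-5 : ℤ) / ‖γ‖ := by have := s0; positivity
  have k1 := l2 _ T0 le_rfl fun i => by
    by_cases hi : i = i₀
    · rw [hi, t0, zpow_zero, one_mul, a5, le_div_iff₀ g, show ‖(n i₀ : K)‖ * (‖y i₀‖ / ‖γ‖) ^ 2 *
        ‖γ‖ = ‖u.W i₀‖ * (‖y i₀‖ / ‖γ‖) by rw [hu.W, norm_mul]; field_simp]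
      gcongr
      · exact le_max_right _ _
      · exact le_of_sq_le_sq₀ (zp _).le (by norm_num [s]; linarith)
    · exact kM i hi _ (by positivity) (by nlinarith [(gM i hi).2.2, norm_nonneg ((5 ^ t i *
        ((y i + (aa C₁ C₂ γ ρ).eval (x i)) / (y i - (aa C₁ C₂ γ ρ).eval (x i)))) ^ 4 - 1)])
  rw [← add_sum_erase _ _ (mem_univ i₀)] at k1
  have k2 := norm_sub_le' k1 (IsUltrametricDist.norm_sum_le_of_forall_le_of_nonneg
      (s := univ.erase i₀) T0 fun i hi => by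
    rw [norm_mul]
    exact kM i (ne_of_mem_erase hi) _ (norm_nonneg _) (gM i (ne_of_mem_erase hi)).2.2)
  rwa [add_sub_cancel_right, t0, zpow_zero, one_mul, norm_mul, a5, ← mul_div_assoc, ← norm_mul,
    ← hu.W, div_le_div_iff_of_pos_right g] at k2

end Cfg

end Pool.Agent.MP_8d06cc_nt.H27
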