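import Pool.Agent.MP_8d06cc_nt.H90.Weil

/-! High powers of a solution and the approximate logarithm at an end. -/

namespace Pool.Agent.MP_8d06cc_nt.H27

open Polynomial Filter

variable {f : K[X]} {ι : Type} [Fintype ι] {x : ι → K}

/-- Fifth power. -/
noncomputable def Sol.five (s : Sol f x) : Sol f x := ((s.mul s).mul (s.mul s)).mul s

/-- The power with exponent `2 * 5 ^ k`. -/
noncomputable def Sol.it (s : Sol f x) : ℕ → Sol f x
  | 0 => s.mul s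
  | k + 1 => (s.it k).five

theorem Sol.val_it (s : Sol f x) {ξ η : K} (h : η ^ 2 = f.eval ξ) (k : ℕ) :
    (s.it k).val ξ η = s.val ξ η ^ (2 * 5 ^ k) := by
  induction k with
  | zero => simp [Sol.it, Sol.val_mul _ _ h, sq]
  | succ k ih => simp only [Sol.it, Sol.five, Sol.val_mul _ _ h, ih]; ring

theorem Sol.R_mul (s t : Sol f x) (σ : ℤ) : (s.mul t).R σ = s.R σ + t.R σ := by
  simp only [Sol.R, Sol.mul, Pi.add_apply, map_add, add_mul, Finset.sum_add_distrib]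
  ring

theorem Sol.R_it (s : Sol f x) (σ : ℤ) (k : ℕ) : (s.it k).R σ = 2 * 5 ^ k * s.R σ := by
  induction k with
  | zero => simp [Sol.it, Sol.R_mul, two_mul]
  | succ k ih => simp only [Sol.it, Sol.five, Sol.R_mul, ih]; ring

/-- The even part, expanded. -/
noncomputable def Sol.aL (s : Sol f x) (σ : ℤ) : L :=
  ev σ (toLaurent s.A) * (ev σ (toLaurent (den x s.e)))⁻¹

/-- The odd part, expanded. -/
noncomputable def Sol.bL (s : Sol f x) (σ : ℤ) : L :=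
  ev σ (toLaurent s.B) * (ev σ (toLaurent (den x s.e)))⁻¹

theorem Sol.aL_mul (s t : Sol f x) (σ : ℤ) :
    (s.mul t).aL σ = s.aL σ * t.aL σ + s.bL σ * t.bL σ * ev σ (toLaurent f) := by
  simp only [Sol.aL, Sol.bL, Sol.mul, den_add, map_add, map_mul, mul_inv]; ring

theorem Sol.bL_mul (s t : Sol f x) (σ : ℤ) :
    (s.mul t).bL σ = s.aL σ * t.bL σ + t.aL σ * s.bL σ := by
  simp only [Sol.aL, Sol.bL, Sol.mul, den_add, map_add, map_mul, mul_inv]; ring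

/-- All poles lie on one side of the circle of radius `r`. -/
def Sd (σ : ℤ) (r : ℝ) (x : ι → K) : Prop :=
  0 < r ∧ ((σ = -1 ∧ ∀ i, ‖x i‖ ≤ r) ∨ (σ = 1 ∧ ∀ i, r ≤ ‖x i‖))

/-- Bound on the circle of radius `r`. -/
def SB (σ : ℤ) (r : ℝ) (u : L) (c : ℝ) : Prop := Bd (r ^ σ) u c

section
variable {σ : ℤ} {r c d : ℝ} {u v : L}

theorem sb_iff (hσ : σ * σ = 1) : SB σ r u c ↔ ∀ m, ‖u.coeff (σ * m)‖ * r ^ m ≤ c := by
  refine ⟨fun h m => ?_, fun h m => ?_⟩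
  · have := h (σ * m)
    rwa [← zpow_mul, ← mul_assoc, hσ, one_mul] at this
  · have := h (σ * m)
    rwa [← mul_assoc, hσ, one_mul, zpow_mul] at this

theorem sb_ev (hσ : σ * σ = 1) {ψ : LP} : SB σ r (ev σ ψ) c ↔ LB r ψ c := by
  rw [sb_iff hσ]
  exact forall_congr' fun m => by rw [ev_coeff hσ, ← mul_assoc, hσ, one_mul]

theorem SB.mul (hr : 0 < r) (h : SB σ r u c) (h' : SB σ r v d) : SB σ r (u * v) (c * d) :=
  Bd.mul (zpow_pos hr σ) h h'

theorem SB.add (hr : 0 < r) (h : SB σ r u c) (h' : SB σ r v c) : SB σ r (u + v) c :=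
  Bd.add (zpow_pos hr σ) h h'

theorem SB.sub (hr : 0 < r) (h : SB σ r u c) (h' : SB σ r v c) : SB σ r (u - v) c :=
  Bd.sub (zpow_pos hr σ) h h'

theorem SB.mono (h : SB σ r u c) (hc : c ≤ d) : SB σ r u d := Bd.mono h hc

theorem SB.nonneg (hr : 0 < r) (h : SB σ r u c) : 0 ≤ c := Bd.nonneg (zpow_pos hr σ) h

theorem SB.far {r' : ℝ} (hr : 0 < r') (hl : r' ^ σ ≤ r ^ σ) (h : SB σ r u c) (ho : Ord u 0) :
    SB σ r' u c := by
  have := Bd.of_ord (zpow_pos hr σ) hl h ho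
  simpa [SB] using this

omit [Fintype ι] in
theorem Sd.sq (h : Sd σ r x) : σ * σ = 1 := by rcases h.2 with h | h <;> simp [h.1]

omit [Fintype ι] in
theorem Sd.inv (h : Sd σ r x) (i : ι) : ev σ (.T 1) - algebraMap K L (x i) ≠ 0 ∧
    SB σ r (ev σ (.T 1) - algebraMap K L (x i))⁻¹ (max r ‖x i‖)⁻¹ ∧
    Ord (ev σ (.T 1) - algebraMap K L (x i))⁻¹ (if σ = 1 then 0 else 1) := by
  obtain ⟨hr, ⟨rfl, hx⟩ | ⟨rfl, hx⟩⟩ := h
  · have hτ : 0 < r⁻¹ := by positivity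
    refine ⟨left_ne_zero_of_mul_eq_one (out_mul (x i)), ?_, ?_⟩
    · rw [out_inv, max_eq_left (hx i), SB, zpow_neg_one]
      simpa using (bd_single hτ 1 1).mul hτ (geo_bd hτ (c := x i)
        (by rw [← div_eq_mul_inv, div_le_one hr]; exact hx i))
    · rw [out_inv]
      simpa using (ord_single 1 1).mul (geo_ord (x i))
  · have h0 : ∀ i, x i ≠ 0 := fun i => norm_pos_iff.1 (hr.trans_le (hx i))
    refine ⟨left_ne_zero_of_mul_eq_one (in_mul (h0 i)), ?_, by simpa using in_ord h0 i⟩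
    rw [in_inv (h0 i), max_eq_right (hx i), SB, zpow_one]
    simpa using (bd_alg hr (-(x i)⁻¹)).mul hr (geo_bd hr (c := (x i)⁻¹)
      (by rw [norm_inv, inv_mul_le_one₀ (hr.trans_le (hx i))]; exact hx i))

theorem Sd.dn (h : Sd σ r x) (e : ι → ℕ) : ev σ (toLaurent (den x e)) ≠ 0 ∧
    SB σ r (ev σ (toLaurent (den x e)))⁻¹ (gn r (den x e))⁻¹ ∧
    Ord (ev σ (toLaurent (den x e)))⁻¹ (if σ = 1 then 0 else (∑ i, e i : ℕ)) := by
  rw [ev_toLaurent]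
  refine ⟨?_, ?_, ?_⟩
  · rw [Ne, ← inv_eq_zero, den_inv]
    exact Finset.prod_ne_zero_iff.2 fun i _ => pow_ne_zero _ (inv_ne_zero (h.inv i).1)
  · rw [den_inv, gn_den h.1, ← Finset.prod_inv_distrib]
    exact Bd.prod (zpow_pos h.1 σ) _ _ _ fun i _ => by
      rw [← inv_pow (max r ‖x i‖)]; exact Bd.pow (zpow_pos h.1 σ) (h.inv i).2.1 _
  · rw [den_inv]
    refine (Ord.prod _ _ _ fun i _ => (h.inv i).2.2.pow (e i)).mono (le_of_eq ?_)
    split_ifs <;> simp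

theorem Sd.tri (h : Sd σ r x) (s : Sol f x) :
    Tri (ths σ) (ev σ (toLaurent f)) (s.aL σ) (s.bL σ) (s.R σ) := by
  have ht := s.tri (ths σ) _ fun i => (h.inv i).1
  have e1 : ths σ (ev σ (.T 1)) = ev σ (.T 1) := by rw [ev_thP h.sq, thP_T]; simp
  simp only [← ev_toLaurent, e1, div_eq_mul_inv] at ht
  exact ht

theorem Sd.ord (h : Sd σ r x) (hf : f.natDegree = 8) (s : Sol f x) :
    Ord (s.aL σ) 0 ∧ Ord (s.bL σ) (if σ = 1 then 0 else 4) := by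
  have oD := (h.dn s.e).2.2
  obtain ⟨hr, ⟨rfl, hx⟩ | ⟨rfl, hx⟩⟩ := h
  · rw [if_neg (by norm_num)] at oD ⊢
    refine ⟨by simpa [Sol.aL] using (ld_iff.1 (ld_toL s.deg)).mul oD, ?_⟩
    by_cases hB : s.B = 0
    · simp [Sol.bL, hB, ord_zero]
    have h0 : f ≠ 0 := by rintro rfl; simp at hf
    have := s.degP
    rw [natDegree_mul (pow_ne_zero 2 hB) h0, natDegree_pow, hf] at this
    exact ((ld_iff.1 (ld_toL (P := s.B) le_rfl)).mul oD).mono (by omega)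
  · rw [if_pos rfl] at oD ⊢
    exact ⟨by simpa [Sol.aL] using (lo_iff.1 (lo_toL s.A)).mul oD,
      by simpa [Sol.bL] using (lo_iff.1 (lo_toL s.B)).mul oD⟩

omit [Fintype ι] in
theorem Sd.fin (h : Sd σ r x) (ψ : LP) : Fin' (r ^ σ) (ev σ ψ) := by
  obtain ⟨c, hc⟩ := lb_exists h.1 ψ
  exact ⟨c, (sb_ev h.sq).2 hc⟩

theorem Sd.finR (h : Sd σ r x) (s : Sol f x) : Fin' (r ^ σ) (s.R σ) :=
  have hτ := zpow_pos h.1 σ
  (h.fin _).mul hτ (Fin'.add hτ (Fin'.sum hτ _ _ fun i _ =>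
    Fin'.mul hτ ⟨_, bd_alg hτ _⟩ ⟨_, (h.inv i).2.1⟩) (h.fin _))

/-- From series to polynomials. -/
theorem Sd.back (h : Sd σ r x) {P : K[X]} {e : ι → ℕ}
    (hP : SB σ r (ev σ (toLaurent P) * (ev σ (toLaurent (den x e)))⁻¹) c) :
    gn r P ≤ c * gn r (den x e) := by
  have := hP.mul h.1 ((sb_ev h.sq).2 (lb_toL h.1 (den x e)))
  rw [inv_mul_cancel_right₀ (h.dn e).1, sb_ev h.sq] at this
  exact gn_le fun i => by
    have := this i
    rwa [coeff_toL, zpow_natCast] at this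

theorem cheb {τ w m : ℝ} {a : L} (hτ : 0 < τ) (hw : Bd τ (a - 1) w) (w1 : w ≤ 1) (wm : w ^ 2 ≤ m)
    (m5 : 1 / 5 ≤ m) : Bd τ (16 * a ^ 5 - 20 * a ^ 3 + 5 * a - 1) (w * m ^ 2) ∧
      Bd τ (16 * a ^ 4 - 12 * a ^ 2 + 1) m := by
  have b5 : Bd τ (5 : L) m := (bd_five hτ).mono m5
  have bw : Bd τ (a - 1) 1 := hw.mono w1
  have bw2 : Bd τ ((a - 1) ^ 2) m := (hw.pow hτ 2).mono wm
  have sc : ∀ (n : ℕ) {z : L} {c : ℝ}, Bd τ z c → Bd τ (n * z) c := fun n z c hz => by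
    simpa using (bd_nat hτ n).mul hτ hz
  have sw : ∀ {z : L} {c : ℝ}, Bd τ z c → Bd τ ((a - 1) * z) c := fun hz => by
    simpa using bw.mul hτ hz
  constructor
  · have e : 16 * a ^ 5 - 20 * a ^ 3 + 5 * a - 1 =
        (a - 1) * ((4 : ℕ) * (a - 1) ^ 2 + (2 : ℕ) * ((a - 1) * 5) + 5) ^ 2 := by
      push_cast; ring
    rw [e]
    exact hw.mul hτ ((((sc 4 bw2).add hτ (sc 2 (sw b5))).add hτ b5).pow hτ 2)
  · have e : 16 * a ^ 4 - 12 * a ^ 2 + 1 = 5 + (8 : ℕ) * ((a - 1) * 5) +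
        (84 : ℕ) * (a - 1) ^ 2 + (64 : ℕ) * ((a - 1) * (a - 1) ^ 2) +
          (16 : ℕ) * ((a - 1) * ((a - 1) * (a - 1) ^ 2)) := by
      push_cast; ring
    rw [e]
    exact (((b5.add hτ (sc 8 (sw b5))).add hτ (sc 84 bw2)).add hτ (sc 64 (sw bw2))).add hτ
      (sc 16 (sw (sw bw2)))

theorem Sd.step (h : Sd σ r x) (s : Sol f x) {w m : ℝ} (hw : SB σ r (s.aL σ - 1) w) (w1 : w ≤ 1)
    (wm : w ^ 2 ≤ m) (m5 : 1 / 5 ≤ m) : SB σ r (s.five.aL σ - 1) (w * m ^ 2) ∧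
      ∀ c, SB σ r (s.bL σ) c → SB σ r (s.five.bL σ) (c * m) := by
  have t := (h.tri s).1
  obtain ⟨c1, c2⟩ := cheb (zpow_pos h.1 σ) hw w1 wm m5
  have e1 : s.five.aL σ = 16 * s.aL σ ^ 5 - 20 * s.aL σ ^ 3 + 5 * s.aL σ := by
    simp only [Sol.five, Sol.aL_mul, Sol.bL_mul]
    linear_combination (-5 * s.aL σ * (s.bL σ ^ 2 * ev σ (toLaurent f) + 3 * s.aL σ ^ 2 - 1)) * t
  have e2 : s.five.bL σ = s.bL σ * (16 * s.aL σ ^ 4 - 12 * s.aL σ ^ 2 + 1) := by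
    simp only [Sol.five, Sol.aL_mul, Sol.bL_mul]
    linear_combination (-s.bL σ * (s.bL σ ^ 2 * ev σ (toLaurent f) + 11 * s.aL σ ^ 2 - 1)) * t
  rw [e1, e2]
  exact ⟨c1, fun c hc => hc.mul h.1 c2⟩

theorem Sd.iter (h : Sd σ r x) (s : Sol f x)
    (hρ : gn r (s.B ^ 2 * f) < gn r (den x s.e) ^ 2) : ∃ cb, 0 ≤ cb ∧ ∀ ε, 0 < ε → ∀ᶠ k in atTop,
      SB σ r ((s.it k).aL σ - 1) ε ∧ SB σ r ((s.it k).bL σ) (cb * (1 / 5) ^ k) := by
  have hτ := zpow_pos h.1 σ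
  have hD := (h.dn s.e).2.1
  have dp := gn_den_pos (x := x) h.1 s.e
  have h1 : SB σ r (s.aL σ ^ 2 - 1) (gn r (s.B ^ 2 * f) * (gn r (den x s.e))⁻¹ ^ 2) := by
    have := ((sb_ev h.sq).2 (lb_toL h.1 (s.B ^ 2 * f))).mul h.1 (Bd.pow hτ hD 2)
    simp only [map_mul, map_pow] at this
    convert this using 1
    have t := (h.tri s).1
    simp only [Sol.bL] at t
    linear_combination t
  set q := max (gn r (s.B ^ 2 * f) * (gn r (den x s.e))⁻¹ ^ 2) (1 / 5) with hq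
  have q1 : q < 1 := max_lt (by
    rw [inv_pow, ← div_eq_mul_inv, div_lt_one (by positivity)]; exact hρ) (by norm_num)
  have q5 : 1 / 5 ≤ q := le_max_right _ _
  have q0 : 0 < q := lt_of_lt_of_le (by norm_num) q5
  have ph1 : ∀ k : ℕ, SB σ r ((s.it k).aL σ - 1) (q ^ (k + 1)) := by
    intro k
    induction k with
    | zero =>
      have b2 : Bd (r ^ σ) (2 : L) 1 := by simpa using bd_nat hτ 2
      have e : (s.it 0).aL σ - 1 = 2 * (s.aL σ ^ 2 - 1) := by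
        simp only [Sol.it, Sol.aL_mul]
        linear_combination -(h.tri s).1
      rw [e]
      exact (b2.mul hτ h1).mono (by simp [hq])
    | succ k ih =>
      have p1 : q ^ (k + 1) ≤ q := pow_le_of_le_one q0.le q1.le (by omega)
      have p0 : 0 < q ^ (k + 1) := by positivity
      refine (h.step _ ih (p1.trans q1.le) (m := q) (by nlinarith) q5).1.mono ?_
      rw [pow_succ q (k + 1)]
      exact mul_le_mul_of_nonneg_left (by nlinarith) p0.le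
  have lim : ∀ ε, 0 < ε → ∀ᶠ k in atTop, SB σ r ((s.it k).aL σ - 1) ε := fun ε hε =>
    ((tendsto_pow_atTop_nhds_zero_of_lt_one q0.le q1).eventually_lt_const hε).mono fun k hk =>
      (ph1 k).mono ((pow_le_pow_of_le_one q0.le q1.le (by omega)).trans hk.le)
  obtain ⟨k₀, hk⟩ := eventually_atTop.1 (lim (1 / 5) (by norm_num))
  obtain ⟨cb, hcb⟩ := (h.fin (toLaurent (s.it k₀).B)).mul hτ ⟨_, (h.dn (s.it k₀).e).2.1⟩
  have cb0 := hcb.nonneg hτ
  refine ⟨cb * 5 ^ k₀, by positivity, fun ε hε => (lim ε hε).and (eventually_atTop.2 ⟨k₀, ?_⟩)⟩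
  intro k hk'
  induction k, hk' using Nat.le_induction with
  | base => exact SB.mono hcb (le_of_eq (by rw [mul_assoc, ← mul_pow]; simp))
  | succ k hk' ih =>
    rw [pow_succ, ← mul_assoc]
    exact (h.step _ (hk k hk') (by norm_num) (by norm_num) le_rfl).2 _ ih

/-- The normalised odd part. -/
noncomputable def Sol.BB (s : Sol f x) (σ : ℤ) (c : K) (κ : ℤ) (k : ℕ) : L :=
  ev σ (.C (c / (4 * 5 ^ k)) * .T κ) * (s.it k).bL σ

/-- The approximate equations on the circle of radius `r`. -/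
def Dat (σ : ℤ) (κ : ℤ) (μ : LP) (R B Z : L) (r ε : ℝ) : Prop :=
  SB σ r (2 * ths σ Z - κ * Z - R * ev σ μ) ε ∧ SB σ r (B - Z * ev σ μ) ε ∧ ∃ c, SB σ r Z c

theorem norm_N (k : ℕ) : ‖(4 * 5 ^ k : K)‖ = (1 / 5) ^ k := by
  rw [show (4 : K) = 2 * 2 by norm_num, norm_mul, norm_mul, norm_two, norm_pow, norm_five]
  simp

theorem Sd.dl (h : Sd σ r x) (hf : f.natDegree = 8) (s : Sol f x)
    (hρ : gn r (s.B ^ 2 * f) < gn r (den x s.e) ^ 2) {c : K} {κ : ℤ} {U : LP}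
    (hF : toLaurent f = .C c * .T κ * U) {r' : ℝ} (hr : 0 < r') (hl : r' ^ σ ≤ r ^ σ)
    (hU : LB r' U 1) : ∃ C₀, 0 ≤ C₀ ∧ ∀ δ μ, LB r' μ 1 → LB r' (μ ^ 2 * U - 1) δ →
      ∀ ε, 0 < ε → ∀ᶠ k in atTop,
        Dat σ κ μ (s.R σ) (s.BB σ c κ k) (s.BB σ c κ k * ev σ (μ * U)) r' (C₀ * δ + ε) := by
  obtain ⟨cb, cb0, hc⟩ := h.iter s hρ
  have h' : Sd σ r' x := ⟨hr, by
    rcases h with ⟨h0, ⟨rfl, hx⟩ | ⟨rfl, hx⟩⟩
    · rw [zpow_neg_one, zpow_neg_one, inv_le_inv₀ hr h0] at hl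
      exact .inl ⟨rfl, fun i => (hx i).trans hl⟩
    · rw [zpow_one, zpow_one] at hl
      exact .inr ⟨rfl, fun i => hl.trans (hx i)⟩⟩
  obtain ⟨M, hM⟩ := h'.finR s
  have M0 := SB.nonneg hr hM
  refine ⟨‖c‖ * r' ^ κ * cb, by positivity, fun δ μ hμ hδ ε hε => ?_⟩
  have δ0 := hδ.nonneg hr
  filter_upwards [hc (ε / (M + 1)) (by positivity)] with k hk
  have o := h.ord hf (s.it k)
  have a1 := hk.1.far hr hl (o.1.sub ord_one)
  have b1 := hk.2.far hr hl (o.2.mono (by split_ifs <;> norm_num))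
  have b2 : SB σ r' (s.BB σ c κ k) (‖c‖ * r' ^ κ * cb) := by
    refine (((sb_ev h.sq).2 ((lb_C hr _).mul hr (lb_T hr κ))).mul hr b1).mono (le_of_eq ?_)
    rw [norm_div, norm_N]
    field_simp
  have l2 : LB r' (Lop U μ) δ := by
    have := cons_bd hr (c := 1) (fm := 1) (ψ := 1) (G := 0) hU hμ hδ (lb_one hr) (lb_one hr)
      (fun n => by simp) (by simp [Lop])
    simpa using this
  refine ⟨?_, ?_, _, b2.mul hr ((sb_ev h.sq).2 (hμ.mul hr hU))⟩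
  · have t := (h.tri (s.it k)).2.2
    rw [Sol.R_it, hF] at t
    have e : 2 * ths σ (s.BB σ c κ k * ev σ (μ * U)) - κ * (s.BB σ c κ k * ev σ (μ * U)) -
        s.R σ * ev σ μ = ((s.it k).aL σ - 1) * (s.R σ * ev σ μ) + s.BB σ c κ k * ev σ (Lop U μ) := by
      have n0 : algebraMap K L (c / (4 * 5 ^ k)) * (4 * 5 ^ k) = algebraMap K L c := by
        rw [map_div₀, map_mul, map_pow, map_ofNat, map_ofNat]
        field_simp
      have n1 : (4 * 5 ^ k : L) ≠ 0 := mul_ne_zero (by norm_num) (pow_ne_zero _ (by norm_num))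
      have n2 : ths σ (ev σ (.T κ)) = κ * ev σ (.T κ) := by
        rw [ev_thP h.sq, thP_T, map_mul, ev_C, map_intCast]
      simp only [Sol.BB, Lop, map_add, map_mul, map_ofNat, ← ev_thP h.sq, Derivation.leibniz, ev_C,
        Derivation.map_algebraMap, smul_eq_mul, n2] at t ⊢
      generalize algebraMap K L (c / (4 * 5 ^ k)) = g at n0 ⊢
      rw [← n0] at t
      apply mul_left_cancel₀ n1
      linear_combination ev σ μ * t
    rw [e]
    refine SB.add hr ((a1.mul hr (SB.mul hr hM ((sb_ev h.sq).2 hμ))).mono ?_)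
      ((b2.mul hr ((sb_ev h.sq).2 l2)).mono (by linarith))
    rw [mul_one, div_mul_eq_mul_div, div_le_iff₀ (by positivity)]
    have : 0 ≤ ‖c‖ * r' ^ κ * cb * δ := by positivity
    nlinarith
  · have e : s.BB σ c κ k - s.BB σ c κ k * ev σ (μ * U) * ev σ μ =
        -(s.BB σ c κ k * ev σ (μ ^ 2 * U - 1)) := by
      simp only [map_sub, map_mul, map_pow, map_one]; ring
    rw [e]
    exact SB.mono (Bd.neg (b2.mul hr ((sb_ev h.sq).2 hδ))) (by linarith)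

end

end Pool.Agent.MP_8d06cc_nt.H27
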