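import Pool.Agent.MP_8d06cc_nt.H90.Flower

/-! Sums over a cluster of at most three points. -/

namespace Pool.Agent.MP_8d06cc_nt.H27

open Polynomial Finset Filter

/-- Sums of values over `T` are small. -/
def PS (T : Multiset K) (ρ θ : ℝ) : Prop := (∀ z ∈ T, ‖z‖ ≤ ρ) ∧
  ∀ Φ : K[X], Φ.coeff 0 = 0 → ‖(T.map fun z => Φ.eval z).sum‖ ≤ θ * gn ρ Φ

theorem psum3 {a b c : K} {δ ρ : ℝ} (p : 0 < ρ) (p1 : ρ ≤ 1) (hδ : δ ≤ ρ ^ 3)
    (e1 : ‖a + b + c‖ ≤ δ) (e2 : ‖a * b + b * c + c * a‖ ≤ δ) (e3 : ‖a * b * c‖ ≤ δ) (m : ℕ) :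
    ‖a ^ (m + 1) + b ^ (m + 1) + c ^ (m + 1)‖ ≤ δ / ρ ^ 3 * ρ ^ (m + 1) := by
  have d0 := (norm_nonneg _).trans e1
  have d1 := hδ.trans (pow_le_one₀ p.le p1)
  have ml : ∀ {u v : K} {t : ℝ}, ‖u‖ ≤ δ → ‖v‖ ≤ t → ‖u * v‖ ≤ δ * t := fun h h' => by
    rw [norm_mul]; exact mul_le_mul h h' (norm_nonneg _) d0
  have sm : ∀ {u v : K}, ‖u‖ ≤ δ → ‖v‖ ≤ 1 → ‖u * v‖ ≤ δ := fun h h' => by simpa using ml h h'
  have lo : ∀ j ≤ 3, δ ≤ δ / ρ ^ 3 * ρ ^ j := fun j hj => by
    rw [div_mul_eq_mul_div, le_div_iff₀ (by positivity)]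
    exact mul_le_mul_of_nonneg_left (pow_le_pow_of_le_one p.le p1 hj) d0
  have q2 : ‖a ^ 2 + b ^ 2 + c ^ 2‖ ≤ δ := by
    convert norm_sub_le' (sm e1 (e1.trans d1)) (sm e2 norm_two.le) using 2
    ring
  have q3 : ‖a ^ 3 + b ^ 3 + c ^ 3‖ ≤ δ := by
    convert norm_add_le' (norm_sub_le' (sm e1 (q2.trans d1)) (sm e2 (e1.trans d1)))
      (sm e3 (norm_nat_le 3)) using 2
    push_cast
    ring
  induction m using Nat.strong_induction_on with
  | _ m ih =>
  obtain rfl | rfl | rfl | hm : m = 0 ∨ m = 1 ∨ m = 2 ∨ 3 ≤ m := by omega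
  · simpa using e1.trans (lo 1 (by norm_num))
  · exact q2.trans (lo 2 (by norm_num))
  · exact q3.trans (lo 3 le_rfl)
  obtain ⟨m, rfl⟩ := Nat.exists_eq_add_of_le' hm
  have up : ∀ j ≤ 2, δ * (δ / ρ ^ 3 * ρ ^ (m + j + 1)) ≤ δ / ρ ^ 3 * ρ ^ (m + 3 + 1) := fun j hj => by
    rw [mul_left_comm, show m + 3 + 1 = 3 + (m + 1) by ring, pow_add _ 3]
    exact mul_le_mul_of_nonneg_left (mul_le_mul hδ (pow_le_pow_of_le_one p.le p1 (by omega))
      (by positivity) (by positivity)) (by positivity)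
  convert norm_add_le' (norm_sub_le' ((ml e1 (ih (m + 2) (by omega))).trans (up 2 le_rfl))
    ((ml e2 (ih (m + 1) (by omega))).trans (up 1 one_le_two)))
    ((ml e3 (ih (m + 0) (by omega))).trans (up 0 zero_le_two)) using 2
  ring

theorem mprod_X (T : Multiset K) (h : ∀ z ∈ T, ‖z‖ < 1) :
    gn 1 ((T.map fun z => X - C z).prod - X ^ T.card) < 1 := by
  induction T using Multiset.induction_on with
  | empty => simp [gn_zero]
  | cons a T ih =>
    have h1 := ih fun z hz => h z (Multiset.mem_cons_of_mem hz)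
    have h2 : (T.map fun z => X - C z).prod ∈ O1 := by
      simpa using add_mem (show _ ∈ O1 from h1.le) (pow_mem X_O1 T.card)
    have h3 : gn 1 (X * ((T.map fun z => X - C z).prod - X ^ T.card)) < 1 := by
      rwa [gn_mul one_pos, gn_X one_pos, one_mul]
    convert gn_sub_lt one_pos h3 ((gn_C_mul_le h2).trans_lt (h a (Multiset.mem_cons_self a T)))
      using 2
    simp only [Multiset.map_cons, Multiset.prod_cons, Multiset.card_cons]
    ring

theorem ps_of {T : Multiset K} {G : K[X]} {δ ρ : ℝ} {κ : ℕ} (p : 0 < ρ) (p1 : ρ ≤ 1)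
    (hδ : δ ≤ ρ ^ 3) (d0 : 0 ≤ δ) (hT : ∀ z ∈ T, ‖z‖ < 1) (g1 : gn 1 G ≤ 1) (g0 : ‖G.coeff 0‖ = 1)
    (κ3 : κ ≤ 3) (h1 : ‖((T.map fun z => X - C z).prod * G).coeff κ‖ = 1)
    (h2 : ∀ j < κ, ‖((T.map fun z => X - C z).prod * G).coeff j‖ ≤ δ) : PS T ρ (δ / ρ ^ 3) := by
  have c1 : T.card ≤ κ := not_lt.1 fun hl => by
    have := (cf_le (((T.map fun z => X - C z).prod - X ^ T.card) * G) κ).trans_lt (by
      rw [gn_mul one_pos]
      exact mul_lt_one_of_nonneg_of_lt_one_left (gn_nonneg one_pos _) (mprod_X T hT) g1)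
    rw [sub_mul, coeff_sub, coeff_X_pow_mul', if_neg hl.not_ge, sub_zero, h1] at this
    exact this.false
  obtain ⟨a, b, c, e⟩ := Multiset.card_eq_three.1
    (show (T + Multiset.replicate (3 - T.card) 0).card = 3 by simp; omega)
  have e' := congrArg (fun T : Multiset K => (T.map fun z => X - C z).prod * G) e
  simp only [Multiset.map_add, Multiset.prod_add, Multiset.map_replicate, map_zero, sub_zero,
    Multiset.prod_replicate, Multiset.insert_eq_cons, Multiset.map_cons, Multiset.prod_cons,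
    Multiset.map_singleton, Multiset.prod_singleton] at e'
  rw [mul_right_comm, show (X - C a) * ((X - C b) * (X - C c)) * G = X ^ 3 * G - C (a + b + c) *
    (X ^ 2 * G) + C (a * b + b * c + c * a) * (X ^ 1 * G) - C (a * b * c) * G by
      simp only [map_add, map_mul]; ring] at e'
  have k : ∀ j < 3, ‖(X ^ 3 * G - C (a + b + c) * (X ^ 2 * G) + C (a * b + b * c + c * a) *
      (X ^ 1 * G) - C (a * b * c) * G).coeff j‖ ≤ δ := fun j hj => by
    rw [← e', coeff_mul_X_pow']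
    split_ifs with g
    exacts [h2 _ (by omega), by simpa]
  have k0 := k 0 (by norm_num)
  have k1 := k 1 (by norm_num)
  have k2 := k 2 (by norm_num)
  simp only [coeff_sub, coeff_add, Polynomial.coeff_C_mul, coeff_X_pow_mul'] at k0 k1 k2
  norm_num at k0 k1 k2
  have ml : ∀ {u : K} (j : ℕ), ‖u‖ ≤ δ → ‖u * G.coeff j‖ ≤ δ := fun j h => by
    rw [norm_mul]; exact (mul_le_of_le_one_right (norm_nonneg _) ((cf_le _ _).trans g1)).trans h
  have e3 : ‖a * b * c‖ ≤ δ := by simpa [g0] using k0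
  have e2 : ‖a * b + b * c + c * a‖ ≤ δ := by simpa [g0] using norm_add_le' k1 (ml 1 e3)
  have e1 : ‖a + b + c‖ ≤ δ := by
    have := norm_sub_le' (norm_add_le' k2 (ml 2 e3)) (ml 1 e2)
    rwa [sub_add_cancel, add_sub_cancel_right, norm_neg, norm_mul, g0, mul_one] at this
  refine ⟨fun z hz => le_of_pow_le_pow_left₀ three_ne_zero p.le (le_trans ?_ hδ), fun Φ h0 => ?_⟩
  · have z1 := (hT z hz).le
    have sm : ∀ {u v : K}, ‖u‖ ≤ δ → ‖v‖ ≤ 1 → ‖u * v‖ ≤ δ := fun h h' => by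
      rw [norm_mul]; exact (mul_le_of_le_one_right (norm_nonneg _) h').trans h
    have : z ∈ ({a, b, c} : Multiset K) := e ▸ Multiset.mem_add.2 (.inl hz)
    rw [← norm_pow]
    simp only [Multiset.insert_eq_cons, Multiset.mem_cons, Multiset.mem_singleton] at this
    refine le_of_eq_of_le (congrArg _ ?_) (norm_add_le' (norm_sub_le' (sm e1 (show ‖z ^ 2‖ ≤ 1 by
      rw [norm_pow]; exact pow_le_one₀ (norm_nonneg _) z1)) (sm e2 z1)) e3)
    rcases this with rfl | rfl | rfl <;> ring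
  have e2' := congrArg (fun T : Multiset K => (T.map fun z => Φ.eval z).sum) e
  simp only [Multiset.map_add, Multiset.sum_add, Multiset.map_replicate, ← coeff_zero_eq_eval_zero,
    h0, Multiset.sum_replicate, smul_zero, add_zero, Multiset.insert_eq_cons, Multiset.map_cons,
    Multiset.sum_cons, Multiset.map_singleton, Multiset.sum_singleton] at e2'
  rw [e2', eval_eq_sum_range, eval_eq_sum_range, eval_eq_sum_range, ← sum_add_distrib,
    ← sum_add_distrib]
  have g := gn_nonneg p Φ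
  refine IsUltrametricDist.norm_sum_le_of_forall_le_of_nonneg (by positivity) fun m _ => ?_
  rcases m with _ | m
  · simp only [h0, zero_mul, add_zero, norm_zero]; positivity
  rw [← mul_add, ← mul_add, ← add_assoc, norm_mul]
  refine (mul_le_mul_of_nonneg_left (psum3 p p1 hδ e1 e2 e3 m) (norm_nonneg _)).trans ?_
  rw [mul_left_comm]
  exact mul_le_mul_of_nonneg_left (le_gn p _ _) (by positivity)

theorem msum_le (T : Multiset K) (φ : K → K) {t : ℝ} (t0 : 0 ≤ t) (h : ∀ z ∈ T, ‖φ z‖ ≤ t) :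
    ‖(T.map φ).sum‖ ≤ t := by
  refine Multiset.sum_induction (fun z : K => ‖z‖ ≤ t) _ (fun _ _ => norm_add_le') (by simpa)
    fun z hz => ?_
  obtain ⟨w, hw, rfl⟩ := Multiset.mem_map.1 hz
  exact h w hw

theorem PS.div {T : Multiset K} {ρ θ : ℝ} (h : PS T ρ θ) (p : 0 < ρ) (p1 : ρ < 1) (θ0 : 0 < θ)
    {N D : K[X]} (h0 : N.coeff 0 = 0) (d0 : D.coeff 0 ≠ 0) (hD : gn 1 D ≤ ‖D.coeff 0‖) :
    ‖(T.map fun z => N.eval z / D.eval z).sum‖ ≤ θ * (gn ρ N / ‖D.coeff 0‖) := by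
  obtain ⟨M, hM⟩ := exists_pow_lt_of_lt_one θ0 p1
  have q := norm_pos_iff.2 d0
  have g := gn_nonneg p N
  set E := 1 - C (D.coeff 0)⁻¹ * D with hE
  have e1 : gn ρ E ≤ ρ := gn_le fun j => by
    rcases j with _ | j
    · simp [hE, d0, p.le]
    rw [hE, coeff_sub, coeff_one, if_neg (by omega), zero_sub, norm_neg, Polynomial.coeff_C_mul,
      norm_mul, norm_inv, pow_succ, ← mul_assoc]
    exact mul_le_of_le_one_left p.le (mul_le_one₀ (inv_mul_le_one_of_le₀ ((cf_le _ _).trans hD) q.le)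
      (by positivity) (pow_le_one₀ p.le p1.le))
  have e2 : gn ρ (∑ m ∈ range M, E ^ m) ≤ 1 := sum_induction _ (gn ρ · ≤ 1)
    (fun _ _ a b => (gn_add p _ _).trans (max_le a b)) (by simp [gn_zero]) fun m _ => by
      rw [gn_pow p]; exact pow_le_one₀ (gn_nonneg p _) (e1.trans p1.le)
  have k := (h.2 (C (D.coeff 0)⁻¹ * (N * ∑ m ∈ range M, E ^ m)) (by simp [h0])).trans
    (show _ ≤ θ * (gn ρ N / ‖D.coeff 0‖) by
      rw [gn_mul p, gn_mul p, gn_C, norm_inv, div_eq_inv_mul]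
      gcongr
      exact mul_le_of_le_one_right g e2)
  have k2 := msum_le T (fun z => N.eval z / D.eval z -
      (C (D.coeff 0)⁻¹ * (N * ∑ m ∈ range M, E ^ m)).eval z)
      (t := θ * (gn ρ N / ‖D.coeff 0‖)) (by positivity) fun z hz => by
    have e3 := (eval_le p (h.1 z hz) E).trans e1
    have e4 : D.eval z = D.coeff 0 * (1 - E.eval z) := by simp [hE, d0]
    have e5 : ‖1 - E.eval z‖ = 1 := by rw [norm_sub_big (by simpa using e3.trans_lt p1), norm_one]
    have e6 := norm_pos_iff.1 (e5 ▸ one_pos)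
    have e7 := mul_neg_geom_sum (E.eval z) M
    rw [show _ - _ = E.eval z ^ M * (N.eval z / D.eval z) by
      simp only [eval_mul, eval_C, eval_finsetSum, eval_pow, e4]
      field_simp
      linear_combination -N.eval z * e7, norm_mul, norm_div, e4, norm_mul, e5, mul_one, norm_pow]
    gcongr
    exacts [(pow_le_pow_left₀ (norm_nonneg _) e3 M).trans hM.le, eval_le p (h.1 z hz) N]
  rw [Multiset.sum_map_sub] at k2
  simpa using norm_add_le' k2 k

theorem mprod2 (T : Multiset K) (φ : K → K) {t : ℝ} (t0 : 0 ≤ t) (t1 : t ≤ 1)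
    (h : ∀ z ∈ T, ‖φ z - 1‖ ≤ t) :
    ‖(T.map φ).prod - 1 - (T.map fun z => φ z - 1).sum‖ ≤ t ^ 2 := by
  induction T using Multiset.induction_on with
  | empty => simpa using sq_nonneg t
  | cons a T ih =>
    have h0 := fun z hz => h z (Multiset.mem_cons_of_mem hz)
    have h3 : ‖(φ a - 1) * ((T.map φ).prod - 1)‖ ≤ t ^ 2 := by
      rw [norm_mul, sq]
      exact mul_le_mul (h a (Multiset.mem_cons_self a T)) (mprod_near _ t0 t1 fun z hz => by
        obtain ⟨w, hw, rfl⟩ := Multiset.mem_map.1 hz; exact h0 w hw) (norm_nonneg _) t0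
    convert norm_add_le' (ih h0) h3 using 2
    simp only [Multiset.map_cons, Multiset.prod_cons, Multiset.sum_cons]
    ring

/-- The product of the values over a cluster. -/
theorem cl_val {f : K[X]} {ι : Type} [Fintype ι] {x : ι → K} (u : Sol f x) {κ : ℤ} {ρ θ Y α : ℝ}
    (p : 0 < ρ) (p1 : ρ < 1) (θ0 : 0 < θ) (hx : ∀ i, 1 ≤ ‖x i‖) (g0 : 0 < gn ρ f)
    (h : ∃ c, gn ρ f ≤ ‖c‖ * ρ ^ κ ∧ ∀ᶠ k in atTop, SB 1 ρ (u.BB 1 c κ k) Y) {T : Multiset K}
    (hT : PS T ρ θ) {a : K[X]} (a0 : a.coeff 0 = 0) (a1 : gn ρ a ≤ α)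
    (ha : ∀ z ∈ T, a.eval z ^ 2 = f.eval z) : ∀ᶠ k in atTop,
      ‖(T.map fun z => u.val z (a.eval z)).prod ^ (4 * 5 ^ k) - 1‖ ≤
        (1 / 5) ^ k * (θ * (Y * α / gn ρ f)) := by
  obtain ⟨c, hc, h⟩ := h
  have hs : Sd 1 ρ x := ⟨p, .inr ⟨rfl, fun i => p1.le.trans (hx i)⟩⟩
  have c0 : c ≠ 0 := by rintro rfl; simp [g0.not_ge] at hc
  have t := tendsto_pow_atTop_nhds_zero_of_lt_one (r := (1 / 5 : ℝ)) (by norm_num) (by norm_num)
  filter_upwards [h, (t.mul_const (Y * α / gn ρ f)).eventually_lt_const (u := min 1 θ) (by simpa),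
    (((t.mul_const (Y / gn ρ f)).pow 2).mul_const (gn ρ f)).eventually_lt_const (u := 1) (by simp)]
    with k hk t1 t2
  have Y0 := hk.nonneg p
  have α0 := (gn_nonneg p _).trans a1
  have vi := fun z hz => u.val_it (ha z hz) k
  have b := hs.back (bsb hs.sq p c0 hk)
  generalize u.it k = v at *
  have d := gn_den_pos (x := x) p v.e
  have b1 : gn ρ v.B ≤ (1 / 5) ^ k * (Y / gn ρ f) * gn ρ (den x v.e) := b.trans (by
    rw [← mul_div_assoc]; gcongr)
  have b2 : gn ρ v.A ≤ gn ρ (den x v.e) := le_of_sq_le_sq₀ d.le (by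
    rw [← gn_pow p, eq_add_of_sub_eq v.pell]
    refine (gn_add p _ _).trans (max_le (gn_pow p _ _).le ?_)
    rw [gn_mul p, gn_pow p]
    refine (mul_le_mul_of_nonneg_right (pow_le_pow_left₀ (gn_nonneg p _) b1 2) g0.le).trans ?_
    rw [mul_pow, mul_right_comm]
    exact mul_le_of_le_one_left (by positivity) t2.le)
  have dn : ∀ z, ‖z‖ ≤ ρ → ‖(den x v.e).eval z‖ = gn ρ (den x v.e) := fun z hz => by
    rw [gn_den p, den, eval_prod, norm_prod]
    refine prod_congr rfl fun i _ => ?_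
    rw [max_eq_right (p1.le.trans (hx i)), eval_pow, norm_pow, eval_sub, eval_X, eval_C,
      norm_sub_rev, norm_sub_big (hz.trans_lt (p1.trans_le (hx i)))]
  have d2 : ‖(den x v.e ^ 2).coeff 0‖ = gn ρ (den x v.e) ^ 2 := by
    rw [coeff_zero_eq_eval_zero, eval_pow, norm_pow, dn 0 (by simpa using p.le)]
  rw [mul_left_comm]
  set τ := (1 / 5) ^ k * (Y * α / gn ρ f) with hτ
  have τ0 : 0 ≤ τ := by positivity
  have τ1 := (t1.trans_le (min_le_left _ _)).le
  have τ2 : τ ^ 2 ≤ θ * τ := by rw [sq]; gcongr; exact (t1.trans_le (min_le_right _ _)).le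
  have b3 : gn ρ (v.B * a) ≤ τ * gn ρ (den x v.e) := by
    rw [gn_mul p]
    exact (mul_le_mul b1 a1 (gn_nonneg p _) (by positivity)).trans (le_of_eq (by rw [hτ]; ring))
  have b4 : gn ρ (2 * (v.A * (v.B * a))) ≤ τ * gn ρ (den x v.e) ^ 2 := by
    rw [gn_two_mul p, gn_mul p]
    exact (mul_le_mul b2 b3 (gn_nonneg p _) d.le).trans (le_of_eq (by ring))
  have k1 := (hT.div p p1 θ0 (N := 2 * (v.A * (v.B * a))) (D := den x v.e ^ 2) (by simp [a0])
    (norm_pos_iff.1 (by rw [d2]; positivity)) (by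
      rw [d2, gn_pow one_pos, gn_den one_pos, gn_den p]
      simp only [max_eq_right (hx _), max_eq_right (p1.le.trans (hx _)), le_refl])).trans
    (show _ ≤ θ * τ by rw [d2]; gcongr; rwa [div_le_iff₀ (by positivity)])
  have k2 : ∀ z ∈ T, ‖u.val z (a.eval z) ^ (4 * 5 ^ k) - 1 - (2 * (v.A * (v.B * a))).eval z /
      (den x v.e ^ 2).eval z‖ ≤ τ ^ 2 := fun z hz => by
    have e := congrArg (eval z) v.pell
    have e1 := dn z (hT.1 z hz)
    have e2 := norm_pos_iff.1 (e1 ▸ d)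
    simp only [eval_sub, eval_mul, eval_pow, ← ha z hz] at e
    rw [show 4 * 5 ^ k = 2 * 5 ^ k * 2 by ring, pow_mul, ← vi z hz, show _ - _ =
      2 * ((v.B * a).eval z / (den x v.e).eval z) ^ 2 by
        simp only [Sol.val, eval_mul, eval_pow, eval_ofNat]
        field_simp
        linear_combination e, norm_mul, norm_two, one_mul, norm_pow, norm_div, e1]
    gcongr
    rw [div_le_iff₀ d]
    exact (eval_le p (hT.1 z hz) _).trans b3
  have k3 := mprod2 T (fun z => u.val z (a.eval z) ^ (4 * 5 ^ k)) τ0 τ1 fun z hz => by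
    have : ‖(2 * (v.A * (v.B * a))).eval z / (den x v.e ^ 2).eval z‖ ≤ τ := by
      rw [norm_div, eval_pow, norm_pow, dn z (hT.1 z hz), div_le_iff₀ (by positivity)]
      exact (eval_le p (hT.1 z hz) _).trans b4
    simpa using norm_add_le' ((k2 z hz).trans (by nlinarith)) this
  have k4 := msum_le T _ (sq_nonneg τ) k2
  rw [Multiset.sum_map_sub] at k4
  rw [← Multiset.prod_map_pow]
  simpa using norm_add_le' (norm_add_le' (k3.trans τ2) (k4.trans τ2)) k1

end Pool.Agent.MP_8d06cc_nt.H27
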