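import Pool.Agent.MP_8d06cc_nt.H90.Iter

/-! Estimates for the approximate logarithm. -/

namespace Pool.Agent.MP_8d06cc_nt.H27

open Polynomial Filter

theorem zs {a b : ℤ} (h : a ≤ b) : s ^ a ≤ s ^ b := zpow_le_zpow_right₀ s1.le h

theorem zp (a : ℤ) : 0 < s ^ a := zpow_pos s0 a

theorem za (a b : ℤ) : s ^ a * s ^ b = s ^ (a + b) := (zpow_add₀ s0.ne' a b).symm

theorem zl {a : ℤ} (h : a < 0) : s ^ a < 1 := zpow_lt_one_of_neg₀ s1 h

theorem zw {w : ℝ} (hw : 0 ≤ w) {a b : ℤ} (h : a ≤ b) : w * s ^ a ≤ w * s ^ b :=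
  mul_le_mul_of_nonneg_left (zs h) hw

theorem vbd (n : ℤ) (hn : n ≠ 0) :
    ∃ v : ℕ, 20 * (v : ℤ) ≤ |n| + 15 ∧ (v = 0 ∨ 5 ∣ n) ∧ s ^ (-25 * v : ℤ) ≤ ‖(n : K)‖ := by
  induction h : n.natAbs using Nat.strong_induction_on generalizing n with
  | _ N ih =>
  by_cases h5 : 5 ∣ n
  · obtain ⟨m, rfl⟩ := h5
    obtain ⟨v, h1, h2, h3⟩ := ih m.natAbs (by omega) m (by omega) rfl
    refine ⟨v + 1, ?_, .inr ⟨m, rfl⟩, ?_⟩
    · rw [Int.abs_eq_natAbs] at *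
      omega
    · have : s ^ (-25 : ℤ) ≤ 1 / 5 := by norm_num [s]
      rw [Int.cast_mul, norm_mul, Int.cast_ofNat, norm_five,
        show (-25 * (v + 1 : ℕ) : ℤ) = -25 + -25 * v by push_cast; ring, ← za]
      exact mul_le_mul this h3 (zp _).le (by norm_num)
  · exact ⟨0, by simp; positivity, .inl rfl, by simp [norm_int_eq n h5]⟩

theorem dv {n : ℤ} (hn : n ≠ 0) {z : K} {t X : ℝ} (ht : 0 ≤ t)
    (h : ∀ v : ℕ, 20 * (v : ℤ) ≤ |n| + 15 → (v = 0 ∨ 5 ∣ n) →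
      ‖n * z‖ * t ≤ X * s ^ (-25 * v : ℤ)) : ‖z‖ * t ≤ X := by
  obtain ⟨v, h1, h2, h3⟩ := vbd n hn
  have := h v h1 h2
  rw [norm_mul, mul_assoc, mul_comm X] at this
  exact le_of_mul_le_mul_left ((mul_le_mul_of_nonneg_right h3 (by positivity)).trans this) (zp _)

theorem at' {z r c : ℝ} {m : ℤ} (h : z * r ^ m ≤ c) (a : ℤ) :
    z * (r * s ^ a) ^ m ≤ c * s ^ (a * m) := by
  rw [mul_zpow, ← zpow_mul, ← mul_assoc]
  exact mul_le_mul_of_nonneg_right h (zp _).le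

theorem mid' {z r r₁ r₂ c : ℝ} {m : ℤ} (hz : 0 ≤ z) (h0 : 0 < r₁) (l1 : r₁ ≤ r) (l2 : r ≤ r₂)
    (h1 : z * r₁ ^ m ≤ c) (h2 : z * r₂ ^ m ≤ c) : z * r ^ m ≤ c := by
  rcases le_total 0 m with h | h
  · exact (mul_le_mul_of_nonneg_left (zpow_le_zpow_left₀ h (h0.le.trans l1) l2) hz).trans h2
  · refine (mul_le_mul_of_nonneg_left ?_ hz).trans h1
    have := zpow_le_zpow_left₀ (neg_nonneg.2 h) h0.le l1
    rwa [zpow_neg, zpow_neg, inv_le_inv₀ (zpow_pos h0 m) (zpow_pos (h0.trans_le l1) m)] at this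

theorem Mu.mid {μ : LP} {R₁ R₂ r : ℝ} {d : Prop} (h : Mu μ R₁ R₂ d) (h0 : 0 < R₁) (l1 : R₁ ≤ r)
    (l2 : r ≤ R₂) : LB r μ 1 := fun n => mid' (norm_nonneg _) h0 l1 l2 (h.2.1 n) (h.1 n)

theorem Mu.dec {μ : LP} {R₁ R₂ ρ : ℝ} {d : Prop} (h : Mu μ R₁ R₂ d) {a : ℤ} (ha : 0 ≤ a)
    (h1 : ρ = R₁ * s ^ a) (h2 : ρ = R₂ * s ^ (-a)) :
    LB ρ (μ - .C (μ.coeff 0)) (s ^ (-a)) ∧ ‖μ.coeff 0‖ = 1 := by
  refine ⟨fun n => ?_, by simpa using norm_eq_of_sub_lt (y := 1) (by simpa using h.2.2.1)⟩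
  rcases lt_trichotomy n 0 with hn | rfl | hn
  · have := at' (h.2.1 n) a
    rw [← h1, one_mul] at this
    simpa [hn.ne] using this.trans (zs (show _ ≤ -a by nlinarith))
  · simpa using (zp a).le
  · have := at' (h.1 n) (-a)
    rw [← h2, one_mul] at this
    simpa [hn.ne'] using this.trans (zs (show _ ≤ -a by nlinarith))

theorem mu_of {f : K[X]} {fm : LP} {R₁ R₂ r₁ r₂ : ℝ} {d : Prop} (hF : Fac f fm R₁ R₂ d)
    (h0 : 0 < R₁) (h1 : R₁ < r₁) (h2 : r₁ ≤ r₂) (h3 : r₂ < R₂) : ∃ (c : K) (U : LP),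
      toLaurent f = .C c * fm * U ∧ (∀ r, R₁ ≤ r → r ≤ R₂ → LB r U 1) ∧ ∀ δ, 0 < δ → ∃ μ,
        Mu μ R₁ R₂ d ∧ ∀ r, r₁ ≤ r → r ≤ r₂ → LB r (μ ^ 2 * U - 1) δ := by
  have p1 : 0 < r₁ := h0.trans h1
  have p2 : 0 < r₂ := p1.trans_le h2
  have p3 : 0 < R₂ := p2.trans h3
  have hR : R₁ ≤ R₂ := by linarith
  obtain ⟨c, Po, Pi, hfac, o0, i0, o1, i1, hd⟩ := hF
  have main : ∀ δ, 0 < δ → δ ≤ 1 → ∃ μ, (∀ r, R₁ ≤ r → r ≤ R₂ → LB r μ 1 ∧
      LB r (toLaurent Po * LaurentPolynomial.invert (toLaurent Pi)) 1) ∧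
      ‖μ.coeff 0 - 1‖ < 1 ∧ (d → LO μ 0) ∧ ∀ r, r₁ ≤ r → r ≤ r₂ →
        LB r (μ ^ 2 * (toLaurent Po * LaurentPolynomial.invert (toLaurent Pi)) - 1) δ := by
    intro δ δ0 δ1
    obtain ⟨νo, -, a1, a2⟩ := nu_lb h3 p3 o0 o1 δ0
    obtain ⟨νi, b0, b1, b2⟩ := nu_lb (r₀ := r₁⁻¹) (inv_strictAnti₀ h0 h1) (by positivity) i0 i1 δ0
    refine ⟨toLaurent νo * LaurentPolynomial.invert (toLaurent νi), fun r l1 l2 => ?_, ?_,
      fun h => ?_, fun r l1 l2 => ?_⟩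
    · have hr := h0.trans_le l1
      have k1 := a1 r hr l2
      have k2 := b1 r⁻¹ (by positivity) (inv_anti₀ h0 l1)
      exact ⟨by simpa using k1.1.mul hr k2.1.invert, by simpa using k1.2.1.mul hr k2.2.1.invert⟩
    · have k1 := a1 r₂ p2 h3.le
      have k2 := b1 r₂⁻¹ (by positivity) (inv_anti₀ h0 (by linarith))
      have k3 := k2.2.2.invert
      simp only [map_sub, map_one] at k3
      have k4 := ((k1.2.2.mul p2 k2.1.invert).mono (le_max_left _ _)).add p2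
        (k3.mono (le_max_right _ _)) 0
      rw [sub_mul, one_mul, sub_add_sub_cancel] at k4
      have k5 : max (r₂ / R₂ * 1) (r₂⁻¹ / R₁⁻¹) < 1 := max_lt (by rwa [mul_one, div_lt_one p3])
        (by rw [div_lt_one (by positivity)]; exact inv_strictAnti₀ h0 (by linarith))
      refine lt_of_le_of_lt (le_trans (le_of_eq ?_) k4) k5
      simp
    · rw [b0 (hd h)]
      simpa using lo_toL νo
    · have hr := p1.trans_le l1
      have k1 := a2 r hr l2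
      have k2 := (b2 r⁻¹ (by positivity) (inv_anti₀ p1 l1)).invert
      simp only [map_sub, map_mul, map_pow, map_one] at k2
      have k3 := (k1.mul hr k2).mono (mul_le_of_le_one_left δ0.le δ1)
      convert (k1.add hr k2).add hr k3 using 1
      ring
  obtain ⟨μ₀, m0, -⟩ := main 1 one_pos le_rfl
  refine ⟨c, _, hfac, fun r l1 l2 => (m0 r l1 l2).2, fun δ δ0 => ?_⟩
  obtain ⟨μ, m1, m2, m3, m4⟩ := main (min δ 1) (by positivity) (min_le_right _ _)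
  exact ⟨μ, ⟨(m1 _ hR le_rfl).1, (m1 _ le_rfl hR).1, m2, m3⟩,
    fun r l1 l2 => (m4 r l1 l2).mono (min_le_left _ _)⟩

section
variable {σ κ : ℤ} {ρ c Y θ w ε : ℝ} {u R B Z : L} {μ : LP} {d : Prop}

theorem nsub {a b : K} {t : ℝ} (ht : 0 < t) (h : ‖a‖ * t ≤ c) (h' : ‖b‖ * t ≤ c) :
    ‖a - b‖ * t ≤ c := by
  rw [← le_div_iff₀ ht] at *
  exact norm_sub_le' h h'

theorem nadd {a b : K} {t : ℝ} (ht : 0 < t) (h : ‖a‖ * t ≤ c) (h' : ‖b‖ * t ≤ c) :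
    ‖a + b‖ * t ≤ c := by
  rw [← le_div_iff₀ ht] at *
  exact norm_add_le' h h'

theorem dom (hσ : σ * σ = 1) (hρ : 0 < ρ) (hu : SB σ ρ u Y)
    (hμ : LB ρ (μ - .C (μ.coeff 0)) θ ∧ ‖μ.coeff 0‖ = 1) {m : ℤ}
    (h : ‖(u * ev σ μ).coeff (σ * m)‖ * ρ ^ m ≤ c) (hc : Y * θ ≤ c) :
    ‖u.coeff (σ * m)‖ * ρ ^ m ≤ c := by
  have := nsub (zpow_pos hρ m) h
    (((sb_iff hσ).1 (hu.mul hρ ((sb_ev hσ).2 hμ.1)) m).trans hc)
  rwa [← HahnSeries.coeff_sub, map_sub, mul_sub, sub_sub_cancel, ev_C, mul_comm u, coeff_alg_mul,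
    norm_mul, hμ.2, one_mul] at this

theorem fix {X : ℝ} (θ0 : 0 ≤ θ) (θ1 : θ < 1) (X0 : 0 ≤ X) (fin : ∃ c, SB σ ρ Z c)
    (h : ∀ Y, X ≤ Y → SB σ ρ Z Y → SB σ ρ Z (max X (Y * θ))) : SB σ ρ Z X := by
  obtain ⟨c, hc⟩ := fin
  have k : ∀ n : ℕ, SB σ ρ Z (max X (c * θ ^ n)) := fun n => by
    induction n with
    | zero => exact hc.mono (by simp)
    | succ n ih =>
      refine (h _ (le_max_left _ _) ih).mono (max_le (le_max_left _ _) ?_)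
      rw [max_mul_of_nonneg _ _ θ0, pow_succ, mul_assoc]
      exact max_le_max (mul_le_of_le_one_right X0 θ1.le) le_rfl
  intro m
  have t := (tendsto_const_nhds (x := X)).max
    ((tendsto_pow_atTop_nhds_zero_of_lt_one θ0 θ1).const_mul c)
  rw [mul_zero, max_eq_left X0] at t
  exact ge_of_tendsto' t fun n => k n m

theorem rfix {Q : ℝ} (θ0 : 0 ≤ θ) (θ1 : θ < 1) (w0 : 0 ≤ w) (h : Q ≤ max w Q * θ) : Q ≤ w * θ := by
  rcases le_total w Q with e | e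
  · rw [max_eq_right e] at h; nlinarith [mul_nonneg w0 θ0]
  · rwa [max_eq_left e] at h

theorem Dat.cf (hσ : σ * σ = 1) (h : Dat σ κ μ R B Z ρ ε) (m : ℤ) :
    ‖((2 * m - κ : ℤ) : K) * Z.coeff (σ * m) - (R * ev σ μ).coeff (σ * m)‖ * ρ ^ m ≤ ε ∧
      ‖B.coeff (σ * m) - (Z * ev σ μ).coeff (σ * m)‖ * ρ ^ m ≤ ε := by
  refine ⟨?_, (sb_iff hσ).1 h.2.1 m⟩
  have := (sb_iff hσ).1 h.1 m
  rw [← map_ofNat (algebraMap K L) 2, ← map_intCast (algebraMap K L) κ, HahnSeries.coeff_sub,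
    HahnSeries.coeff_sub, coeff_alg_mul, coeff_alg_mul, ths_coeff] at this
  convert this using 4
  have : (σ : K) * σ = 1 := by exact_mod_cast hσ
  push_cast
  linear_combination (-2 * m * Z.coeff (σ * m)) * this

theorem Dat.mono {ε' : ℝ} (h : Dat σ κ μ R B Z ρ ε) (hε : ε ≤ ε') : Dat σ κ μ R B Z ρ ε' :=
  ⟨h.1.mono hε, h.2.1.mono hε, h.2.2⟩

theorem SB.smul (hρ : 0 < ρ) (h : SB σ ρ u c) (a : K) :
    SB σ ρ (algebraMap K L a * u) (‖a‖ * c) := SB.mul hρ (bd_alg (zpow_pos hρ σ) a) h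

theorem Dat.lin {R' B' Z' : L} (hρ : 0 < ρ) (h : Dat σ κ μ R B Z ρ ε)
    (h' : Dat σ κ μ R' B' Z' ρ ε) {a b : K} (ha : ‖a‖ ≤ 1) (hb : ‖b‖ ≤ 1) :
    Dat σ κ μ (algebraMap K L a * R + algebraMap K L b * R')
      (algebraMap K L a * B + algebraMap K L b * B')
      (algebraMap K L a * Z + algebraMap K L b * Z') ρ ε := by
  have e0 := h.1.nonneg hρ
  have k : ∀ {u v : L}, SB σ ρ u ε → SB σ ρ v ε →
      SB σ ρ (algebraMap K L a * u + algebraMap K L b * v) ε := fun hu hv =>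
    ((hu.smul hρ a).mono (mul_le_of_le_one_left e0 ha)).add hρ
      ((hv.smul hρ b).mono (mul_le_of_le_one_left e0 hb))
  obtain ⟨c, hc⟩ := h.2.2
  obtain ⟨c', hc'⟩ := h'.2.2
  refine ⟨?_, ?_, _, ((hc.smul hρ a).mono (le_max_left _ _)).add hρ
    ((hc'.smul hρ b).mono (le_max_right _ _))⟩
  · convert k h.1 h'.1 using 1
    simp only [map_add, Derivation.leibniz, Derivation.map_algebraMap, smul_eq_mul]
    ring
  · convert k h.2.1 h'.2.1 using 1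
    ring

theorem pin {a E : ℤ} (a1 : 1 ≤ a) (aE : a ≤ E) (h30 : a + E ≤ 30) (hκ : 2 ≤ κ)
    (hv : ∀ m, κ ≤ m → ∀ v : ℕ, 20 * (v : ℤ) ≤ |2 * m - κ| + 15 → (v = 0 ∨ 5 ∣ 2 * m - κ) →
      25 * v + E ≤ a * m ∧ 25 * v + E ≤ 30 + (a - 1) * m)
    (hμ : Mu μ (s ^ (-2 * a)) 1 d) (D1 : Dat 1 κ μ R B Z (s ^ (-1 : ℤ)) ε)
    (D2 : Dat 1 κ μ R B Z (s ^ (-a)) ε) (hR : SB 1 1 R w) (oR : Ord R 1) (oB : Ord B κ)
    (hε : ε ≤ w * s ^ (-30 : ℤ)) :
    ‖R.coeff 1‖ ≤ w * s ^ (-a) ∧ SB 1 (s ^ (-a)) B (w * s ^ (-E)) := by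
  have w0 := hR.nonneg one_pos
  have p := zp (-a)
  have dc := hμ.dec (a := a) (ρ := s ^ (-a)) (by omega) (by rw [za]; congr 1; ring) (by simp)
  have on : ∀ Y, w * s ^ (-E) ≤ Y → SB 1 (s ^ (-a)) Z Y → ∀ m < κ,
      ‖Z.coeff (1 * m)‖ * (s ^ (-a)) ^ m ≤ Y * s ^ (-a) := fun Y hY hZ m hm => by
    refine dom rfl p hZ dc ?_ le_rfl
    have := (D2.cf rfl m).2
    rw [oB _ (by omega), zero_sub, norm_neg] at this
    refine this.trans (hε.trans (le_trans ?_ (mul_le_mul_of_nonneg_right hY p.le)))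
    rw [mul_assoc, za]
    exact zw w0 (by omega)
  have hZ : SB 1 (s ^ (-a)) Z (w * s ^ (-E)) := by
    refine fix p.le (zl (by omega)) (mul_nonneg w0 (zp _).le) D2.2.2 fun Y hY hZ =>
      (sb_iff rfl).2 fun m => ?_
    rcases lt_or_ge m κ with hm | hm
    · exact (on Y hY hZ m hm).trans (le_max_right _ _)
    refine le_max_of_le_left (dv (n := 2 * m - κ) (by omega) (by positivity) fun v h1 h2 => ?_)
    obtain ⟨v1, v2⟩ := hv m hm v h1 h2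
    have e1 := at' (D1.cf rfl m).1 (1 - a)
    have e2 := at' ((sb_iff rfl).1 (hR.mul one_pos ((sb_ev rfl).2 hμ.1)) m) (-a)
    rw [za, show -1 + (1 - a) = -a by ring] at e1
    rw [one_mul (s ^ _), mul_one] at e2
    rw [mul_assoc w, za, ← sub_add_cancel (_ * _) ((R * ev 1 μ).coeff (1 * m))]
    refine nadd (by positivity) (e1.trans ((mul_le_mul_of_nonneg_right hε (zp _).le).trans ?_))
      (e2.trans (zw w0 (by linarith)))
    rw [mul_assoc, za]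
    exact zw w0 (by linarith)
  refine ⟨?_, ?_⟩
  · have hR' : SB 1 (s ^ (-a)) R (w * s ^ (-a)) := by
      have := Bd.of_ord (τ := 1) p (zl (by omega)).le (by simpa [SB] using hR) oR
      simpa [SB] using this
    have e1 := on _ le_rfl hZ 1 (by omega)
    have e2 := (D2.cf rfl 1).1
    have e3 : ‖((2 * 1 - κ : ℤ) : K) * Z.coeff (1 * 1)‖ * (s ^ (-a)) ^ (1 : ℤ) ≤
        w * s ^ (-a) * s ^ (-a) := by
      rw [norm_mul, mul_assoc]
      refine (mul_le_of_le_one_left (by positivity) (norm_int_le _)).trans (e1.trans ?_)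
      exact mul_le_mul_of_nonneg_right (zw w0 (by omega)) p.le
    have e4 := nsub (by positivity) e3 (e2.trans (hε.trans (by
      rw [mul_assoc, za]; exact zw w0 (by omega))))
    rw [sub_sub_cancel] at e4
    have := dom rfl p hR' dc e4 le_rfl
    rw [zpow_one, mul_one] at this
    exact le_of_mul_le_mul_right this p
  · rw [← sub_add_cancel B (Z * ev 1 μ)]
    exact (D2.2.1.mono (hε.trans (zw w0 (by omega)))).add p (by
      simpa using hZ.mul p ((sb_ev rfl).2 (hμ.mid (zp _) (zs (by omega)) (zl (by omega)).le)))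

theorem pout {r : ℝ} (hr : 0 < r) {P : L} {q : K[X]} (hμ : Mu μ r (r * s ^ (24 : ℤ)) d)
    (D1 : Dat (-1) 4 μ (P + ev (-1) (xg q)) B Z (r * s ^ (1 : ℤ)) ε)
    (D2 : Dat (-1) 4 μ (P + ev (-1) (xg q)) B Z (r * s ^ (12 : ℤ)) ε) (hP : SB (-1) r P w)
    (oP : Ord P 0) (oB : Ord B 0) (hε : ε ≤ w * s ^ (-12 : ℤ)) :
    gn (r * s ^ (12 : ℤ)) (X * q) ≤ w * s ^ (-12 : ℤ) ∧ SB (-1) (r * s ^ (12 : ℤ)) B w := by
  have w0 := hP.nonneg hr
  have hσ : (-1 : ℤ) * -1 = 1 := rfl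
  have t := zp (-12)
  have t1 : s ^ (-12 : ℤ) < 1 := zl (by norm_num)
  have p : 0 < r * s ^ (12 : ℤ) := mul_pos hr (zp _)
  have p' : 0 < r * s ^ (24 : ℤ) := mul_pos hr (zp _)
  have dc := hμ.dec (a := 12) (ρ := r * s ^ (12 : ℤ)) (by omega) rfl (by rw [mul_assoc, za]; rfl)
  set Q := gn (r * s ^ (12 : ℤ)) (X * q) with hQ
  have Q0 : 0 ≤ Q := gn_nonneg p _
  have e : xg q = toLaurent (X * q) := by simp [xg]
  have q1 : LB (r * s ^ (12 : ℤ)) (xg q) Q := e ▸ lb_toL p _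
  have q2 : LB r (xg q) Q := by
    have := q1.of_ord hr (le_mul_of_one_le_right hr.le (one_le_zpow₀ s1.le (by norm_num)))
      (e ▸ lo_toL _)
    rwa [zpow_zero, mul_one] at this
  set X₀ := max w Q with hX
  have X0 : 0 ≤ X₀ := le_max_of_le_left w0
  have ε1 : ε ≤ X₀ * s ^ (-12 : ℤ) := hε.trans (by gcongr; exact le_max_left _ _)
  have on : ∀ Y, w ≤ Y → SB (-1) (r * s ^ (12 : ℤ)) Z Y → ∀ m, 0 < m →
      ‖Z.coeff (-1 * m)‖ * (r * s ^ (12 : ℤ)) ^ m ≤ Y * s ^ (-12 : ℤ) := fun Y hY hZ m hm => by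
    refine dom hσ p hZ dc ?_ le_rfl
    have := (D2.cf hσ m).2
    rw [oB _ (by omega), zero_sub, norm_neg] at this
    exact this.trans (hε.trans (by gcongr))
  have hZ : ∀ Y, w ≤ Y → LB r (xg q) Y → SB (-1) (r * s ^ (12 : ℤ)) Z Y := fun Y₀ h0 hq => by
    have Y0 := w0.trans h0
    refine fix t.le t1 Y0 D2.2.2 fun Y hY hZ => (sb_iff hσ).2 fun m => ?_
    rcases lt_or_ge 0 m with hm | hm
    · exact (on Y (h0.trans hY) hZ m hm).trans (le_max_right _ _)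
    refine le_max_of_le_left (dv (n := 2 * m - 4) (by omega) (by positivity) fun v h1 h2 => ?_)
    rw [abs_of_neg (by omega)] at h1
    have e1 := at' (D1.cf hσ m).1 11
    have e2 := at' ((sb_iff hσ).1 (((hP.mono h0).add hr ((sb_ev hσ).2 hq)).mul hr
      ((sb_ev hσ).2 hμ.2.1)) m) 12
    rw [mul_assoc r, za, show (1 : ℤ) + 11 = 12 by rfl] at e1
    rw [mul_one] at e2
    rw [← sub_add_cancel (_ * _) (((P + ev (-1) (xg q)) * ev (-1) μ).coeff (-1 * m))]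
    refine nadd (by positivity) (e1.trans ((mul_le_mul_of_nonneg_right hε (zp _).le).trans ?_))
      (e2.trans (zw Y0 (by omega)))
    rw [mul_assoc, za]
    exact (zw w0 (by omega)).trans (mul_le_mul_of_nonneg_right h0 (zp _).le)
  have hq : Q ≤ w * s ^ (-12 : ℤ) := by
    refine rfix t.le t1 w0 (gn_le fun i => ?_)
    rcases i with _ | i
    · simpa using mul_nonneg X0 (inv_nonneg.2 (zp 12).le)
    have e1 := on _ (le_max_left _ _) (hZ X₀ (le_max_left _ _) (q2.mono (le_max_right _ _)))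
      (i + 1 : ℕ) (by omega)
    have e2 := (D2.cf hσ (i + 1 : ℕ)).1
    have e3 := at' ((sb_iff hσ).1 ((hP.far p' (by
      rw [zpow_neg_one, zpow_neg_one]
      exact inv_anti₀ hr (le_mul_of_one_le_right hr.le (one_le_zpow₀ s1.le (by norm_num)))) oP).mul
        p' ((sb_ev hσ).2 hμ.1)) (i + 1 : ℕ)) (-12)
    rw [mul_assoc r, za, show (24 : ℤ) + -12 = 12 by rfl, mul_one] at e3
    have e4 : ‖((2 * (i + 1 : ℕ) - 4 : ℤ) : K) * Z.coeff (-1 * (i + 1 : ℕ))‖ *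
        (r * s ^ (12 : ℤ)) ^ ((i + 1 : ℕ) : ℤ) ≤ X₀ * s ^ (-12 : ℤ) := by
      rw [norm_mul, mul_assoc]
      exact (mul_le_of_le_one_left (by positivity) (norm_int_le _)).trans e1
    have e5 := nsub (by positivity) (nsub (by positivity) e4 (e2.trans ε1))
      (e3.trans ((zw w0 (show _ ≤ -12 by omega)).trans (by gcongr; exact le_max_left _ _)))
    rw [sub_sub_cancel, add_mul, HahnSeries.coeff_add, add_sub_cancel_left] at e5
    have := dom hσ p ((sb_ev hσ).2 q1) dc e5 (by gcongr; exact le_max_right _ _)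
    rwa [ev_coeff hσ, ← mul_assoc, hσ, one_mul, e, coeff_toL, zpow_natCast] at this
  refine ⟨hq, ?_⟩
  rw [← sub_add_cancel B (Z * ev (-1) μ)]
  have w1 := mul_le_of_le_one_right w0 t1.le
  exact (D2.2.1.mono (hε.trans w1)).add p (by
    simpa using (hZ w le_rfl (q2.mono (hq.trans w1))).mul p ((sb_ev hσ).2 (hμ.mid hr
      (le_mul_of_one_le_right hr.le (one_le_zpow₀ s1.le (by norm_num))) (zw hr.le (by norm_num)))))

end

end Pool.Agent.MP_8d06cc_nt.H27
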