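import Pool.Agent.MP_8d06cc_nt.H90.Side

/-! Two points at a flower exclude two points on the path above it. -/

namespace Pool.Agent.MP_8d06cc_nt.H27

open Polynomial Finset

namespace Cfg

variable {Z : Cfg} {l c₁ c₂ : ℚ} {r : ℝ} {γ : K} {ρ : K[X]} {M : Fin 2 → ℚ} {y : Fin 2 → K}

theorem Fl.half (h : Z.Fl l c₁ c₂ r) (hρ : Z.Rho c₁ c₂ r γ ρ) (p : P5 r) {a : ℚ} (ha : Z.Fre a)
    (a1 : ‖(a : K) - c₂‖ ≤ 1 / 5) (hM : ∀ i, Z.Fre (M i)) (hy : ∀ i, y i ^ 2 = Z.F.eval (M i : K))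
    (vm : ∀ i, Vm c₁ c₂ r γ ρ (M i) (y i)) {t : Fin 2 → ℤ} (ht : ∀ i, ‖(M i : K)‖ = 5 ^ t i)
    (t1 : ∀ i, 1 ≤ t i) : ∃ (u : Sol Z.F fun i => (![a, M 0, M 1] i : ℚ)) (n₁ n₂ : ℤ) (w : ℝ),
      w = max ‖(n₁ : K)‖ ‖(n₂ : K)‖ * ‖γ‖ ∧ u.W 1 = n₁ * y 0 ∧ u.W 2 = n₂ * y 1 ∧ u.Bdd r ∧
      n₁ ≠ 0 ∧ n₁ * t 0 + n₂ * t 1 = 0 ∧ ‖u.W 0‖ ≤ w * s ^ (-5 : ℤ) ∧
      gn 1 u.q ≤ w * r * s ^ (-24 : ℤ) ∧ gn 1 (u.q - C (u.q.coeff 0)) ≤ w * s ^ (-5 : ℤ) ∧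
      ‖u.q.eval (c₁ : K) - (n₁ * y 0 * (M 0 - c₁ : K)⁻¹ + n₂ * y 1 * (M 1 - c₁ : K)⁻¹)‖ ≤
        w * s ^ (-5 : ℤ) := by
  obtain ⟨ya, -, y3⟩ := ha.sq
  have g := hρ.g0
  have hy' : ∀ i, ![(ya : K), y 0, y 1] i ^ 2 = Z.F.eval ((![a, M 0, M 1] i : ℚ) : K) := by
    simp [Fin.forall_fin_succ, hy, y3]
  obtain ⟨u, n, u1, b1, br, u3⟩ := Z.gbdd3 hy' (by simp [Fin.forall_fin_succ, ha.1, (hM _).1])
    (by simp [Fin.forall_fin_succ, ha.2, (hM _).2]) P5.one p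
  have m1 : ∀ i, 1 ≤ ‖(M i : K)‖ := fun i => ht i ▸ one_le_zpow₀ (by norm_num) (by linarith [t1 i])
  have r4 : ∀ i, ‖(5 ^ t i * ((M i - c₁) / (c₁ - c₂)) : K) ^ 4 - 1‖ ≤ 1 / 5 := fun i => by
    have e : ‖(((M i - c₁) / (c₁ - c₂) : ℚ) : K)‖ = 5 ^ t i := by
      simp [(vm i).2.1, h.far, m1, ← ht]
    obtain ⟨t', e1, e2⟩ := rat4 (q := (M i - c₁) / (c₁ - c₂)) fun e' => by
      rw [e', Rat.cast_zero, norm_zero] at e
      exact (zpow_pos (by norm_num) _).ne e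
    rw [e, zpow_right_inj₀ (by norm_num) (by norm_num)] at e1
    simpa [e1] using e2
  obtain ⟨k1, k2⟩ := h.log hρ (t := ![0, t 0, t 1]) u u1 hy' b1 br u3 0 a1 rfl
    (by simp [Fin.forall_fin_succ, vm, -one_div, r4]) (ν := max ‖(n 1 : K)‖ ‖(n 2 : K)‖)
    (by positivity) (by simp [Fin.forall_fin_succ])
  simp only [Fin.sum_univ_three, Matrix.cons_val, mul_zero, zero_add] at k1
  have n1 : n 1 ≠ 0 := fun e => by
    have e2 : n 2 = 0 := by have := t1 1; simpa [e, show t 1 ≠ 0 by omega] using k1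
    refine u3 (funext fun i => ?_)
    fin_cases i
    exacts [by simpa [e, e2] using k2, by simp [u1.W, e], by simp [u1.W, e2]]
  have w0 : 0 < max ‖(n 1 : K)‖ ‖(n 2 : K)‖ * ‖γ‖ :=
    mul_pos (lt_max_of_lt_left (by simpa using n1)) g
  have a2 : ‖(a : K)‖ ≤ 1 := (norm_sub_iff h.c2).1 (by linarith)
  have a3 : ‖(a : K) - c₁‖ = 1 := by
    rw [← h.far, norm_sub_rev (c₁ : K)]
    exact norm_eq_of_sub_lt (by
      rw [sub_sub_sub_cancel_right, norm_sub_rev (c₂ : K), h.far]; linarith)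
  have yM := fun i => hρ.yM h.r1 (vm i).1 (vm i).2.1 (vm i).2.2.1 (vm i).2.2.2
  obtain ⟨j1, j2, j3, -⟩ := h.wd u b1 br (by simp [Fin.forall_fin_succ, (vm _).1, a2.trans h.r1])
    (by simp [Fin.forall_fin_succ, (vm _).2.1, a2, a3]) w0 fun i => by
      fin_cases i
      · simpa [a2] using k2.trans (mul_le_of_le_one_right w0.le (zl (by norm_num)).le)
      all_goals
        simp only [u1.W, norm_mul, mul_assoc]
        exact mul_le_mul (by simp) (yM _).le (norm_nonneg _) (by positivity)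
  refine ⟨u, n 1, n 2, _, rfl, u1.W 1, u1.W 2, br, n1, k1, k2, j1, j2.trans (zw w0.le (by norm_num)),
    ?_⟩
  convert norm_add_le' (j3.trans (zw w0.le (show _ ≤ -5 by norm_num))) (show ‖u.W 0 * (a - c₁ : K)⁻¹‖ ≤ _ by
    simpa [a3] using k2) using 2
  simp [Fin.sum_univ_three, u1.W]
  ring

theorem Fl.no22 (h : Z.Fl l c₁ c₂ r) (p : P5 r) {a₁ a₂ : ℚ} (h1 : Z.Fre a₁) (h2 : Z.Fre a₂)
    (a1 : ‖(a₁ : K) - c₁‖ ≤ 1 / 5) (a2 : ‖(a₂ : K) - c₂‖ ≤ 1 / 5) (hM : ∀ i, Z.Fre (M i))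
    (m1 : ∀ i, 1 < ‖(M i : K)‖) (m2 : ∀ i, ‖(M i : K)‖ ≤ r) (m3 : ‖(M 0 : K) - M 1‖ = r) :
    False := by
  obtain ⟨γ, ρ, hρ⟩ := h.rho
  have g := hρ.g0
  have r0 := p.pos
  have r1 := h.r1
  have mx := fun i => max_eq_right (m1 i).le
  have d1 : ∀ i, ‖(M i : K) - c₁‖ = ‖(M i : K)‖ := fun i => norm_sub_big (h.c1.trans_lt (m1 i))
  have d2 : ∀ i, ‖(M i : K) - c₂‖ = ‖(M i : K)‖ := fun i => norm_sub_big (h.c2.trans_lt (m1 i))
  choose y hy y2 using fun i => hρ.sgn r1 (m2 i) ((d1 i).trans (mx i).symm)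
    ((d2 i).trans (mx i).symm)
  choose t ht using fun i => p5_rat (q := M i) fun e => by simpa [e, zero_lt_one.not_gt] using m1 i
  have t1 : ∀ i, 1 ≤ t i := fun i =>
    (one_lt_zpow_iff_right₀ (a := (5 : ℝ)) (by norm_num)).1 (ht i ▸ m1 i)
  obtain ⟨u, n₁, n₂, w, hw, u1, u2, ub, n0, k1, k2, k3, k4, k5⟩ := h.half hρ p h2 a2 hM hy
    (fun i => ⟨m2 i, (d1 i).trans (mx i).symm, (d2 i).trans (mx i).symm, y2 i⟩) ht t1
  obtain ⟨u', n₁', n₂', w', hw', u1', u2', ub', n0', k1', k2', -, -, k5'⟩ := h.symm.half hρ.symm p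
    h1 a1 hM hy (fun i => ⟨m2 i, (d2 i).trans (mx i).symm, (d1 i).trans (mx i).symm, by
      rw [mul_right_comm γ]; exact y2 i⟩) ht t1
  have pr : (n₁' * n₂ : K) = n₁ * n₂' := by
    have := t1 1
    exact_mod_cast mul_right_cancel₀ (show t 1 ≠ 0 by omega)
      (by linear_combination n₁' * k1 - n₁ * k1')
  have N0 : 0 < ‖(n₁' : K)‖ := by simpa using n0'
  have w0 : 0 < w := hw ▸ mul_pos (lt_max_of_lt_left (by simpa using n0)) g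
  have ww : ‖(n₁ : K)‖ * w' = ‖(n₁' : K)‖ * w := by
    rw [hw, hw', ← mul_assoc, ← mul_assoc, mul_max_of_nonneg _ _ (norm_nonneg _),
      mul_max_of_nonneg _ _ (norm_nonneg _), ← norm_mul _ (n₂' : K), ← pr, norm_mul, mul_comm ‖(n₁ : K)‖]
  have sc : ∀ {z : K}, ‖z‖ ≤ w * s ^ (-5 : ℤ) → ‖n₁' * z‖ ≤ ‖(n₁' : K)‖ * w * s ^ (-5 : ℤ) :=
    fun h => by rw [norm_mul, mul_assoc]; gcongr
  have sc' : ∀ {z : K}, ‖z‖ ≤ w' * s ^ (-5 : ℤ) → ‖-n₁ * z‖ ≤ ‖(n₁' : K)‖ * w * s ^ (-5 : ℤ) :=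
    fun h => by rw [norm_mul, norm_neg, ← ww, mul_assoc]; gcongr
  have x1 : ‖(a₁ : K)‖ ≤ r := ((norm_sub_iff h.c1).1 (by linarith)).trans r1
  have x2 : ‖(a₂ : K)‖ ≤ r := ((norm_sub_iff h.c2).1 (by linarith)).trans r1
  have hx : ∀ {a : ℚ}, ‖(a : K)‖ ≤ r → ∀ i, ‖((![a, M 0, M 1] i : ℚ) : K)‖ ≤ r := fun h => by
    simp [Fin.forall_fin_succ, h, m2]
  obtain ⟨j, hj⟩ := ex_out (Z := Z) (by rw [h.h4]; omega)
  have jo : r * s ≤ ‖Z.β j‖ := le_trans (by rw [s]; linarith) ((h.ho j).resolve_left hj)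
  have W0 := mul_pos (mul_pos N0 w0) (zp (-5))
  have o := (wout2 u u' Z.F_deg r0 (hx x2) (hx x1) (rho_out u r0 ub (hx x2) (Z.F_root j) jo)
    (rho_out u' r0 ub' (hx x1) (Z.F_root j) jo) (fac4 h.h4 r1 (mul_pos r0 (zp _))
      fun i => (h.ho i).imp_right (le_trans (by nlinarith [s5]))) (norm_int_le n₁') (b := -n₁)
    (by simpa using norm_int_le n₁) (P := pole (n₁' * u.W 0) a₂ + pole (-n₁ * u'.W 0) a₁)
    (q := C (n₁' : K) * u.q + C (-n₁ : K) * u'.q) (by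
      have := congrArg (algebraMap K L) pr
      simp only [Sol.R_out, Fin.sum_univ_three, u1, u2, u1', u2', pole, xg, map_add, map_mul,
        toLaurent_C, ev_C, Matrix.cons_val, map_neg] at this ⊢
      linear_combination ev (-1) (.T 1) * algebraMap K L (y 1) *
        (ev (-1) (.T 1) - algebraMap K L (M 1 : K))⁻¹ * this) W0
    (((pole_bd r0 _ x2).1.mono (sc k2)).add r0 ((pole_bd r0 _ x1).1.mono (sc' k2')))
    ((pole_bd r0 _ x2).2.add (pole_bd r0 _ x1).2)).1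
  have z1 : 1 ≤ r * s ^ (12 : ℤ) :=
    one_le_mul_of_one_le_of_one_le r1 (one_le_zpow₀ s1.le (by norm_num))
  have o2 := (eval_le one_pos h.c2 _).trans ((gn_mono one_pos z1 _).trans
    ((le_mul_of_one_le_left (gn_nonneg (by positivity) _) z1).trans (((congrArg (· * _)
      (gn_X (by positivity)).symm).trans (gn_mul (by positivity) _ _).symm).trans_le
        (o.trans (mul_le_of_le_one_right W0.le (zl (by norm_num)).le)))))
  have o3 := norm_sub_le' ((eval_le one_pos h.c2 _).trans k4) ((eval_le one_pos h.c1 _).trans k4)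
  have o4 := norm_sub_le' (norm_sub_le' (norm_sub_le' o2 (sc o3)) (sc' k5')) (sc k5)
  have ne1 := fun i => norm_pos_iff.1 (d1 i ▸ one_pos.trans (m1 i))
  have ne2 := fun i => norm_pos_iff.1 (d2 i ▸ one_pos.trans (m1 i))
  have θ1 : s ^ (-5 : ℤ) < 1 := zl (by norm_num)
  have ρ1 := fun i => (hρ.n _ (Rho.le12 r1 (m2 i))).trans (zs (show _ ≤ -5 by norm_num))
  have s5 : 1 / 5 ≤ s ^ (-5 : ℤ) := by norm_num [s]
  have y3 : ∀ i, ‖y i * (M i - c₁ : K)⁻¹ - γ * (M i - c₂)‖ ≤ ‖γ‖ * (‖(M i : K)‖ * s ^ (-5 : ℤ)) :=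
    fun i => by
    have := m1 i
    have e1 : ‖(y i - γ * (M i - c₁) * (M i - c₂) * ρ.eval (M i : K)) * (M i - c₁ : K)⁻¹‖ ≤
        ‖γ‖ * (‖(M i : K)‖ * s ^ (-5 : ℤ)) := by
      rw [norm_mul, norm_inv, d1, mul_inv_le_iff₀ (by linarith)]
      refine (y2 i).trans ?_
      rw [mx, mul_right_comm, div_eq_mul_one_div]
      gcongr
      nlinarith
    convert norm_add_le' e1 (show ‖γ * ((M i - c₂) * (ρ.eval (M i : K) - 1))‖ ≤ _ by
      rw [norm_mul, norm_mul, d2]; gcongr; exact ρ1 i) using 2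
    have := ne1 i
    field_simp
    ring
  have nw : ∀ {n : ℤ} {z : K} {c : ℝ}, ‖(n : K)‖ ≤ max ‖(n₁ : K)‖ ‖(n₂ : K)‖ → ‖z‖ ≤ ‖γ‖ * c →
      ‖n * z‖ ≤ w * c := fun a b => by
    rw [norm_mul, hw, mul_assoc]; exact mul_le_mul a b (norm_nonneg _) (by positivity)
  have y4 : ∀ i, ‖(y i * (M i - c₁ : K)⁻¹ - γ * (M i - c₂)) * (M i - c₂ : K)⁻¹‖ ≤
      ‖γ‖ * s ^ (-5 : ℤ) := fun i => by
    rw [norm_mul, norm_inv, d2, mul_inv_le_iff₀ (by linarith [m1 i])]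
    exact (y3 i).trans (le_of_eq (by ring))
  have o5 : ‖γ * (n₁ + n₂)‖ < w := by
    have e : ‖n₁' * ((c₁ - c₂) * (n₁ * (y 0 * (M 0 - c₁ : K)⁻¹ * (M 0 - c₂ : K)⁻¹) +
        n₂ * (y 1 * (M 1 - c₁ : K)⁻¹ * (M 1 - c₂ : K)⁻¹)))‖ ≤ _ := le_of_eq_of_le (congrArg _ (by
      have := ne1 0
      have := ne1 1
      have := ne2 0
      have := ne2 1
      simp only [eval_add, eval_sub, eval_mul, eval_C]
      field_simp
      linear_combination -(M 0 - c₁) * (M 0 - c₂) * (M 1 - c₁) * y 1 * pr)) o4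
    rw [norm_mul, norm_mul, h.far, one_mul, mul_assoc ‖_‖] at e
    refine lt_of_eq_of_lt (congrArg _ ?_) ((norm_sub_le' (norm_sub_le' (le_of_mul_le_mul_left e N0)
      (nw (le_max_left _ _) (y4 0))) (nw (le_max_right _ _) (y4 1))).trans_lt
        (mul_lt_of_lt_one_right w0 θ1))
    have := ne2 0
    have := ne2 1
    field_simp
    ring
  have o6 : ‖(n₁ : K)‖ * ‖γ‖ = w := by
    rw [norm_mul, hw, mul_comm, mul_lt_mul_iff_left₀ g] at o5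
    rw [hw, max_eq_left (not_lt.1 fun e => ?_)]
    rw [max_eq_right e.le] at o5
    simpa using norm_sub_lt' o5 e
  have wr := mul_pos w0 r0
  have lt : ∀ {z : K} {c : ℝ}, c ≤ r → ‖z‖ ≤ w * (c * s ^ (-5 : ℤ)) → ‖z‖ < w * r := fun a b =>
    b.trans_lt (by nlinarith [mul_le_mul_of_nonneg_left a (mul_pos w0 (zp (-5))).le])
  have f1 := ((eval_le one_pos h.c1 _).trans k3).trans_lt
    (mul_lt_of_lt_one_right wr (zl (by norm_num)))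
  have f2 : ‖γ * (n₁ + n₂) * (M 1 - c₂)‖ < w * r := by
    rw [norm_mul, d2]
    exact mul_lt_mul o5 (m2 1) (by linarith [m1 1]) w0.le
  have := norm_sub_lt' (norm_sub_lt' (norm_sub_lt' (norm_sub_lt' f1 (lt r1 (by simpa using k5)))
    (lt (m2 0) (nw (le_max_left _ _) (y3 0)))) (lt (m2 1) (nw (le_max_right _ _) (y3 1)))) f2
  rw [show _ - _ = n₁ * γ * (M 0 - M 1 : K) by ring, norm_mul, norm_mul, o6, m3] at this
  exact this.false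

end Cfg

end Pool.Agent.MP_8d06cc_nt.H27
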