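import Pool.Agent.MP_8d06cc_nt.H90.Star2
import Pool.Agent.MP_8d06cc_nt.H90.Two
import Pool.Agent.MP_8d06cc_nt.H90.Fin

/-! At most five abscissas when all branch points are rational. -/

namespace Pool.Agent.MP_8d06cc_nt.H27

open Polynomial Finset

/-- The vector of five multiplicities. -/
def vec5 (a b c d e : ℕ) (x : ZMod 5) : ℕ := ![a, b, c, d, e] x

set_option synthInstance.maxSize 4000 in
theorem decA : ∀ a b c d e : Fin 4, a.1 + b + c + d + e = 8 →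
    (∀ x, vec5 a b c d e x ≠ 1) → (∀ x, vec5 a b c d e x = 0 →
      ∃ z : ZMod 5, z ^ 2 = ∏ x' : ZMod 5, (x - x') ^ vec5 a b c d e x') →
    ∃ x, vec5 a b c d e x = 0 ∧ ∀ x' ≠ x, vec5 a b c d e x' = 2 := by decide +kernel

namespace Cfg

variable {Z : Cfg}

theorem nr_cover (hr : Z.Rat) : Z.nr (‖·‖ ≤ 1) ≤ ∑ c : ZMod 5, Z.nr (‖· - rp c‖ < 1) := by
  classical
  refine le_trans (card_le_card fun i hi => ?_) card_biUnion_le
  obtain ⟨q, hq⟩ := hr i
  simpa [hq] using exists_class (q := q) (hq ▸ (mem_filter.1 hi).2)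

theorem sideR (hr : Z.Rat) (hl : Z.Light) (h4 : Z.nr (‖·‖ ≤ 1) = 4) {r : ℝ} (r1 : 1 ≤ r)
    (ho : ∀ i, ‖Z.β i‖ ≤ 1 ∨ 5 * r ≤ ‖Z.β i‖) : Z.fr (‖·‖ ≤ 1) ≤ 1 ∨ (Z.fr (‖·‖ ≤ 1) ≤ 2 ∧
      ∃ l c₁ c₂ a₁ a₂ : ℚ, Z.Fl l c₁ c₂ r ∧ Z.Fre a₁ ∧ Z.Fre a₂ ∧ ‖(a₁ : K) - c₁‖ ≤ 1 / 5 ∧
        ‖(a₂ : K) - c₂‖ ≤ 1 / 5) := by
  obtain ⟨n, h⟩ := red4 h4
  have ho1 : ∀ i, ‖Z.β i‖ ≤ 1 ∨ 5 ≤ ‖Z.β i‖ := fun i => (ho i).imp_right fun e => by linarith
  by_cases hq : Sq (n 0) (n 1) (n 2) (n 3)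
  · obtain ⟨p, q, C₁, C₂, hp, hq, h⟩ := h.fl hq hl h4 r1 ho
    have h' : Z.Fl _ C₁ C₂ 1 := ⟨h4, le_rfl, by simpa using ho1, h.c1, h.c2, h.far, h.ap⟩
    by_cases hv : Z.fr Z.Vt = 0
    · have k := fr_or (Z := Z) (p := (‖·‖ ≤ 1)) (q := (‖· - C₁‖ < 1)) (r := (‖· - C₂‖ < 1))
        fun a ha h1 => h.cover h1 (fr_zero.1 hv a ha)
      have k1 := h.cl
      have k2 := h.symm.cl
      refine or_iff_not_imp_left.2 fun g => ⟨by omega, ?_⟩
      obtain ⟨a₁, b1, e1⟩ := fr_ex (Z := Z) (p := (‖· - C₁‖ < 1)) (by omega)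
      obtain ⟨a₂, b2, e2⟩ := fr_ex (Z := Z) (p := (‖· - C₂‖ < 1)) (by omega)
      have := gap_lt P5.one (q := a₁ - (p - a₂)) (by
        convert norm_add_lt' e1 e2 using 2
        push_cast [← hp]
        ring)
      exact ⟨_, _, _, a₁, a₂, h.move hp hq e2, b1, b2, by rw [← Rat.cast_sub]; linarith, by simp⟩
    obtain ⟨v, v1, v2⟩ := fr_ex hv
    refine .inl ((fr_mono fun a ha h1 => by_contra fun h2 => ?_).trans h'.twoV)
    rcases h.cover h1 h2 with e | e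
    · exact (h'.symm.move ((add_comm _ _).trans hp) ((mul_comm _ _).trans hq) e).noVA ha v1 v2
    · exact (h'.move hp hq e).noVA ha v1 v2
  left
  by_cases h2 : ∀ c : ZMod 5, Z.nr (‖· - rp c‖ < 1) ≤ 1
  · have k : ∑ c : ZMod 5, (Z.fr (‖· - rp c‖ < 1) + Z.nr (‖· - rp c‖ < 1)) ≤ ∑ _c : ZMod 5, 1 :=
      sum_le_sum fun c _ => by
        have := Z.dirF P5.one _ (hl c)
        have := h2 c
        omega
    have := nr_cover hr
    have := fr_class (Z := Z)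
    simp only [sum_add_distrib, sum_const, card_univ, ZMod.card, smul_eq_mul] at k
    omega
  obtain ⟨c, hc⟩ := not_forall.1 h2
  obtain ⟨i, hi⟩ : ∃ i, ‖Z.β i - rp c‖ < 1 := by
    by_contra g
    rw [nr_eq_zero.2 fun i hi => g ⟨i, hi⟩] at hc
    omega
  refine (fr_mono fun v hv h1 => ⟨h1, fun vv => ?_⟩).trans ((h.bcl hl (p := fun z => ¬ Z.Vt z)
    (ε := 0) fun a c _ h1 _ h2 => absurd h2 h1).trans (dec5 _ _ _ _ hq).2.2)
  obtain ⟨σ, r, hW, -⟩ := Z.base (fun _ : Unit => v) () hv.1 hv.2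
  have hb := h.bdd hq σ r.1 r.2
  have w0 := norm_pos_iff.2 hW
  have i1 := (norm_sub_iff (rp_le c)).1 hi.le
  have v1 : ‖v - Z.β i‖ = 1 :=
    le_antisymm (norm_sub_le' h1 i1) (by rw [norm_sub_rev]; exact not_lt.1 (vv.2 i))
  have k1 := (q_small h4 ho1 (fun _ => h1) σ hb w0 fun _ => le_rfl).1.trans_lt
    (mul_lt_of_lt_one_right w0 (zl (by norm_num)))
  have hκ : Z.nr (‖· - rp c‖ < 1) = 2 ∨ Z.nr (‖· - rp c‖ < 1) = 3 := by
    have := hl c
    omega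
  have k2 := (Z.cwin (κ := Z.nr (‖· - rp c‖ < 1)) (a := 12) (E := 18) (by norm_num) (by norm_num)
    (by norm_num) (by omega) (fun m _ v k _ => by
      rw [abs_of_nonneg (by omega)] at k; omega) i1 (nr_congr fun j => by
      simpa using norm_sub_iff' (z := Z.β j - rp c) hi) (fun j hj => by
      obtain ⟨a, ha⟩ := hr i
      obtain ⟨b, hb⟩ := hr j
      have := gap_lt P5.one (q := b - a) (by simpa [ha, hb] using hj)
      rw [ha, hb, ← Rat.cast_sub]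
      exact le_trans (by linarith) s5') σ hb (fun _ => v1.ge) w0
    (gn_sub_le one_pos k1.le ((gn_C _ _).le.trans ((cf_le _ _).trans k1.le)))
    fun _ => by simp [v1]).1.trans_lt (mul_lt_of_lt_one_right w0 (zl (by norm_num)))
  simpa [v1] using norm_sub_lt' ((eval_le one_pos i1 _).trans_lt k1) k2

theorem Rat.cases (hr : Z.Rat) (i : Fin 8) {r : ℝ} (p : P5 r) : ‖Z.β i‖ ≤ r ∨ 5 * r ≤ ‖Z.β i‖ := by
  obtain ⟨q, hq⟩ := hr i
  exact hq ▸ rat_cases q p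

theorem Rat.four (hr : Z.Rat) : Z.nr (‖·‖ < 5) = Z.nr (‖·‖ ≤ 1) := nr_congr fun i =>
  ⟨fun h => (hr.cases i P5.one).resolve_right (by linarith), fun h => by linarith⟩

theorem side2 (hr : Z.Rat) (hl : Z.Light) (h4 : Z.nr (‖·‖ ≤ 1) = 4) : Z.fr (‖·‖ ≤ 1) ≤ 2 :=
  (sideR hr hl h4 le_rfl fun i => hr.cases i P5.one).elim (by omega) And.left

theorem End.one {N : ℝ} (h : End Z N) (hr : Z.Rat) (h2 : 2 ≤ Z.fr (Md N)) :
    Z.fr (‖·‖ ≤ 1) ≤ 1 := by
  obtain ⟨M, inj, hM⟩ := fr_pts h2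
  have m1 : ∀ i, 1 < ‖(M i : K)‖ := fun i => by linarith [(hM i).2.1]
  have p : ∀ i, P5 ‖(M i : K)‖ := fun i =>
    p5_rat fun e => by simpa [e, zero_lt_one.not_gt] using m1 i
  have fa : ∀ i j, i ≠ j → ‖(M i : K)‖ ≤ ‖(M i : K) - M j‖ := fun i j e =>
    (hM i).1.far (hM j).1 (inj.ne e) (p i) fun l hl => by
      have := norm_eq_of_sub_lt hl
      linarith [h.big l (by linarith [(hM i).2.1]), (hM i).2.2]
  refine (sideR hr h.l (hr.four ▸ h.h4) (r := max ‖(M 0 : K)‖ ‖(M 1 : K)‖)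
    (le_max_of_le_left (m1 0).le) fun i => (hr.cases i P5.one).imp_right fun e => ?_).resolve_right
    fun ⟨_, _, _, _, _, _, f, a1, a2, a3, a4⟩ => f.no22 (by
      rcases max_choice ‖(M 0 : K)‖ ‖(M 1 : K)‖ with e | e <;> rw [e] <;> apply p) a1 a2 a3 a4
      (fun i => (hM i).1) m1 (by simp) (le_antisymm (norm_sub_le' (le_max_left _ _) (le_max_right _ _))
        (max_le (fa 0 1 (by simp)) (by rw [norm_sub_rev]; exact fa 1 0 (by simp))))
  linarith [(hr.cases i h.p).resolve_left (h.big i (by linarith)).not_ge,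
    max_le (hM 0).2.2 (hM 1).2.2]

theorem caseA0 (hl : Z.Light) (h0 : 0 ∉ Z.T) (hβ : ∀ i, Z.β i ≠ 0)
    (hk : 5 ≤ Z.nr (‖·‖ ≤ 1)) (h6 : 6 ≤ Z.fr fun _ => True) : Z.fr (1 < ‖·‖) ≠ 0 ∧
      ∀ c : ZMod 5, Z.fr (‖· - rp c‖ < 1) ≠ 0 ∧ Z.nr (‖· - rp c‖ < 1) ≠ 1 := by
  have k1 := fr_in_out (Z := Z)
  have k2 := (dir_out h0 hβ hk).1
  have k3 := five hl
  have k4 : ∀ c : ZMod 5, Z.fr (‖· - rp c‖ < 1) ≠ 0 := fun c e => by
    have := fr_class.trans_lt (sum_lt_sum (fun c _ => (Z.dirF P5.one _ (hl c)).1)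
      ⟨c, mem_univ _, by omega⟩)
    simp only [sum_const, card_univ, ZMod.card, smul_eq_mul] at this
    omega
  exact ⟨by omega, fun c => ⟨k4 c, fun e => k4 c ((Z.dirF P5.one _ (hl c)).2 e)⟩⟩

theorem caseA1 (hr : Z.Rat) (hl : Z.Light) (h0 : 0 ∉ Z.T) (hβ : ∀ i, Z.β i ≠ 0)
    (h1 : ∀ i, ‖Z.β i‖ ≤ 1) : Z.fr (fun _ => True) ≤ 5 := by
  classical
  by_contra! h6
  have h8 : Z.nr (‖·‖ ≤ 1) = 8 := by simp [nr, h1]
  obtain ⟨k1, k2⟩ := caseA0 hl h0 hβ (by omega) h6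
  have e : ∀ x, vec5 (Z.nr (‖· - rp 0‖ < 1)) (Z.nr (‖· - rp 1‖ < 1)) (Z.nr (‖· - rp 2‖ < 1))
      (Z.nr (‖· - rp 3‖ < 1)) (Z.nr (‖· - rp 4‖ < 1)) x = Z.nr (‖· - rp x‖ < 1) := fun x => by
    fin_cases x <;> rfl
  have := decA ⟨_, Nat.lt_succ_of_le (hl 0)⟩ ⟨_, Nat.lt_succ_of_le (hl 1)⟩
    ⟨_, Nat.lt_succ_of_le (hl 2)⟩ ⟨_, Nat.lt_succ_of_le (hl 3)⟩ ⟨_, Nat.lt_succ_of_le (hl 4)⟩
    (h8 ▸ (Fin.sum_univ_five fun c : ZMod 5 => Z.nr (‖· - rp c‖ < 1)).symm.trans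
      (le_antisymm sum_class (nr_cover hr)))
  simp only [e] at this
  refine (this (fun c => (k2 c).2) fun c hc => ?_).elim fun c ⟨c1, c2⟩ =>
    star hr h1 c1 c2 fun c => (k2 c).1
  obtain ⟨v, hv, v1⟩ := fr_ex k1
  obtain ⟨a, ha, a1⟩ := fr_ex (k2 c).1
  obtain ⟨y, -, hy⟩ := ha.sq
  obtain ⟨w, w0, hw⟩ := hv.sq
  choose q hq using hr
  choose κ hκ using fun i => exists_class (q := q i) (hq i ▸ h1 i)
  have v0 : v ≠ 0 := fun e => by simp [e, zero_lt_one.not_gt] at v1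
  have e1 : (y * v ^ 4 / w) ^ 2 * ∏ i, (1 - q i * v⁻¹) = ∏ i, (a - q i) := by
    have : ∏ i, (1 - q i * v⁻¹) = (∏ i, (v - q i)) * v⁻¹ ^ 8 := by
      rw [show v⁻¹ ^ 8 = ∏ _i : Fin 8, v⁻¹ by simp, ← prod_mul_distrib]
      exact prod_congr rfl fun i _ => by field_simp
    rw [this]
    apply Rat.cast_injective (α := K)
    apply mul_left_cancel₀ Z.c0
    simp only [F_eval', hq] at hy hw
    push_cast
    have := Rat.cast_ne_zero (α := K).2 v0
    have := Rat.cast_ne_zero (α := K).2 w0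
    rw [← hy, mul_left_comm, ← mul_assoc Z.c, ← hw]
    field_simp
  have vi : ‖((v⁻¹ : ℚ) : K)‖ < 1 := by simpa using inv_lt_one_of_one_lt₀ v1
  have a2 := (norm_sub_iff (rp_le c)).1 a1.le
  obtain ⟨z, hz⟩ := lift0 (q := y * v ^ 4 / w) (le_of_sq_le_sq₀ zero_le_one (by
    have := congrArg (fun z : ℚ => ‖(z : K)‖) e1
    simp only [Rat.cast_mul _ (∏ _, _), Rat.cast_prod, norm_mul, norm_prod] at this
    rw [prod_eq_one fun i _ => by
      rw [Rat.cast_sub, Rat.cast_mul, norm_sub_big (by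
        rw [norm_mul, Rat.cast_one, norm_one]
        exact mul_lt_one_of_nonneg_of_lt_one_right (hq i ▸ h1 i) (norm_nonneg _) vi)]
      simp, mul_one, Rat.cast_pow, norm_pow] at this
    rw [this, one_pow]
    exact prod_le_one (fun _ _ => norm_nonneg _) fun i _ => by
      rw [Rat.cast_sub]; exact norm_sub_le' a2 (hq i ▸ h1 i)))
  obtain ⟨a', ha'⟩ := lift0 a2
  obtain ⟨v', hv'⟩ := lift0 vi.le
  choose b hb using fun i => lift0 (q := q i) (hq i ▸ h1 i)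
  have e2 : z ^ 2 * ∏ i, (1 - b i * v') = ∏ i, (a' - b i) :=
    (show Function.Injective (PadicInt.Coe.ringHom (p := 5)) from Subtype.val_injective) (by
    have := congrArg (fun z : ℚ => (z : ℚ_[5])) e1
    have c : ∀ x : ℤ_[5], PadicInt.Coe.ringHom x = x := fun _ => rfl
    simp only [map_mul, map_prod, map_sub, map_pow, map_one]
    simpa only [c, hz, hb, hv', ha', Rat.cast_mul _ (∏ _, _), Rat.cast_prod,
      Rat.cast_pow, Rat.cast_sub, Rat.cast_mul (q _), Rat.cast_one] using this)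
  have e3 := congrArg PadicInt.toZMod e2
  simp only [map_mul, map_prod, map_sub, map_pow, map_one, (cong5 hv' 0).2 (by simpa using vi),
    (cong5 ha' _).2 (rp_cast c ▸ a1), fun i => (cong5 (hb i) _).2 (rp_cast _ ▸ hκ i), ri_cast,
    Int.cast_zero, mul_zero, sub_zero, prod_const_one, mul_one] at e3
  refine ⟨_, e3.trans ?_⟩
  rw [← prod_fiberwise' univ κ fun x => c - x]
  refine prod_congr rfl fun x _ => ?_
  rw [prod_const, nr_eq]
  congr 2
  ext i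
  simpa [hq] using ⟨fun e => e ▸ hκ i, cls_eq (hκ i)⟩

theorem caseA5 (hr : Z.Rat) (hl : Z.Light) (h0 : 0 ∉ Z.T) (hβ : ∀ i, Z.β i ≠ 0)
    (hk : 5 ≤ Z.nr (‖·‖ ≤ 1)) : Z.fr (fun _ => True) ≤ 5 := by
  by_contra! h6
  have k := (caseA0 hl h0 hβ hk h6).2
  have k8 := nr_not (Z := Z) (‖·‖ ≤ 1)
  obtain ⟨c, hc⟩ : ∃ c : ZMod 5, Z.nr (‖· - rp c‖ < 1) = 0 := by
    by_contra! g
    have := (sum_le_sum (f := fun _ => 2) fun c _ => by
      have := g c
      have := (k c).2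
      omega).trans (sum_class (Z := Z))
    simp only [sum_const, card_univ, ZMod.card, smul_eq_mul] at this
    omega
  obtain ⟨γ, g1, g2, g3⟩ := Z.exists_near (rp c) one_pos
  have g4 := (norm_sub_iff (rp_le c)).1 g1.le
  have b1 : ∀ i, 1 ≤ ‖Z.β i - γ‖ := fun i => not_lt.1 fun e =>
    nr_eq_zero.1 hc i (by simpa using norm_add_lt' e g1)
  have t0 : 0 ∉ (Z.aff 1 γ one_ne_zero).T := by
    simp only [aff, mem_image, div_one, sub_eq_zero, not_exists, not_and]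
    rintro a ha rfl
    exact g2 ha
  have t1 : ∀ i, (Z.aff 1 γ one_ne_zero).β i ≠ 0 := fun i => by simpa [aff, sub_eq_zero] using g3 i
  have e : ∀ i, ((Z.aff 1 γ one_ne_zero).inv t0 t1).β i = (Z.β i - γ)⁻¹ := fun i => by
    simp [inv, aff]
  have := caseA1 ((rat_inv t0 t1).1 ((rat_aff 1 γ one_ne_zero).1 hr)) (fun x => ?_) (by
    simpa [inv] using t0) (fun i => inv_ne_zero (t1 i)) fun i => by
    rw [e, norm_inv]; exact inv_le_one_of_one_le₀ (b1 i)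
  · rw [fr_inv, fr_aff] at this
    omega
  by_cases g : ((Z.aff 1 γ one_ne_zero).inv t0 t1).nr (‖· - rp x‖ < 1) = 0
  · omega
  obtain ⟨i, hi⟩ := not_forall.1 (mt nr_eq_zero.2 g)
  rw [not_not, e] at hi
  have p := fun j => one_pos.trans_le (b1 j)
  rcases (b1 i).eq_or_lt with g | g
  · obtain ⟨q, hq⟩ := hr i
    obtain ⟨d, hd⟩ := exists_class (q := q) (hq ▸ (norm_sub_iff g4).1 g.ge)
    refine le_trans (card_le_card fun j hj => ?_) (hl d)
    simp only [mem_filter, mem_univ, true_and, e] at hj ⊢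
    have k1 := norm_sub_lt' hj hi
    rw [sub_sub_sub_cancel_right] at k1
    have k2 := norm_eq_of_sub_lt (k1.trans_eq (by rw [norm_inv, ← g, inv_one]))
    rw [norm_inv, norm_inv, inv_inj] at k2
    rw [inv_sub_inv (norm_pos_iff.1 (p j)) (norm_pos_iff.1 (p i)), norm_div, norm_mul, k2, ← g,
      mul_one, div_one, sub_sub_sub_cancel_right] at k1
    convert norm_sub_lt' hd (hq ▸ k1) using 2
    ring
  · refine le_trans (card_le_card fun j hj => ?_) (show Z.nr (fun z => ¬ ‖z‖ ≤ 1) ≤ 3 by omega)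
    simp only [mem_filter, mem_univ, true_and, e] at hj ⊢
    have k1 := norm_add_lt' (norm_sub_lt' hj hi)
      (show ‖(Z.β i - γ)⁻¹‖ < 1 by rw [norm_inv]; exact inv_lt_one_of_one_lt₀ g)
    rw [sub_sub_sub_cancel_right, sub_add_cancel, norm_inv, inv_lt_one₀ (p j)] at k1
    exact fun h => k1.not_ge (norm_sub_le' h g4)

theorem rat5' (Z : Cfg) : Z.Rat → Z.fr (fun _ => True) ≤ 5 := by
  refine shape (fun Z => Z.Rat → Z.fr (fun _ => True) ≤ 5)
    (fun Z α γ h k hr => by simpa only [fr_aff] using k ((rat_aff α γ h).1 hr))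
    (fun Z h h' k hr => by simpa only [fr_inv] using k ((rat_inv h h').1 hr))
    (fun Z a b c d hr => caseA5 hr a b c d) (fun Y Y' n h l l' k k' j j' hr => ?_) Z
  have hr' : Y'.Rat := h.rat.1 hr
  have a := side2 hr l (le_antisymm k (hr.four ▸ j))
  have a' := side2 hr' l' (le_antisymm k' (hr'.four ▸ j'))
  rcases n with _ | n
  · have := (short h).1
    omega
  have p := P5.five.pow (n + 1)
  have n5 : (5 : ℝ) ≤ 5 ^ (n + 1) := le_self_pow₀ (by norm_num) n.succ_ne_zero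
  have e := h.ends p n5 l j j'
  have e' := h.symm.ends p n5 l' j' j
  have t := h.tot p
  have := s0
  have m : 2 * Y.fr (Md (5 ^ (n + 1))) ≤ 4 := (two_fr _).trans (Y.annulus P5.five p (‖·‖ < 5) e.h4
    (fun i hi => (le_div_iff₀ (by positivity)).2 (by
      nlinarith [(hr.cases i P5.one).resolve_right (by linarith), s8, pow_pos s0 8])) fun i hi => by
      nlinarith [(hr.cases i p).resolve_left (e.big i hi).not_ge, s8, p.pos])
  by_cases g : 2 ≤ Y.fr (Md (5 ^ (n + 1)))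
  · have := e.one hr g
    have := e'.one hr' (g.trans (h.symm.md p))
    omega
  · omega

theorem eighteen (Z : Cfg) : ∑ a ∈ Z.T, wg 1 Z.f a ≤ 18 := by
  classical
  rw [Z.wg_eq]
  have k : #(Z.T.filter fun a => Z.f.eval a = 0) ≤ #{i | ∃ q : ℚ, Z.β i = q} := by
    choose! ι hι using fun a => (Z.root_iff a).1
    refine card_le_card_of_injOn ι (fun a ha => ?_) fun a ha b hb e => ?_
    · simpa using ⟨a, hι a (by simpa using (mem_filter.1 ha).2)⟩
    · exact Rat.cast_injective ((hι a (mem_filter.1 ha).2).symm.trans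
        (e ▸ hι b (mem_filter.1 hb).2))
  have k8 := card_le_univ ({i | ∃ q : ℚ, Z.β i = q} : Finset (Fin 8))
  have := Z.six
  rw [Fintype.card_fin] at k8
  by_cases g : #{i | ∃ q : ℚ, Z.β i = q} ≤ 6
  · omega
  suffices Z.Rat by have := Z.rat5' this; omega
  intro i
  by_contra hi
  have hj : ∀ j ∈ univ.erase i, ∃ q : ℚ, Z.β j = q := fun j hj => by
    have := eq_of_subset_of_card_le (s := {i | ∃ q : ℚ, Z.β i = q}) (t := univ.erase i)
      (fun j hj => mem_erase.2 ⟨fun e => hi (e ▸ (mem_filter.1 hj).2), mem_univ _⟩)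
      (by simp only [card_erase_of_mem (mem_univ i), card_univ, Fintype.card_fin]; omega)
    rw [← this] at hj
    exact (mem_filter.1 hj).2
  choose! q hq using hj
  have e := congrArg nextCoeff Z.F_eq
  have e' := congrArg leadingCoeff Z.F_eq
  rw [nextCoeff_C_mul, prod_X_sub_C_nextCoeff, ← add_sum_erase _ _ (mem_univ i), sum_congr rfl hq, F,
    nextCoeff_map (Rat.castHom K).injective] at e
  rw [leadingCoeff_C_mul_of_isUnit (Ne.isUnit Z.c0),
    (monic_prod_of_monic _ _ fun i _ => monic_X_sub_C _).leadingCoeff, mul_one, F,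
    leadingCoeff_map] at e'
  refine hi ⟨-(Z.f.nextCoeff / Z.f.leadingCoeff) - ∑ j ∈ univ.erase i, q j, ?_⟩
  have := Z.c0
  simp only [eq_ratCast] at e e'
  push_cast [e, e']
  field_simp
  ring

end Cfg

end Pool.Agent.MP_8d06cc_nt.H27
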