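import Pool.Agent.MP_8d06cc_nt.H90.Regs
import Pool.Agent.MP_8d06cc_nt.H90.Cart

/-! Reduction modulo five at a vertex with four branch points. -/

namespace Pool.Agent.MP_8d06cc_nt.H27

open Polynomial Finset

theorem gn_X {r : ℝ} (hr : 0 < r) : gn r X = r := by simpa [hr.le] using gn_X_sub hr 0

/-- Polynomials with integral coefficients. -/
def O1 : Subring K[X] where
  carrier := {P | gn 1 P ≤ 1}
  mul_mem' ha hb := by
    rw [Set.mem_ofPred_eq, gn_mul one_pos]; exact mul_le_one₀ ha (gn_nonneg one_pos _) hb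
  one_mem' := (gn_one 1).le
  add_mem' ha hb := (gn_add one_pos _ _).trans (max_le ha hb)
  zero_mem' := (gn_zero 1).le.trans zero_le_one
  neg_mem' ha := (gn_neg one_pos _).le.trans ha

theorem X_O1 : X ∈ O1 := (gn_X one_pos).le

theorem C_O1 {a : K} (h : ‖a‖ ≤ 1) : C a ∈ O1 := (gn_C 1 a).le.trans h

theorem gn_C_mul_le {a : K} {P : K[X]} (h : P ∈ O1) : gn 1 (C a * P) ≤ ‖a‖ := by
  rw [gn_mul one_pos, gn_C]; exact mul_le_of_le_one_right (norm_nonneg _) h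

theorem cf_le (P : K[X]) (i : ℕ) : ‖P.coeff i‖ ≤ gn 1 P := by simpa using le_gn one_pos P i

/-- A monic quartic with integer coefficients. -/
noncomputable def Qp (R : Type) [CommRing R] (n : ℕ → ℤ) : R[X] :=
  C (n 0 : R) + C (n 1 : R) * X + C (n 2 : R) * X ^ 2 + C (n 3 : R) * X ^ 3 + X ^ 4

theorem Qp_coeff (R : Type) [CommRing R] (n : ℕ → ℤ) (j : ℕ) :
    (Qp R n).coeff j = ((if j < 4 then n j else if j = 4 then 1 else 0 : ℤ) : R) := by
  rcases j with _ | _ | _ | _ | _ | j <;>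
    simp [Qp, coeff_X, coeff_C, coeff_X_pow, -map_intCast, -eq_intCast]

/-- Taylor coefficients. -/
def tay (n : ℕ → ℤ) (c : ℤ) (j : ℕ) : ℤ :=
  if j = 0 then t0 (n 0) (n 1) (n 2) (n 3) 1 c else if j = 1 then t1 (n 1) (n 2) (n 3) 1 c else
    if j = 2 then t2 (n 2) (n 3) 1 c else t3 (n 3) 1 c

/-- The quartic is a square. -/
def Sq (a b c d : ZMod 5) : Prop := 8 * b = d * (4 * c - d ^ 2) ∧ 64 * a = (4 * c - d ^ 2) ^ 2

/-- The Hasse invariant. -/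
def al (a b c d : ZMod 5) : ZMod 5 := 2 * a + 2 * b * d + c ^ 2

/-- The obstruction at a point. -/
def be (b c d x : ZMod 5) : ZMod 5 := 2 * b + 2 * c * d + (2 * c + d ^ 2) * x + 2 * d * x ^ 2 + x ^ 3

theorem nq (q : ℚ) : ‖(q : K)‖ = ‖(q : ℚ_[5])‖ := by rw [norm_rat, Padic.eq_padicNorm]

theorem cong5 {q : ℚ} {z : ℤ_[5]} (h : (z : ℚ_[5]) = q) (m : ℤ) :
    PadicInt.toZMod z = m ↔ ‖(q : K) - m‖ < 1 := by
  have := nq (q - m)
  push_cast at this
  rw [this, ← h, ← sub_eq_zero, ← map_intCast PadicInt.toZMod m, ← map_sub, ← RingHom.mem_ker,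
    PadicInt.ker_toZMod, IsLocalRing.mem_maximalIdeal, PadicInt.mem_nonunits, PadicInt.norm_def]
  push_cast
  rfl

theorem lift0 {q : ℚ} (h : ‖(q : K)‖ ≤ 1) : ∃ z : ℤ_[5], (z : ℚ_[5]) = q := ⟨⟨q, nq q ▸ h⟩, rfl⟩

/-- Rational polynomials over `K`. -/
noncomputable abbrev mK (P : ℚ[X]) : K[X] := P.map (Rat.castHom K)

/-- An integral lift. -/
def Lf (P : ℚ[X]) (P' : ℤ_[5][X]) : Prop :=
  P'.map PadicInt.Coe.ringHom = P.map (Rat.castHom ℚ_[5])

theorem lift5 {P : ℚ[X]} (h : gn 1 (mK P) ≤ 1) : ∃ P', Lf P P' :=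
  (mem_lifts _).1 ((lifts_iff_coeff_lifts _).2 fun i => by
    obtain ⟨z, hz⟩ := lift0 (q := P.coeff i) (by simpa using (cf_le _ i).trans h)
    exact ⟨z, hz.trans (by simp)⟩)

theorem Lf.cf {P : ℚ[X]} {P' : ℤ_[5][X]} (h : Lf P P') (i : ℕ) :
    (P'.coeff i : ℚ_[5]) = P.coeff i := by
  have := congrArg (coeff · i) h
  simp only [coeff_map] at this
  exact this

theorem Lf.red {P : ℚ[X]} {P' : ℤ_[5][X]} (h : Lf P P') {Q : ℤ[X]}
    (hQ : gn 1 (mK P - Q.map (Int.castRingHom K)) < 1) :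
    P'.map PadicInt.toZMod = Q.map (Int.castRingHom _) := by
  ext i
  rw [coeff_map, coeff_map]
  exact (cong5 (h.cf i) _).2 (by simpa using (cf_le _ i).trans_lt hQ)

theorem lf_inj : Function.Injective (Polynomial.map (PadicInt.Coe.ringHom (p := 5))) :=
  map_injective _ Subtype.val_injective

theorem Qp_map (R : Type) [CommRing R] (n : ℕ → ℤ) : (Qp ℤ n).map (Int.castRingHom R) = Qp R n := by
  simp [Qp]

theorem Qp_O1 (n : ℕ → ℤ) : Qp K n ∈ O1 := by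
  unfold Qp
  apply_rules (transparency := .reducible) [add_mem, mul_mem, pow_mem, X_O1, C_O1, norm_int_le]

theorem gn_add_lt {P Q : K[X]} {r c : ℝ} (hr : 0 < r) (h : gn r P < c) (h' : gn r Q < c) :
    gn r (P + Q) < c := (gn_add hr _ _).trans_lt (max_lt h h')

theorem gn_sub_lt {P Q : K[X]} {r c : ℝ} (hr : 0 < r) (h : gn r P < c) (h' : gn r Q < c) :
    gn r (P - Q) < c := (gn_sub hr _ _).trans_lt (max_lt h h')

theorem gn_near {P Q : K[X]} {r : ℝ} (hr : 0 < r) (h : gn r (P - Q) < gn r Q) : gn r P = gn r Q := by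
  refine le_antisymm (by simpa using (gn_add hr (P - Q) Q).trans (max_le h.le le_rfl))
    (not_lt.1 fun h' => ?_)
  simpa using gn_sub_lt hr h' h

theorem sq_of {R : (ZMod 5)[X]} {κ : ZMod 5} {n : ℕ → ℤ} (h0 : R ≠ 0)
    (h : R ^ 2 = C κ * Qp _ n) : Sq (n 0) (n 1) (n 2) (n 3) := by
  have κ0 : κ ≠ 0 := by rintro rfl; simp [h0] at h
  have d : R.natDegree ≤ 2 := by
    have := congrArg natDegree h
    have e : (C κ * Qp (ZMod 5) n).natDegree ≤ 4 := by unfold Qp; compute_degree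
    rw [natDegree_pow] at this
    omega
  rw [R.as_sum_range' 3 (by omega)] at h
  simp only [sum_range_succ, sum_range_zero, ← C_mul_X_pow_eq_monomial] at h
  generalize R.coeff 0 = a at h
  generalize R.coeff 1 = b at h
  generalize R.coeff 2 = c at h
  have e : (0 + C a * X ^ 0 + C b * X ^ 1 + C c * X ^ 2 : (ZMod 5)[X]) ^ 2 = C (a ^ 2) +
      C (2 * a * b) * X + C (b ^ 2 + 2 * a * c) * X ^ 2 + C (2 * b * c) * X ^ 3 + C (c ^ 2) * X ^ 4 := by
    simp only [map_add, map_mul, map_pow, map_ofNat]; ring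
  have k := fun j => congrArg (coeff · j) (e.symm.trans h)
  have k0 := k 0
  have k1 := k 1
  have k2 := k 2
  have k3 := k 3
  have k4 := k 4
  simp [Qp_coeff, coeff_X, coeff_C, coeff_X_pow, -map_pow, -map_mul, -map_add] at k0 k1 k2 k3 k4
  subst k4
  exact ⟨mul_left_cancel₀ (pow_ne_zero 3 κ0) (by
      linear_combination -8 * c ^ 4 * k1 + 4 * c ^ 4 * n 3 * k2 + (8 * a * c ^ 3 -
        2 * b * c * (n 3 * c ^ 2) - (n 3 * c ^ 2) ^ 2) * k3), mul_left_cancel₀ (pow_ne_zero 4 κ0) (by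
      linear_combination -64 * c ^ 6 * k0 + (8 * a * c ^ 3 + 4 * n 2 * c ^ 4 - n 3 ^ 2 * c ^ 4) *
        (4 * c ^ 2 * k2 - (2 * b * c + n 3 * c ^ 2) * k3))⟩

namespace Cfg

variable (Z : Cfg)

/-- The reduction of `F / l` is the quartic with coefficients `n`. -/
def Red (l : ℚ) (n : ℕ → ℤ) : Prop := gn 1 (C (l : K)⁻¹ * Z.F - Qp K n) < 1

theorem cf_F (j : ℕ) : Z.F.coeff j = (Z.f.coeff j : ℚ) := by simp [F]

variable {Z} {l : ℚ} {n : ℕ → ℤ}

theorem Red.one (h : Z.Red l n) : gn 1 (C (l : K)⁻¹ * Z.F) = 1 := by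
  have e : gn 1 (Qp K n) = 1 := le_antisymm (Qp_O1 n) (by simpa [Qp_coeff] using cf_le (Qp K n) 4)
  rw [gn_near one_pos (h.trans_eq e.symm), e]

theorem Red.ne (h : Z.Red l n) : l ≠ 0 := by
  rintro rfl
  simpa [gn_zero] using h.one

theorem Red.nm (h : Z.Red l n) : ‖(l : K)‖ = gn 1 Z.F := by
  have := h.one
  rwa [gn_mul one_pos, gn_C, norm_inv, inv_mul_eq_one₀ (by simpa using h.ne)] at this

theorem Red.pos (h : Z.Red l n) : 0 < ‖(l : K)‖ := by simpa using h.ne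

theorem red4 (hk : Z.nr (‖·‖ ≤ 1) = 4) : ∃ n, Z.Red (Z.f.coeff 4) n := by
  obtain ⟨h1, h2⟩ := Z.top one_pos
  have G0 := Z.gn_pos one_pos
  simp only [one_pow, mul_one, hk] at h1 h2
  have nl : ∀ z : K, ‖(Z.F.coeff 4)⁻¹ * z‖ = ‖z‖ / gn 1 Z.F := fun z => by
    rw [norm_mul, norm_inv, h1, div_eq_inv_mul]
  have ap : ∀ l, ∃ n : ℤ, ‖(Z.F.coeff 4)⁻¹ * Z.F.coeff l - n‖ < 1 := fun l => by
    have := exists_int (q := (Z.f.coeff 4)⁻¹ * Z.f.coeff l) (by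
      push_cast
      rw [← cf_F, ← cf_F, nl, div_le_one G0]
      exact cf_le _ _)
    push_cast at this
    rwa [← cf_F, ← cf_F] at this
  choose n hn using ap
  refine ⟨n, ?_⟩
  rw [Red, ← cf_F]
  obtain ⟨l, hl⟩ := gn_eq 1 (C (Z.F.coeff 4)⁻¹ * Z.F - Qp K n)
  rw [hl, one_pow, mul_one, coeff_sub, Polynomial.coeff_C_mul, Qp_coeff]
  split_ifs with a b
  · exact hn l
  · rw [b, inv_mul_cancel₀ (by rw [← norm_pos_iff, h1]; exact G0)]
    simp
  · rw [Int.cast_zero, sub_zero, nl, div_lt_one G0]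
    exact h2 l (by omega)

theorem Red.shift (h : Z.Red l n) {b : ℚ} {c : ℤ} (hb : ‖(b : K) - c‖ < 1) :
    (Z.aff 1 b one_ne_zero).Red l (tay n c) := by
  have b1 : ‖(b : K)‖ ≤ 1 := by simpa using norm_add_le' hb.le (norm_int_le c)
  have g1 := (gn_comp one_pos b1 _).trans_lt h
  rw [sub_comp, mul_comp, C_comp, ← F_shift] at g1
  have c1 : C (b : K) ∈ O1 := C_O1 b1
  have c2 : C (c : K) ∈ O1 := C_O1 (norm_int_le c)
  have g2 : gn 1 (C ((b : K) - c) * (C (n 1 : K) + C (n 2 : K) * (X + C (b : K) + (X + C (c : K))) +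
      C (n 3 : K) * ((X + C (b : K)) ^ 2 + (X + C (b : K)) * (X + C (c : K)) + (X + C (c : K)) ^ 2) +
      (X + C (b : K) + (X + C (c : K))) * ((X + C (b : K)) ^ 2 + (X + C (c : K)) ^ 2))) < 1 :=
    (gn_C_mul_le (by
      apply_rules (transparency := .reducible) (maxDepth := 99) [add_mem, mul_mem, pow_mem, X_O1,
        C_O1, norm_int_le])).trans_lt hb
  rw [Red]
  convert gn_add_lt one_pos g1 g2 using 2
  simp [Qp, tay, t0, t1, t2, t3, map_ofNat]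
  ring

theorem Red.cls (h : Z.Red l n) {j : ℕ} (hj : j < 4) :
    (j < Z.nr (‖·‖ < 1) → (n j : ZMod 5) = 0) ∧ (j = Z.nr (‖·‖ < 1) → (n j : ZMod 5) ≠ 0) := by
  have co := (cf_le _ j).trans_lt h
  have G0 := Z.gn_pos one_pos
  obtain ⟨b1, b2⟩ := Z.bot one_pos
  rw [coeff_sub, Polynomial.coeff_C_mul, Qp_coeff, if_pos hj] at co
  simp only [one_pow, mul_one] at b1 b2
  have nl : ∀ z : K, ‖(l : K)⁻¹ * z‖ = ‖z‖ / gn 1 Z.F := fun z => by
    rw [norm_mul, norm_inv, h.nm, div_eq_inv_mul]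
  refine ⟨fun e => ?_, fun e => ?_⟩
  · have := norm_sub_lt' (show ‖(l : K)⁻¹ * Z.F.coeff j‖ < 1 by
      rw [nl, div_lt_one G0]; exact b2 j e) co
    rwa [sub_sub_cancel, zm] at this
  · rw [Ne, ← zm]
    intro h'
    have := norm_add_lt' co h'
    rw [sub_add_cancel, nl, e, b1, div_self G0.ne'] at this
    exact this.false

theorem Red.val (h : Z.Red l n) {a : ℚ} {c : ℤ} (ha : ‖(a : K) - c‖ < 1) :
    ‖((l⁻¹ * Z.f.eval a : ℚ) : K) - tay n c 0‖ < 1 := by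
  have := (cf_le _ 0).trans_lt (h.shift ha)
  rw [coeff_sub, Polynomial.coeff_C_mul, Qp_coeff, F_shift, coeff_zero_eq_eval_zero] at this
  simpa [F_eval] using this

theorem Red.lift (h : Z.Red l n) : ∃ P, Lf (C l⁻¹ * Z.f) P ∧ P.map PadicInt.toZMod = Qp _ n := by
  have e : mK (C l⁻¹ * Z.f) = C (l : K)⁻¹ * Z.F := by simp [F]
  obtain ⟨P, hP⟩ := lift5 (e ▸ h.one.le)
  exact ⟨P, hP, by rw [← Qp_map]; exact hP.red (by rwa [e, Qp_map])⟩

theorem norm_lift {P : ℚ[X]} (h : 0 < gn 1 (mK P)) : ∃ a : ℚ, a ≠ 0 ∧ ‖(a : K)‖ = gn 1 (mK P) ∧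
    ∃ P', Lf (C a⁻¹ * P) P' ∧ P'.map PadicInt.toZMod ≠ 0 := by
  obtain ⟨i, hi⟩ := gn_eq 1 (mK P)
  simp only [coeff_map, eq_ratCast, one_pow, mul_one] at hi
  have a0 : P.coeff i ≠ 0 := fun e => by simp [hi, e] at h
  obtain ⟨P', hP⟩ := lift5 (P := C (P.coeff i)⁻¹ * P) (by
    simp [gn_mul one_pos, gn_C, ← hi, h.ne'])
  refine ⟨_, a0, hi.symm, P', hP, fun e => ?_⟩
  have := (cong5 (hP.cf i) 1).2 (by simp [a0])
  rw [← coeff_map, e] at this
  simp at this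

theorem Red.bdd (h : Z.Red l n) (hq : ¬ Sq (n 0) (n 1) (n 2) (n 3)) {ι : Type} [Fintype ι]
    {x : ι → K} (σ : Sol Z.F x) (hA : Rt σ.A) (hB : Rt σ.B) : σ.Bdd 1 := by
  by_contra! hb
  rw [Sol.Bdd, not_le] at hb
  obtain ⟨A, eA⟩ := hA
  obtain ⟨B, eB⟩ := hB
  have d := gn_den_pos (x := x) one_pos σ.e
  have d2 : gn 1 (den x σ.e ^ 2) < gn 1 (σ.A ^ 2) := by
    rw [gn_pow one_pos, gn_pow one_pos]; gcongr
  have g : gn 1 (σ.B ^ 2 * Z.F) = gn 1 (σ.A ^ 2) := gn_near one_pos (by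
    rwa [← gn_neg one_pos, neg_sub, σ.pell])
  rw [gn_mul one_pos, gn_pow one_pos, gn_pow one_pos, ← h.nm, eA, eB] at g
  rw [← σ.pell, gn_pow one_pos, eA, eB] at d2
  rw [eA] at hb
  obtain ⟨a, a0, a1, A', a2, a3⟩ := norm_lift (d.trans hb)
  obtain ⟨b, b0, b1, B', b2, b3⟩ := norm_lift (P := B) ((gn_nonneg one_pos _).lt_of_ne fun e => by
    rw [← e] at g; nlinarith)
  obtain ⟨P, p1, p2⟩ := h.lift
  have l0 := h.ne
  obtain ⟨κ, hκ⟩ := lift0 (q := b ^ 2 * l / a ^ 2) (by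
    simp only [Rat.cast_div, Rat.cast_mul, Rat.cast_pow, norm_div, norm_mul, norm_pow, a1, b1, g]
    exact div_self_le_one _)
  have e : Lf (C (a⁻¹ ^ 2) * (A ^ 2 - B ^ 2 * Z.f)) (A' ^ 2 - B' ^ 2 * (C κ * P)) := by
    rw [Lf] at *
    simp only [Polynomial.map_sub, Polynomial.map_mul, Polynomial.map_pow, a2, b2, p1, map_C]
    rw [show PadicInt.Coe.ringHom κ = Rat.castHom ℚ_[5] (b ^ 2 * l / a ^ 2) from hκ]
    simp only [mul_pow, ← map_pow, mul_sub]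
    rw [show ∀ u v w z t : ℚ_[5][X], u * v * (w * (z * t)) = u * w * z * (v * t) from
      fun _ _ _ _ _ => by ring]
    simp only [← map_mul]
    congr 4
    field_simp
  have r := e.red (Q := 0) (by
    simp only [mK, Polynomial.map_zero, sub_zero, Polynomial.map_mul, map_C, gn_mul one_pos, gn_C,
      Polynomial.map_sub, Polynomial.map_pow, eq_ratCast, Rat.cast_pow, Rat.cast_inv, norm_pow,
      norm_inv, a1, inv_pow]
    exact (inv_mul_lt_one₀ (pow_pos (d.trans hb) 2)).2 d2)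
  simp only [Polynomial.map_zero, Polynomial.map_mul, map_C, Polynomial.map_sub, Polynomial.map_pow,
    p2, sub_eq_zero] at r
  obtain ⟨R, hR⟩ := (IsIntegrallyClosed.pow_dvd_pow_iff two_ne_zero).1 ⟨_, r⟩
  rw [hR, mul_pow, mul_right_inj' (pow_ne_zero 2 b3)] at r
  exact hq (sq_of (fun e => a3 (by rw [hR, e, mul_zero])) r)

theorem tay0 (n : ℕ → ℤ) (c : ℤ) :
    (tay n c 0 : ZMod 5) = t0 (n 0 : ZMod 5) (n 1) (n 2) (n 3) 1 c := by simp [tay, t0]

theorem fac4 (h4 : Z.nr (‖·‖ ≤ 1) = 4) {r R : ℝ} (hr : 1 ≤ r) (hR : 0 < R)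
    (ho : ∀ i, ‖Z.β i‖ ≤ 1 ∨ R ≤ ‖Z.β i‖) : Fac Z.F (.T 4) r R False := by
  classical
  have hF := fac_of Z.β Z.c (fun i => ‖Z.β i‖ ≤ 1) (fun _ => False) (one_pos.trans_le hr) hR
    (d := False) (fun i h => h.trans hr) (fun i h _ => (ho i).resolve_left h) False.elim
  rw [← nr_eq (‖·‖ ≤ 1), h4, ← F_eq] at hF
  simpa using hF

theorem ex_out (h : Z.nr (‖·‖ ≤ 1) < 8) : ∃ i, ¬ ‖Z.β i‖ ≤ 1 := by
  by_contra h'
  have := nr_not (Z := Z) (‖·‖ ≤ 1)
  rw [nr_eq_zero (p := fun z => ¬ ‖z‖ ≤ 1).2 fun i hi => h' ⟨i, hi⟩] at this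
  omega

theorem q_small (h4 : Z.nr (‖·‖ ≤ 1) = 4) (ho : ∀ i, ‖Z.β i‖ ≤ 1 ∨ 5 ≤ ‖Z.β i‖) {ι : Type}
    [Fintype ι] {x : ι → K} (hx : ∀ i, ‖x i‖ ≤ 1) (σ : Sol Z.F x) (hb : σ.Bdd 1) {w : ℝ}
    (w0 : 0 < w) (hW : ∀ i, ‖σ.W i‖ ≤ w) : gn 1 σ.q ≤ w * s ^ (-24 : ℤ) ∧ ∃ c,
      gn (s ^ (12 : ℤ)) Z.F ≤ ‖c‖ * (s ^ (12 : ℤ)) ^ (4 : ℤ) ∧
      ∀ᶠ k in Filter.atTop, SB (-1) (s ^ (12 : ℤ)) (σ.BB (-1) c 4 k) w := by
  obtain ⟨j, hj⟩ := ex_out (Z := Z) (by omega)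
  have s5 : 1 * s ^ (24 : ℤ) ≤ 5 := by rw [one_mul]; exact_mod_cast s24
  have := wout σ Z.F_deg one_pos hx (rho_out σ one_pos hb hx (Z.F_root j)
    (le_trans (by norm_num [s]) ((ho j).resolve_left hj)))
    (fac4 h4 le_rfl (mul_pos one_pos (zp _)) fun i => (ho i).imp_right s5.trans) w0 hW
  rw [one_mul, gn_mul (zp _), gn_X (zp _), ← le_div_iff₀' (zp _), mul_div_assoc,
    ← zpow_sub₀ s0.ne'] at this
  exact ⟨(gn_mono one_pos (one_le_zpow₀ s1.le (by norm_num)) _).trans this.1, this.2⟩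

theorem Red.cart (h : Z.Red l n) (hq : ¬ Sq (n 0) (n 1) (n 2) (n 3)) (h4 : Z.nr (‖·‖ ≤ 1) = 4)
    (ho : ∀ i, ‖Z.β i‖ ≤ 1 ∨ 5 ≤ ‖Z.β i‖) (h0 : 0 ∈ Z.T) (n0 : (n 0 : ZMod 5) ≠ 0) {a : ℚ}
    (ha : a ∈ Z.T) {c : ℤ} (hc : ‖(a : K) - c‖ < 1) (c0 : (c : ZMod 5) ≠ 0)
    (tc : (tay n c 0 : ZMod 5) ≠ 0) :
    al (n 0) (n 1) (n 2) (n 3) * be (n 1) (n 2) (n 3) c = 0 := by
  have l0 := h.ne
  have un : ∀ {q : ℚ} {m : ℤ}, ‖(q : K) - m‖ < 1 → (m : ZMod 5) ≠ 0 → ‖(q : K)‖ = 1 :=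
    fun {q m} h1 h2 => by
      have e : ‖(m : K)‖ = 1 := le_antisymm (norm_int_le m) (not_lt.1 (mt (zm m).1 h2))
      rw [← e]; exact norm_eq_of_sub_lt (e ▸ h1)
  have v0 := un (h.val (a := 0) (c := 0) (by simp)) (by simpa [tay, t0] using n0)
  have va := un (h.val hc) tc
  have a1 := un hc c0
  obtain ⟨y₀, hy₀⟩ := (Z.good 0 h0).1
  obtain ⟨y, hy⟩ := (Z.good a ha).1
  rw [← sq] at hy₀ hy
  simp only [hy₀, hy, Rat.cast_mul, Rat.cast_inv, Rat.cast_pow, norm_mul, norm_inv, norm_pow,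
    inv_mul_eq_one₀ h.pos.ne'] at v0 va
  have y0 : y₀ ≠ 0 := fun e => by simp [e, l0] at v0
  have y1 : ‖(y : K)‖ = ‖(y₀ : K)‖ :=
    (pow_left_inj₀ (norm_nonneg _) (norm_nonneg _) two_ne_zero).1 (va.symm.trans v0)
  have p0 : 0 < ‖(y₀ : K)‖ := by simpa using y0
  have y2 : y ≠ 0 := fun e => by simp [e, p0.ne] at y1
  obtain ⟨m, hm, A, B, h1, h2, h3⟩ := (Z.good _ ha).2 (by rw [hy]; positivity)
  obtain ⟨S, s1, s2, s3⟩ := exS hm h1 h3 Z.f_deg h2
  obtain ⟨σ, k, k1, k2, e1, e2, e3, e4⟩ := gd_base (f := Z.F) (x := fun _ : Unit => (a : K))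
    (y := fun _ => (y : K)) () (by rw [F_eval, hy]; simp) hm (A := mK A) (B := mK B) (S := mK S)
    ⟨_, rfl⟩ ⟨_, rfl⟩ (by simpa [F] using congrArg mK h1) (natDegree_map_le.trans h2) (by
      rw [eval_map]
      exact fun h => h3 ((map_eq_zero _).1 ((eval₂_at_apply (Rat.castHom K) _).symm.trans h)))
    (natDegree_map_le.trans s1) (by simpa using congrArg mK s2) (by simpa [F] using congrArg mK s3)
  have k0 : k ≠ 0 := by omega
  have hb := h.bdd hq σ k2.A k2.B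
  have w0 : 0 < ‖(k : K)‖ * ‖(y₀ : K)‖ := mul_pos (by simpa using k0) p0
  have hq := (q_small h4 ho (fun _ => a1.le) σ hb w0 fun i => by simp [k2.W, y1]).1
  have gd : gn 1 (den (fun _ : Unit => (a : K)) σ.e) = 1 := by
    rw [gn_den_out one_pos fun _ => a1.le, one_pow]
  have gB := hb.gnP one_pos
  rw [Sol.Bdd, gd, e1] at hb
  rw [gd, e2, gn_mul one_pos, gn_pow one_pos, ← h.nm, v0, ← mul_pow] at gB
  obtain ⟨A', hA⟩ := lift5 hb
  obtain ⟨B', hB⟩ := lift5 (P := C y₀ * B) (by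
    simpa [gn_mul one_pos, gn_C, mul_comm] using le_of_sq_le_sq₀ zero_le_one gB)
  obtain ⟨P, p1, p2⟩ := h.lift
  obtain ⟨τ, hτ⟩ := exists_int (q := y / y₀) (by simp [y1, p0.ne'])
  have gT : gn 1 (mK (C (k * y₀)⁻¹ * S) - (C τ).map (Int.castRingHom K)) < 1 := by
    have : gn 1 (C ((k * y₀ : K)⁻¹) * ((X - C (a : K)) * σ.q)) < 1 := by
      rw [gn_mul one_pos, gn_mul one_pos, gn_C, gn_X_sub one_pos, a1, max_self, one_mul, norm_inv,
        norm_mul, inv_mul_lt_one₀ w0]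
      exact hq.trans_lt (mul_lt_of_lt_one_right w0 (zl (by norm_num)))
    convert gn_add_lt one_pos this ((gn_C 1 _).trans_lt hτ) using 2
    have e : ((y / y₀ : ℚ) : K) = (k * y₀ : K)⁻¹ * (k * y) := by
      have : (k : K) ≠ 0 := Int.cast_ne_zero.2 k0
      push_cast
      field_simp
    simp only [mK] at e4
    simp only [mK, Polynomial.map_mul, map_C, e4, e, map_sub, map_mul, eq_ratCast, eq_intCast,
      Rat.cast_inv, Rat.cast_mul, Rat.cast_intCast, Polynomial.map_intCast, map_intCast]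
    ring
  obtain ⟨T, hT⟩ := lift5 (P := C (k * y₀)⁻¹ * S) (by
    simpa using (gn_add one_pos _ _).trans (max_le gT.le (C_O1 (norm_int_le τ))))
  obtain ⟨u, hu⟩ := lift0 (q := l / y₀ ^ 2) (by simp [v0, p0.ne'])
  obtain ⟨a', ha'⟩ := lift0 a1.le
  have ac := (cong5 ha' c).2 hc
  have cu : PadicInt.Coe.ringHom u = Rat.castHom ℚ_[5] (l / y₀ ^ 2) := hu
  have ca : PadicInt.Coe.ringHom a' = Rat.castHom ℚ_[5] a := ha'
  have c1 : C y₀ ^ 2 * (C (l / y₀ ^ 2) * C l⁻¹) = 1 := by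
    simp only [← map_pow, ← map_mul, ← C_1]; congr 1; field_simp
  have c2 : C y₀ * (C (k : ℚ) * C (k * y₀)⁻¹) = 1 := by
    simp only [← map_mul, ← C_1]; congr 1; field_simp
  rw [Lf] at hA hB p1 hT
  have τ4 : ∀ {z : ℚ} {j : ℤ}, ‖((l⁻¹ * z ^ 2 : ℚ) : K) - j‖ < 1 → ∀ t : ℤ,
      ‖((z / y₀ : ℚ) : K) - t‖ < 1 → PadicInt.toZMod u * j = t ^ 2 := fun {z j} g1 t g2 => by
    obtain ⟨v, hv⟩ := lift0 (q := l⁻¹ * z ^ 2) (by simpa using norm_add_le' g1.le (norm_int_le j))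
    obtain ⟨w, hw⟩ := lift0 (q := z / y₀) (by simpa using norm_add_le' g2.le (norm_int_le t))
    rw [← (cong5 hv j).2 g1, ← (cong5 hw t).2 g2, ← map_mul, ← map_pow]
    congr 1
    apply Subtype.ext
    push_cast [hu, hv, hw]
    field_simp
  have t1 := τ4 (hy ▸ h.val hc) τ hτ
  have τ0 : (τ : ZMod 5) ≠ 0 := fun e => by
    have := norm_add_lt' hτ ((zm τ).2 e)
    simp [y1, p0.ne'] at this
  have := core5 (A := A') (B := B') (P := C u * P) (T := T) (a := a') (k := k) (n := m)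
    (PadicInt.isUnit_iff.2 (by rw [PadicInt.norm_def, ha', ← nq, a1])) (by exact_mod_cast k0)
    (Subtype.ext (by
      have := congrArg (coeff · 0) p1
      simp only [coeff_map, Polynomial.coeff_C_mul, coeff_zero_eq_eval_zero Z.f, hy₀] at this
      rw [Polynomial.coeff_C_mul]
      change PadicInt.Coe.ringHom (u * P.coeff 0) = 1
      rw [map_mul, cu, this, ← map_mul, ← map_one (Rat.castHom ℚ_[5])]
      congr 1
      field_simp))
    (lf_inj (by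
      simp only [Polynomial.map_sub, Polynomial.map_mul, Polynomial.map_pow, hA, hB, p1, map_C,
        map_X, cu, ca]
      simpa only [Polynomial.map_sub, Polynomial.map_mul, Polynomial.map_pow, map_C, map_X] using
        congrArg (Polynomial.map (Rat.castHom ℚ_[5])) (show A ^ 2 - (C y₀ * B) ^ 2 *
          (C (l / y₀ ^ 2) * (C l⁻¹ * Z.f)) = (X - C a) ^ (2 * m) by
            linear_combination h1 - B ^ 2 * Z.f * c1)))
    (lf_inj (by
      simp only [Polynomial.map_sub, Polynomial.map_mul, ← derivative_map, hA, hB, hT, map_C,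
        map_X, ca, Polynomial.map_natCast, map_intCast, Polynomial.map_intCast]
      simpa only [Polynomial.map_sub, Polynomial.map_mul, ← derivative_map, map_C, map_X,
        Polynomial.map_natCast, map_intCast, Polynomial.map_intCast] using
        congrArg (Polynomial.map (Rat.castHom ℚ_[5])) (show derivative A * (X - C a) -
          (m : ℚ[X]) * A = C y₀ * B * (C (k : ℚ) * (C (k * y₀)⁻¹ * S)) by linear_combination s2 - B * S * c2)))
    (lf_inj (by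
      simp only [Polynomial.map_sub, Polynomial.map_mul, ← derivative_map, hA, hB, hT, map_C,
        map_X, ca, Polynomial.map_natCast, map_intCast, Polynomial.map_add, Polynomial.map_ofNat,
        p1, cu, Polynomial.map_intCast]
      simpa only [Polynomial.map_sub, Polynomial.map_mul, ← derivative_map, map_C, map_X,
        Polynomial.map_natCast, map_intCast, Polynomial.map_add, Polynomial.map_ofNat,
        Polynomial.map_intCast] using
        congrArg (Polynomial.map (Rat.castHom ℚ_[5])) (show 2 * (C (l / y₀ ^ 2) * (C l⁻¹ * Z.f)) *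
          (derivative (C y₀ * B) * (X - C a) - (m : ℚ[X]) * (C y₀ * B)) +
          derivative (C (l / y₀ ^ 2) * (C l⁻¹ * Z.f)) * (C y₀ * B) * (X - C a) =
          2 * A * (C (k : ℚ) * (C (k * y₀)⁻¹ * S)) by
            simp only [derivative_C_mul]
            linear_combination (C y₀ * (C (l / y₀ ^ 2) * C l⁻¹)) * s3 +
              2 * A * S * (C (k : ℚ) * C (k * y₀)⁻¹ * c1 - C y₀ * (C (l / y₀ ^ 2) * C l⁻¹) * c2))))
    (τ := τ) (by simpa using Lf.red hT gT) τ0 rfl (by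
      rw [Polynomial.map_mul, p2, map_C]
      unfold Qp
      compute_degree) (by
      rw [Polynomial.map_mul, p2, map_C, ac, eval_pow, eval_mul, eval_C,
        show eval (c : ZMod 5) (Qp _ n) = tay n c 0 by simp [Qp, tay, t0], t1]
      exact (by decide : ∀ t : ZMod 5, t ≠ 0 → (t ^ 2) ^ 2 = 1) _ τ0)
  have u0 : PadicInt.toZMod u ≠ 0 := fun e => τ0 (by simpa [e] using t1.symm)
  rw [Polynomial.map_mul, p2, map_C, ac] at this
  generalize PadicInt.toZMod u = v at *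
  have e : (C v * Qp (ZMod 5) n) ^ 2 = C (v ^ 2) * (X ^ 4 * (C (al (n 0) (n 1) (n 2) (n 3)) +
      C (2 * n 1 + 2 * n 2 * n 3 : ZMod 5) * X + C (2 * n 2 + n 3 ^ 2 : ZMod 5) * X ^ 2 +
      C (2 * n 3 : ZMod 5) * X ^ 3 + X ^ 4) + (C (n 0 ^ 2 : ZMod 5) + C (2 * n 0 * n 1 : ZMod 5) * X +
      C (2 * n 0 * n 2 + n 1 ^ 2 : ZMod 5) * X ^ 2 + C (2 * n 0 * n 3 + 2 * n 1 * n 2 : ZMod 5) * X ^ 3)) := by
    simp only [Qp, al, map_add, map_mul, map_pow, map_ofNat]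
    ring
  rw [e] at this
  simp [coeff_X, coeff_C, coeff_X_pow, coeff_X_pow_mul', -map_pow, -map_mul, -map_add,
    -mul_eq_zero] at this
  apply mul_left_cancel₀ (pow_ne_zero 4 u0)
  rw [be]
  linear_combination this

end Cfg

end Pool.Agent.MP_8d06cc_nt.H27
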