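import Pool.Agent.MP_8d06cc_nt.H90.Wrap

/-! Sharper region lemmas. -/

namespace Pool.Agent.MP_8d06cc_nt.H27

open Polynomial

theorem vb5 (n : ℤ) (hn : n ≠ 0) : ∃ v : ℕ, 5 ^ v ∣ n ∧ s ^ (-25 * v : ℤ) ≤ ‖(n : K)‖ := by
  induction h : n.natAbs using Nat.strong_induction_on generalizing n with
  | _ N ih =>
  by_cases h5 : 5 ∣ n
  · obtain ⟨m, rfl⟩ := h5
    obtain ⟨v, h1, h3⟩ := ih m.natAbs (by omega) m (by omega) rfl
    refine ⟨v + 1, by rw [pow_succ']; exact mul_dvd_mul_left 5 h1, ?_⟩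
    have : s ^ (-25 : ℤ) ≤ 1 / 5 := by norm_num [s]
    rw [Int.cast_mul, norm_mul, Int.cast_ofNat, norm_five,
      show (-25 * (v + 1 : ℕ) : ℤ) = -25 + -25 * v by push_cast; ring, ← za]
    exact mul_le_mul this h3 (zp _).le (by norm_num)
  · exact ⟨0, by simp, by simp [norm_int_eq n h5]⟩

theorem pow5 (v : ℕ) : 20 * (v : ℤ) ≤ 5 ^ v + 15 ∧ 100 * (v : ℤ) ≤ 5 ^ v + 175 := by
  have : ∀ v : ℕ, 100 * (v : ℤ) + 25 ≤ 5 ^ (v + 2) := fun v => by
    induction v with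
    | zero => norm_num
    | succ v ih => rw [pow_succ]; push_cast; omega
  rcases v with _ | _ | v
  · norm_num
  · norm_num
  · have := this v
    rw [show v + 1 + 1 = v + 2 from rfl]
    push_cast
    omega

theorem dq {n : ℤ} {z : K} {t c : ℝ} (hc : 0 ≤ c) {a e : ℤ} (hz : ‖z‖ * t ≤ c * s ^ a)
    (h : ∀ v : ℕ, n ≠ 0 → 20 * (v : ℤ) ≤ n.natAbs + 15 → 100 * (v : ℤ) ≤ n.natAbs + 175 →
      (v = 0 ∨ 5 ∣ n) → 25 * v + a ≤ e) : ‖z / n‖ * t ≤ c * s ^ e := by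
  by_cases hn : n = 0
  · simpa [hn] using mul_nonneg hc (zp e).le
  obtain ⟨v, h1, h2⟩ := vb5 n hn
  have h3 := Int.le_of_dvd (abs_pos.2 hn) ((dvd_abs _ _).2 h1)
  have h4 := pow5 v
  rw [Int.abs_eq_natAbs] at h3
  have := h v hn (by omega) (by omega) (or_iff_not_imp_left.2 fun h0 =>
    (dvd_pow_self 5 h0).trans h1)
  rw [norm_div, div_mul_eq_mul_div, div_le_iff₀ ((zp _).trans_le h2)]
  refine hz.trans (le_trans ?_ (mul_le_mul_of_nonneg_left h2 (mul_nonneg hc (zp e).le)))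
  rw [mul_assoc, za]
  exact zw hc (by omega)

theorem mono_sol (κ : ℤ) (G : LP) (h : ∀ n, 2 * n + κ = 0 → G.coeff (n + κ) = 0) :
    ∃ ψ, Lop (.T κ) ψ = G ∧ ∀ n, ψ.coeff n = G.coeff (n + κ) / ((2 * n + κ : ℤ) : K) := by
  classical
  refine ⟨.ofCoeff (Finsupp.onFinset (G.coeff.support.image (· - κ))
    (fun n => G.coeff (n + κ) / ((2 * n + κ : ℤ) : K)) fun n hn => Finset.mem_image.2
      ⟨n + κ, by simpa using (div_ne_zero_iff.1 hn).1, by simp⟩), ?_, fun n => rfl⟩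
  have e : ∀ ψ : LP, Lop (.T κ) ψ = .T κ * (.C 2 * thP ψ + .C (κ : K) * ψ) := fun ψ => by
    simp only [Lop, thP_T, map_ofNat]; ring
  ext n
  rw [e, coeff_T_mul, coeff_add', coeff_C_mul, coeff_C_mul, thP_coeff]
  change 2 * (_ * (G.coeff (n - κ + κ) / _)) + _ * (G.coeff (n - κ + κ) / _) = _
  by_cases h0 : 2 * (n - κ) + κ = 0
  · have := h _ h0
    rw [sub_add_cancel] at this
    simp [this]
  · have : ((2 * (n - κ) + κ : ℤ) : K) ≠ 0 := Int.cast_ne_zero.2 h0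
    rw [sub_add_cancel]
    field_simp
    push_cast
    ring

theorem xg2 (μ : LP) (n : ℤ) : (xg (X ^ 2) * μ).coeff n = μ.coeff (n - 3) := by
  rw [xg, toLaurent_X_pow, ← LaurentPolynomial.T_add, coeff_T_mul]
  rfl

theorem xg2_bd : LB s (xg (X ^ 2)) (s ^ (50 : ℤ)) :=
  (xg_bd (by simp) (by
    have : gn 1 X = 1 := by simpa using gn_X_sub one_pos 0
    rw [gn_pow one_pos, this, one_pow])).mono (by rw [← zpow_natCast]; exact zs (by norm_num))

theorem Mu.up {μ : LP} {R : ℝ} {E : ℕ} {d : Prop} (h : Mu μ R (s ^ E) d) (n a : ℤ) :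
    ‖μ.coeff n‖ * (s ^ a) ^ n ≤ 1 * s ^ ((a - E) * n) := by
  have := at' (h.1 n) (a - E)
  rwa [← zpow_natCast, za, add_sub_cancel] at this

theorem Mu.n0 {μ : LP} {R₁ R₂ : ℝ} {d : Prop} (h : Mu μ R₁ R₂ d) : ‖μ.coeff 0‖ = 1 := by
  simpa using norm_eq_of_sub_lt (y := 1) (by simpa using h.2.2.1)

variable {f : K[X]}

theorem reg1' {x : Unit → K} (σ : Sol f x) (hf : f.natDegree = 8) (hx : ∀ i, x i ≠ 0)
    (hx1 : ∀ i, ‖x i‖ ≤ 1) (hF : Fac f (.T 1) (1 / 2) (s ^ 3) True)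
    (ho : gn s (σ.B ^ 2 * f) < gn s (den x σ.e) ^ 2) (hW : σ.W () ≠ 0) : False := by
  have w0 := norm_pos_iff.2 hW
  have x0 := norm_pos_iff.2 (hx ())
  have h3 : s < s ^ 3 := by simpa using pow_lt_pow_right₀ s1 (show 1 < 3 by omega)
  obtain ⟨μ, hμ, h⟩ := relation (fun _ : Unit => σ) hf hx hF (by norm_num)
    (by norm_num : (1 / 2 : ℝ) < 1) s1.le h3 (fun i => (hx1 i).trans s1.le) (fun _ => ho)
    (fun h => absurd trivial h) (s ^ (50 : ℤ)) (ε := ‖σ.W ()‖ * (5 * ‖x ()‖ ^ 2)) (by positivity)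
  obtain ⟨ψ, e, hψ⟩ := mono_sol 1 (xg (X ^ 2) * μ) (by omega)
  simp only [xg2, show ∀ n : ℤ, n + 1 - 3 = n - 2 by omega] at hψ
  have lo : LO ψ 2 := fun n hn => by rw [hψ, hμ.2.2.2 trivial _ (by omega), zero_div]
  have := h ψ (X ^ 2) (by simp) (fun n => by
    rcases lt_or_ge n 2 with hn | hn
    · rw [lo n hn, norm_zero, zero_mul]; exact (zp _).le
    have := mul_le_mul_of_nonneg_right (hμ.up (n - 2) 1) (zp 2).le
    rw [zpow_one, mul_assoc, za, sub_add_cancel, mul_assoc, za] at this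
    rw [hψ, ← one_mul (s ^ (50 : ℤ))]
    exact dq zero_le_one this (by omega)) xg2_bd (fun _ n hn => lo n (by omega))
    (fun h => absurd trivial h) e ()
  rw [Fintype.sum_unique, norm_mul, norm_mul, (mu_pv hμ (by norm_num) (hx ()) (.inl trivial)
    ((hx1 ()).trans_lt (s1.trans h3))).2, mul_one, mul_lt_mul_iff_right₀ w0] at this
  have c2 : ‖ψ.coeff 2 * x () ^ (2 : ℤ)‖ = 5 * ‖x ()‖ ^ 2 := by
    simp [hψ, hμ.n0, norm_five, zpow_ofNat]
  have k := pv_lt (x := x ()) (u := ψ - .C (ψ.coeff 2) * .T 2) (c := 5 * ‖x ()‖ ^ 2)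
    (by positivity) fun n => by
      rw [coeff_sub', coeff_C_mul, LaurentPolynomial.T_apply]
      rcases lt_trichotomy n 2 with hn | rfl | hn
      · simpa [lo n hn, hn.ne'] using pow_pos x0 2
      · simpa using pow_pos x0 2
      have := dq (n := 2 * n + 1) (e := 23) zero_le_one (hμ.up (n - 2) 0) (by omega)
      rw [← hψ, zpow_zero, one_zpow, mul_one, one_mul] at this
      rw [if_neg hn.ne, mul_zero, sub_zero, ← zpow_natCast]
      exact mul_lt_mul (this.trans_lt (by norm_num [s])) (zpow_le_zpow_right_of_le_one₀ x0 (hx1 ())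
        hn.le) (by positivity) (by norm_num)
  rw [pv_sub (hx ()), pv_C_mul_T, ← c2] at k
  exact this.ne ((norm_eq_of_sub_lt k).trans c2)

theorem reg0' {x : Fin 4 → K} (σ : Fin 3 → Sol f x) (hf : f.natDegree = 8) (hx : ∀ i, x i ≠ 0)
    (hx1 : ∀ i, ‖x i‖ ≤ 1) (hx5 : ∀ i, ‖x i ^ 5 - x i‖ < 1)
    (far : ∀ i j, i ≠ j → ‖x i - x j‖ = 1) (hF : Fac f (.T 0) (1 / 2) (s ^ 6) True)
    (ho : ∀ j, gn s ((σ j).B ^ 2 * f) < gn s (den x (σ j).e) ^ 2) (hW : ∀ j, (σ j).W ≠ 0)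
    (hW' : ∀ j k, k ≠ 0 → k ≠ j.succ → (σ j).W k = 0) : False := by
  have h3 : s < s ^ 6 := by simpa using pow_lt_pow_right₀ s1 (show 1 < 6 by omega)
  have sm : ∀ j (u : Fin 4 → K), ∑ i, (σ j).W i * u i =
      (σ j).W 0 * u 0 + (σ j).W j.succ * u j.succ := fun j u =>
    Fintype.sum_eq_add _ _ (Fin.succ_ne_zero j).symm fun k hk => by rw [hW' j k hk.1 hk.2, zero_mul]
  have w0 : ∀ j, 0 < max ‖(σ j).W 0‖ ‖(σ j).W j.succ‖ := fun j => by
    by_contra! h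
    refine hW j (funext fun k => by_contra fun hk => ?_)
    rcases eq_or_ne k 0 with rfl | h1
    · exact hk (norm_le_zero_iff.1 (max_le_iff.1 h).1)
    rcases eq_or_ne k j.succ with rfl | h2
    · exact hk (norm_le_zero_iff.1 (max_le_iff.1 h).2)
    exact hk (hW' j k h1 h2)
  obtain ⟨j₀, -, hj⟩ := Finset.exists_min_image Finset.univ
    (fun j => max ‖(σ j).W 0‖ ‖(σ j).W j.succ‖) Finset.univ_nonempty
  have S1 : 1 ≤ s ^ (50 : ℤ) := one_le_zpow₀ s1.le (by norm_num)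
  obtain ⟨μ, hμ, h⟩ := relation σ hf hx hF (by norm_num)
    (by norm_num : (1 / 2 : ℝ) < 1) s1.le h3 (fun i => (hx1 i).trans s1.le) ho
    (fun h => absurd trivial h) (s ^ (50 : ℤ)) (div_pos (w0 j₀) (zp 50))
  have m1 := fun i => (mu_pv hμ (by norm_num) (hx i) (.inl trivial)
    ((hx1 i).trans_lt (s1.trans h3))).2
  obtain ⟨ψ, e, hψ⟩ := mono_sol 0 (xg (X ^ 2) * μ) fun n hn => by
    rw [xg2, hμ.2.2.2 trivial _ (by omega)]
  simp only [xg2, add_zero] at hψ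
  have lo : LO ψ 3 := fun n hn => by rw [hψ, hμ.2.2.2 trivial _ (by omega), zero_div]
  have lb : LB s ψ (s ^ (50 : ℤ)) := fun n => by
    rcases lt_or_ge n 3 with hn | hn
    · rw [lo n hn, norm_zero, zero_mul]; exact (zp _).le
    have := mul_le_mul_of_nonneg_right (hμ.up (n - 3) 1) (zp 3).le
    rw [zpow_one, mul_assoc, za, sub_add_cancel, mul_assoc, za] at this
    rw [hψ, ← one_mul (s ^ (50 : ℤ))]
    exact dq zero_le_one this (by omega)
  have lo0 : LO ψ 0 := fun n hn => lo n (by omega)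
  have r1 := h ψ (X ^ 2) (by simp) lb xg2_bd (fun _ => lo0) (fun h => absurd trivial h) e
  have r0 := h 1 0 (by simp) ((lb_one s0).mono S1) (fun n => by simpa [xg] using (zp 50).le)
    (fun _ => lo_T 0) (fun h => absurd trivial h) (by simp [Lop, xg])
  have p0 : ‖pv (x 0) ψ‖ ≤ s ^ (50 : ℤ) := pv_le (by
    simpa using lb.of_ord (norm_pos_iff.2 (hx 0)) ((hx1 0).trans s1.le) lo0)
  have key : ∀ j : Fin 3, ‖pv (x j.succ) ψ - pv (x 0) ψ‖ < 1 := fun j => by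
    have a0 := (r0 j).trans_le (div_le_div_of_nonneg_right (hj j (Finset.mem_univ j)) (zp _).le)
    have a1 := (r1 j).trans_le (div_le_div_of_nonneg_right (hj j (Finset.mem_univ j)) (zp _).le)
    rw [sm] at a0 a1
    simp only [pv_one, one_mul] at a0
    have a2 := a0.trans_le (div_le_self (w0 j).le S1)
    have a3 : max ‖(σ j).W 0‖ ‖(σ j).W j.succ‖ = ‖(σ j).W j.succ‖ := max_eq_right (by
      by_contra! g
      rw [max_eq_left g.le, IsUltrametricDist.norm_add_eq_max_of_norm_ne_norm (by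
        simpa [m1] using g.ne')] at a2
      simp [m1] at a2)
    have a4 : ‖pv (x 0) ψ * ((σ j).W 0 * pv (x 0) μ + (σ j).W j.succ * pv (x j.succ) μ)‖ <
        max ‖(σ j).W 0‖ ‖(σ j).W j.succ‖ := by
      rw [lt_div_iff₀ (zp _)] at a0
      rw [norm_mul, mul_comm]
      exact (mul_le_mul_of_nonneg_left p0 (norm_nonneg _)).trans_lt a0
    have := norm_sub_lt' (a1.trans_le (div_le_self (w0 j).le S1)) a4
    rw [show ∀ a b c d e g : K, a * (b * c) + d * (e * g) - b * (a * c + d * g) = d * g * (e - b)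
      from fun _ _ _ _ _ _ => by ring, norm_mul, norm_mul, m1, mul_one, a3] at this
    exact (mul_lt_iff_lt_one_right (a3 ▸ w0 j)).1 this
  have sp : ∀ i, ‖pv (x i) ψ - (ψ.coeff 3 * x i ^ 3 + ψ.coeff 5 * x i ^ 5)‖ < 1 := fun i => by
    have := pv_small (hx1 i) (χ := ψ - .C (ψ.coeff 3) * .T 3 - .C (ψ.coeff 5) * .T 5)
      (fun n hn => by
        simp only [coeff_sub', coeff_C_mul, lo0 n hn, lo_T 3 n (by omega), lo_T 5 n (by omega)]
        simp) fun n => by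
      simp only [coeff_sub', coeff_C_mul, LaurentPolynomial.T_apply]
      by_cases h3 : 3 = n
      · simp [← h3]
      by_cases h5 : 5 = n
      · simp [← h5]
      rcases lt_or_ge n 3 with hn | hn
      · simp [h3, h5, lo n hn]
      have := dq (n := 2 * n) (e := -1) zero_le_one (hμ.up (n - 3) 0) (by omega)
      rw [← hψ, zpow_zero, one_zpow, mul_one, one_mul] at this
      simpa [h3, h5] using this.trans_lt (zl (by norm_num))
    rwa [pv_sub (hx i), pv_sub (hx i), pv_C_mul_T, pv_C_mul_T, sub_sub, zpow_ofNat, zpow_ofNat] at this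
  have c3 : ‖ψ.coeff 3‖ = 1 := by
    rw [hψ, norm_div, sub_self, hμ.n0, norm_int_eq _ (by norm_num), div_one]
  generalize ψ.coeff 3 = α at *
  generalize ψ.coeff 5 = t at *
  have fj : ∀ j : Fin 3, ‖x j.succ - x 0‖ = 1 := fun j => far _ _ (Fin.succ_ne_zero j)
  have k1 : ∀ j : Fin 3, ‖α * (x j.succ ^ 3 - x 0 ^ 3) + t * (x j.succ ^ 5 - x 0 ^ 5)‖ < 1 :=
    fun j => by convert norm_add_lt' (norm_sub_lt' (key j) (sp j.succ)) (sp 0) using 2; ring
  have cu : ∀ i, ‖x i ^ 3‖ ≤ 1 := fun i => by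
    rw [norm_pow]; exact pow_le_one₀ (norm_nonneg _) (hx1 i)
  have t1 : ‖t‖ ≤ 1 := by
    have a1 : ‖x (Fin.succ 0) ^ 5 - x 0 ^ 5‖ = 1 := by
      rw [← fj 0]
      refine norm_eq_of_sub_lt ?_
      rw [fj]
      convert norm_sub_lt' (hx5 (Fin.succ 0)) (hx5 0) using 2
      ring
    have := norm_sub_le' (k1 0).le (show ‖α * (x (Fin.succ 0) ^ 3 - x 0 ^ 3)‖ ≤ 1 by
      rw [norm_mul, c3, one_mul]; exact norm_sub_le' (cu _) (cu _))
    rwa [add_sub_cancel_left, norm_mul, a1, mul_one] at this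
  have k2 : ∀ j : Fin 3, ‖α * (x j.succ ^ 2 + x j.succ * x 0 + x 0 ^ 2) + t‖ < 1 := fun j => by
    rw [← one_mul ‖_‖, ← fj j, ← norm_mul]
    have : ‖t * ((x j.succ ^ 5 - x j.succ) - (x 0 ^ 5 - x 0))‖ < 1 := by
      rw [norm_mul]
      exact mul_lt_one_of_nonneg_of_lt_one_right t1 (norm_nonneg _) (norm_sub_lt' (hx5 _) (hx5 _))
    rw [fj]
    convert norm_sub_lt' (k1 j) this using 2
    ring
  have k3 : ∀ j : Fin 3, j ≠ 0 → ‖x j.succ + x (Fin.succ 0) + x 0‖ < 1 := fun j hj => by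
    have := norm_sub_lt' (k2 j) (k2 0)
    rwa [show ∀ a b c : K, α * (a ^ 2 + a * c + c ^ 2) + t - (α * (b ^ 2 + b * c + c ^ 2) + t) =
      α * (a - b) * (a + b + c) from fun _ _ _ => by ring, norm_mul, norm_mul, c3,
      far _ _ ((Fin.succ_injective _).ne hj), one_mul, one_mul] at this
  have := norm_sub_lt' (k3 1 (by simp)) (k3 2 (by simp))
  rw [add_sub_add_right_eq_sub, add_sub_add_right_eq_sub, far _ _ (by simp)] at this
  exact this.false

theorem regC {x : Fin 2 → K} (σ : Sol f x) (hf : f.natDegree = 8) (hx1 : ∀ i, ‖x i‖ = 1)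
    (far : ‖x 0 - x 1‖ = 1) (hF : Fac f (.T 4) (s ^ (-6 : ℤ)) (s ^ 24) False)
    (ho : gn s (σ.B ^ 2 * f) < gn s (den x σ.e) ^ 2)
    (hi : gn (1 / s) (σ.B ^ 2 * f) < gn (1 / s) (den x σ.e) ^ 2) (hW : σ.W ≠ 0) : False := by
  have hx : ∀ i, x i ≠ 0 := fun i => norm_pos_iff.1 (by rw [hx1]; exact one_pos)
  rw [one_div, ← zpow_neg_one] at hi
  have t1 : s ^ (-1 : ℤ) < 1 := zl (by norm_num)
  have t6 : s ^ (-6 : ℤ) < s ^ (-1 : ℤ) := zpow_lt_zpow_right₀ s1 (by norm_num)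
  have h3 : s < s ^ 24 := by simpa using pow_lt_pow_right₀ s1 (show 1 < 24 by omega)
  have w0 : 0 < max ‖σ.W 0‖ ‖σ.W 1‖ := by
    by_contra! h
    exact hW (funext fun i => by
      fin_cases i
      exacts [norm_le_zero_iff.1 (max_le_iff.1 h).1, norm_le_zero_iff.1 (max_le_iff.1 h).2])
  obtain ⟨μ, hμ, h⟩ := relation (fun _ : Unit => σ) hf hx hF (zp _) t6 (t1.trans s1).le h3
    (fun i => (hx1 i).le.trans s1.le) (fun _ => ho)
    (fun _ => ⟨fun i => t1.le.trans (hx1 i).ge, fun _ => hi⟩) (s ^ (50 : ℤ)) w0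
  have m1 := fun i => (mu_pv hμ (zp _) (hx i) (.inr (hx1 i ▸ t6.trans t1))
    (hx1 i ▸ s1.trans h3)).2
  have m0 : μ.coeff 0 ≠ 0 := by rw [← norm_pos_iff, hμ.n0]; exact one_pos
  set l : K := -μ.coeff (-1) / μ.coeff 0 with hl
  have dn : ∀ n a : ℤ, ‖μ.coeff n‖ * (s ^ a) ^ n ≤ 1 * s ^ ((a + 6) * n) := fun n a => by
    have := at' (hμ.2.1 n) (a + 6)
    rwa [za, show -6 + (a + 6) = a by ring] at this
  have l1 : ‖l‖ ≤ s ^ (-6 : ℤ) := by simpa [hl, hμ.n0] using dn (-1) 0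
  have gc : ∀ n, (xg (X ^ 2 + C l * X) * μ).coeff (n + 4) = μ.coeff (n + 1) + l * μ.coeff (n + 2) :=
    fun n => by
      rw [xg_add, xg_C, add_mul, coeff_add', xg2, mul_assoc, coeff_C_mul, xg, toLaurent_X,
        ← LaurentPolynomial.T_add, coeff_T_mul]
      congr 3 <;> ring
  obtain ⟨ψ, e, hψ⟩ := mono_sol 4 (xg (X ^ 2 + C l * X) * μ) fun n hn => by
    obtain rfl : n = -2 := by omega
    rw [gc]
    simp [hl, m0]
  simp only [gc] at hψ
  have bd : ∀ n a b : ℤ, (a - 24) * (n + 1) - a ≤ b ∨ (a + 6) * (n + 1) - a ≤ b →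
      (a - 24) * (n + 2) - 2 * a - 6 ≤ b ∨ (a + 6) * (n + 2) - 2 * a - 6 ≤ b →
      ‖μ.coeff (n + 1) + l * μ.coeff (n + 2)‖ * (s ^ a) ^ n ≤ 1 * s ^ b := fun n a b h1 h2 => by
    have u : ∀ m c : ℤ, (a - 24) * (n + m) - m * a ≤ c ∨ (a + 6) * (n + m) - m * a ≤ c →
        ‖μ.coeff (n + m)‖ * (s ^ a) ^ n ≤ s ^ c := fun m c hc => by
      refine le_of_mul_le_mul_right ?_ (zpow_pos (zp a) m)
      rw [mul_assoc, ← zpow_add₀ (zp a).ne', ← zpow_mul s a m, za]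
      rcases hc with hc | hc
      · exact (hμ.up _ a).trans (by rw [one_mul]; exact zs (by push_cast; linarith))
      · exact (dn _ a).trans (by rw [one_mul]; exact zs (by linarith))
    rw [one_mul]
    refine nadd (zpow_pos (zp a) n) (u 1 b (by simpa using h1)) ?_
    rw [norm_mul, mul_assoc, show b = -6 + (b + 6) by ring, ← za]
    exact mul_le_mul l1 (u 2 _ (h2.imp (by intro; linarith) (by intro; linarith)))
      (mul_nonneg (norm_nonneg _) (zpow_pos (zp a) n).le) (zp _).le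
  have lb : ∀ a : ℤ, a = 1 ∨ a = -1 → LB (s ^ a) ψ (s ^ (50 : ℤ)) := fun a ha n => by
    rw [hψ, ← one_mul (s ^ (50 : ℤ))]
    exact dq zero_le_one (bd n a (20 - 5 * n.natAbs)
      (by rcases ha with rfl | rfl <;> omega) (by rcases ha with rfl | rfl <;> omega)) (by omega)
  have gb : LB s (xg (X ^ 2 + C l * X)) (s ^ (50 : ℤ)) := by
    have : gn 1 X = 1 := by simpa using gn_X_sub one_pos 0
    refine (xg_bd (by compute_degree) ((gn_add one_pos _ _).trans (max_le ?_ ?_))).mono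
      (by rw [← zpow_natCast]; exact zs (by norm_num))
    · rw [gn_pow one_pos, this, one_pow]
    · rw [gn_mul one_pos, this, gn_C, mul_one]; exact l1.trans (t6.trans t1).le
  have r1 := h ψ _ (by compute_degree) (by simpa using lb 1 (.inl rfl)) gb False.elim
    (fun _ => lb _ (.inr rfl)) e ()
  have r0 := h (.T (-2)) 0 (by simp) ((lb_T s0 _).mono (zs (by norm_num)))
    (fun n => by simpa [xg] using (zp 50).le) False.elim
    (fun _ => (lb_T (zp _) _).mono (by rw [← zpow_mul]; exact zs (by norm_num))) (by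
      have := Lop_shift 2 1 1
      simp only [mul_one] at this
      rw [show (4 : ℤ) = 2 * 2 from rfl, this]
      simp [Lop, xg]) ()
  have c1 : ‖ψ.coeff (-1)‖ = 1 := by
    have a1 : ‖l * μ.coeff 1‖ < ‖μ.coeff 0‖ := by
      have := hμ.mid (zp _) (t6.trans t1).le (s1.trans h3).le 1
      rw [norm_mul, hμ.n0]
      exact mul_lt_one_of_nonneg_of_lt_one_left (norm_nonneg _) (l1.trans_lt (t6.trans t1))
        (by simpa using this)
    rw [hψ, norm_div, norm_int_eq _ (by norm_num), div_one, ← hμ.n0]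
    exact norm_eq_of_sub_lt (by simpa using a1)
  have sp : ∀ i, ‖x i ^ 2 * pv (x i) ψ - ψ.coeff (-1) * x i‖ < 1 := fun i => by
    have := pv_lt (x := x i) (u := ψ - .C (ψ.coeff (-1)) * .T (-1)) one_pos fun n => by
      rw [coeff_sub', coeff_C_mul, LaurentPolynomial.T_apply, hx1, one_zpow, mul_one]
      by_cases h1 : -1 = n
      · simp [← h1]
      have := dq (n := 2 * n + 4) (e := -1) zero_le_one
        (bd n 0 (if 0 ≤ n then -24 * (n + 1) else 6 * (n + 1)) (by split_ifs <;> omega)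
          (by split_ifs <;> omega)) (by split_ifs <;> omega)
      rw [← hψ, zpow_zero, one_zpow, mul_one, one_mul] at this
      simpa [h1] using this.trans_lt t1
    rw [pv_sub (hx i), pv_C_mul_T] at this
    have h0 := hx i
    rwa [show x i ^ 2 * pv (x i) ψ - ψ.coeff (-1) * x i =
      x i ^ 2 * (pv (x i) ψ - ψ.coeff (-1) * x i ^ (-1 : ℤ)) by field_simp, norm_mul, norm_pow, hx1,
      one_pow, one_mul]
  have a1 : ∀ i, ‖x i ^ 2 * pv (x i) ψ‖ ≤ 1 := fun i => by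
    simpa using norm_add_le' (sp i).le (show ‖ψ.coeff (-1) * x i‖ ≤ 1 by simp [c1, hx1])
  have a2 : ‖x 0 ^ 2 * pv (x 0) ψ - x 1 ^ 2 * pv (x 1) ψ‖ = 1 := by
    have : ‖ψ.coeff (-1) * (x 0 - x 1)‖ = 1 := by rw [norm_mul, c1, far, one_mul]
    rw [← this]
    refine norm_eq_of_sub_lt ?_
    rw [this]
    convert norm_sub_lt' (sp 0) (sp 1) using 2
    ring
  simp only [Fin.sum_univ_two, pv_T] at r0 r1
  have a3 : ∀ i, ‖x i ^ 2 * pv (x i) ψ * (σ.W 0 * (x 0 ^ (-2 : ℤ) * pv (x 0) μ) +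
      σ.W 1 * (x 1 ^ (-2 : ℤ) * pv (x 1) μ))‖ < max ‖σ.W 0‖ ‖σ.W 1‖ := fun i => by
    rw [norm_mul]
    exact (mul_le_of_le_one_left (norm_nonneg _) (a1 i)).trans_lt r0
  have b0 := norm_sub_lt' r1 (a3 1)
  have b1 := norm_sub_lt' (a3 0) r1
  have := hx 0
  have := hx 1
  rw [show _ - _ = σ.W 0 * (x 0 ^ (-2 : ℤ) * pv (x 0) μ) *
    (x 0 ^ 2 * pv (x 0) ψ - x 1 ^ 2 * pv (x 1) ψ) by field_simp; ring] at b0
  rw [show _ - _ = σ.W 1 * (x 1 ^ (-2 : ℤ) * pv (x 1) μ) *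
    (x 0 ^ 2 * pv (x 0) ψ - x 1 ^ 2 * pv (x 1) ψ) by field_simp; ring] at b1
  simp only [norm_mul, a2, norm_zpow, hx1, m1, one_zpow, mul_one] at b0 b1
  exact (max_lt b0 b1).false

theorem est3 {j : ℕ} (hj : 2 ≤ j) :
    s⁻¹ ^ (12 * j) ≤ s⁻¹ ^ (j - 2 + 1) * ∏ i ∈ Finset.Icc 2 j, ‖((2 * i + 3 : ℕ) : K)‖ := by
  have e1 : ∀ j, 1 ≤ j → 15 * 2 ^ (j + 1) * (∏ i ∈ Finset.Icc 2 j, (2 * i + 3)) *
      (j + 1).factorial = (2 * j + 3).factorial := fun j hj => by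
    induction j, hj using Nat.le_induction with
    | base => decide
    | succ j hj ih =>
      rw [Finset.prod_Icc_succ_top (by omega), show 2 * (j + 1) + 3 = 2 * j + 3 + 1 + 1 by ring,
        Nat.factorial_succ (2 * j + 3 + 1), Nat.factorial_succ (2 * j + 3), ← ih,
        Nat.factorial_succ (j + 1)]
      ring
  have e2 := e1 j (by omega)
  rw [← Nat.choose_mul_factorial_mul_factorial (show j + 1 ≤ 2 * j + 3 by omega), mul_right_comm
    (Nat.choose _ _), show 2 * j + 3 - (j + 1) = j + 2 by omega] at e2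
  have e3 := congrArg (fun n : ℕ => ‖(n : K)‖) (Nat.eq_of_mul_eq_mul_right (Nat.factorial_pos _) e2)
  have c0 : (2 * j + 3).choose (j + 1) ≠ 0 := (Nat.choose_pos (by omega)).ne'
  obtain ⟨L, l1, l2⟩ := vb5 ((2 * j + 3).choose (j + 1)) (by exact_mod_cast c0)
  have l3 : 5 ^ L ≤ 2 * j + 3 := (Nat.pow_le_pow_right (by norm_num)
    ((Nat.prime_five.pow_dvd_iff_le_factorization c0).1 (by exact_mod_cast l1))).trans
    (Nat.pow_factorization_choose_le (by omega))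
  have l4 := (pow5 L).1
  have l5 : (5 : ℤ) ^ L ≤ 2 * j + 3 := by exact_mod_cast l3
  obtain ⟨v, v1, v2⟩ := fac_bd (M := j + 2) (by omega) dvd_rfl
  have n15 : ‖(15 : K)‖ = 1 / 5 := by
    rw [show (15 : K) = 5 * (3 : ℤ) by norm_num, norm_mul, norm_five, norm_int_eq 3 (by norm_num),
      mul_one]
  simp only [Nat.cast_mul, Nat.cast_pow, Nat.cast_ofNat, norm_mul, norm_pow, norm_two, one_pow, n15,
    mul_one, Nat.cast_prod, norm_prod] at e3
  rw [Int.cast_natCast] at l2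
  have := mul_le_mul l2 v2 (by have := s0; positivity) (norm_nonneg _)
  rw [← e3, one_div, le_inv_mul_iff₀ (by norm_num)] at this
  refine le_trans ?_ (mul_le_mul_of_nonneg_left ((mul_le_mul_of_nonneg_right s24
    (by have := s0; positivity)).trans this) (by have := s0; positivity))
  simp only [← zpow_natCast, inv_zpow', za]
  exact zs (by omega)

theorem disc3 {p : K[X]} (hp : p.natDegree ≤ 3) (h1 : p.coeff 3 = 1) (hg : gn 1 p ≤ 1)
    {μ : LP} (hμ : Mu μ (1 / 2) (s ^ 12) True) : ∃ ψ g, Out p μ ψ g 2 := by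
  obtain ⟨ψ, g, gd, ⟨q0, q1⟩, f1, f2, n1, n2, n3, n4⟩ := tri_sol (Base p 3 μ)
    (fun ψ g ψ' g' h h' => ⟨fun n hn => by rw [coeff_add', h.1 n hn, h'.1 n hn, add_zero],
      fun n hn hn' => by
        rw [Lop_add, xg_add, add_mul, coeff_add', coeff_add', h.2 n hn hn', h'.2 n hn hn']⟩)
    (fun c ψ g h => ⟨fun n hn => by rw [coeff_C_mul, h.1 n hn, mul_zero],
      fun n hn hn' => by rw [Lop_C, xg_C, mul_assoc, coeff_C_mul, coeff_C_mul, h.2 n hn hn']⟩)
    (fun i => solve_pos hp h1 (xg (X ^ i) * μ)) _ _ (lin_win (toLaurent p) μ 1)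
    (lin_win (toLaurent p) μ 2)
  have eq : Lop (toLaurent p) ψ = xg g * μ := by
    ext n
    by_cases hn : n < 1
    · rw [Lop_lo q0 n hn, xg, (((lo_T 1).mul (lo_toL g)).mul (hμ.2.2.2 trivial)) n hn]
    · obtain rfl | rfl | h : n = 1 ∨ n = 2 ∨ 3 ≤ n := by omega
      exacts [sub_eq_zero.1 f1, sub_eq_zero.1 f2, q1 n h (by omega)]
  have td : ∀ j : ℕ, 2 ≤ j → ‖ψ.coeff j‖ ≤ s⁻¹ ^ (j - 2 + 1) := by
    obtain ⟨N, hN, -⟩ := exists_bounds ψ
    refine seq_bd (fun j => ‖ψ.coeff j‖) (fun j => ‖((2 * j + 3 : ℕ) : K)‖) 2 (N + 1) (inv_pos.2 s0)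
      (inv_le_one_of_one_le₀ s1.le) (fun j hj => norm_pos_iff.2 (Nat.cast_ne_zero.2 (by omega)))
      (fun j => norm_nat_le _) (fun i hi => by rw [hN i (by omega), norm_zero]) fun j hj B hB hi => ?_
    have e := congrArg (fun z : LP => z.coeff (j + (3 : ℕ))) eq
    rw [Lop_coeff hp, Finset.sum_range_succ, h1, one_mul, add_sub_cancel_right] at e
    have b0 : 0 ≤ B := (norm_nonneg _).trans (hi (j + 1) (by omega))
    rw [← norm_mul, show ((2 * j + 3 : ℕ) : K) = ((2 * (j + (3 : ℕ)) - (3 : ℕ) : ℤ) : K) by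
      push_cast; ring, eq_sub_of_add_eq' e]
    have hG := G_up (κ := 1) hμ.1 gd n1 (n := j + 3) (by omega)
    refine norm_sub_le' (le_trans (by exact_mod_cast hG) ((est3 hj).trans hB))
      (IsUltrametricDist.norm_sum_le_of_forall_le_of_nonneg b0 fun l hl => term_le hg _ _ ?_)
    have := Finset.mem_range.1 hl
    have := hi (j + 3 - l) (by omega)
    rwa [show ((j + 3 - l : ℕ) : ℤ) = j + (3 : ℕ) - l by omega] at this
  have lt : ∀ n : ℤ, (2 : ℕ) ≤ n → ‖ψ.coeff n‖ < 1 := fun n hn => by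
    obtain ⟨j, rfl⟩ := Int.eq_ofNat_of_zero_le (a := n) (by omega)
    exact (td j (by omega)).trans_lt (t_lt (by omega))
  refine ⟨ψ, g, gd, fun n => ?_, xg_bd gd n1, q0, eq, lt, fun h => n4 ⟨?_, h⟩⟩
  · have := s0
    by_cases hn : n < 0
    · rw [q0 n hn, norm_zero, zero_mul]; positivity
    obtain ⟨j, rfl⟩ := Int.eq_ofNat_of_zero_le (not_lt.1 hn)
    rw [zpow_natCast]
    by_cases hj : 2 ≤ j
    · refine (mul_le_mul_of_nonneg_right (td j hj) (by positivity)).trans ?_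
      rw [inv_pow, inv_mul_le_iff₀ (by positivity), ← pow_add]
      exact pow_le_pow_right₀ s1.le (by omega)
    · refine (mul_le_of_le_one_left (by positivity) ?_).trans (pow_le_pow_right₀ s1.le (by omega))
      obtain rfl | rfl : j = 0 ∨ j = 1 := by omega
      exacts [n2, n3]
  · refine key_lt ((lb_toL one_pos p).mono hg) (fun n => ?_) n1 (fun n => by
      simpa using mu_small hμ (by norm_num) one_pos (.inl trivial)
        (one_lt_pow₀ s1 (by norm_num)) n) eq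
    by_cases hn : n < 0
    · simp [q0 n hn]
    · obtain rfl | rfl | hn : n = 0 ∨ n = 1 ∨ 2 ≤ n := by omega
      exacts [h.1, h.2, lt n (by omega)]

theorem reg3' {x : Fin 2 → K} (σ : Fin 2 → Sol f x) (hf : f.natDegree = 8) (hx : ∀ i, x i ≠ 0)
    (hx1 : ∀ i, ‖x i‖ ≤ 1) (hne : x 0 ≠ x 1) {p : K[X]} (hp : p.natDegree ≤ 3)
    (h1 : p.coeff 3 = 1) (hg : gn 1 p ≤ 1) (hF : Fac f (toLaurent p) (1 / 2) (s ^ 12) True)
    (ho : ∀ j, gn s ((σ j).B ^ 2 * f) < gn s (den x (σ j).e) ^ 2) (hW : ∀ j, (σ j).W j ≠ 0)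
    (hW' : ∀ j i, i ≠ j → (σ j).W i = 0) : False := by
  have p0 : 0 < ‖x 0 - x 1‖ := norm_pos_iff.2 (sub_ne_zero.2 hne)
  have w0 : ∀ j, 0 < ‖(σ j).W j‖ := fun j => norm_pos_iff.2 (hW j)
  obtain ⟨μ, hμ, h2, h⟩ := disc_rel σ hf hx hx1 (by norm_num) hF ho
    (mul_pos (lt_min (w0 0) (w0 1)) p0)
  obtain ⟨ψ, g, o⟩ := disc3 hp h1 hg hμ
  have key : ∀ j, ‖pv (x j) ψ‖ < ‖x 0 - x 1‖ := fun j => by
    have := h ψ g 2 o j
    rw [Finset.sum_eq_single j (fun i _ hi => by rw [hW' j i hi, zero_mul]) (by simp), norm_mul,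
      norm_mul, h2, mul_one] at this
    refine lt_of_mul_lt_mul_left (this.trans_le ?_) (w0 j).le
    gcongr
    fin_cases j
    exacts [min_le_left _ _, min_le_right _ _]
  exact o.2.2.2.2.2.2 (two_zeros (hx 0) (hx 1) (hx1 0) (hx1 1) hne o.2.2.2.1 o.2.2.2.2.2.1
    (key 0) (key 1))

end Pool.Agent.MP_8d06cc_nt.H27
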