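import Pool.Agent.MP_8d06cc_nt.H90.Dir

/-! A vertex with four branch points and a gap above it. -/

namespace Pool.Agent.MP_8d06cc_nt.H27

open Polynomial Finset

theorem tay1 (n : ℕ → ℤ) (c : ℤ) :
    (tay n c 1 : ZMod 5) = t1 (n 1 : ZMod 5) (n 2) (n 3) 1 c := by simp [tay, t1]

theorem tay2 (n : ℕ → ℤ) (c : ℤ) : (tay n c 2 : ZMod 5) = t2 (n 2 : ZMod 5) (n 3) 1 c := by
  simp [tay, t2]

theorem tay3 (n : ℕ → ℤ) (c : ℤ) : (tay n c 3 : ZMod 5) = t3 (n 3 : ZMod 5) 1 c := by simp [tay, t3]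

instance (a b c d : ZMod 5) : Decidable (Sq a b c d) := by unfold Sq; infer_instance

theorem inv5 : ∀ a b c d x : ZMod 5, (Sq (t0 a b c d 1 x) (t1 b c d 1 x) (t2 c d 1 x) (t3 d 1 x) →
    Sq a b c d) ∧ al (t0 a b c d 1 x) (t1 b c d 1 x) (t2 c d 1 x) (t3 d 1 x) = al a b c d := by
  decide +kernel

theorem inv5' : ∀ b c d x y : ZMod 5,
    be (t1 b c d 1 x) (t2 c d 1 x) (t3 d 1 x) (y - x) = be b c d y := by decide +kernel

/-- Bound for one residue class. -/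
def bc (a b c d ε x : ZMod 5) : ℕ :=
  if t0 a b c d 1 x ≠ 0 then (if t0 a b c d 1 x ^ 2 = ε ∧ al a b c d * be b c d x = 0 then 1 else 0)
  else if t1 b c d 1 x ≠ 0 then 0 else 1

theorem dec5 : ∀ a b c d : ZMod 5, ¬ Sq a b c d → (∀ ε, ∑ x, bc a b c d ε x ≤ 3) ∧
    ∑ x, bc a b c d 1 x ≤ 2 ∧ ∑ x, bc a b c d 0 x ≤ 1 := by decide +kernel

theorem two_sys {u v a b c d : K} {w : ℝ} (ha : ‖a - c‖ = 1) (hb : ‖b - c‖ = 1) (ha' : ‖a - d‖ = 1)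
    (hb' : ‖b - d‖ = 1) (ab : ‖a - b‖ = 1) (cd : ‖c - d‖ = 1)
    (h1 : ‖u * (a - c)⁻¹ + v * (b - c)⁻¹‖ < w) (h2 : ‖u * (a - d)⁻¹ + v * (b - d)⁻¹‖ < w) :
    ‖u‖ < w := by
  have n : ∀ {z : K}, ‖z‖ = 1 → z ≠ 0 := fun h => norm_pos_iff.1 (h ▸ one_pos)
  have := n ha
  have := n hb
  have := n ha'
  have := n hb'
  have := norm_sub_lt' (show ‖(b - c) * (u * (a - c)⁻¹ + v * (b - c)⁻¹)‖ < w by
    rwa [norm_mul, hb, one_mul]) (show ‖(b - d) * (u * (a - d)⁻¹ + v * (b - d)⁻¹)‖ < w by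
    rwa [norm_mul, hb', one_mul])
  rw [show _ - _ = u * ((a - b) * (d - c) * ((a - c)⁻¹ * (a - d)⁻¹)) by field_simp; ring] at this
  simpa [ha, ha', ab, norm_sub_rev d, cd] using this

theorem wpos {W : Fin 2 → K} (hW : W ≠ 0) : 0 < max ‖W 0‖ ‖W 1‖ := by
  by_contra! h
  exact hW (funext fun i => by
    fin_cases i
    exacts [norm_le_zero_iff.1 (max_le_iff.1 h).1, norm_le_zero_iff.1 (max_le_iff.1 h).2])

namespace Cfg

variable {Z : Cfg} {l : ℚ} {n : ℕ → ℤ} {C₁ C₂ : K} {r : ℝ}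

/-- The residue class of `z` has no branch point. -/
def Vt (Z : Cfg) (z : K) : Prop := ‖z‖ ≤ 1 ∧ ∀ i, ¬ ‖Z.β i - z‖ < 1

theorem Fl.vfar (h : Z.Fl l C₁ C₂ r) {z : K} (hz : Z.Vt z) : ‖z - C₁‖ = 1 :=
  le_antisymm (norm_sub_le' hz.1 h.c1) (not_lt.1 fun e => by
    have := h.two
    rw [nr_eq_zero.2 fun i hi => hz.2 i (by simpa using norm_sub_lt' hi e)] at this
    omega)

theorem Vt.far {a b : ℚ} (ha : Z.Fre a) (hb : Z.Fre b) (h : Z.Vt a) (h' : ‖(b : K)‖ ≤ 1)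
    (ab : a ≠ b) : ‖(a : K) - b‖ = 1 :=
  le_antisymm (norm_sub_le' h.1 h') (ha.far hb ab P5.one h.2)

theorem Fl.wd1 (h : Z.Fl l C₁ C₂ 1) {x : Fin 2 → K} (u : Sol Z.F x) (b1 : u.Bdd 1)
    (hx : ∀ i, ‖x i‖ ≤ 1) (h1 : ∀ i, ‖x i - C₁‖ = 1) (hW : u.W ≠ 0) :
    ‖u.W 0 * (x 0 - C₁)⁻¹ + u.W 1 * (x 1 - C₁)⁻¹‖ < max ‖u.W 0‖ ‖u.W 1‖ := by
  have w0 := wpos hW
  obtain ⟨k1, -, k2, -⟩ := h.wd u b1 b1 hx (fun i => by rw [h1, max_eq_left (hx i)]) w0 fun i => by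
    rw [max_eq_left (hx i), one_pow, mul_one]
    fin_cases i
    exacts [le_max_left _ _, le_max_right _ _]
  rw [mul_one] at k1
  simpa using norm_sub_lt' (((eval_le one_pos h.c1 _).trans k1).trans_lt
    (mul_lt_of_lt_one_right w0 (zl (by norm_num)))) (k2.trans_lt
    (mul_lt_of_lt_one_right w0 (zl (by norm_num))))

theorem Fl.twoV (h : Z.Fl l C₁ C₂ 1) : Z.fr Z.Vt ≤ 1 := fr_one.2 fun a b ha va hb vb => by
  by_contra ab
  obtain ⟨σ, b1, hW⟩ := Z.bdd2 (a := ![a, b]) (by simp [ha.1, hb.1]) (by simp [ha.2, hb.2])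
  have k1 := h.wd1 σ b1 (by simp [va.1, vb.1]) (by simp [h.vfar va, h.vfar vb]) hW
  have k2 := h.symm.wd1 σ b1 (by simp [va.1, vb.1]) (by simp [h.symm.vfar va, h.symm.vfar vb]) hW
  have d := va.far ha hb vb.1 ab
  exact (max_lt (two_sys (h.vfar va) (h.vfar vb) (h.symm.vfar va) (h.symm.vfar vb) d h.far k1 k2)
    (two_sys (h.vfar vb) (h.vfar va) (h.symm.vfar vb) (h.symm.vfar va) ((norm_sub_rev _ _).trans d)
      h.far (by rwa [add_comm] at k1) (by rwa [add_comm] at k2))).false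

theorem Fl.noVA {c a v : ℚ} (h : Z.Fl l c a 1) (ha : Z.Fre a) (hv : Z.Fre v) (vv : Z.Vt v) :
    False := by
  obtain ⟨γ, ρ, hρ⟩ := h.rho
  have m := max_eq_left vv.1
  have v1 := h.vfar vv
  have v2 := h.symm.vfar vv
  obtain ⟨yv, y1, y2⟩ := hρ.sgn le_rfl vv.1 (v1.trans m.symm) (v2.trans m.symm)
  obtain ⟨ya, -, y3⟩ := ha.sq
  have hy : ∀ i, (![yv, ya] i : K) ^ 2 = Z.F.eval ((![v, a] i : ℚ) : K) := by simp [y1, y3]
  obtain ⟨u, k, u1, -, u2, u3⟩ := Z.gpair hy (by simp [ha.1, hv.1]) (by simp [ha.2, hv.2]) P5.one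
    (show (0 : Fin 2) ≠ 1 by simp)
  obtain ⟨t, t1, t2⟩ := rat4 (q := (v - c) / (c - a)) fun e => by
    have := congrArg (fun z : ℚ => ‖(z : K)‖) e
    simp [v1, h.far] at this
  have vm : Vm c a 1 γ ρ v yv := ⟨vv.1, v1.trans m.symm, v2.trans m.symm, y2⟩
  have k1 := (h.log hρ (t := ![t, 0]) u u1 hy u2 u2 u3 1 (by simp) rfl (by
    simpa [vm] using t2) (norm_nonneg (k 0 : K)) (by simp)).2
  have k2 := h.wd1 u u2 (by simp [vv.1, h.c2]) (by simp [v1, norm_sub_rev (a : K), h.far]) u3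
  have k3 : ‖u.W 0‖ = ‖(k 0 : K)‖ * ‖γ‖ := by
    simp [u1.W, hρ.yM le_rfl vm.1 vm.2.1 vm.2.2.1 y2, m]
  have w0 := wpos u3
  rw [← k3] at k1
  have k4 : ‖u.W 1‖ ≤ ‖u.W 0‖ :=
    k1.trans (mul_le_of_le_one_right (norm_nonneg _) (zl (by norm_num)).le)
  rw [max_eq_left k4] at k2 w0
  have := norm_sub_lt' k2 (show ‖u.W 1 * ((a : K) - c)⁻¹‖ < ‖u.W 0‖ by
    simpa [norm_sub_rev (a : K), h.far] using
      k1.trans_lt (mul_lt_of_lt_one_right w0 (zl (by norm_num))))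
  simp [v1] at this

theorem Rt.fifth {P : K[X]} (h : Rt P) (h1 : gn 1 P < 1) : gn 1 P ≤ 1 / 5 := by
  obtain ⟨Q, rfl⟩ := h
  obtain ⟨i, hi⟩ := gn_eq 1 (mK Q)
  simp only [hi, coeff_map, eq_ratCast, one_pow, mul_one] at h1 ⊢
  linarith [gap_lt P5.one h1]

theorem Red.fl (h : Z.Red l n) (hq : Sq (n 0) (n 1) (n 2) (n 3)) (hl : Z.Light)
    (h4 : Z.nr (‖·‖ ≤ 1) = 4) (r1 : 1 ≤ r) (ho : ∀ i, ‖Z.β i‖ ≤ 1 ∨ 5 * r ≤ ‖Z.β i‖) :
    ∃ (p q : ℚ) (C₁ C₂ : K), C₁ + C₂ = p ∧ C₁ * C₂ = q ∧ Z.Fl l C₁ C₂ r := by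
  obtain ⟨C₁, hC⟩ := IsAlgClosed.exists_root (X ^ 2 + C (n 3 / 2 : K) * X +
    C ((4 * n 2 - n 3 ^ 2) / 8 : K)) (by
      rw [show degree _ = 2 by compute_degree!]; norm_num)
  simp only [IsRoot.def, eval_add, eval_pow, eval_X, eval_mul, eval_C] at hC
  have n8 : ‖(8 : K)‖ = 1 := by simpa using norm_int_eq 8 (by norm_num)
  have n64 : ‖(64 : K)‖ = 1 := by simpa using norm_int_eq 64 (by norm_num)
  have p1 : ‖(n 3 / 2 : K)‖ ≤ 1 := by simpa [norm_two] using norm_int_le (n 3)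
  have q1 : ‖((4 * n 2 - n 3 ^ 2) / 8 : K)‖ ≤ 1 := by
    have := norm_int_le (4 * n 2 - n 3 ^ 2)
    push_cast at this
    simpa [n8] using this
  have c1 : ‖C₁‖ ≤ 1 := not_lt.1 fun e => by
    have := norm_add_le' (show ‖n 3 / 2 * C₁‖ ≤ ‖C₁‖ by
      rw [norm_mul]; exact mul_le_of_le_one_left (norm_nonneg _) p1) (q1.trans e.le)
    rw [← neg_eq_of_add_eq_zero_right ((add_assoc _ _ _).symm.trans hC), norm_neg, norm_pow] at this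
    nlinarith
  have c2 : ‖-(n 3 / 2) - C₁‖ ≤ 1 := norm_sub_le' (by rwa [norm_neg]) c1
  have ap : gn 1 (C (l : K)⁻¹ * Z.F - ((X - C C₁) * (X - C (-(n 3 / 2) - C₁))) ^ 2) ≤ 1 / 5 := by
    have e : (X - C C₁) * (X - C (-(n 3 / 2) - C₁)) =
        mK (X ^ 2 + C (n 3 / 2 : ℚ) * X + C ((4 * n 2 - n 3 ^ 2) / 8 : ℚ)) := by
      rw [eq_neg_of_add_eq_zero_right hC |> fun e => show mK _ = X ^ 2 + C (n 3 / 2 : K) * X +
        C (-(C₁ ^ 2 + n 3 / 2 * C₁)) by simp [← e]]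
      simp only [map_sub, map_neg, map_add, map_mul, map_pow]
      ring
    have k1 := (zm (8 * n 1 - n 3 * (4 * n 2 - n 3 ^ 2))).2 (by push_cast; rw [hq.1, sub_self])
    have k2 := (zm (64 * n 0 - (4 * n 2 - n 3 ^ 2) ^ 2)).2 (by push_cast; rw [hq.2, sub_self])
    rw [e]
    refine Rt.fifth ⟨C l⁻¹ * Z.f - (X ^ 2 + C (n 3 / 2 : ℚ) * X +
      C ((4 * n 2 - n 3 ^ 2) / 8 : ℚ)) ^ 2, by simp [F]⟩ ?_
    convert gn_add_lt one_pos h (gn_add_lt one_pos ((gn_C_mul_le (a := (8 * n 1 - n 3 *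
      (4 * n 2 - n 3 ^ 2) : ℤ) / 8) X_O1).trans_lt (by simpa [n8] using k1)) ((gn_C 1
      ((64 * n 0 - (4 * n 2 - n 3 ^ 2) ^ 2 : ℤ) / 64)).trans_lt (by simpa [n64] using k2))) using 2
    refine Polynomial.funext fun z => ?_
    simp [Qp]
    ring
  refine ⟨-(n 3 / 2), (4 * n 2 - n 3 ^ 2) / 8, C₁, -(n 3 / 2) - C₁, by simp, by
    push_cast; linear_combination -hC, h4, r1, ho, c1, c2,
    le_antisymm (norm_sub_le' c1 c2) (not_lt.1 fun e => ?_), ap⟩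
  have n4 : ‖(4 : K)‖ = 1 := by simpa using norm_int_eq 4 (by norm_num)
  obtain ⟨c, hc⟩ := exists_class (q := -(n 3 / 4)) (by simpa [n4] using norm_int_le (n 3))
  have e1 : ‖C₁ - rp c‖ < 1 := by
    rw [← one_mul ‖_‖, ← norm_two, ← norm_mul, norm_two]
    convert norm_add_lt' e (show ‖2 * (((-(n 3 / 4) : ℚ) : K) - rp c)‖ < 1 by
      rwa [norm_mul, norm_two, one_mul]) using 2
    push_cast
    ring
  have e2 : ‖-(n 3 / 2) - C₁ - rp c‖ < 1 := by simpa using norm_sub_lt' e1 e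
  have := hl c
  refine absurd (h4.ge.trans (nr_mono (q := (‖· - rp c‖ < 1)) fun i hi => ?_)) (by omega)
  have := (eval_le one_pos hi _).trans ap
  simp only [eval_sub, eval_mul, (Z.F_root i).eq_zero, mul_zero, zero_sub, norm_neg, eval_pow,
    eval_X, eval_C, norm_pow, norm_mul] at this
  by_contra! g
  have g1 : 1 ≤ ‖Z.β i - C₁‖ := not_lt.1 fun e => g.not_gt (by simpa using norm_add_lt' e e1)
  have g2 : 1 ≤ ‖Z.β i - (-(n 3 / 2) - C₁)‖ :=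
    not_lt.1 fun e => g.not_gt (by simpa using norm_add_lt' e e2)
  nlinarith [one_le_mul_of_one_le_of_one_le g1 g2]

theorem Fl.move (h : Z.Fl l C₁ C₂ r) {p q a : ℚ} (hp : C₁ + C₂ = p) (hq : C₁ * C₂ = q)
    (ha : ‖(a : K) - C₂‖ < 1) : Z.Fl l (p - a : ℚ) a r := by
  have e : ((p - a : ℚ) : K) = C₁ - (a - C₂) := by push_cast [← hp]; ring
  have a1 := (norm_sub_iff h.c2).1 ha.le
  have c1 : ‖((p - a : ℚ) : K)‖ ≤ 1 := e ▸ norm_sub_le' h.c1 ha.le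
  have k : ‖((q - (p - a) * a : ℚ) : K)‖ ≤ 1 / 5 := by
    have : ‖((q - (p - a) * a : ℚ) : K)‖ < 1 := by
      rw [show ((q - (p - a) * a : ℚ) : K) = (a - C₂) * (a - C₁) by push_cast [← hp, ← hq]; ring,
        norm_mul]
      exact mul_lt_one_of_nonneg_of_lt_one_left (norm_nonneg _) ha (norm_sub_le' a1 h.c1)
    linarith [gap_lt P5.one this]
  refine ⟨h.h4, h.r1, h.ho, c1, a1, ?_, ?_⟩
  · rw [← h.far]
    refine norm_eq_of_sub_lt ?_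
    rwa [e, show C₁ - (a - C₂) - a - (C₁ - C₂) = -(2 * (a - C₂)) by ring, norm_neg, norm_mul,
      norm_two, one_mul, h.far]
  · have c3 := C_O1 h.c1
    have c4 := C_O1 h.c2
    have := (gn_add one_pos _ _).trans (max_le h.ap ((gn_C_mul_le (P := (X - C C₁) * (X - C C₂) +
      (X - C ((p - a : ℚ) : K)) * (X - C (a : K))) (by
        apply_rules (transparency := .reducible) [add_mem, mul_mem, sub_mem, X_O1, C_O1])).trans k))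
    refine le_of_eq_of_le (congrArg _ ?_) this
    push_cast [← hp, ← hq]
    simp only [map_sub, map_mul, map_add]
    ring

theorem Fl.cover (h : Z.Fl l C₁ C₂ r) {z : K} (hz : ‖z‖ ≤ 1) (hv : ¬ Z.Vt z) :
    ‖z - C₁‖ < 1 ∨ ‖z - C₂‖ < 1 := by
  obtain ⟨i, hi⟩ : ∃ i, ‖Z.β i - z‖ < 1 := by simpa [Vt, hz] using hv
  have := (eval_le one_pos ((norm_sub_iff hz).1 hi.le) _).trans h.ap
  simp only [eval_sub, eval_mul, (Z.F_root i).eq_zero, mul_zero, zero_sub, norm_neg, eval_pow,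
    eval_X, eval_C, norm_pow, norm_mul] at this
  by_contra! g
  have g1 : 1 ≤ ‖Z.β i - C₁‖ := not_lt.1 fun e => g.1.not_gt (by simpa using norm_sub_lt' e hi)
  have g2 : 1 ≤ ‖Z.β i - C₂‖ := not_lt.1 fun e => g.2.not_gt (by simpa using norm_sub_lt' e hi)
  nlinarith [one_le_mul_of_one_le_of_one_le g1 g2]

theorem Fl.cl (h : Z.Fl l C₁ C₂ r) : Z.fr (‖· - C₁‖ < 1) ≤ 1 := fr_one.2 fun a b ha h1 hb h2 =>
  fr_one.1 (Z.dirF P5.one a ((nr_mono (q := (‖· - C₁‖ < 1)) fun i hi => by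
    simpa using norm_add_lt' hi h1).trans (by rw [h.two]; norm_num))).1 a b ha (by simp) hb
    (by simpa using norm_sub_lt' h2 h1)

theorem Red.sq2 (h : Z.Red l n) (hq : Sq (n 0) (n 1) (n 2) (n 3)) (hl : Z.Light)
    (h4 : Z.nr (‖·‖ ≤ 1) = 4) (ho : ∀ i, ‖Z.β i‖ ≤ 1 ∨ 5 ≤ ‖Z.β i‖) : Z.fr (‖·‖ ≤ 1) ≤ 2 := by
  obtain ⟨p, q, C₁, C₂, hp, hq, h⟩ := h.fl hq hl h4 le_rfl (by simpa using ho)
  by_cases hv : Z.fr Z.Vt = 0
  · exact (fr_or fun a ha h1 => h.cover h1 (fr_zero.1 hv a ha)).trans (add_le_add h.cl h.symm.cl)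
  obtain ⟨v, v1, v2⟩ := fr_ex hv
  refine (fr_mono fun a ha h1 => by_contra fun h2 => ?_).trans (h.twoV.trans one_le_two)
  rcases h.cover h1 h2 with e | e
  · exact (h.symm.move ((add_comm _ _).trans hp) ((mul_comm _ _).trans hq) e).noVA ha v1 v2
  · exact (h.move hp hq e).noVA ha v1 v2

theorem Red.cl (h : Z.Red l n) (c : ZMod 5) {j : ℕ} (hj : j < 4) :
    (j < Z.nr (‖· - rp c‖ < 1) → (tay n (ri c) j : ZMod 5) = 0) ∧
      (j = Z.nr (‖· - rp c‖ < 1) → (tay n (ri c) j : ZMod 5) ≠ 0) := by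
  simpa [nr_aff] using (h.shift (b := rp c) (c := ri c) (by simp [rp_cast])).cls hj

theorem Red.vt (h : Z.Red l n) {c : ZMod 5} {a : ℚ} (ha : ‖(a : K) - rp c‖ < 1) :
    Z.Vt a ↔ t0 (n 0 : ZMod 5) (n 1) (n 2) (n 3) 1 c ≠ 0 := by
  have := h.cl c (j := 0) (by norm_num)
  rw [tay0, ri_cast] at this
  refine ⟨fun v => this.2 (nr_eq_zero.2 fun i hi => v.2 i (by simpa using norm_sub_lt' hi ha)).symm,
    fun e => ⟨(norm_sub_iff (rp_le c)).1 ha.le, fun i hi => e (this.1 (Nat.pos_of_ne_zero fun g =>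
      nr_eq_zero.1 g i (by simpa using norm_add_lt' hi ha)))⟩⟩

theorem Red.eps (h : Z.Red l n) {u : ℚ} {e : ℤ} (hu : ‖((l⁻¹ * u ^ 2 : ℚ) : K) - e‖ < 1)
    (e0 : (e : ZMod 5) ≠ 0) {c : ZMod 5} {a : ℚ} (ha : Z.Fre a) (hc : ‖(a : K) - rp c‖ < 1)
    (v : Z.Vt a) : t0 (n 0 : ZMod 5) (n 1) (n 2) (n 3) 1 c ^ 2 = e ^ 2 := by
  obtain ⟨y, hy⟩ := (Z.good a ha.1).1
  have k := h.val (c := ri c) (rp_cast c ▸ hc)
  rw [hy, ← sq] at k
  have k1 := norm_add_le' hu.le (norm_int_le e)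
  have k2 := norm_add_le' k.le (norm_int_le (tay n (ri c) 0))
  rw [sub_add_cancel] at k1 k2
  obtain ⟨a1, h1⟩ := lift0 k1
  obtain ⟨a2, h2⟩ := lift0 k2
  obtain ⟨a3, h3⟩ := lift0 (q := l⁻¹ * (y * u)) (le_of_sq_le_sq₀ zero_le_one (by
    rw [← norm_pow, ← Rat.cast_pow, show (l⁻¹ * (y * u)) ^ 2 = l⁻¹ * u ^ 2 * (l⁻¹ * y ^ 2) by ring,
      Rat.cast_mul, norm_mul, one_pow]
    exact mul_le_one₀ k1 (norm_nonneg _) k2))
  have k3 : a3 ^ 2 = a2 * a1 := Subtype.ext (by push_cast [h1, h2, h3]; ring)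
  have := congrArg PadicInt.toZMod k3
  rw [map_pow, map_mul, (cong5 h1 _).2 hu, (cong5 h2 _).2 k, tay0, ri_cast] at this
  exact sq5 _ _ _ ((h.vt hc).1 v) e0 this

theorem Red.cart' (h : Z.Red l n) (hq : ¬ Sq (n 0) (n 1) (n 2) (n 3)) (h4 : Z.nr (‖·‖ ≤ 1) = 4)
    (ho : ∀ i, ‖Z.β i‖ ≤ 1 ∨ 5 ≤ ‖Z.β i‖) {a b : ℚ} (ha : Z.Fre a) (hb : Z.Fre b) (va : Z.Vt a)
    (vb : Z.Vt b) (ab : a ≠ b) {c : ZMod 5} (hc : ‖(a : K) - rp c‖ < 1) :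
    al (n 0) (n 1) (n 2) (n 3) * be (n 1) (n 2) (n 3) c = 0 := by
  obtain ⟨d, hd⟩ := exists_class vb.1
  have e : ∀ z : K, ‖(z - b) / (1 : ℚ)‖ ≤ 1 ↔ ‖z‖ ≤ 1 := fun z => by
    simpa using norm_sub_iff vb.1
  have := (h.shift (c := ri d) (rp_cast d ▸ hd)).cart (by
      rw [tay0, tay1, tay2, tay3]; exact mt (inv5 _ _ _ _ _).1 hq)
    (by rw [nr_aff, ← h4]; simp only [e]) (fun i => (ho i).imp (e _).2 fun g => by
      simp only [aff, Rat.cast_one, div_one]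
      rwa [norm_sub_big (by linarith [vb.1])]) (by simpa using (Z.fre_aff 1 b one_ne_zero hb).1)
    (by rw [tay0, ri_cast]; exact (h.vt hd).1 vb) (Z.fre_aff 1 b one_ne_zero ha).1
    (c := ri c - ri d) (by
      convert norm_sub_lt' hc hd using 2
      simp only [rp_cast]
      push_cast
      ring) (by
      rw [Int.cast_sub, ri_cast, ri_cast, sub_ne_zero]
      rintro rfl
      simpa [va.far ha hb vb.1 ab] using norm_sub_lt' hc hd) (by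
      rw [tay0, tay0, tay1, tay2, tay3, Int.cast_sub, ri_cast, ri_cast]
      convert (h.vt hc).1 va using 1
      simp only [t0, t1, t2, t3]
      ring)
  rwa [tay0, tay1, tay2, tay3, Int.cast_sub, ri_cast, ri_cast, (inv5 _ _ _ _ _).2, inv5'] at this

theorem Red.bcl (h : Z.Red l n) (hl : Z.Light) {p : K → Prop} {ε : ZMod 5}
    (hp : ∀ (a : ℚ) (c : ZMod 5), Z.Fre a → p a → ‖(a : K) - rp c‖ < 1 → Z.Vt a →
      t0 (n 0 : ZMod 5) (n 1) (n 2) (n 3) 1 c ^ 2 = ε ∧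
        al (n 0) (n 1) (n 2) (n 3) * be (n 1) (n 2) (n 3) c = 0) :
    Z.fr (fun z => ‖z‖ ≤ 1 ∧ p z) ≤ ∑ c, bc (n 0) (n 1) (n 2) (n 3) ε c := by
  refine (fr_cover (fun (c : ZMod 5) z => ‖z - rp c‖ < 1 ∧ p z) fun a _ h =>
    (exists_class h.1).imp fun c hc => ⟨hc, h.2⟩).trans (sum_le_sum fun c _ => ?_)
  have d := Z.dirF P5.one _ (hl c)
  have m := fr_mono (Z := Z) (p := fun z => ‖z - rp c‖ < 1 ∧ p z) (q := (‖· - rp c‖ < 1))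
    fun _ _ h => h.1
  have a0 := h.cl c (j := 0) (by norm_num)
  have a1 := h.cl c (j := 1) (by norm_num)
  rw [tay0, ri_cast] at a0
  rw [tay1, ri_cast] at a1
  rw [bc]
  split_ifs with h1 h2 h3
  · omega
  · exact (fr_zero.2 fun a ha g => h2 (hp a c ha g.2 g.1 ((h.vt g.1).2 h1))).le
  · have := mt a0.2 h1
    have := mt a1.1 h3
    omega
  · omega

theorem four (hl : Z.Light) (h4 : Z.nr (‖·‖ ≤ 1) = 4) (ho : ∀ i, ‖Z.β i‖ ≤ 1 ∨ 5 ≤ ‖Z.β i‖) :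
    Z.fr (‖·‖ ≤ 1) ≤ 3 ∧ ∀ u : ℚ, ‖(((Z.f.coeff 4)⁻¹ * u ^ 2 : ℚ) : K) - 1‖ < 1 →
      Z.fr (‖·‖ ≤ 1) ≤ 2 := by
  obtain ⟨n, h⟩ := red4 h4
  by_cases hq : Sq (n 0) (n 1) (n 2) (n 3)
  · have := h.sq2 hq hl h4 ho
    exact ⟨by omega, fun _ _ => this⟩
  obtain ⟨d1, d2, d3⟩ := dec5 _ _ _ _ hq
  by_cases hv : Z.fr Z.Vt ≤ 1
  · have k1 := h.bcl hl (p := fun z => ¬ Z.Vt z) (ε := 0) fun a c _ h1 _ h2 => absurd h2 h1
    have k2 := fr_or (Z := Z) (p := (‖·‖ ≤ 1)) (q := Z.Vt) (r := fun z => ‖z‖ ≤ 1 ∧ ¬ Z.Vt z)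
      (by tauto)
    exact ⟨by omega, fun _ _ => by omega⟩
  obtain ⟨x, inj, hx⟩ := fr_pts (not_le.1 hv)
  have ct : ∀ (a : ℚ) (c : ZMod 5), Z.Fre a → ‖(a : K) - rp c‖ < 1 → Z.Vt a →
      al (n 0) (n 1) (n 2) (n 3) * be (n 1) (n 2) (n 3) c = 0 := fun a c h1 h2 h3 => by
    obtain ⟨i, hi⟩ : ∃ i, a ≠ x i := by
      by_contra! g
      simpa using inj ((g 0).symm.trans (g 1))
    exact h.cart' hq h4 ho h1 (hx i).1 h3 (hx i).2 hi h2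
  have key : ∀ (u : ℚ) (e : ℤ), ‖(((Z.f.coeff 4)⁻¹ * u ^ 2 : ℚ) : K) - e‖ < 1 → (e : ZMod 5) ≠ 0 →
      Z.fr (‖·‖ ≤ 1) ≤ ∑ c, bc (n 0) (n 1) (n 2) (n 3) (e ^ 2) c := fun u e h1 h2 => by
    simpa using h.bcl hl (p := fun _ => True) fun a c g1 _ g2 g3 =>
      ⟨h.eps h1 h2 g1 g2 g3, ct a c g1 g2 g3⟩
  refine ⟨?_, fun u hu => by simpa using (key u 1 (by simpa using hu) (by simp)).trans (by simpa)⟩
  obtain ⟨c, hc⟩ := exists_class (hx 0).2.1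
  obtain ⟨y, hy⟩ := (Z.good _ (hx 0).1.1).1
  have k := h.val (c := ri c) (rp_cast c ▸ hc)
  rw [hy, ← sq] at k
  exact (key y _ k (by rw [tay0, ri_cast]; exact (h.vt hc).1 (hx 0).2)).trans (d1 _)

end Cfg

end Pool.Agent.MP_8d06cc_nt.H27
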