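import Pool.Agent.MP_8d06cc_nt.H90.Tree

/-! At most six abscissas that are not branch points. -/

namespace Pool.Agent.MP_8d06cc_nt.H27

open Polynomial Finset

theorem tab0 : ∀ k < 5, ∀ k' < 5, ∀ N < 9, 8 - k - k' = 1 ∨ (8 - k - k' = 0 ∧ N ≠ 0) ∨
    (8 - k - k' ≠ 0 ∧ (N = 0 ∨ 8 - k - k' ≤ N)) ∨
    (((N + (8 - k')) % 2 = 1 ∨ sb k (8 - k - k') N + sb k' (8 - k - k') (8 - k - k' - N) ≤ 6) ∧
      min (sb k (8 - k - k') N) (k / 2) + sb k' (8 - k - k') (8 - k - k' - N) ≤ 6 ∧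
      sb k (8 - k - k') N + min (sb k' (8 - k - k') (8 - k - k' - N)) (k' / 2) ≤ 6) := by
  intro k hk k' hk' N hN
  interval_cases k <;> interval_cases k' <;> interval_cases N <;> decide +kernel

theorem tab1 : ∀ k < 5, ∀ N < 5, k = 3 ∨ (k ≠ 4 ∧ (N = 0 ∨ 4 - k ≤ N)) ∨
    (sb k (4 - k) N ≤ 3 ∧ (k = 4 ∨ N % 2 = 1 ∨ sb k (4 - k) N ≤ 2)) := by decide +kernel

namespace Cfg

variable {Z : Cfg}

theorem two_fr (p : K → Prop) : 2 * Z.fr p ≤ Z.cnt p := by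
  classical
  simp only [cnt, fr, wt, card_filter, sum_filter, mul_sum]
  refine sum_le_sum fun a _ => ?_
  by_cases h1 : p a <;> by_cases h2 : Z.f.eval a = 0 <;> simp [h1, h2]

theorem dir_out (h0 : 0 ∉ Z.T) (hβ : ∀ i, Z.β i ≠ 0) (hk : 5 ≤ Z.nr (‖·‖ ≤ 1)) :
    Z.fr (1 < ‖·‖) ≤ 1 ∧ (Z.nr (‖·‖ ≤ 1) = 7 → Z.fr (1 < ‖·‖) = 0) := by
  have c3 := nr_not (Z := Z) (‖·‖ ≤ 1)
  have e : (Z.inv h0 hβ).nr (‖· - (0 : ℚ)‖ < 1) = Z.nr fun z => ¬ ‖z‖ ≤ 1 := by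
    rw [nr_inv]
    exact nr_congr fun i => by simp [inv_lt_one₀ (norm_pos_iff.2 (hβ i))]
  have c4 := (Z.inv h0 hβ).dirF P5.one 0 (by omega)
  rw [e, fr_inv] at c4
  have := fr_mono (Z := Z) (p := (1 < ‖·‖)) (q := fun z => ‖z⁻¹ - (0 : ℚ)‖ < 1) fun a _ h => by
    simpa using inv_lt_one_of_one_lt₀ h
  omega

theorem fr_in_out : Z.fr (fun _ => True) ≤ Z.fr (‖·‖ ≤ 1) + Z.fr (1 < ‖·‖) :=
  fr_or fun _ _ _ => le_or_gt _ 1

theorem caseA6 (hl : Z.Light) (h0 : 0 ∉ Z.T) (hβ : ∀ i, Z.β i ≠ 0) (hk : 5 ≤ Z.nr (‖·‖ ≤ 1)) :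
    Z.fr (fun _ => True) ≤ 6 := fr_in_out.trans (add_le_add (five hl) (dir_out h0 hβ hk).1)

variable {Y Y' : Cfg} {R : ℝ}

theorem Pr.nr (h : Pr Y Y' R) (p : ℝ → Prop) :
    Y'.nr (fun z => p ‖z‖) = Y.nr fun z => p (R / ‖z‖) := by
  unfold Cfg.nr
  congr 1
  ext i
  simp [(h.eq i).2]

theorem Pr.out {N : ℝ} (h : Pr Y Y' (5 * N)) (pN : P5 N) : Y.fr (N < ‖·‖) ≤ Y'.fr (‖·‖ ≤ 1) := by
  rw [h.fr (· ≤ 1)]
  exact fr_mono fun a _ ha => div_le_one_of_le₀ (gap_gt pN ha) (norm_nonneg _)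

theorem short (h : Pr Y Y' (5 * 1)) : Y.fr (fun _ => True) ≤ Y.fr (‖·‖ ≤ 1) + Y'.fr (‖·‖ ≤ 1) ∧
    Y'.nr Mid = Y.nr Mid ∧ Y.nr (‖·‖ ≤ 1) + Y.nr Mid + Y'.nr (‖·‖ ≤ 1) = 8 ∧
    Y.pm Mid * Y'.pm Mid = 5 ^ Y.nr Mid := by
  classical
  have e : ∀ i, Mid (Y'.β i) ↔ Mid (Y.β i) := fun i => by
    obtain ⟨p, e⟩ := h.eq i
    rw [Mid, Mid, e, one_lt_div p, div_lt_iff₀ p, mul_one, lt_mul_iff_one_lt_right (by norm_num),
      and_comm]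
  refine ⟨fr_in_out.trans (add_le_add le_rfl (h.out P5.one)), by simp only [Cfg.nr, e], ?_, ?_⟩
  · rw [← nr_not (Z := Y) (‖·‖ < 5), nr_split, h.nr (· ≤ 1)]
    congr 1
    exact nr_congr fun i => by rw [div_le_one (h.eq i).1, mul_one, not_lt]
  · simp only [pm, e, ← prod_mul_distrib, h.b, Cfg.nr, prod_const, mul_one]

theorem short6 (h : Pr Y Y' (5 * 1)) (l : Y.Light) (l' : Y'.Light) (k : Y.nr (‖·‖ ≤ 1) ≤ 4)
    (k' : Y'.nr (‖·‖ ≤ 1) ≤ 4) : Y.fr (fun _ => True) ≤ 6 := by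
  obtain ⟨s1, s2, s3, s4⟩ := short h
  obtain ⟨N, n1, n2, n3, n4⟩ := Y.np_ex
  obtain ⟨N', n1', -⟩ := Y'.np_ex
  have a := sideF l k n1
  have a' := sideF l' k' n1'
  have m : Y.nr Mid ≠ 1 := Y.mid_ne_one
  rw [n1, n1', ← pow_add, pow_right_inj₀ (by norm_num) (by norm_num)] at s4
  have t := tab0 _ (Nat.lt_succ_of_le k) _ (Nat.lt_succ_of_le k') N (by omega)
  rw [show 8 - Y.nr (‖·‖ ≤ 1) - Y'.nr (‖·‖ ≤ 1) = Y.nr Mid by omega,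
    show Y.nr Mid - N = N' by omega] at t
  rw [s2] at a'
  by_cases e : Ev (gn 1 Y.F)
  · by_cases e' : Ev (gn 1 Y'.F)
    · have := ev_par (by simpa using (h.ev 1 P5.one).1 e') e n4
      omega
    · have := par l' e'
      omega
  · have := par l e
    omega

theorem mid_val {r : ℝ} (hr : 0 < r) (h1 : Z.nr (‖·‖ ≤ r) = 4) (h2 : Z.nr (‖·‖ < r) = 4) {z : K}
    (hz : ‖z‖ = r) : ‖Z.F.coeff 4‖ * r ^ 4 = gn r Z.F ∧
      ‖Z.F.eval z - Z.F.coeff 4 * z ^ 4‖ < gn r Z.F := by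
  obtain ⟨t1, t2⟩ := Z.top hr
  obtain ⟨-, b2⟩ := Z.bot hr
  rw [h1] at t1 t2
  rw [h2] at b2
  refine ⟨t1, ?_⟩
  have := eval_le hr hz.le (Z.F - C (Z.F.coeff 4) * X ^ 4)
  obtain ⟨j, hj⟩ := gn_eq r (Z.F - C (Z.F.coeff 4) * X ^ 4)
  rw [hj, coeff_sub, coeff_C_mul_X_pow] at this
  refine lt_of_le_of_lt (by simpa using this) ?_
  split_ifs with e
  · simpa [e] using Z.gn_pos hr
  · rw [sub_zero]
    exact (lt_or_gt_of_ne e).elim (b2 j) (t2 j)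

/-- One end of a long central path. -/
structure End (Y : Cfg) (N : ℝ) : Prop where
  l : Y.Light
  p : P5 N
  n5 : 5 ≤ N
  h4 : Y.nr (‖·‖ < 5) = 4
  big : ∀ i, ¬ ‖Y.β i‖ < 5 → N < ‖Y.β i‖

variable {N : ℝ}

theorem End.three (h : End Y N) : Y.fr (‖·‖ ≤ 1) ≤ 3 := by
  obtain ⟨n, n1, n2, n3, -⟩ := Y.np_ex
  have e : _ = _ + Y.nr Mid := Y.nr_split
  have m : Y.nr Mid ≠ 1 := Y.mid_ne_one
  have := h.h4
  have a := sideF h.l (by omega) n1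
  have t := tab1 (Y.nr (‖·‖ ≤ 1)) (by omega) n (by omega)
  rw [show 4 - Y.nr (‖·‖ ≤ 1) = Y.nr Mid by omega] at t
  omega

theorem End.mid (h : End Y N) {M : ℚ} (hM : Y.Fre M) (m1 : 5 ≤ ‖(M : K)‖) (m2 : ‖(M : K)‖ ≤ N) :
    Ev (gn 5 Y.F) ∧ ∃ u : ℚ, ‖(((Y.f.coeff 4)⁻¹ * u ^ 2 : ℚ) : K) - 1‖ < 1 := by
  have n : ∀ r, 5 ≤ r → r ≤ N → Y.nr (‖·‖ ≤ r) = 4 ∧ Y.nr (‖·‖ < r) = 4 := fun r r1 r2 =>
    ⟨h.h4 ▸ nr_congr fun i => ⟨fun g => by_contra fun e => by linarith [h.big i e],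
      fun g => by linarith⟩, h.h4 ▸ nr_congr fun i =>
        ⟨fun g => by_contra fun e => by linarith [h.big i e], fun g => by linarith⟩⟩
  have M0 : 0 < ‖(M : K)‖ := by linarith
  obtain ⟨v1, v2⟩ := mid_val M0 (n _ m1 m2).1 (n _ m1 m2).2 rfl
  have v3 := (Y.top (r := 5) (by norm_num)).1
  rw [(n 5 le_rfl h.n5).1] at v3
  obtain ⟨y, y0, hy⟩ := hM.sq
  rw [← v1, ← norm_pow, ← norm_mul, ← hy] at v2
  have v4 := norm_eq_of_sub_lt v2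
  have c0 : Y.F.coeff 4 ≠ 0 := fun e => by simp [e] at v2; linarith [sq_nonneg ‖(y : K)‖]
  have M1 := norm_pos_iff.1 M0
  constructor
  · have := (ev_mul 2).2 (ev_sq (q := y / M ^ 2) (by simpa [y0] using M1))
    rw [← v3]
    convert this using 1
    rw [norm_mul, norm_pow, norm_pow] at v4
    simp only [Rat.cast_div, Rat.cast_pow, norm_div, norm_pow, div_pow, v4]
    field_simp
    norm_num
  · refine ⟨y / M ^ 2, ?_⟩
    push_cast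
    rw [← cf_F, show (Y.F.coeff 4)⁻¹ * (y / M ^ 2 : K) ^ 2 - 1 =
      (y ^ 2 - Y.F.coeff 4 * M ^ 4) / (Y.F.coeff 4 * M ^ 4) by field_simp, norm_div]
    exact (div_lt_one (norm_pos_iff.2 (mul_ne_zero c0 (pow_ne_zero _ M1)))).2 v2

theorem End.two (h : End Y N) {M : ℚ} (hM : Y.Fre M) (m1 : 5 ≤ ‖(M : K)‖) (m2 : ‖(M : K)‖ ≤ N) :
    Y.fr (‖·‖ ≤ 1) ≤ 2 ∧ ((∀ i, ‖Y.β i‖ < 5 → ‖Y.β i‖ * s ^ 8 ≤ 5) ∨
      (Y.fr (‖·‖ ≤ 1) = 0 ∧ ∀ i, ‖Y.β i‖ < 5 → ‖Y.β i‖ * s ^ 6 ≤ 5)) := by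
  obtain ⟨n, n1, n2, n3, n4⟩ := Y.np_ex
  obtain ⟨e5, u, hu⟩ := h.mid hM m1 m2
  have e : _ = _ + Y.nr Mid := Y.nr_split
  have m : Y.nr Mid ≠ 1 := Y.mid_ne_one
  have h4 := h.h4
  have a := sideF h.l (by omega) n1
  have t := tab1 (Y.nr (‖·‖ ≤ 1)) (by omega) n (by omega)
  rw [show 4 - Y.nr (‖·‖ ≤ 1) = Y.nr Mid by omega] at t
  have pr : n % 2 = 1 → 2 * Y.fr (‖·‖ ≤ 1) ≤ Y.nr (‖·‖ ≤ 1) := fun g => par h.l fun e1 => by
    have := ev_par e5 e1 n4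
    omega
  refine ⟨?_, or_iff_not_imp_left.2 fun g => ?_⟩
  · by_cases k4 : Y.nr (‖·‖ ≤ 1) = 4
    · exact (four h.l k4 (out5 (by omega))).2 u hu
    · omega
  simp only [not_forall] at g
  obtain ⟨i, h5, hi⟩ := g
  have := mt (Y.inner1 h5) hi
  simp only [Classical.not_imp, not_le] at this hi
  obtain ⟨h1, h3⟩ := this
  have b := nr_add (Z := Y) (p := (‖·‖ < 5)) (q := fun z => ‖z‖ < 5 ∧ ‖z‖ = ‖Y.β i‖)
    (r := fun z => ‖z‖ < 5 ∧ ‖z‖ ≠ ‖Y.β i‖) (by tauto) (by tauto)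
  have b' := nr_mono (Z := Y) (p := (‖·‖ = ‖Y.β i‖)) (q := fun z => ‖z‖ < 5 ∧ ‖z‖ = ‖Y.β i‖)
    fun l hl => ⟨hl ▸ h5, hl⟩
  have c := nr_eq_zero (Z := Y) (p := fun z => ‖z‖ < 5 ∧ ‖z‖ ≠ ‖Y.β i‖).1 (by omega)
  have d : ∀ l, ‖Y.β l‖ < 5 → ‖Y.β l‖ = ‖Y.β i‖ := fun l g => not_not.1 fun g' => c l ⟨g, g'⟩
  have k0 : Y.nr (‖·‖ ≤ 1) = 0 := nr_eq_zero.2 fun l g => by linarith [d l (by linarith)]
  have j4 : Y.nr Mid = 4 := by omega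
  have p4 : ‖Y.β i‖ ^ 4 = 5 ^ n := by
    classical
    rw [← n1, ← j4, nr, ← prod_const]
    exact prod_congr rfl fun l hl => (d l (mem_filter.1 hl).2.2).symm
  have := s0
  obtain rfl : n = 3 := by
    have := pow_lt_pow_left₀ hi (by norm_num) four_ne_zero
    rw [mul_pow, p4] at this
    obtain rfl | rfl | rfl : n = 1 ∨ n = 2 ∨ n = 3 := by omega
    · norm_num [s] at this
    · norm_num [s] at this
    · rfl
  refine ⟨by omega, fun l g => le_of_pow_le_pow_left₀ four_ne_zero (by norm_num) ?_⟩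
  rw [d l g, mul_pow, p4]
  norm_num [s]

theorem circC (P : K → Prop) (hP : Z.nr P = 4) (hi : ∀ i, P (Z.β i) → ‖Z.β i‖ ≤ s ^ (-6 : ℤ))
    (ho : ∀ i, ¬ P (Z.β i) → s ^ 24 ≤ ‖Z.β i‖) : Z.fr (‖·‖ = 1) ≤ 1 := by
  classical
  by_contra! h
  obtain ⟨x, inj, hx⟩ := fr_pts h
  obtain ⟨σ, b, hW⟩ := Z.bdd2 (fun i => (hx i).1.1) fun i => (hx i).1.2
  have hF := fac_of Z.β Z.c (fun i => P (Z.β i)) (fun _ => False) (zp _) (pow_pos s0 24)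
    (d := False) hi (fun i h _ => ho i h) False.elim
  rw [← nr_eq, hP, ← F_eq] at hF
  simp only [and_false, filter_false, prod_empty, map_one, mul_one, Nat.cast_ofNat] at hF
  obtain ⟨i, hi'⟩ : ∃ i, P (Z.β i) := by
    by_contra! h'
    rw [nr_eq_zero.2 h'] at hP
    omega
  obtain ⟨j, hj'⟩ : ∃ i, ¬ P (Z.β i) := by
    by_contra h'
    have := nr_not (Z := Z) P
    rw [nr_eq_zero (p := fun z => ¬ P z).2 fun i hi => h' ⟨i, hi⟩] at this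
    omega
  refine regC σ Z.F_deg (fun i => (hx i).2) (le_antisymm (norm_sub_le' (hx 0).2.le (hx 1).2.le)
    ((hx 0).1.far (hx 1).1 (inj.ne (by simp)) P5.one fun l hl => ?_)) hF
    (by simpa using rho_out σ one_pos b (fun i => (hx i).2.le) (Z.F_root j)
          (le_trans (by norm_num [s]) (ho j hj')))
    (rho_in σ one_pos b (fun i => (hx i).2.ge) (Z.F_root i) ((hi i hi').trans (by norm_num [s]))) hW
  have e := (norm_eq_of_sub_lt ((hx 0).2 ▸ hl)).trans (hx 0).2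
  by_cases g : P (Z.β l)
  · exact ((hi l g).trans_lt (zl (by norm_num))).ne e
  · exact ((one_lt_pow₀ s1 (by norm_num)).trans_le (ho l g)).ne' e

theorem End.tip (h : End Y N) {M : ℚ} (hM : Y.Fre M) (m1 : 5 ≤ ‖(M : K)‖) (m2 : ‖(M : K)‖ ≤ N) :
    (N = 5 ∧ Y.fr (‖·‖ ≤ 1) = 0) ∨
      ∃ r, P5 r ∧ (∀ i, ‖Y.β i‖ < 5 → ‖Y.β i‖ ≤ r / s ^ 8) ∧ Y.fr (‖·‖ < r) ≤ 2 := by
  have := s0
  obtain ⟨t1, t2 | ⟨t2, t3⟩⟩ := h.two hM m1 m2
  · exact .inr ⟨5, P5.five, fun i hi => (le_div_iff₀ (by positivity)).2 (t2 i hi),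
      (fr_mono fun a _ h => (rat_cases a P5.one).resolve_right (by linarith)).trans t1⟩
  refine (h.n5.eq_or_lt).imp (fun e => ⟨e.symm, t2⟩) fun e => ⟨5 * 5, P5.five.mul P5.five,
    fun i hi => (le_div_iff₀ (by positivity)).2 (mul_le_mul hi.le s8 (by positivity) (by norm_num)),
    ?_⟩
  have n5 : ‖((5⁻¹ : ℚ) : K)‖ = 5 := by simp [norm_five]
  have u1 := circC (Z := Y.aff 5⁻¹ 0 (by norm_num)) (fun z => ‖z‖ < 1) (by
      rw [nr_aff, ← h.h4]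
      exact nr_congr fun i => by rw [norm_div, n5, div_lt_one (by norm_num)]; simp)
    (fun i hi => by
      simp only [aff, Rat.cast_zero, sub_zero, norm_div, n5] at hi ⊢
      rw [div_lt_one (by norm_num)] at hi
      rw [zpow_neg, div_le_iff₀ (by norm_num), le_inv_mul_iff₀ (zp _), mul_comm]
      exact_mod_cast t3 i hi) fun i hi => by
      simp only [aff, Rat.cast_zero, sub_zero, norm_div, n5] at hi ⊢
      rw [div_lt_one (by norm_num)] at hi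
      rw [le_div_iff₀ (by norm_num)]
      linarith [h.big i hi, P5.five.gap h.p e, s24]
  rw [fr_aff] at u1
  have u2 := fr_or (Z := Y) (p := (‖·‖ < 5 * 5)) (q := (‖·‖ ≤ 1))
    (r := fun z => ‖(z - (0 : ℚ)) / (5⁻¹ : ℚ)‖ = 1) fun a _ h =>
      (rat_cases a P5.one).imp_right fun h' => by
        rw [norm_div, n5, Rat.cast_zero, sub_zero, le_antisymm
          ((rat_cases a P5.five).resolve_right h.not_ge) (by linarith), div_self (by norm_num)]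
  omega

theorem Pr.ends (h : Pr Y Y' (5 * N)) (pN : P5 N) (n5 : 5 ≤ N) (l : Y.Light)
    (k : 4 ≤ Y.nr (‖·‖ < 5)) (k' : 4 ≤ Y'.nr (‖·‖ < 5)) : End Y N := by
  have p := pN.pos
  rw [h.nr (· < 5), nr_congr (q := (N < ‖·‖)) fun i => by
    rw [div_lt_iff₀ (h.eq i).1, mul_lt_mul_iff_right₀ (by norm_num)]] at k'
  have a := nr_add (Z := Y) (p := fun z => ¬ ‖z‖ < 5) (q := (N < ‖·‖))
    (r := fun z => ¬ ‖z‖ < 5 ∧ ¬ N < ‖z‖) (fun z => ⟨by tauto, fun g => g.elim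
      (fun g => by linarith) And.left⟩) (by tauto)
  have b := nr_not (Z := Y) (‖·‖ < 5)
  exact ⟨l, pN, n5, by omega, fun i hi => by_contra fun g =>
    nr_eq_zero (p := fun z => ¬ ‖z‖ < 5 ∧ ¬ N < ‖z‖).1 (by omega) i ⟨hi, g⟩⟩

/-- The middle part of the central path. -/
def Md (N : ℝ) (z : K) : Prop := 5 ≤ ‖z‖ ∧ ‖z‖ ≤ N

theorem Pr.md (h : Pr Y Y' (5 * N)) (pN : P5 N) : Y'.fr (Md N) ≤ Y.fr (Md N) := by
  have p := pN.pos
  refine (h.fr fun x => 5 ≤ x ∧ x ≤ N).trans_le (fr_mono fun a _ g => ?_)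
  have q : 0 < ‖(a : K)‖ := (norm_nonneg _).lt_of_ne fun e => by
    rw [← e] at g; norm_num at g
  rw [le_div_iff₀ q, div_le_iff₀ q] at g
  exact ⟨by nlinarith [g.2], by linarith [g.1]⟩

theorem Pr.tot (h : Pr Y Y' (5 * N)) (pN : P5 N) :
    Y.fr (fun _ => True) ≤ Y.fr (‖·‖ ≤ 1) + Y.fr (Md N) + Y'.fr (‖·‖ ≤ 1) := by
  have a := fr_or (Z := Y) (p := (1 < ‖·‖)) (q := Md N) (r := (N < ‖·‖)) fun a _ g =>
    (le_or_gt _ N).imp_left fun e => ⟨by simpa using gap_gt P5.one g, e⟩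
  have := fr_in_out (Z := Y)
  have := h.out pN
  omega

theorem long6 (h : Pr Y Y' (5 * N)) (e : End Y N) (e' : End Y' N) : Y.fr (fun _ => True) ≤ 6 := by
  have t := h.tot e.p
  have p := e.p.pos
  by_cases m : Y.fr (Md N) = 0
  · have := e.three
    have := e'.three
    omega
  obtain ⟨M, m1, m2⟩ := fr_ex m
  obtain ⟨M', m1', m2'⟩ := fr_ex (Z := Y') (p := Md N) (by have := h.symm.md e.p; omega)
  have c : N = 5 → Y.fr (Md N) ≤ 4 := fun g => by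
    have := (two_fr _).trans (Y.circle P5.five fun i h => by linarith [e.big i (by linarith)])
    have := fr_mono (Z := Y) (p := Md N) (q := (‖·‖ = 5)) fun a _ h => le_antisymm (g ▸ h.2) h.1
    omega
  have a := (e.two m1 m2.1 m2.2).1
  have a' := (e'.two m1' m2'.1 m2'.2).1
  obtain ⟨g1, g2⟩ | ⟨r₁, p1, q1, w1⟩ := e.tip m1 m2.1 m2.2
  · have := c g1
    omega
  obtain ⟨g1, g2⟩ | ⟨r₂, p2, q2, w2⟩ := e'.tip m1' m2'.1 m2'.2
  · have := c g1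
    omega
  have r2 := p2.pos
  have := s0
  have u3 := (two_fr _).trans (Y.annulus p1 (h.p.mul p2.inv) (‖·‖ < 5) e.h4 q1 fun i hi => by
    obtain ⟨b0, b1⟩ := h.eq i
    have := q2 i (by rw [b1, div_lt_iff₀ b0]; linarith [e.big i hi])
    rw [b1, div_le_div_iff₀ b0 (by positivity)] at this
    rw [mul_right_comm, mul_inv_le_iff₀ r2]
    linarith)
  have u4 := fr_or (Z := Y) (p := fun _ => True) (q := (‖·‖ < r₁)) (r := (r₁ ≤ ‖·‖))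
    fun a _ _ => lt_or_ge _ _
  have u5 := fr_or (Z := Y) (p := (r₁ ≤ ‖·‖)) (q := fun z => r₁ ≤ ‖z‖ ∧ ‖z‖ ≤ 5 * N * r₂⁻¹)
    (r := fun z => 5 * N / ‖z‖ < r₂) fun a _ g => (le_or_gt _ _).imp (⟨g, ·⟩) fun g' => by
      rw [mul_inv_lt_iff₀ r2] at g'
      rw [div_lt_iff₀ (p1.pos.trans_le g)]
      linarith
  rw [← h.fr (· < r₂)] at u5
  omega

theorem six (Z : Cfg) : Z.fr (fun _ => True) ≤ 6 := by
  refine shape (fun Z => Z.fr (fun _ => True) ≤ 6) (fun Z α γ h => by rw [fr_aff]; exact id)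
    (fun Z h h' => by rw [fr_inv]; exact id) (fun Z => caseA6) (fun Y Y' n h l l' k k' j j' => ?_) Z
  rcases n with _ | n
  · exact short6 h l l' k k'
  have p := P5.five.pow (n + 1)
  have n5 : (5 : ℝ) ≤ 5 ^ (n + 1) := le_self_pow₀ (by norm_num) n.succ_ne_zero
  exact long6 h (h.ends p n5 l j j') (h.symm.ends p n5 l' j' j)

end Cfg

end Pool.Agent.MP_8d06cc_nt.H27
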