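import Pool.Agent.MP_8d06cc_nt.H90.Psum
import Pool.Agent.MP_8d06cc_nt.H90.Side

/-! A vertex with four pairs of branch points. -/

namespace Pool.Agent.MP_8d06cc_nt.H27

open Polynomial Finset Filter

theorem lag3 {q : K[X]} (hq : q.natDegree ≤ 2) {a b c : K} {t : ℝ} (ha : ‖a‖ ≤ 1) (hb : ‖b‖ ≤ 1)
    (hc : ‖c‖ ≤ 1) (ab : ‖a - b‖ = 1) (bc : ‖b - c‖ = 1) (ca : ‖c - a‖ = 1) (h1 : ‖q.eval a‖ ≤ t)
    (h2 : ‖q.eval b‖ ≤ t) (h3 : ‖q.eval c‖ ≤ t) : gn 1 q ≤ t := by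
  have k : ∀ {z u v : K} {b c : K}, ‖z‖ ≤ t → ‖u‖ = 1 → ‖v‖ = 1 → ‖b‖ ≤ 1 → ‖c‖ ≤ 1 →
      gn 1 (C (z / (u * v)) * ((X - C b) * (X - C c))) ≤ t := fun h hu hv hb hc =>
    (gn_C_mul_le (mul_mem (sub_mem X_O1 (C_O1 hb)) (sub_mem X_O1 (C_O1 hc)))).trans
      (by simpa [hu, hv] using h)
  have := (gn_add one_pos _ _).trans (max_le ((gn_add one_pos _ _).trans
    (max_le (k h1 ab ca hb hc) (k h2 bc ab hc ha))) (k h3 ca bc ha hb))
  rw [← gn_neg one_pos] at this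
  refine le_of_eq_of_le (congrArg _ (Polynomial.funext fun z => ?_)) this
  have := norm_pos_iff.1 (ab ▸ one_pos)
  have := norm_pos_iff.1 (bc ▸ one_pos)
  have := norm_pos_iff.1 (ca ▸ one_pos)
  simp only [eval_neg, eval_add, eval_mul, eval_sub, eval_C, eval_X,
    fun z => eval_eq_sum_range' (Nat.lt_succ_of_le hq) z, sum_range_succ, sum_range_zero]
  field_simp
  ring

theorem quart_one {a y : K} {Γ : ℝ} (e3 : ‖a‖ = Γ) (e6 : ‖y‖ < Γ) :
    y - a ≠ 0 ∧ y + a ≠ 0 ∧ ‖((y + a) / (y - a)) ^ 4 - 1‖ = ‖y‖ / Γ := by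
  have g := (norm_nonneg _).trans_lt e6
  have e7 : ‖y - a‖ = Γ := by rw [norm_sub_rev, norm_sub_big (e3 ▸ e6), e3]
  have e8 : ‖y + a‖ = Γ := e3 ▸ norm_eq_of_sub_lt (by simpa [e3] using e6)
  have e9 : ‖y ^ 2 + a ^ 2‖ = Γ ^ 2 := by
    rw [← e3, ← norm_pow]
    exact norm_eq_of_sub_lt (by rw [add_sub_cancel_right, norm_pow, norm_pow, e3]; gcongr)
  have n0 := norm_pos_iff.1 (e7 ▸ g)
  have n8 : ‖(8 : K)‖ = 1 := by simpa using norm_int_eq 8 (by norm_num)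
  refine ⟨n0, norm_pos_iff.1 (e8 ▸ g), ?_⟩
  rw [show ((y + a) / (y - a)) ^ 4 - 1 = 8 * y * a * (y ^ 2 + a ^ 2) / (y - a) ^ 4 by
    field_simp; ring]
  simp only [norm_div, norm_mul, norm_pow, n8, e3, e7, e9]
  field_simp

theorem quart_near {α β δ : K} {Γ : ℝ} (g : 0 < Γ) (h1 : ‖α‖ = Γ) (h2 : ‖β‖ = Γ)
    (h : ‖δ‖ ≤ Γ / 25) :
    β + δ ≠ 0 ∧ α + δ ≠ 0 ∧ ‖((α + δ) / (β + δ)) ^ 4 - (α / β) ^ 4‖ ≤ 1 / 25 := by
  have e : ∀ {α : K}, ‖α‖ = Γ → ‖α + δ‖ = Γ := fun h1 =>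
    h1 ▸ norm_eq_of_sub_lt (by rw [add_sub_cancel_left, h1]; linarith)
  have b0 := norm_pos_iff.1 (h2 ▸ g)
  have b1 := norm_pos_iff.1 (e h2 ▸ g)
  refine ⟨b1, norm_pos_iff.1 (e h1 ▸ g), ?_⟩
  have z1 : ‖α / β‖ = 1 := by rw [norm_div, h1, h2, div_self g.ne']
  have w1 : ‖(α + δ) / (β + δ)‖ = 1 := by rw [norm_div, e h1, e h2, div_self g.ne']
  have k : ‖(α + δ) / (β + δ) - α / β‖ ≤ 1 / 25 := by
    rw [show _ - _ = δ / (β + δ) * (1 - α / β) by field_simp; ring, norm_mul, norm_div, e h2]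
    exact (mul_le_of_le_one_right (by positivity) (norm_sub_le' (by simp) z1.le)).trans
      (by rw [div_le_iff₀ g]; linarith)
  generalize (α + δ) / (β + δ) = w at *
  generalize α / β = z at *
  rw [show w ^ 4 - z ^ 4 = (w - z) * ((w + z) * (w ^ 2 + z ^ 2)) by ring, norm_mul, norm_mul]
  exact (mul_le_of_le_one_right (norm_nonneg _) (mul_le_one₀ (norm_add_le' w1.le z1.le)
    (norm_nonneg _) (norm_add_le' (by simp [w1]) (by simp [z1])))).trans k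

open Classical in
theorem clu {H M : K[X]} {c : K} {κ : ℕ} (H0 : H ≠ 0) (hr : ∀ z ∈ H.roots, ‖z‖ ≤ 1) (hc : ‖c‖ ≤ 1)
    (κ3 : κ ≤ 3) (h : gn 1 (H - (X - C c) ^ κ * M) ≤ ‖H.leadingCoeff‖ / 25)
    (hM : ‖M.eval c‖ = ‖H.leadingCoeff‖) :
    PS ((H.roots.filter (‖· - c‖ < 1)).map (· - c)) (s ^ (-5 : ℤ)) (1 / 25 / (s ^ (-5 : ℤ)) ^ 3) := by
  have l0 := leadingCoeff_ne_zero.2 H0
  have l1 := norm_pos_iff.2 l0
  set G := ((H.roots.filter fun z => ¬ ‖z - c‖ < 1).map fun z => X - C (z - c)).prod with hG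
  have e : (((H.roots.filter (‖· - c‖ < 1)).map (· - c)).map fun z => X - C z).prod * G =
      C H.leadingCoeff⁻¹ * H.comp (X + C c) := by
    have e0 := congrArg (·.comp (X + C c)) (IsAlgClosed.splits H).eq_prod_roots
    rw [e0, hG, Multiset.map_map, ← Multiset.prod_add, mul_comp, C_comp, ← mul_assoc, ← map_mul, inv_mul_cancel₀ l0, map_one, one_mul, multiset_prod_comp,
      Multiset.map_map]
    simp only [Function.comp_def, ← Multiset.map_add, Multiset.filter_add_not, sub_comp, X_comp,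
      C_comp, map_sub, add_sub_assoc, ← neg_sub (C c), sub_neg_eq_add]
  have k := fun j => (cf_le _ j).trans ((gn_comp one_pos hc _).trans h)
  simp only [sub_comp, mul_comp, pow_comp, X_comp, C_comp, add_sub_cancel_right, coeff_sub,
    coeff_X_pow_mul'] at k
  refine ps_of (G := G) (zp _) (zl (by norm_num)).le (by norm_num [s]) (by norm_num)
    (fun z hz => ?_) ?_ ?_ κ3 ?_ fun j hj => ?_
  · obtain ⟨w, hw, rfl⟩ := Multiset.mem_map.1 hz
    exact (Multiset.mem_filter.1 hw).2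
  · refine multiset_prod_mem (S := O1) _ fun P hP => ?_
    obtain ⟨w, hw, rfl⟩ := Multiset.mem_map.1 hP
    exact sub_mem X_O1 (C_O1 (norm_sub_le' (hr w (Multiset.mem_filter.1 hw).1) hc))
  · rw [coeff_zero_eq_eval_zero, hG, eval_multiset_prod]
    refine Multiset.prod_induction (fun z : K => ‖z‖ = 1) _ (fun _ _ a b => by simp [a, b])
      norm_one fun z hz => ?_
    rw [Multiset.map_map] at hz
    obtain ⟨w, hw, rfl⟩ := Multiset.mem_map.1 hz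
    simpa [norm_sub_rev c] using le_antisymm (norm_sub_le' (hr w (Multiset.mem_filter.1 hw).1) hc)
      (not_lt.1 (Multiset.mem_filter.1 hw).2)
  · have := k κ
    rw [if_pos le_rfl, Nat.sub_self, coeff_zero_eq_eval_zero, eval_comp, eval_add, eval_X, eval_C,
      zero_add] at this
    rw [e, Polynomial.coeff_C_mul, norm_mul, norm_eq_of_sub_lt (this.trans_lt (by
      rw [hM]; linarith)), hM, norm_inv, inv_mul_cancel₀ l1.ne']
  · have := k j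
    rw [if_neg hj.not_ge, sub_zero] at this
    rw [e, Polynomial.coeff_C_mul, norm_mul, norm_inv, inv_mul_le_iff₀ l1]
    linarith

namespace Cfg

theorem cwin0 (Z : Cfg) {c : K} (hc : ‖c‖ ≤ 1) (hk : Z.nr (‖· - c‖ < 1) = 2)
    (hin : ∀ i, ‖Z.β i - c‖ < 1 → ‖Z.β i - c‖ ≤ 1 / 5) {ι : Type} [Fintype ι] {x : ι → K}
    (u : Sol Z.F x) (hb : u.Bdd 1) (hx : ∀ i, ‖x i - c‖ = 1) {w : ℝ} (w0 : 0 < w)
    (hq : gn 1 u.q ≤ w) (hW : ∀ i, ‖u.W i‖ ≤ w) {a : K[X]} {γ : K} (g0 : 0 < ‖γ‖)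
    (g : ‖γ‖ ^ 2 = gn 1 Z.F) (a0 : a.eval c = 0) (a1 : gn 1 a ≤ ‖γ‖) {T : Multiset K}
    (ha : ∀ z ∈ T, a.eval z ^ 2 = Z.F.eval z) {θ : ℝ} (θ0 : 0 < θ)
    (hT : PS (T.map (· - c)) (s ^ (-5 : ℤ)) θ) : ∀ᶠ k in atTop,
      ‖(T.map fun z => u.val z (a.eval z)).prod ^ (4 * 5 ^ k) - 1‖ ≤
        (1 / 5) ^ k * (θ * (w / ‖γ‖)) := by
  classical
  have hin' : ∀ i, ‖Z.β i - c‖ < 1 → ‖Z.β i - c‖ ≤ s ^ (-2 * 5 : ℤ) := fun i hi =>
    (hin i hi).trans (by norm_num [s])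
  have hF := fac_of (fun i => Z.β i - c) Z.c (fun i => ‖Z.β i - c‖ < 1) (fun _ => False)
    (zp (-2 * 5)) one_pos (d := False) hin' (fun i h _ => not_lt.1 h) False.elim
  rw [← nr_eq (‖· - c‖ < 1), hk, ← F_comp] at hF
  simp only [and_false, filter_false, prod_empty, map_one, mul_one] at hF
  obtain ⟨i, hi⟩ : ∃ i, ‖Z.β i - c‖ < 1 := by
    by_contra h'
    rw [nr_eq_zero.2 fun i hi => h' ⟨i, hi⟩] at hk
    omega
  have x0 : ∀ i, x i - c ≠ 0 := fun i => norm_pos_iff.1 (hx i ▸ one_pos)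
  have p := zp (-5)
  have p1 : s ^ (-5 : ℤ) < 1 := zl (by norm_num)
  obtain ⟨-, r2⟩ := win (a := 5) (E := 5) (by norm_num) le_rfl (by norm_num) (by norm_num)
    (by simp only [Int.abs_eq_natAbs]; omega) (u.shift c) (Z.comp_deg c) (fun i => (hx i).ge)
    (rho_in _ one_pos (hb.shift hc) (fun i => (hx i).ge) (β := Z.β i - c)
      (by simpa using Z.F_root i) ((hin i hi).trans (by norm_num [s]))) hF w0 fun m hm => by
    rw [Sol.R_coeff _ x0]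
    refine norm_sub_le' ((cf_le _ m).trans ((gn_comp one_pos hc _).trans hq))
      (IsUltrametricDist.norm_sum_le_of_forall_le_of_nonneg w0.le fun i _ => ?_)
    simpa [hx, Sol.shift] using hW i
  have lo : ‖γ‖ ^ 2 * (s ^ (-5 : ℤ)) ^ 2 ≤ gn (s ^ (-5 : ℤ)) (Z.F.comp (X + C c)) := by
    obtain ⟨b1, -⟩ := bot_lem (fun i => Z.β i - c) one_pos univ
    rw [← nr_eq (‖· - c‖ < 1), hk, one_pow, mul_one] at b1
    refine le_trans ?_ (le_gn p _ 2)
    rw [g, F_comp, Polynomial.coeff_C_mul, norm_mul, b1, F_eq, gn_mul one_pos, gn_C]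
    simp only [gn_prod one_pos, gn_X_sub one_pos, max_shift hc, le_refl]
  have a2 : (a.comp (X + C c)).coeff 0 = 0 := by simp [coeff_zero_eq_eval_zero, a0]
  refine (cl_val _ p p1 θ0 (fun i => (hx i).ge) (lt_of_lt_of_le (by positivity) lo) r2 hT a2
    (α := ‖γ‖ * s ^ (-5 : ℤ)) (gn_le fun j => ?_) fun z hz => ?_).mono fun k hk => ?_
  · rcases j with _ | j
    · rw [a2, norm_zero, zero_mul]; positivity
    rw [pow_succ']
    exact mul_le_mul ((cf_le _ _).trans ((gn_comp one_pos hc _).trans a1))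
      (mul_le_of_le_one_right p.le (pow_le_one₀ p.le p1.le)) (by positivity) g0.le
  · obtain ⟨w, hw, rfl⟩ := Multiset.mem_map.1 hz
    simpa using ha w hw
  · simp only [Multiset.map_map, Function.comp_def, Sol.val_shift, eval_comp, eval_add, eval_X,
      eval_C, sub_add_cancel] at hk
    refine hk.trans ?_
    have := s0
    gcongr _ * (_ * ?_)
    refine (div_le_div_of_nonneg_left (mul_pos (mul_pos w0 p) (mul_pos g0 p)).le (by positivity)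
      lo).trans (le_of_eq ?_)
    field_simp

/-- Four pairs of branch points around the centres `c m`. -/
structure St (Z : Cfg) (γ : K) (c : Fin 4 → K) : Prop where
  le : ∀ m, ‖c m‖ ≤ 1
  far : ∀ m m', m ≠ m' → ‖c m - c m'‖ = 1
  two : ∀ m, Z.nr (‖· - c m‖ < 1) = 2
  near : ∀ m i, ‖Z.β i - c m‖ < 1 → ‖Z.β i - c m‖ ≤ 1 / 5
  g0 : 0 < ‖γ‖
  g : ‖γ‖ ^ 2 = gn 1 Z.F
  ap : gn 1 (C (γ ^ 2) * (∏ m, (X - C (c m))) ^ 2 - Z.F) ≤ ‖γ‖ ^ 2 / 25

variable {Z : Cfg} {γ : K} {c : Fin 4 → K}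

theorem St.perm (h : Z.St γ c) (e : Equiv.Perm (Fin 4)) : Z.St γ (c ∘ e) :=
  ⟨fun _ => h.le _, fun _ _ g => h.far _ _ (e.injective.ne g), fun _ => h.two _,
    fun _ => h.near _, h.g0, h.g, by
      rw [show ∏ m, (X - C ((c ∘ e) m)) = _ from Equiv.prod_comp e fun m => X - C (c m)]
      exact h.ap⟩

theorem St.qb (h : Z.St γ c) {x y : Fin 2 → K} {n : Fin 2 → ℤ} {u : Sol Z.F x} (hu : Gd u y n)
    (hb : u.Bdd 1) (hx : ∀ m ≠ 0, ∀ i, ‖x i - c m‖ = 1) {w : ℝ} (w0 : 0 < w)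
    (hW : ∀ i, ‖u.W i‖ ≤ w) : gn 1 u.q ≤ w := by
  by_contra! g
  have k : ∀ m ≠ 0, ‖u.q.eval (c m)‖ ≤ max w (gn 1 u.q * s ^ (-5 : ℤ)) := fun m hm => by
    have := (Z.cwin (κ := 2) (a := 5) (E := 5) (by norm_num) le_rfl (by norm_num) le_rfl
      (by simp only [Int.abs_eq_natAbs]; omega) (h.le m) (h.two m)
      (fun i hi => (h.near m i hi).trans (by norm_num [s])) u hb (fun i => (hx m hm i).ge)
      (w0.trans g) (gn_sub_le one_pos le_rfl ((gn_C _ _).le.trans (cf_le _ _)))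
      fun i => by rw [hx m hm, one_pow, mul_one]; exact (hW i).trans g.le).1
    simpa using norm_add_le' (le_max_of_le_right this) (le_max_of_le_left
      (IsUltrametricDist.norm_sum_le_of_forall_le_of_nonneg (s := univ)
        (f := fun i => u.W i * (x i - c m)⁻¹) w0.le fun i _ => by simpa [hx m hm] using hW i))
  exact (max_lt g (mul_lt_of_lt_one_right (w0.trans g) (zl (by norm_num)))).not_ge
    (lag3 hu.q (h.le 1) (h.le 2) (h.le 3) (h.far _ _ (by simp)) (h.far _ _ (by simp))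
      (h.far _ _ (by simp)) (k 1 (by simp)) (k 2 (by simp)) (k 3 (by simp)))

/-- The test polynomial. -/
noncomputable def ab (γ : K) (c : Fin 4 → K) : K[X] :=
  C γ * ((X - C (c 1)) * (X - C (c 2)) * (X - C (c 3)) * (C ((c 0 - c 1) / (c 2 - c 1)) *
    (X - C (c 2)) - C ((c 2 - c 0) / (c 2 - c 1)) * (X - C (c 1))))

theorem St.vv (h : Z.St γ c) {x y : Fin 2 → K} {n : Fin 2 → ℤ} {u : Sol Z.F x} (hu : Gd u y n)
    (hb : u.Bdd 1) (hx : ∀ m ≠ 0, ∀ i, ‖x i - c m‖ = 1) {w : ℝ} (w0 : 0 < w)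
    (hW : ∀ i, ‖u.W i‖ ≤ w) : (ab γ c ^ 2 - Z.F).natDegree = 2 * 4 ∧ ∀ᶠ k in atTop,
      ‖u.V (ab γ c) ^ (4 * 5 ^ k) - 1‖ ≤
        (1 / 5) ^ k * (1 / 25 / (s ^ (-5 : ℤ)) ^ 3 * (w / ‖γ‖)) := by
  classical
  have g := h.g0
  have f : ∀ m m', m ≠ m' → ‖c m - c m'‖ = 1 := h.far
  have n4 : ‖(4 : K)‖ = 1 := by simpa using norm_int_eq 4 (by norm_num)
  set l := -4 * γ ^ 2 * ((c 0 - c 1) / (c 2 - c 1) * ((c 2 - c 0) / (c 2 - c 1))) with hl
  have l1 : ‖l‖ = ‖γ‖ ^ 2 := by simp [hl, f, n4]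
  have c0 := norm_pos_iff.1 (f 2 1 (by simp) ▸ one_pos)
  set H := ab γ c ^ 2 - Z.F with hH
  have e : gn 1 (H - C l * ((X - C (c 1)) ^ 3 * (X - C (c 2)) ^ 3 * (X - C (c 3)) ^ 2)) ≤
      ‖γ‖ ^ 2 / 25 := le_of_eq_of_le (congrArg _ (Polynomial.funext fun z => by
    simp only [hH, hl, ab, Fin.prod_univ_four, eval_sub, eval_mul, eval_pow, eval_C, eval_X]
    field_simp
    ring)) h.ap
  have d1 : (C l * ((X - C (c 1)) ^ 3 * (X - C (c 2)) ^ 3 * (X - C (c 3)) ^ 2)).coeff 8 = l := by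
    compute_degree!
  have d2 : H.natDegree ≤ 8 := (natDegree_sub_le _ _).trans (max_le (by
    rw [ab]; compute_degree) Z.F_deg.le)
  have d3 : ‖H.coeff 8‖ = ‖γ‖ ^ 2 := by
    have := (cf_le _ 8).trans e
    rw [coeff_sub, d1] at this
    rw [← l1]
    exact norm_eq_of_sub_lt (this.trans_lt (by rw [l1]; linarith [pow_pos g 2]))
  have d4 : H.natDegree = 8 := le_antisymm d2 (le_natDegree_of_ne_zero
    (norm_pos_iff.1 (by rw [d3]; positivity)))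
  have H0 : H ≠ 0 := by rintro e; simp [e] at d4
  have lc : ‖H.leadingCoeff‖ = ‖γ‖ ^ 2 := by rw [leadingCoeff, d4, d3]
  have rt : ∀ z ∈ H.roots, ‖z‖ ≤ 1 ∧ (‖z - c 1‖ < 1 ∨ ‖z - c 2‖ < 1 ∨ ‖z - c 3‖ < 1) :=
    fun z hz => by
    have m0 := le_max_left 1 ‖z‖
    have k := (eval_le (one_pos.trans_le m0) (le_max_right _ _) _).trans ((gn_up one_pos m0 (n := 8)
      ((natDegree_sub_le _ _).trans (max_le d2 (by compute_degree)))).trans
        (mul_le_mul_of_nonneg_right e (by positivity)))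
    simp only [eval_sub, (isRoot_of_mem_roots hz).eq_zero, zero_sub, norm_neg, eval_mul, eval_pow,
      eval_C, eval_X, norm_mul, norm_pow, l1, div_one] at k
    have z1 : ‖z‖ ≤ 1 := not_lt.1 fun g' => by
      simp only [norm_sub_big ((h.le _).trans_lt g'), max_eq_right g'.le] at k
      nlinarith [mul_pos (pow_pos g 2) (pow_pos (one_pos.trans g') 8)]
    refine ⟨z1, ?_⟩
    by_contra! g'
    have := fun m => norm_sub_le' z1 (h.le m)
    simp only [le_antisymm (this _) g'.1, le_antisymm (this _) g'.2.1, le_antisymm (this _) g'.2.2,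
      max_eq_left z1] at k
    nlinarith [pow_pos g 2]
  have a1 : gn 1 (ab γ c) ≤ ‖γ‖ := gn_C_mul_le (by
    have := fun m => sub_mem X_O1 (C_O1 (h.le m))
    apply_rules (transparency := .reducible) [mul_mem, sub_mem, C_O1] <;> simp [f])
  have k : ∀ m ≠ 0, ∀ κ ≤ 3, ∀ M : K[X], (X - C (c m)) ^ κ * M = C l * ((X - C (c 1)) ^ 3 *
      (X - C (c 2)) ^ 3 * (X - C (c 3)) ^ 2) → ‖M.eval (c m)‖ = ‖γ‖ ^ 2 →
      (ab γ c).eval (c m) = 0 → _ := fun m hm κ hκ M e1 e2 e3 =>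
    Z.cwin0 (h.le m) (h.two m) (h.near m) u hb (hx m hm) w0 (h.qb hu hb hx w0 hW) hW g h.g e3 a1
      (fun z hz => root_sq (Multiset.mem_filter.1 hz).1) (by have := s0; positivity)
      (clu H0 (fun z hz => (rt z hz).1) (h.le m) hκ (by rwa [e1, lc]) (by rwa [lc]))
  have t := ((tendsto_pow_atTop_nhds_zero_of_lt_one (r := (1 / 5 : ℝ)) (by norm_num)
    (by norm_num)).mul_const (1 / 25 / (s ^ (-5 : ℤ)) ^ 3 * (w / ‖γ‖))).eventually_lt_const
      (u := 1) (by simp)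
  refine ⟨d4, ?_⟩
  filter_upwards [t, k 1 (by simp) 3 le_rfl (C l * ((X - C (c 2)) ^ 3 * (X - C (c 3)) ^ 2))
    (by ring) (by simp [l1, f]) (by simp [ab]), k 2 (by simp) 3 le_rfl (C l * ((X - C (c 1)) ^ 3 *
    (X - C (c 3)) ^ 2)) (by ring) (by simp [l1, f]) (by simp [ab]), k 3 (by simp) 2 (by simp)
    (C l * ((X - C (c 1)) ^ 3 * (X - C (c 2)) ^ 3)) (by ring) (by simp [l1, f]) (by simp [ab])]
    with k k0 k1 k2 k3
  have sp : H.roots = H.roots.filter (‖· - c 1‖ < 1) + (H.roots.filter (‖· - c 2‖ < 1) +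
      H.roots.filter (‖· - c 3‖ < 1)) := Multiset.ext' fun z => by
    simp only [Multiset.count_add, Multiset.count_filter]
    by_cases hz : z ∈ H.roots
    swap
    · simp [Multiset.count_eq_zero_of_notMem hz]
    have x : ∀ m m', m ≠ m' → ‖z - c m‖ < 1 → ¬ ‖z - c m'‖ < 1 := fun m m' g a b => by
      simpa [f _ _ g] using norm_sub_lt' b a
    rcases (rt z hz).2 with a | a | a <;> simp [a, x _ _ _ a]
  have := s0
  rw [Sol.V, ← hH, sp]
  simp only [Multiset.map_add, Multiset.prod_add, mul_pow]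
  simpa using mprod_near {_, _, _} (by positivity) k0.le (by
    simp only [Multiset.insert_eq_cons, Multiset.mem_cons, Multiset.mem_singleton]
    rintro _ (rfl | rfl | rfl)
    exacts [k1, k2, k3])

theorem St.rel (h : Z.St γ c) {x y : Fin 2 → K} {n : Fin 2 → ℤ} {u : Sol Z.F x} (hu : Gd u y n)
    (hy : ∀ i, y i ^ 2 = Z.F.eval (x i)) (hb : u.Bdd 1) (W0 : u.W ≠ 0)
    (hv : ∀ m, ‖x 0 - c m‖ = 1) (yv : ‖y 0 - γ * ∏ m, (x 0 - c m)‖ ≤ ‖γ‖ / 25)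
    (hA : ‖x 1 - c 0‖ ≤ 1 / 5) {G : K}
    (hG : G = (c 0 - c 1) * (x 0 - c 2) / ((c 2 - c 0) * (x 0 - c 1))) (G1 : ‖G ^ 4 - 1‖ ≤ 1 / 5) :
    ‖G ^ 4 - 1‖ < 1 / 5 ↔ ‖u.W 1‖ < ‖u.W 0‖ / 5 := by
  have g := h.g0
  have f : ∀ m m', m ≠ m' → ‖c m - c m'‖ = 1 := h.far
  have c0 := norm_pos_iff.1 (f 2 1 (by simp) ▸ one_pos)
  have xa : ∀ m ≠ 0, ‖x 1 - c m‖ = 1 := fun m hm => (f 0 m hm.symm) ▸
    norm_eq_of_sub_lt (by rw [sub_sub_sub_cancel_right, f 0 m hm.symm]; linarith)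
  obtain ⟨d, hV⟩ := h.vv hu hb (fun m hm => by simp [hv, xa m hm]) (wpos W0) (by simp)
  obtain ⟨δ, hδ⟩ : ∃ δ, y 0 = γ * ∏ m, (x 0 - c m) + δ := ⟨_, (add_sub_cancel _ _).symm⟩
  rw [hδ, add_sub_cancel_left] at yv
  obtain ⟨v1, v2, v3⟩ := quart_near g
    (α := γ * ((x 0 - c 1) * (x 0 - c 2) * (x 0 - c 3)) * (2 * ((c 0 - c 1) / (c 2 - c 1)) *
      (x 0 - c 2))) (β := γ * ((x 0 - c 1) * (x 0 - c 2) * (x 0 - c 3)) *
      (2 * ((c 2 - c 0) / (c 2 - c 1)) * (x 0 - c 1))) (by simp [hv, f, norm_two])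
    (by simp [hv, f, norm_two]) yv
  have ne : ∀ m, x 0 - c m ≠ 0 := fun m => norm_pos_iff.1 (hv m ▸ one_pos)
  rw [mul_div_mul_left _ _ (by simp [ne, norm_pos_iff.1 g]), show 2 * _ * _ / _ = G by
    have := ne 1
    have := norm_pos_iff.1 (f 2 0 (by simp) ▸ one_pos)
    rw [hG]
    field_simp] at v3
  rw [show _ + δ = y 0 + (ab γ c).eval (x 0) by
    simp only [hδ, ab, Fin.prod_univ_four, eval_sub, eval_mul, eval_C, eval_X]
    field_simp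
    ring] at v2 v3
  rw [show _ + δ = y 0 - (ab γ c).eval (x 0) by
    simp only [hδ, ab, Fin.prod_univ_four, eval_sub, eval_mul, eval_C, eval_X]
    field_simp
    ring] at v1 v3
  have y0 : ‖y 0‖ = ‖γ‖ := by
    have e : ‖γ * ∏ m, (x 0 - c m)‖ = ‖γ‖ := by simp [hv]
    rw [← e]
    exact norm_eq_of_sub_lt (by rw [hδ, add_sub_cancel_left, e]; linarith)
  have y1 : ‖y 1‖ ≤ ‖γ‖ / 5 := le_of_sq_le_sq₀ (by positivity) (by
    have k := (eval_le one_pos ((norm_sub_iff (h.le 0)).1 (by linarith)) _).trans h.ap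
    have k2 : ‖(C (γ ^ 2) * (∏ m, (X - C (c m))) ^ 2).eval (x 1)‖ ≤ ‖γ‖ ^ 2 / 25 := by
      simp only [Fin.prod_univ_four, eval_sub, eval_mul, eval_pow, eval_C, eval_X, norm_mul,
        norm_pow, xa 1 (by simp), xa 2 (by simp), xa 3 (by simp), mul_one]
      nlinarith [mul_le_mul_of_nonneg_left (pow_le_pow_left₀ (norm_nonneg _) hA 2) (sq_nonneg ‖γ‖)]
    have := norm_sub_le' k2 k
    rw [eval_sub, sub_sub_cancel, ← hy, norm_pow] at this
    linarith)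
  obtain ⟨a1, a2, a3⟩ := quart_one (a := (ab γ c).eval (x 1)) (y := y 1) (Γ := ‖γ‖) (by
    have : ‖(c 0 - c 1) / (c 2 - c 1) * (x 1 - c 2) - (c 2 - c 0) / (c 2 - c 1) * (x 1 - c 1)‖ =
        ‖2 * ((c 0 - c 1) / (c 2 - c 1) * (x 1 - c 2))‖ := norm_eq_of_sub_lt (by
      rw [show _ - _ = -(x 1 - c 0) by field_simp; ring, norm_neg]
      exact hA.trans_lt (by simp [f, xa, norm_two]; norm_num))
    simp [ab, this, f, xa, norm_two]) (by linarith)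
  have wl := hu.weil (ab γ c) 4 d (by rw [ab]; compute_degree) fun i => by
    rw [show (ab γ c ^ 2 - Z.F).eval (x i) = -((y i - (ab γ c).eval (x i)) *
      (y i + (ab γ c).eval (x i))) by simp only [eval_sub, eval_pow, ← hy]; ring, neg_ne_zero]
    fin_cases i
    exacts [mul_ne_zero v1 v2, mul_ne_zero a1 a2]
  have u0 := norm_add_le' (v3.trans (by norm_num)) G1
  rw [sub_add_sub_cancel] at u0
  have u1 := a3.trans_le (show _ ≤ 1 / 5 by rw [div_le_iff₀ g]; linarith)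
  have l2 := (logl (t := 0) wl (fun i => by simp [add_sub_cancel]) (u := fun i =>
    ((y i + (ab γ c).eval (x i)) / (y i - (ab γ c).eval (x i))) ^ 4 - 1) (fun i =>
      le_trans (by gcongr; fin_cases i; exacts [u0, u1]) (by norm_num : 5 * (1 / 5 : ℝ) ^ 3 ≤ 1))
      hV).2
  have iv : ‖G ^ 4 - 1‖ < 1 / 5 ↔ _ := ⟨fun e => by
    simpa only [sub_add_sub_cancel] using norm_add_lt' (v3.trans_lt (by norm_num)) e, fun e => by
    simpa only [sub_sub_sub_cancel_left] using norm_sub_lt' e (v3.trans_lt (by norm_num))⟩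
  simp only [Fin.forall_fin_two, Fin.sum_univ_two, hu.W, norm_mul, y0, a3] at l2 ⊢
  rw [iv]
  have w0 := wpos W0
  simp only [hu.W, norm_mul, y0] at w0
  have e1 : ‖(n 1 : K)‖ * ‖y 1‖ = ‖n 1 * (((y 1 + (ab γ c).eval (x 1)) / (y 1 -
      (ab γ c).eval (x 1))) ^ 4 - 1)‖ * ‖γ‖ := by rw [norm_mul, a3]; field_simp
  have e2 : ‖(n 1 : K)‖ * (‖y 1‖ / ‖γ‖) ^ 2 ≤ ‖n 1 * (((y 1 + (ab γ c).eval (x 1)) / (y 1 -
      (ab γ c).eval (x 1))) ^ 4 - 1)‖ / 5 := by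
    rw [norm_mul, a3, sq, ← mul_assoc, div_eq_mul_one_div _ 5]
    exact mul_le_mul_of_nonneg_left (a3 ▸ u1) (by positivity)
  rw [e1, ← max_mul_of_nonneg _ _ g.le] at l2 w0
  rw [e1, mul_div_right_comm, mul_lt_mul_iff_left₀ g]
  rw [mul_div_cancel_right₀ _ g.ne'] at l2
  replace w0 := (mul_pos_iff_of_pos_right g).1 w0
  generalize (n 1 : K) * _ = B at *
  generalize ((y 0 + _) / _) ^ 4 - 1 = U at *
  have θ1 : 1 / 25 / (s ^ (-5 : ℤ)) ^ 3 < 1 / 5 := by norm_num [s]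
  have θ2 : 1 / 25 ≤ 1 / 25 / (s ^ (-5 : ℤ)) ^ 3 := by norm_num [s]
  generalize 1 / 25 / (s ^ (-5 : ℤ)) ^ 3 = θ at *
  have p0 := norm_nonneg (n 0 : K)
  have p1 := norm_nonneg B
  have q0 : ‖n 0 * U‖ ≤ ‖(n 0 : K)‖ / 5 := by rw [norm_mul]; nlinarith
  have q1 : ‖(n 0 : K)‖ * ‖U‖ ^ 2 ≤ ‖(n 0 : K)‖ / 25 := by
    nlinarith [mul_le_mul_of_nonneg_left (pow_le_pow_left₀ (norm_nonneg _) u0 2) p0]
  have m1 := le_max_left ‖(n 0 : K)‖ ‖B‖
  have m2 := le_max_right ‖(n 0 : K)‖ ‖B‖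
  have b1 : ‖B‖ ≤ ‖(n 0 : K)‖ * (1 / 5) := rfix (by norm_num) (by norm_num) p0 (by
    simpa using norm_sub_le' (l2 (max ‖(n 0 : K)‖ ‖B‖ * (1 / 5)) (by positivity) (by nlinarith)
      ⟨by linarith, by linarith⟩) (q0.trans (by linarith)))
  rw [max_eq_left (by linarith)] at l2 w0
  have b2 := (l2 _ (by positivity) le_rfl ⟨by nlinarith, by nlinarith⟩).trans_lt
    (show θ * ‖(n 0 : K)‖ < ‖(n 0 : K)‖ / 5 by nlinarith)
  refine ⟨fun e => ?_, fun e => ?_⟩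
  · simpa using norm_sub_lt' b2 (show ‖n 0 * U‖ < _ by rw [norm_mul]; nlinarith)
  · have := norm_sub_lt' b2 e
    rw [add_sub_cancel_right, norm_mul] at this
    nlinarith

end Cfg

end Pool.Agent.MP_8d06cc_nt.H27
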