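import Pool.Agent.MP_8d06cc_nt.H90.Star

/-! The star with rational branch points. -/

namespace Pool.Agent.MP_8d06cc_nt.H27

open Polynomial Finset

theorem cong25 {q : ℚ} {z : ℤ_[5]} (h : (z : ℚ_[5]) = q) :
    PadicInt.toZModPow 2 z = 0 ↔ ‖(q : K)‖ < 1 / 5 := by
  rw [← RingHom.mem_ker, PadicInt.ker_toZModPow, ← PadicInt.norm_le_pow_iff_mem_span_pow,
    PadicInt.norm_def, h, ← nq]
  exact ⟨fun e => e.trans_lt (by norm_num), fun e => by
    have := gap_lt P5.fifth e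
    norm_num
    linarith⟩

/-- Two fourth powers agree. -/
def EE (a b c : ZMod 25) : Prop := ((a - b) * c) ^ 4 - ((c - a) * b) ^ 4 = 0

instance (a b c : ZMod 25) : Decidable (EE a b c) := by unfold EE; infer_instance

set_option synthInstance.maxSize 2000 in
theorem dec25 : ∀ a : ZMod 25, 5 * (a - 1) = 0 → ∀ b : ZMod 25, 5 * (b - 2) = 0 →
    ∀ c : ZMod 25, 5 * (c - 3) = 0 → ∀ d : ZMod 25, 5 * (d - 4) = 0 →
    (EE a b c ↔ EE a b d) → (EE a b c ↔ EE a c d) → (EE b a c ↔ EE b a d) → (EE b a c ↔ EE b c d) →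
    (EE c a b ↔ EE c a d) → (EE c a b ↔ EE c b d) → (EE d a b ↔ EE d a c) →
    ¬ (EE d a b ↔ EE d b c) := by decide +kernel

theorem gprod_near {ι : Type} (S : Finset ι) (P Q : ι → K[X]) {δ : ℝ} (d0 : 0 ≤ δ)
    (hP : ∀ i, P i ∈ O1) (hQ : ∀ i, Q i ∈ O1) (h : ∀ i, gn 1 (P i - Q i) ≤ δ) :
    gn 1 (∏ i ∈ S, P i - ∏ i ∈ S, Q i) ≤ δ := by
  classical
  induction S using Finset.induction_on with
  | empty => simpa [gn_zero]
  | insert a S ha ih =>
    have k : ∀ {u v : K[X]}, u ∈ O1 → gn 1 v ≤ δ → gn 1 (u * v) ≤ δ := fun h h' => by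
      rw [gn_mul one_pos]
      exact (mul_le_of_le_one_left (gn_nonneg one_pos _) h).trans h'
    rw [prod_insert ha, prod_insert ha]
    exact le_of_eq_of_le (congrArg _ (by ring)) ((gn_add one_pos _ _).trans (max_le (k (hP a) ih)
      (k (prod_mem fun i (_ : i ∈ S) => hQ i) (h a))))

namespace Cfg

/-- All branch points are rational. -/
def Rat (Z : Cfg) : Prop := ∀ i, ∃ q : ℚ, Z.β i = q

variable {Z : Cfg}

theorem St.no {γ : K} {c : Fin 4 → ℚ} (h : Z.St γ fun m => c m) {v : ℚ} (hv : Z.Fre v)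
    (v1 : ‖(v : K)‖ ≤ 1) (cl : ∀ m, ‖(c m - v : K) - ((m : ℕ) + 1 : ℕ)‖ < 1)
    (hA : ∀ m, ∃ a : ℚ, Z.Fre a ∧ ‖(a : K) - c m‖ < 1) : False := by
  have g := h.g0
  have f : ∀ m m', m ≠ m' → ‖(c m : K) - c m'‖ = 1 := h.far
  have d1 : ∀ m, ‖(v : K) - c m‖ = 1 := fun m => by
    have e : ‖(((m : ℕ) + 1 : ℕ) : K)‖ = 1 := by
      exact_mod_cast norm_int_eq ((m : ℕ) + 1) (by omega)
    rw [norm_sub_rev, ← e]
    exact norm_eq_of_sub_lt (e ▸ cl m)
  obtain ⟨yv, y1, y2⟩ := sqrt_near (v := Z.F.eval (v : K)) (b := γ * ∏ m, (v - c m : K))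
    (δ := ‖γ‖ / 25) (norm_pos_iff.1 (by simpa [d1] using g)) (by
      have := (eval_le one_pos v1 _).trans h.ap
      simp only [eval_sub, eval_mul, eval_pow, eval_C, eval_prod, eval_X, ← mul_pow] at this
      rw [norm_sub_rev]
      exact this.trans (le_of_eq (by simp [d1]; ring)))
  choose z hz using fun m => lift0 (q := c m - v) (by simpa [norm_sub_rev] using (d1 m).le)
  have k : ∀ e e' : Fin 4 → Fin 4, e.Injective → e'.Injective → e 0 = e' 0 →
      (EE (PadicInt.toZModPow 2 (z (e 0))) (PadicInt.toZModPow 2 (z (e 1)))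
        (PadicInt.toZModPow 2 (z (e 2))) ↔ EE (PadicInt.toZModPow 2 (z (e' 0)))
        (PadicInt.toZModPow 2 (z (e' 1))) (PadicInt.toZModPow 2 (z (e' 2)))) := by
    intro e e' he he' h0
    obtain ⟨a, ha, a1⟩ := hA (e 0)
    obtain ⟨ya, -, y3⟩ := ha.sq
    have hy : ∀ i, (![yv, ya] i : K) ^ 2 = Z.F.eval ((![v, a] i : ℚ) : K) := by simp [y1, y3]
    obtain ⟨u, n, u1, -, u2, u3⟩ := Z.gpair hy (by simp [ha.1, hv.1]) (by simp [ha.2, hv.2]) P5.one
      (show (0 : Fin 2) ≠ 1 by simp)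
    suffices ∀ e' : Fin 4 → Fin 4, e'.Injective → e 0 = e' 0 → (EE (PadicInt.toZModPow 2 (z (e' 0)))
      (PadicInt.toZModPow 2 (z (e' 1))) (PadicInt.toZModPow 2 (z (e' 2))) ↔
        ‖u.W 1‖ < ‖u.W 0‖ / 5) by rw [this e he rfl, this e' he' h0]
    intro e he h0
    have f1 := f _ _ (he.ne (show (0 : Fin 4) ≠ 1 by simp))
    have f2 := f _ _ (he.ne (show (2 : Fin 4) ≠ 0 by simp))
    obtain ⟨t, t1, t2⟩ := rat4 (q := (c (e 0) - c (e 1)) * (v - c (e 2)) /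
      ((c (e 2) - c (e 0)) * (v - c (e 1)))) fun e => by
        have := congrArg (fun z : ℚ => ‖(z : K)‖) e
        simp [f1, f2, d1] at this
    obtain rfl : t = 0 := (zpow_eq_one_iff_right₀ (a := (5 : ℝ)) (by norm_num) (by norm_num)).1 (by
      simp [← t1, f1, f2, d1])
    rw [zpow_zero, one_mul] at t2
    have b := Finite.injective_iff_bijective.1 he
    rw [← (h.perm (.ofBijective e b)).rel u1 hy u2 u3 (fun m => d1 _) (by
        rw [← b.prod_comp fun m => (v - c m : K)] at y2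
        exact y2) (by
        have := gap_lt P5.one (q := a - c (e 0)) (by simpa [h0] using a1)
        simp at this ⊢
        linarith) (by simp) t2, EE]
    simp only [← map_sub, ← map_mul, ← map_pow]
    rw [cong25 (q := ((c (e 0) - c (e 1)) * (v - c (e 2))) ^ 4 -
      ((c (e 2) - c (e 0)) * (v - c (e 1))) ^ 4) (by push_cast [hz]; ring)]
    push_cast
    rw [div_pow, div_sub_one (norm_pos_iff.1 (by simp [f2, d1])), norm_div]
    simp [f2, d1]
  have k5 : ∀ m, 5 * (PadicInt.toZModPow 2 (z m) - ((m : ℕ) + 1 : ℕ)) = 0 := fun m => by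
    have := (cong25 (q := 5 * (c m - v - ((m : ℕ) + 1 : ℕ))) (z := 5 * (z m - ((m : ℕ) + 1 : ℕ)))
      (by push_cast [hz]; rfl)).2 (by
        have := cl m
        push_cast at this ⊢
        rw [norm_mul, norm_five]
        linarith)
    rwa [map_mul, map_sub, map_natCast, map_ofNat] at this
  exact dec25 _ (k5 0) _ (k5 1) _ (k5 2) _ (k5 3)
    (k ![0, 1, 2, 3] ![0, 1, 3, 2] (by decide) (by decide) rfl)
    (k ![0, 1, 2, 3] ![0, 2, 3, 1] (by decide) (by decide) rfl)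
    (k ![1, 0, 2, 3] ![1, 0, 3, 2] (by decide) (by decide) rfl)
    (k ![1, 0, 2, 3] ![1, 2, 3, 0] (by decide) (by decide) rfl)
    (k ![2, 0, 1, 3] ![2, 0, 3, 1] (by decide) (by decide) rfl)
    (k ![2, 0, 1, 3] ![2, 1, 3, 0] (by decide) (by decide) rfl)
    (k ![3, 0, 1, 2] ![3, 0, 2, 1] (by decide) (by decide) rfl)
    (k ![3, 0, 1, 2] ![3, 1, 2, 0] (by decide) (by decide) rfl)

theorem cls_eq {z : K} {a b : ZMod 5} (h : ‖z - rp a‖ < 1) (h' : ‖z - rp b‖ < 1) : a = b := by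
  by_contra e
  simpa [rp_ne e] using norm_sub_lt' h' h

theorem star (hr : Z.Rat) (h1 : ∀ i, ‖Z.β i‖ ≤ 1) {c₀ : ZMod 5} (h0 : Z.nr (‖· - rp c₀‖ < 1) = 0)
    (h2 : ∀ c ≠ c₀, Z.nr (‖· - rp c‖ < 1) = 2) (hp : ∀ c, Z.fr (‖· - rp c‖ < 1) ≠ 0) : False := by
  classical
  choose q hq using hr
  have ne : ∀ m : Fin 4, c₀ + ((m : ℕ) + 1 : ℕ) ≠ c₀ := fun m => by
    rw [Ne, add_eq_left]; revert m; decide
  have ex : ∀ i, ∃ m : Fin 4, ‖Z.β i - rp (c₀ + ((m : ℕ) + 1 : ℕ))‖ < 1 := fun i => by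
    obtain ⟨c, hc⟩ := exists_class (q := q i) (hq i ▸ h1 i)
    obtain ⟨m, rfl⟩ := (by decide : ∀ c₀ c : ZMod 5, c ≠ c₀ → ∃ m : Fin 4,
      c₀ + ((m : ℕ) + 1 : ℕ) = c) c₀ c (by rintro rfl; exact nr_eq_zero.1 h0 i (hq i ▸ hc))
    exact ⟨m, hq i ▸ hc⟩
  choose κ hκ using ex
  have inj : ∀ m m' : Fin 4, (((m : ℕ) + 1 : ℕ) : ZMod 5) = ((m' : ℕ) + 1 : ℕ) → m = m' := by decide
  have pr : ∀ m : Fin 4, ∃ c : ℚ, ‖(c : K) - rp (c₀ + ((m : ℕ) + 1 : ℕ))‖ < 1 ∧
      gn 1 ((X - C (c : K)) ^ 2 - ∏ i with κ i = m, (X - C (Z.β i))) ≤ 1 / 25 := fun m => by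
    have := h2 _ (ne m)
    rw [nr_congr (q := fun z => ∃ i, κ i = m ∧ Z.β i = z) fun i => ⟨fun e => ⟨i, by
      have := cls_eq (hκ i) e
      exact inj _ _ (add_left_cancel this), rfl⟩, fun ⟨j, e, e'⟩ => e' ▸ e ▸ hκ j⟩, nr_eq] at this
    simp only [Z.inj.eq_iff, exists_eq_right] at this
    obtain ⟨i, j, ij, e⟩ := card_eq_two.1 this
    have hi : κ i = m := by simpa using e.ge (mem_insert_self i {j})
    have hj : κ j = m := by simpa using e.ge (mem_insert_of_mem (mem_singleton_self j))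
    have a := hi ▸ hκ i
    have b := hj ▸ hκ j
    refine ⟨(q i + q j) / 2, ?_, ?_⟩
    · rw [← one_mul ‖_‖, ← norm_two, ← norm_mul, norm_two]
      convert norm_add_lt' a b using 2
      push_cast [hq]
      ring
    have d := gap_lt P5.one (q := q i - q j) (by simpa [hq] using norm_sub_lt' a b)
    rw [e, prod_pair ij, show _ - _ = C ((((q i - q j : ℚ) : K) / 2) ^ 2) from
      Polynomial.funext fun z => by simp [hq]; ring, gn_C, norm_pow, norm_div, norm_two]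
    nlinarith [norm_nonneg ((q i - q j : ℚ) : K)]
  choose c c1 c2 using pr
  have le := fun m => (norm_sub_iff (rp_le _)).1 (c1 m).le
  have nr := fun (m : Fin 4) (z : K) => (norm_sub_iff' (z := z - rp (c₀ + ((m : ℕ) + 1 : ℕ))) (c1 m))
  simp only [sub_sub_sub_cancel_right] at nr
  obtain ⟨γ, hγ⟩ := IsAlgClosed.exists_pow_nat_eq Z.c two_pos
  obtain ⟨v, hv, v1⟩ := fr_ex (hp c₀)
  refine St.no (γ := γ) (c := c) ⟨le, fun m m' e => le_antisymm (norm_sub_le' (le m) (le m'))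
    (not_lt.1 fun g => e ?_), fun m => by simpa only [nr] using h2 _ (ne m), fun m i hi => ?_,
    norm_pos_iff.2 fun e => Z.c0 (by simp [← hγ, e]), ?_, ?_⟩ hv
    ((norm_sub_iff (rp_le _)).1 v1.le) (fun m => ?_) fun m => by simpa only [nr] using fr_ex (hp _)
  · exact inj _ _ (add_left_cancel (cls_eq (c1 m) ((nr m' _).1 g)))
  · have := gap_lt P5.one (q := q i - c m) (by simpa [hq] using hi)
    simp only [hq, Rat.cast_sub] at this ⊢
    linarith
  · simp [F_eq, gn_mul one_pos, gn_C, gn_prod one_pos, gn_X_sub one_pos, h1, ← hγ, -map_pow]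
  · rw [F_eq, ← hγ, ← mul_sub, gn_mul one_pos, gn_C, norm_pow, ← prod_pow,
      ← prod_fiberwise univ κ, div_eq_mul_one_div]
    exact mul_le_mul_of_nonneg_left (gprod_near _ _ _ (by norm_num)
      (fun m => pow_mem (sub_mem X_O1 (C_O1 (le m))) 2)
      (fun m => prod_mem fun i _ => sub_mem X_O1 (C_O1 (h1 i))) c2) (by positivity)
  · convert norm_add_lt' (norm_sub_lt' (c1 m) v1) ((zm (ri (c₀ + ((m : ℕ) + 1 : ℕ)) - ri c₀ -
      ((m : ℕ) + 1 : ℕ))).2 (by simp [ri_cast])) using 2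
    simp only [rp_cast]
    push_cast
    ring

end Cfg

end Pool.Agent.MP_8d06cc_nt.H27
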