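import Pool.Agent.MP_8d06cc_nt.H90.Side

/-! Newton polygon data and the shape of the tree of branch points. -/

namespace Pool.Agent.MP_8d06cc_nt.H27

open Polynomial Finset

/-- Every feasible first slope has denominator at most `D`. -/
def ok (j N D : ℕ) : Prop :=
  ∀ m < j + 1, ∀ h < m, h = 0 ∨ (m < j ∧ h + j ≤ N + m) ∨ (m = j ∧ h ≠ N) ∨ m ≤ h * D

instance (j N D : ℕ) : Decidable (ok j N D) := by unfold ok; infer_instance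

/-- Bound for one side. -/
def sb (k j N : ℕ) : ℕ :=
  if k = 1 then 0 else if k = 0 then (if ok j N 3 then 1 else if ok j N 4 then 3 else 5)
  else if k = 4 then (if j = 0 then 3 else 5) else if ok j N 2 then 1 else 5

theorem ev_mul {x : ℝ} (m : ℤ) : Ev (x * 5 ^ (2 * m)) ↔ Ev x :=
  ⟨fun ⟨z, hz⟩ => ⟨z - m, by
    rw [mul_sub, zpow_sub₀ (by norm_num), ← hz, mul_div_cancel_right₀ _ (by positivity)]⟩,
    fun ⟨z, hz⟩ => ⟨z + m, by rw [hz, mul_add, zpow_add₀ (by norm_num)]⟩⟩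

theorem ev_par {x y : ℝ} {a b : ℕ} (hx : Ev x) (hy : Ev y) (h : x * 5 ^ a = y * 5 ^ b) :
    (a + b) % 2 = 0 := by
  obtain ⟨z, rfl⟩ := hx
  obtain ⟨w, rfl⟩ := hy
  rw [← zpow_natCast, ← zpow_natCast, ← zpow_add₀ (by norm_num), ← zpow_add₀ (by norm_num),
    zpow_right_inj₀ (by norm_num) (by norm_num)] at h
  omega

theorem p5_nat {x : ℝ} (h : P5 x) (h1 : 1 ≤ x) : ∃ N : ℕ, x = 5 ^ N := by
  obtain ⟨z, rfl⟩ := h
  obtain ⟨N, rfl⟩ := Int.eq_ofNat_of_zero_le ((one_le_zpow_iff_right₀ (by norm_num)).1 h1)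
  exact ⟨N, zpow_natCast _ _⟩

namespace Cfg

variable (Z : Cfg)

open Classical in
/-- Product of the radii in a region. -/
noncomputable def pm (q : K → Prop) : ℝ := ∏ i with q (Z.β i), ‖Z.β i‖

variable {Z}

theorem gn_pm {r : ℝ} (r1 : 1 ≤ r) (q : K → Prop) (h1 : ∀ i, q (Z.β i) → ‖Z.β i‖ ≤ r)
    (h2 : ∀ i, ¬ q (Z.β i) → r ≤ ‖Z.β i‖) :
    gn r Z.F * Z.pm (fun z => 1 < ‖z‖ ∧ q z) = gn 1 Z.F * r ^ Z.nr q := by
  classical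
  have r0 := one_pos.trans_le r1
  simp only [F_eq, gn_mul r0, gn_mul one_pos, gn_C, gn_prod r0, gn_prod one_pos, gn_X_sub r0,
    gn_X_sub one_pos, pm, nr, mul_assoc, ← prod_const, prod_filter, ← prod_mul_distrib]
  refine congrArg _ (prod_congr rfl fun i _ => ?_)
  by_cases a : q (Z.β i)
  · rw [max_eq_left (h1 i a), if_pos a, mul_comm]
    rcases le_or_gt ‖Z.β i‖ 1 with b | b
    · rw [if_neg fun h => b.not_gt h.1, max_eq_left b]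
    · rw [if_pos ⟨b, a⟩, max_eq_right b.le]
  · rw [max_eq_right (h2 i a), if_neg a, if_neg fun h => a h.2, max_eq_right (r1.trans (h2 i a))]

theorem pm_ge {q : K → Prop} (h : ∀ z, q z → 1 < ‖z‖) :
    1 ≤ Z.pm q ∧ (Z.nr q ≠ 0 → 1 < Z.pm q) := by
  classical
  refine ⟨one_le_prod fun i hi => (h _ (mem_filter.1 hi).2).le, fun e => ?_⟩
  simpa [pm] using prod_lt_prod_of_nonempty (f := fun _ => (1 : ℝ)) (fun _ _ => one_pos)
    (fun i hi => h _ (mem_filter.1 hi).2) (card_ne_zero.1 e)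

theorem pm_le {q : K → Prop} {r : ℝ} (h : ∀ z, q z → ‖z‖ ≤ r) : Z.pm q ≤ r ^ Z.nr q := by
  classical
  rw [nr, ← prod_const]
  exact prod_le_prod (fun _ _ => norm_nonneg _) fun i hi => h _ (mem_filter.1 hi).2

theorem pm_lt {q : K → Prop} {r : ℝ} (h : ∀ z, q z → 1 < ‖z‖ ∧ ‖z‖ < r) (e : Z.nr q ≠ 0) :
    Z.pm q < r ^ Z.nr q := by
  classical
  rw [nr, ← prod_const]
  exact prod_lt_prod_of_nonempty (fun i hi => one_pos.trans (h _ (mem_filter.1 hi).2).1)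
    (fun i hi => (h _ (mem_filter.1 hi).2).2) (card_ne_zero.1 e)

theorem pm_add {p q r : K → Prop} (h : ∀ z, p z ↔ q z ∨ r z) (hd : ∀ z, q z → ¬ r z) :
    Z.pm p = Z.pm q * Z.pm r := by
  classical
  simp only [pm, h, filter_or]
  rw [prod_union (disjoint_filter.2 fun i _ => hd _)]

theorem pm_p5 {r : ℝ} (r1 : 1 ≤ r) (q : K → Prop) (h1 : ∀ i, q (Z.β i) → ‖Z.β i‖ ≤ r)
    (h2 : ∀ i, ¬ q (Z.β i) → r ≤ ‖Z.β i‖) (h : ‖Z.F.coeff (Z.nr q)‖ * r ^ Z.nr q = gn r Z.F) :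
    ∃ N : ℕ, Z.pm (fun z => 1 < ‖z‖ ∧ q z) = 5 ^ N := by
  have r0 := one_pos.trans_le r1
  have e := gn_pm r1 q h1 h2
  have t := (Z.top one_pos).1
  have p1 := Z.F_rt.p5 (i := Z.nr q) fun g => by simp [g, (Z.gn_pos r0).ne] at h
  have p2 := Z.F_rt.p5 (i := Z.nr (‖·‖ ≤ 1)) fun g => by simp [g, (Z.gn_pos one_pos).ne] at t
  rw [← h, ← t, one_pow, mul_one, mul_right_comm, mul_left_inj' (by positivity),
    ← eq_inv_mul_iff_mul_eq₀ p1.pos.ne'] at e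
  exact p5_nat (e ▸ p1.inv.mul p2) (pm_ge fun _ => And.left).1

/-- The annulus between radii one and five. -/
def Mid (z : K) : Prop := 1 < ‖z‖ ∧ ‖z‖ < 5

theorem np_ex (Z : Cfg) : ∃ N : ℕ, Z.pm Mid = 5 ^ N ∧ (Z.nr Mid = 0 → N = 0) ∧
    (Z.nr Mid ≠ 0 → 1 ≤ N ∧ N < Z.nr Mid) ∧
    gn 5 Z.F * 5 ^ N = gn 1 Z.F * 5 ^ (Z.nr (‖·‖ ≤ 1) + Z.nr Mid) := by
  obtain ⟨N, hN⟩ := pm_p5 (Z := Z) (r := 5) (by norm_num) (‖·‖ < 5) (fun _ h => h.le)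
    (fun _ h => not_lt.1 h) (Z.bot (by norm_num)).1
  have e := gn_pm (Z := Z) (r := 5) (by norm_num) (‖·‖ < 5) (fun _ h => h.le) fun _ h => not_lt.1 h
  rw [hN, nr_split] at e
  refine ⟨N, hN, fun h => ?_, fun h => ⟨?_, ?_⟩, e⟩
  · have := pm_le (Z := Z) (q := Mid) (r := 5) fun _ h => h.2.le
    rw [h, show Z.pm Mid = _ from hN, pow_le_pow_iff_right₀ (by norm_num)] at this
    omega
  · have := (pm_ge (Z := Z) (q := Mid) fun _ h => h.1).2 h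
    rw [show Z.pm Mid = _ from hN] at this
    exact Nat.pos_of_ne_zero (by rintro rfl; simp at this)
  · have := pm_lt (Z := Z) (q := Mid) (fun _ h => h) h
    rwa [show Z.pm Mid = _ from hN, pow_lt_pow_iff_right₀ (by norm_num)] at this

theorem np_out {N D E : ℕ} (hN : Z.pm Mid = 5 ^ N) (h : ok (Z.nr Mid) N D) (hE : E * D ≤ 24)
    (D0 : D ≠ 0) (i : Fin 8) : ‖Z.β i‖ ≤ 1 ∨ s ^ E ≤ ‖Z.β i‖ := by
  refine or_iff_not_imp_left.2 fun h1 => ?_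
  have h1 := not_le.1 h1
  refine le_of_pow_le_pow_left₀ D0 (norm_nonneg _) (le_trans ?_ (show 5 ≤ _ from ?_))
  · rw [← pow_mul]
    exact (pow_le_pow_right₀ s1.le hE).trans s24
  by_cases h5 : ‖Z.β i‖ < 5
  swap
  · exact (not_lt.1 h5).trans (le_self_pow₀ h1.le D0)
  obtain ⟨a, ha⟩ := pm_p5 h1.le (‖·‖ ≤ ‖Z.β i‖) (fun _ h => h) (fun _ h => (not_le.1 h).le)
    (Z.top (one_pos.trans h1)).1
  have sp : ∀ z, Mid z ↔ (1 < ‖z‖ ∧ ‖z‖ ≤ ‖Z.β i‖) ∨ (Mid z ∧ ‖Z.β i‖ < ‖z‖) := fun z =>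
    ⟨fun h => (le_or_gt _ _).imp (⟨h.1, ·⟩) (⟨h, ·⟩), fun h => h.elim
      (fun h => ⟨h.1, h.2.trans_lt h5⟩) And.left⟩
  have e1 := nr_add (Z := Z) sp fun z h h' => h.2.not_gt h'.2
  have e2 := pm_add (Z := Z) sp fun z h h' => h.2.not_gt h'.2
  have m0 : Z.nr (fun z => 1 < ‖z‖ ∧ ‖z‖ ≤ ‖Z.β i‖) ≠ 0 := fun e => nr_eq_zero.1 e i ⟨h1, le_rfl⟩
  have k1 := (pm_ge (q := fun z => 1 < ‖z‖ ∧ ‖z‖ ≤ ‖Z.β i‖) fun _ h => h.1).2 m0
  have k2 := pm_lt (r := 5) (fun _ h => ⟨h.1, h.2.trans_lt h5⟩) m0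
  have k3 := pm_le (Z := Z) (q := fun z => 1 < ‖z‖ ∧ ‖z‖ ≤ ‖Z.β i‖) fun _ h => h.2
  have k4 := pm_lt (Z := Z) (q := fun z => Mid z ∧ ‖Z.β i‖ < ‖z‖) fun _ h => h.1
  have k5 := pm_le (Z := Z) (q := fun z => Mid z ∧ ‖Z.β i‖ < ‖z‖) fun _ h => h.1.2.le
  have k6 := (pm_ge (Z := Z) (q := fun z => Mid z ∧ ‖Z.β i‖ < ‖z‖) fun _ h => h.1.1).1
  rw [ha] at k1 k2 k3 e2
  rw [pow_lt_pow_iff_right₀ (by norm_num)] at k2
  have a0 : a ≠ 0 := by rintro rfl; simp at k1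
  rw [hN] at e2
  have := (((h _ (by omega) a k2).resolve_left a0).resolve_left fun g => by
    have := mul_lt_mul_of_pos_left (k4 (by omega)) (pow_pos (by norm_num : (0 : ℝ) < 5) a)
    rw [← e2, ← pow_add, pow_lt_pow_iff_right₀ (by norm_num)] at this
    omega).resolve_left fun g => by
    rw [show Z.nr (fun z => Mid z ∧ ‖Z.β i‖ < ‖z‖) = 0 by omega, pow_zero] at k5
    rw [le_antisymm k5 k6, mul_one, pow_right_inj₀ (by norm_num) (by norm_num)] at e2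
    exact g.2 e2.symm
  refine le_of_pow_le_pow_left₀ a0 (by positivity) (k3.trans ?_)
  rw [← pow_mul, mul_comm]
  exact pow_le_pow_right₀ h1.le this

theorem out5 (h : Z.nr Mid = 0) (i : Fin 8) : ‖Z.β i‖ ≤ 1 ∨ 5 ≤ ‖Z.β i‖ := by
  by_contra! g
  exact nr_eq_zero.1 h i g

theorem sideF (hl : Z.Light) (hk : Z.nr (‖·‖ ≤ 1) ≤ 4) {N : ℕ} (hN : Z.pm Mid = 5 ^ N) :
    Z.fr (‖·‖ ≤ 1) ≤ sb (Z.nr (‖·‖ ≤ 1)) (Z.nr Mid) N := by
  rw [sb]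
  split_ifs with h1 h0 a b h4 c d
  · exact (disc1 h1).le
  · exact disc08 h0 (np_out hN a le_rfl (by norm_num))
  · exact disc06 h0 (np_out hN b le_rfl (by norm_num))
  · exact five hl
  · exact (four hl h4 (out5 c)).1
  · exact five hl
  · exact disc23 (by omega) (np_out hN d le_rfl (by norm_num))
  · exact five hl

/-- Two coordinates whose product has absolute value `R`. -/
structure Pr (Y Y' : Cfg) (R : ℝ) : Prop where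
  p : P5 R
  b : ∀ i, ‖Y.β i‖ * ‖Y'.β i‖ = R
  fr : ∀ p : ℝ → Prop, Y'.fr (fun z => p ‖z‖) = Y.fr fun z => p (R / ‖z‖)
  ev : ∀ r, P5 r → (Ev (gn r Y'.F) ↔ Ev (gn (R / r) Y.F))
  rat : (∀ i, ∃ q : ℚ, Y.β i = q) ↔ ∀ i, ∃ q : ℚ, Y'.β i = q

theorem Pr.symm {Y Y' : Cfg} {R : ℝ} (h : Pr Y Y' R) : Pr Y' Y R where
  p := h.p
  b i := by rw [mul_comm, h.b]
  fr p := by simpa [div_div_cancel₀ h.p.pos.ne'] using (h.fr fun x => p (R / x)).symm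
  ev r hr := by rw [h.ev (R / r) (h.p.mul hr.inv), div_div_cancel₀ h.p.pos.ne']
  rat := h.rat.symm

theorem Pr.eq {Y Y' : Cfg} {R : ℝ} (h : Pr Y Y' R) (i : Fin 8) :
    0 < ‖Y.β i‖ ∧ ‖Y'.β i‖ = R / ‖Y.β i‖ := by
  have := (pos_and_pos_or_neg_and_neg_of_mul_pos (h.b i ▸ h.p.pos)).resolve_right
    fun e => (norm_nonneg _).not_gt e.1
  exact ⟨this.1, by rw [← h.b i, mul_div_cancel_left₀ _ this.1.ne']⟩

theorem rat_aff (α γ : ℚ) (hα : α ≠ 0) :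
    (∀ i, ∃ q : ℚ, Z.β i = q) ↔ ∀ i, ∃ q : ℚ, (Z.aff α γ hα).β i = q :=
  forall_congr' fun i => ⟨fun ⟨q, h⟩ => ⟨(q - γ) / α, by simp [aff, h]⟩, fun ⟨q, h⟩ =>
    ⟨q * α + γ, by push_cast [← h]; simp [aff, hα]⟩⟩

theorem rat_inv (h0 : 0 ∉ Z.T) (hβ : ∀ i, Z.β i ≠ 0) :
    (∀ i, ∃ q : ℚ, Z.β i = q) ↔ ∀ i, ∃ q : ℚ, (Z.inv h0 hβ).β i = q :=
  forall_congr' fun i => ⟨fun ⟨q, h⟩ => ⟨q⁻¹, by simp [inv, h]⟩, fun ⟨q, h⟩ =>
    ⟨q⁻¹, by push_cast [← h]; simp [inv]⟩⟩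

theorem pr_of (h0 : 0 ∉ Z.T) (hβ : ∀ i, Z.β i ≠ 0) {α : ℚ} (hα : α ≠ 0) :
    Pr Z ((Z.inv h0 hβ).aff α 0 hα) ‖(α : K)‖⁻¹ where
  p := (p5_rat hα).inv
  b i := by simp [aff, inv, hβ, div_eq_mul_inv]
  fr p := by simp [fr_aff, fr_inv, div_eq_mul_inv, mul_comm]
  ev r hr := by
    have r0 := hr.pos
    have a0 := (p5_rat hα).pos
    have p : 0 < ‖(α : K)‖⁻¹ / r := by positivity
    obtain ⟨z, hz⟩ := ((p5_rat hα).mul hr).pow 4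
    rw [← ev_mul (x := gn (_ / r) _) z, mul_comm 2, zpow_mul, ← hz]
    refine iff_of_eq (congrArg _ ?_)
    simp only [F_eq, gn_mul r0, gn_mul p, gn_C, gn_prod r0, gn_prod p, gn_X_sub r0, gn_X_sub p]
    simp only [aff, inv, norm_mul, norm_prod, norm_neg, norm_pow, Rat.cast_zero, sub_zero, norm_div,
      norm_inv]
    rw [show ((‖(α : K)‖ * r) ^ 4) ^ (2 : ℤ) = ∏ _i : Fin 8, ‖(α : K)‖ * r by
      simp [zpow_ofNat, ← pow_mul], show ‖(α : K)‖ ^ 8 = ∏ _i : Fin 8, ‖(α : K)‖ by simp]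
    simp only [mul_assoc, ← prod_mul_distrib]
    refine congrArg _ (prod_congr rfl fun i _ => ?_)
    have := norm_pos_iff.2 (hβ i)
    rw [← mul_assoc, mul_max_of_nonneg _ _ (by positivity), max_mul_of_nonneg _ _ (by positivity),
      max_comm]
    congr 1 <;> field_simp
  rat := (rat_inv h0 hβ).trans (rat_aff α 0 hα)

/-- The shape of the tree: a central vertex or a central path. -/
theorem shape (P : Cfg → Prop) (haff : ∀ Z α γ h, P (aff Z α γ h) → P Z)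
    (hinv : ∀ Z h h', P (inv Z h h') → P Z)
    (A : ∀ Z, Light Z → 0 ∉ Z.T → (∀ i, Z.β i ≠ 0) → 5 ≤ Z.nr (‖·‖ ≤ 1) → P Z)
    (B : ∀ Y Y' (n : ℕ), Pr Y Y' (5 * 5 ^ n) → Light Y → Light Y' → Y.nr (‖·‖ ≤ 1) ≤ 4 →
      Y'.nr (‖·‖ ≤ 1) ≤ 4 → 4 ≤ Y.nr (‖·‖ < 5) → 4 ≤ Y'.nr (‖·‖ < 5) → P Y) (Z : Cfg) : P Z := by
  obtain ⟨n, hn⟩ := (Filter.eventually_all.2 fun i => (tendsto_pow_atTop_atTop_of_one_lt
    (by norm_num : (1 : ℝ) < 5)).eventually_gt_atTop ‖Z.β i‖).exists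
  obtain ⟨α, h0, hα⟩ := (P5.five.pow n).rat
  obtain ⟨m, γ, α', hα', -, -, hl, h0', hβ, h4⟩ := min_cfg (Z := Z.aff α 0 h0) (by
    have := nr_not (Z := Z.aff α 0 h0) (‖·‖ < 1)
    rw [nr_eq_zero (p := fun z => ¬ ‖z‖ < 1).2 fun i => not_not.2 (by
      simp only [aff, Rat.cast_zero, sub_zero, norm_div, hα]
      exact (div_lt_one (by positivity)).2 (hn i))] at this
    omega)
  refine haff _ α 0 h0 (haff _ α' γ hα' ?_)
  generalize (Z.aff α 0 h0).aff α' γ hα' = Z at *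
  by_cases hk : 5 ≤ Z.nr (‖·‖ ≤ 1)
  · exact A Z hl h0' hβ hk
  have c3 := nr_not (Z := Z) (‖·‖ ≤ 1)
  have c4 := nr_not (Z := Z) (‖·‖ < 5)
  obtain ⟨n, γ, α, hα, g1, a1, l5, y0, yβ, k5⟩ := min_cfg (Z := Z.inv h0' hβ) (by
    rw [nr_inv, nr_congr (q := fun z => ¬ ‖z‖ ≤ 1) fun i => by
      simp [inv_lt_one₀ (norm_pos_iff.2 (hβ i))]]
    omega)
  have g2 : ‖(γ : K)‖ ≤ 5⁻¹ := by linarith [gap_lt P5.one g1]
  have a0 : (α : K) ≠ 0 := Rat.cast_ne_zero.2 hα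
  have e0 : ∀ i, (((Z.inv h0' hβ).aff α γ hα).inv y0 yβ |>.aff α 0 hα).β i =
      ((Z.β i)⁻¹ - γ)⁻¹ := fun i => by simp [aff, inv, div_right_comm, a0]
  have e1 : ∀ i, ‖Z.β i‖ < 5 → ‖(Z.β i)⁻¹ - γ‖ = ‖Z.β i‖⁻¹ := fun i h => by
    have := norm_pos_iff.2 (hβ i)
    rw [norm_sub_big (g2.trans_lt (by rw [norm_inv]; gcongr)), norm_inv]
  have e2 : ∀ i, ¬ ‖Z.β i‖ < 5 → ‖(Z.β i)⁻¹ - γ‖ ≤ 5⁻¹ := fun i h =>
    norm_sub_le' (by rw [norm_inv]; gcongr; exact not_lt.1 h) g2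
  have w0 : ∀ i, (Z.β i)⁻¹ - γ ≠ 0 := fun i e => yβ i (by simp [aff, inv, e])
  have e3 : ∀ i, ‖((Z.β i)⁻¹ - γ)⁻¹‖ ≤ 1 → ‖Z.β i‖ ≤ 1 := fun i h => by
    rw [norm_inv, inv_le_one₀ (norm_pos_iff.2 (w0 i))] at h
    by_cases h5 : ‖Z.β i‖ < 5
    · rwa [e1 i h5, one_le_inv₀ (norm_pos_iff.2 (hβ i))] at h
    · linarith [e2 i h5]
  have pr := pr_of y0 yβ hα
  rw [a1, one_div, inv_pow, inv_inv, pow_succ'] at pr
  refine hinv _ _ _ (haff _ α γ hα (B _ _ n pr l5 (fun c => le_trans (card_le_card fun i hi => ?_)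
    (hl c)) (le_trans (card_le_card fun i hi => ?_) (show Z.nr (fun z => ¬ ‖z‖ < 5) ≤ 4 by omega))
    (le_trans (card_le_card fun i hi => ?_) (show Z.nr (‖·‖ ≤ 1) ≤ 4 by omega)) k5
    (h4.trans (card_le_card fun i hi => ?_))))
  all_goals simp only [mem_filter, mem_univ, true_and, e0] at hi ⊢
  · have b1 := (norm_sub_iff (rp_le c)).1 hi.le
    have : ‖γ * (Z.β i * ((Z.β i)⁻¹ - γ)⁻¹)‖ < 1 := by
      rw [norm_mul, norm_mul]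
      exact mul_lt_one_of_nonneg_of_lt_one_left (norm_nonneg _) g1
        (mul_le_one₀ (e3 i b1) (norm_nonneg _) b1)
    convert norm_sub_lt' hi this using 2
    have := w0 i
    have := hβ i
    have e : Z.β i = Z.β i * (((Z.β i)⁻¹ - γ) * ((Z.β i)⁻¹ - γ)⁻¹) := by
      rw [mul_inv_cancel₀ (w0 i), mul_one]
    linear_combination e + ((Z.β i)⁻¹ - γ)⁻¹ * mul_inv_cancel₀ (hβ i)
  · intro h5
    simp only [aff, inv, norm_div, e1 i h5, a1] at hi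
    have := norm_pos_iff.2 (hβ i)
    rw [div_le_one (by positivity), inv_le_comm₀ this (by positivity), one_div, inv_pow, inv_inv] at hi
    exact h5.not_ge ((le_self_pow₀ (by norm_num) n.succ_ne_zero).trans hi)
  · exact e3 i hi
  · rwa [norm_inv, e1 i hi, inv_inv]

end Cfg

end Pool.Agent.MP_8d06cc_nt.H27
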