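import Pool.Agent.MP_8d06cc_nt.H27.Cfg

/-! Weil reciprocity for the solutions of the Pell equations. -/

namespace Pool.Agent.MP_8d06cc_nt.H27

open Polynomial

/-- Product of the values of `Q` at the roots of `P`. -/
noncomputable def pr (P Q : K[X]) : K := (P.roots.map fun z => Q.eval z).prod

theorem pr_sym (P Q : K[X]) : (P.leadingCoeff ^ Q.natDegree * pr P Q) ^ 2 =
    (Q.leadingCoeff ^ P.natDegree * pr Q P) ^ 2 := by
  have h1 := resultant_eq_prod_eval P Q Q.natDegree le_rfl (IsAlgClosed.splits P)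
  have h2 := resultant_eq_prod_eval Q P P.natDegree le_rfl (IsAlgClosed.splits Q)
  rw [resultant_comm, h2] at h1
  unfold pr
  rw [← h1, mul_pow ((-1 : K) ^ _), ← pow_mul, mul_comm _ 2, pow_mul]
  simp

theorem pr_mul (P Q Q' : K[X]) : pr P (Q * Q') = pr P Q * pr P Q' := by
  simp [pr, Multiset.prod_map_mul]

theorem pr_pow (P Q : K[X]) (n : ℕ) : pr P (Q ^ n) = pr P Q ^ n := by
  simp [pr, Multiset.prod_map_pow]

theorem pr_congr {P Q Q' : K[X]} (h : ∀ z, P.eval z = 0 → Q.eval z = Q'.eval z) :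
    pr P Q = pr P Q' := by
  unfold pr
  congr 1
  exact Multiset.map_congr rfl fun z hz => h z (isRoot_of_mem_roots hz)

theorem pr_lin (P : K[X]) (a : K) : (P.leadingCoeff * pr P (X - C a)) ^ 2 = P.eval a ^ 2 := by
  have := pr_sym P (X - C a)
  rw [natDegree_X_sub_C, pow_one, leadingCoeff_X_sub_C, one_pow, one_mul] at this
  rw [this]
  simp [pr]

theorem lc_lem {A B E a l : K[X]} {n M : ℕ} (hl : l.Monic) (dl : l.natDegree = 2 * n)
    (h : (A + B * a) * (A - B * a) = l - B ^ 2 * E) (hA : A.natDegree ≤ n) (hB : B ≠ 0)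
    (hE : E ≠ 0) (dE : E.natDegree = 2 * M) (da : a.natDegree ≤ M) :
    (A + B * a).leadingCoeff ^ (2 * (M + B.natDegree)) * (B.leadingCoeff ^ 2 * E.leadingCoeff) ^ n =
      (A + B * a).leadingCoeff ^ (2 * n) *
        (B.leadingCoeff ^ 2 * E.leadingCoeff) ^ (A + B * a).natDegree := by
  set m := B.natDegree with hm
  have d1 : (B * a).natDegree ≤ M + m := natDegree_mul_le.trans (by omega)
  have d2 : (B ^ 2 * E).natDegree = 2 * (M + m) := by
    rw [natDegree_mul (pow_ne_zero 2 hB) hE, natDegree_pow, dE]; ring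
  have c2 : (B ^ 2 * E).coeff (2 * (M + m)) = B.leadingCoeff ^ 2 * E.leadingCoeff := by
    rw [← d2, coeff_natDegree, leadingCoeff_mul, leadingCoeff_pow]
  have cl : l.coeff (2 * n) = 1 := by rw [← dl]; exact hl
  have key : ∀ D, n ≤ D → M + m ≤ D → (A + B * a).natDegree ≤ D ∧
      (A.coeff D + (B * a).coeff D) * (A.coeff D - (B * a).coeff D) =
        l.coeff (2 * D) - (B ^ 2 * E).coeff (2 * D) := fun D h1 h2 => by
    have e1 : (A + B * a).natDegree ≤ D := (natDegree_add_le _ _).trans (by omega)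
    have e2 : (A - B * a).natDegree ≤ D := (natDegree_sub_le _ _).trans (by omega)
    refine ⟨e1, ?_⟩
    rw [← coeff_sub l, ← h, two_mul, coeff_mul_add_eq_of_natDegree_le e1 e2, coeff_add, coeff_sub]
  have top : ∀ D, (A + B * a).natDegree ≤ D → A.coeff D + (B * a).coeff D ≠ 0 →
      (A + B * a).natDegree = D ∧ (A + B * a).leadingCoeff = A.coeff D + (B * a).coeff D :=
    fun D h1 h2 => by
      have := le_antisymm h1 (le_natDegree_of_ne_zero (by rwa [coeff_add]))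
      exact ⟨this, by rw [leadingCoeff, this, coeff_add]⟩
  have b0 : B.leadingCoeff ^ 2 * E.leadingCoeff ≠ 0 :=
    mul_ne_zero (pow_ne_zero 2 (leadingCoeff_ne_zero.2 hB)) (leadingCoeff_ne_zero.2 hE)
  rcases lt_trichotomy n (M + m) with g | g | g
  · obtain ⟨k1, k2⟩ := key (M + m) g.le le_rfl
    rw [c2, coeff_eq_zero_of_natDegree_lt (p := l) (by omega),
      coeff_eq_zero_of_natDegree_lt (p := A) (by omega)] at k2
    obtain ⟨t1, t2⟩ := top _ k1 (by
      rw [coeff_eq_zero_of_natDegree_lt (p := A) (by omega)]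
      intro e
      rw [e, zero_mul] at k2
      exact b0 (by linear_combination k2))
    rw [coeff_eq_zero_of_natDegree_lt (p := A) (by omega)] at t2
    have : (A + B * a).leadingCoeff ^ 2 = B.leadingCoeff ^ 2 * E.leadingCoeff := by
      rw [t2]; linear_combination -k2
    rw [t1, pow_mul, pow_mul, this, mul_comm]
  · obtain ⟨k1, k2⟩ := key n le_rfl g.ge
    rw [← g] at c2 ⊢
    rw [c2, cl] at k2
    by_cases e : A.coeff n + (B * a).coeff n = 0
    · rw [e, zero_mul] at k2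
      rw [show B.leadingCoeff ^ 2 * E.leadingCoeff = 1 by linear_combination k2, one_pow, one_pow]
    · rw [(top _ k1 e).1]
  · obtain ⟨k1, k2⟩ := key n le_rfl g.le
    rw [cl, coeff_eq_zero_of_natDegree_lt (p := B ^ 2 * E) (by omega),
      coeff_eq_zero_of_natDegree_lt (p := B * a) (by omega)] at k2
    obtain ⟨t1, t2⟩ := top _ k1 (by
      rw [coeff_eq_zero_of_natDegree_lt (p := B * a) (by omega)]
      intro e
      rw [e, zero_mul] at k2
      simp at k2)
    rw [coeff_eq_zero_of_natDegree_lt (p := B * a) (by omega)] at t2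
    have : (A + B * a).leadingCoeff ^ 2 = 1 := by rw [t2]; linear_combination k2
    rw [t1, pow_mul, pow_mul, this, one_pow, one_pow]

theorem weil0 {f A B a : K[X]} {x₀ y₀ : K} {n M : ℕ}
    (hp : A ^ 2 - B ^ 2 * f = (X - C x₀) ^ (2 * n)) (hA : A.natDegree ≤ n) (hB : B.eval x₀ ≠ 0)
    (hy : A.eval x₀ + B.eval x₀ * y₀ = 0) (hf : y₀ ^ 2 = f.eval x₀)
    (dE : (a ^ 2 - f).natDegree = 2 * M) (da : a.natDegree ≤ M)
    (h0 : (a ^ 2 - f).eval x₀ ≠ 0) :
    (pr (a ^ 2 - f) (A + B * a) / pr (a ^ 2 - f) (X - C x₀) ^ n) ^ 2 *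
      ((y₀ + a.eval x₀) / (y₀ - a.eval x₀)) ^ (2 * n) = 1 := by
  set E := a ^ 2 - f with hE
  set l : K[X] := X - C x₀ with hl
  set N := A + B * a with hN
  have B0 : B ≠ 0 := by rintro rfl; simp at hB
  have E0 : E ≠ 0 := by intro e; simp [e] at h0
  have h : N * (A - B * a) = l ^ (2 * n) - B ^ 2 * E := by
    rw [hN, hE, ← hp]; ring
  have e0 : E.eval x₀ = (a.eval x₀ - y₀) * (a.eval x₀ + y₀) := by
    simp only [hE, eval_sub, eval_pow, ← hf]; ring
  have a1 : a.eval x₀ - y₀ ≠ 0 := left_ne_zero_of_mul (e0 ▸ h0)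
  have a2 : a.eval x₀ + y₀ ≠ 0 := right_ne_zero_of_mul (e0 ▸ h0)
  have n0 : N.eval x₀ = B.eval x₀ * (a.eval x₀ - y₀) := by
    simp only [hN, eval_add, eval_mul]; linear_combination hy
  have N0 : N ≠ 0 := by
    intro e
    rw [e, eval_zero] at n0
    exact mul_ne_zero hB a1 n0.symm
  have k := lc_lem ((monic_X_sub_C x₀).pow (2 * n)) (by simp) h hA B0 E0 dE da
  rw [← hN] at k
  have h1 := pr_sym E N
  have h2 : pr N B ^ 2 * pr N E = pr N l ^ (2 * n) := by
    rw [← pr_pow, ← pr_pow, ← pr_mul]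
    refine pr_congr fun z hz => ?_
    have := congrArg (eval z) h
    rw [eval_mul, hz, zero_mul, eval_sub] at this
    linear_combination this
  have h3 := pr_lin N x₀
  have h4 := pr_sym N B
  have h5 : pr B N ^ 2 = pr B l ^ (2 * n) := by
    rw [← pr_pow, ← pr_pow]
    refine pr_congr fun z hz => ?_
    rw [← hp]
    simp [hN, hz]
  have h6 := pr_lin B x₀
  have h7 := pr_lin E x₀
  rw [← hl] at h3 h6 h7
  rw [dE] at h1
  rw [n0] at h3
  rw [e0] at h7
  have L0 := leadingCoeff_ne_zero.2 N0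
  have b0 := leadingCoeff_ne_zero.2 B0
  have c0 := leadingCoeff_ne_zero.2 E0
  generalize N.leadingCoeff = L at *
  generalize B.leadingCoeff = b at *
  generalize E.leadingCoeff = e at *
  generalize N.natDegree = d at *
  generalize B.natDegree = m at *
  have q3 : pr N l ^ 2 = (B.eval x₀ * (a.eval x₀ - y₀) / L) ^ 2 := by
    rw [div_pow, ← h3]; field_simp
  have q6 : pr B l ^ 2 = (B.eval x₀ / b) ^ 2 := by rw [div_pow, ← h6]; field_simp
  have q7 : pr E l ^ 2 = ((a.eval x₀ - y₀) * (a.eval x₀ + y₀) / e) ^ 2 := by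
    rw [div_pow, ← h7]; field_simp
  have q4 : pr N B ^ 2 = (b ^ d / L ^ m) ^ 2 * (B.eval x₀ / b) ^ (2 * n) := by
    rw [pow_mul, ← q6, ← pow_mul, ← h5, div_pow, div_mul_eq_mul_div, ← mul_pow, ← h4]
    field_simp
  have q2 : pr N E = (B.eval x₀ * (a.eval x₀ - y₀) / L) ^ (2 * n) /
      ((b ^ d / L ^ m) ^ 2 * (B.eval x₀ / b) ^ (2 * n)) := by
    rw [← q4, pow_mul, ← q3, ← pow_mul, ← h2, q4]
    field_simp
  have q1 : pr E N ^ 2 = (L ^ (2 * M) * pr N E / e ^ d) ^ 2 := by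
    rw [div_pow, ← h1]; field_simp
  have a3 : y₀ - a.eval x₀ ≠ 0 := fun e => a1 (by linear_combination -e)
  have s1 : ((y₀ + a.eval x₀) / (y₀ - a.eval x₀)) ^ (2 * n) =
      ((a.eval x₀ + y₀) / (a.eval x₀ - y₀)) ^ (2 * n) := by
    rw [pow_mul, pow_mul]
    congr 1
    field_simp
    ring
  rw [div_pow, q1, q2, ← pow_mul (pr E l), mul_comm n 2, pow_mul (pr E l), q7, s1]
  generalize a.eval x₀ - y₀ = u at *
  generalize a.eval x₀ + y₀ = v at *
  generalize B.eval x₀ = w at *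
  have k2 := congrArg (· ^ 2) k
  simp only [div_pow, mul_pow, ← pow_mul] at k2 ⊢
  field_simp
  linear_combination u ^ (n * 4) * k2

theorem exS {F : Type} [Field F] [CharZero F] {f A B : F[X]} {a : F} {n : ℕ} (hn : 0 < n)
    (hp : A ^ 2 - B ^ 2 * f = (X - C a) ^ (2 * n)) (ha : A.eval a ≠ 0) (hf : f.natDegree = 8)
    (hd : A.natDegree ≤ n) : ∃ S : F[X], S.natDegree ≤ 3 ∧
      derivative A * (X - C a) - (n : F[X]) * A = B * S ∧
      2 * f * (derivative B * (X - C a) - (n : F[X]) * B) + derivative f * B * (X - C a) =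
        2 * A * S := by
  set l : F[X] := X - C a with hl
  have c1 : IsCoprime A l :=
    ((irreducible_X_sub_C a).coprime_iff_not_dvd.2 fun h => ha (dvd_iff_isRoot.1 h)).symm
  have c2 : IsCoprime A B := by
    have := c1.pow_right (n := 2 * n)
    rw [← hp, sq, sub_eq_neg_add, IsCoprime.add_mul_left_right_iff, IsCoprime.neg_right_iff,
      IsCoprime.mul_right_iff, sq, IsCoprime.mul_right_iff] at this
    exact this.1.1
  obtain ⟨m, rfl⟩ : ∃ m, n = m + 1 := ⟨n - 1, by omega⟩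
  have dl : derivative l = 1 := by simp [hl]
  have d1 := congrArg derivative hp
  simp only [derivative_sub, derivative_mul, derivative_pow, dl, mul_one] at d1
  have e2 : 2 * (m + 1) - 1 = 2 * m + 1 := by omega
  rw [e2] at d1
  simp only [Nat.cast_ofNat, Nat.add_one_sub_one, pow_one, map_ofNat, Nat.cast_mul, map_mul,
    Nat.cast_add, Nat.cast_one, map_add, map_natCast, map_one] at d1
  have key : A * (2 * (derivative A * l - (m + 1) * A)) =
      B * (2 * f * (derivative B * l - (m + 1) * B) + derivative f * B * l) := by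
    linear_combination l * d1 - 2 * (m + 1 : F[X]) * hp
  have two : IsUnit (2 : F[X]) := by
    have : (2 : F[X]) = C 2 := rfl
    rw [this]; exact isUnit_C.2 (by simp)
  obtain ⟨S, hS⟩ : B ∣ derivative A * l - (m + 1) * A :=
    (two.dvd_mul_left).1 (c2.symm.dvd_of_dvd_mul_left ⟨_, key⟩)
  have hB : B ≠ 0 := by
    rintro rfl
    have := congrArg (eval a) hp
    simp [hl] at this
    exact ha this
  have hS2 : 2 * f * (derivative B * l - (m + 1) * B) + derivative f * B * l = 2 * A * S := by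
    apply mul_left_cancel₀ hB
    rw [← key, hS]; ring
  refine ⟨S, ?_, by exact_mod_cast hS, by exact_mod_cast hS2⟩
  by_contra! h3
  have S0 : S ≠ 0 := by rintro rfl; simp at h3
  have f0 : f ≠ 0 := by rintro rfl; simp at hf
  have A0 : A ≠ 0 := by rintro rfl; simp at ha
  have dlp : (l ^ (2 * (m + 1))).natDegree = 2 * (m + 1) := by simp [hl]
  have dB : (B ^ 2 * f).natDegree = 2 * B.natDegree + 8 := by
    rw [natDegree_mul (pow_ne_zero 2 hB) f0, natDegree_pow, hf]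
  have low : ∀ P : F[X], (derivative P * l).natDegree ≤ P.natDegree ∧
      (derivative P * l).coeff P.natDegree = P.natDegree * P.leadingCoeff := fun P => by
    rcases Nat.eq_zero_or_pos P.natDegree with h | h
    · simp [h, derivative_of_natDegree_zero h]
    · obtain ⟨k, hk⟩ : ∃ k, P.natDegree = k + 1 := ⟨P.natDegree - 1, by omega⟩
      have e := natDegree_derivative_lt h.ne'
      refine ⟨natDegree_mul_le.trans (by rw [hl, natDegree_X_sub_C]; omega), ?_⟩
      rw [hl, mul_sub, coeff_sub, hk, coeff_mul_X, coeff_mul_C, coeff_derivative,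
        coeff_eq_zero_of_natDegree_lt (p := derivative P) (by omega), leadingCoeff, hk]
      push_cast
      ring
  have nC : ((m : F[X]) + 1) = C ((m : F) + 1) := by simp
  have g1 : (B * S).natDegree ≤ m := by
    rw [← hS, natDegree_le_iff_coeff_eq_zero]
    intro j hj
    rw [coeff_sub, nC, Polynomial.coeff_C_mul]
    by_cases h : j ≤ A.natDegree
    · obtain rfl : j = A.natDegree := by omega
      rw [(low A).2, show A.natDegree = m + 1 by omega, leadingCoeff, show A.natDegree = m + 1 by omega]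
      push_cast
      ring
    · rw [coeff_eq_zero_of_natDegree_lt ((low A).1.trans_lt (by omega)),
        coeff_eq_zero_of_natDegree_lt (by omega)]
      simp
  rw [natDegree_mul hB S0] at g1
  have g2 : A.natDegree = m + 1 := by
    by_contra h
    have := natDegree_sub_le (A ^ 2) (B ^ 2 * f)
    rw [hp, dlp, natDegree_pow, dB] at this
    omega
  have g3 : (2 * A * S).natDegree ≤ 8 + B.natDegree := by
    rw [← hS2]
    refine (natDegree_add_le _ _).trans (max_le (natDegree_mul_le.trans (add_le_add ?_ ?_)) ?_)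
    · exact (natDegree_C_mul_le 2 f).trans hf.le
    · exact (natDegree_sub_le _ _).trans (max_le (low B).1 (nC ▸ natDegree_C_mul_le _ _))
    · rw [mul_right_comm]
      exact natDegree_mul_le.trans (add_le_add ((low f).1.trans hf.le) le_rfl)
  rw [natDegree_mul (mul_ne_zero two.ne_zero A0) S0, natDegree_mul two.ne_zero A0] at g3
  omega

variable {f : K[X]} {ι : Type} [Fintype ι] {x : ι → K}

theorem mkSol [DecidableEq ι] (i₀ : ι) {n : ℕ} (hn : 0 < n) {A B S : K[X]}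
    (hp : A ^ 2 - B ^ 2 * f = (X - C (x i₀)) ^ (2 * n)) (hd : A.natDegree ≤ n)
    (hS : derivative A * (X - C (x i₀)) - (n : K[X]) * A = B * S)
    (hS2 : 2 * f * (derivative B * (X - C (x i₀)) - (n : K[X]) * B) +
      derivative f * B * (X - C (x i₀)) = 2 * A * S) : ∃ s : Sol f x, s.A = A ∧ s.B = B ∧ s.e = Pi.single i₀ n ∧
      s.W = Pi.single i₀ (S.eval (x i₀)) ∧ S - C (S.eval (x i₀)) = (X - C (x i₀)) * s.q := by
  set l : K[X] := X - C (x i₀) with hl
  have hden : den x (Pi.single i₀ n) = l ^ n := by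
    rw [den, Finset.prod_eq_single i₀ (fun i _ hi => by simp [hi]) (by simp)]
    simp [hl]
  obtain ⟨m, rfl⟩ : ∃ m, n = m + 1 := ⟨n - 1, by omega⟩
  push_cast at hS hS2
  have dl : derivative l = 1 := by simp [hl]
  obtain ⟨q, hq⟩ : l ∣ S - C (S.eval (x i₀)) := X_sub_C_dvd_sub_C_eval
  refine ⟨⟨A, B, Pi.single i₀ (m + 1), Pi.single i₀ (S.eval (x i₀)), q,
    by rw [hden, hp, ← pow_mul, mul_comm (m + 1)], by simpa using hd, fun ϑ ξ h => ?_⟩, rfl, rfl,
    rfl, rfl, hq⟩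
  rw [hden, Finset.sum_eq_single i₀ (fun i _ hi => by simp [hi]) (by simp), Pi.single_eq_same,
    map_pow]
  have hl' : aeval ξ l = ξ - algebraMap K L (x i₀) := by simp [hl]
  have h0 := h i₀
  rw [← hl'] at h0 ⊢
  have dq : ∀ P : K[X], ϑ (aeval ξ P / aeval ξ l ^ (m + 1)) =
      aeval ξ (derivative P * l - ((m : K[X]) + 1) * P) * ϑ ξ / aeval ξ l ^ (m + 2) := by
    intro P
    rw [Derivation.leibniz_div, Derivation.leibniz_pow, Derivation.map_aeval, Derivation.map_aeval,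
      dl]
    simp only [map_one, smul_eq_mul, Nat.add_one_sub_one, nsmul_eq_mul, map_sub, map_mul, map_add,
      map_natCast]
    push_cast
    field_simp
    ring
  have hw : algebraMap K L (S.eval (x i₀)) = aeval ξ S - aeval ξ l * aeval ξ q := by
    have := congrArg (aeval ξ) hq
    simp only [map_sub, aeval_C, map_mul] at this
    linear_combination -this
  refine And.intro ?_ (And.intro ?_ ?_)
  · have := congrArg (aeval ξ) hp
    simp only [map_sub, map_mul, map_pow] at this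
    field_simp
    rw [← pow_mul, mul_comm (m + 1), ← this]
  · rw [dq, hS, hw, map_mul]
    field_simp
    ring
  · have := congrArg (aeval ξ) hS2
    simp only [map_add, map_mul (aeval ξ) (2 * f), map_mul (aeval ξ) 2, map_ofNat,
      map_mul (aeval ξ) (derivative f * B), map_mul (aeval ξ) (derivative f),
      map_mul (aeval ξ) (2 * A)] at this
    rw [dq, hw, Derivation.map_aeval, smul_eq_mul, pow_succ _ (m + 1)]
    have h1 := pow_ne_zero (m + 1) h0
    generalize aeval ξ l ^ (m + 1) = z at h1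
    field_simp
    linear_combination ϑ ξ * this

/-- The value at the point `(ξ, η)`. -/
noncomputable def Sol.val (s : Sol f x) (ξ η : K) : K :=
  (s.A.eval ξ + s.B.eval ξ * η) / (den x s.e).eval ξ

theorem Sol.val_mul (s t : Sol f x) {ξ η : K} (h : η ^ 2 = f.eval ξ) :
    (s.mul t).val ξ η = s.val ξ η * t.val ξ η := by
  simp only [Sol.val, Sol.mul, den_add, eval_add, eval_mul, div_mul_div_comm, ← h]
  ring

theorem den_ne {ξ : K} (h : ∀ i, ξ ≠ x i) (e : ι → ℕ) : (den x e).eval ξ ≠ 0 := by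
  simp only [den, eval_prod, eval_pow, eval_sub, eval_X, eval_C]
  exact Finset.prod_ne_zero_iff.2 fun i _ => pow_ne_zero _ (sub_ne_zero.2 (h i))

theorem Sol.val_inv (s : Sol f x) {ξ η : K} (h : η ^ 2 = f.eval ξ) (h0 : ∀ i, ξ ≠ x i) :
    s.val ξ η * s.inv.val ξ η = 1 := by
  have := congrArg (eval ξ) s.pell
  simp only [eval_sub, eval_mul, eval_pow, ← h] at this
  have d := den_ne h0 s.e
  simp only [Sol.val, Sol.inv, eval_neg]
  field_simp
  linear_combination this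

theorem Sol.val_shift (s : Sol f x) (b ξ η : K) : (s.shift b).val (ξ - b) η = s.val ξ η := by
  simp only [Sol.val, Sol.shift, den_comp, eval_comp, eval_add, eval_X, eval_C, sub_add_cancel]

/-- The product of the values at the zeros of `y - a`. -/
noncomputable def Sol.V (s : Sol f x) (a : K[X]) : K :=
  ((a ^ 2 - f).roots.map fun ξ => s.val ξ (a.eval ξ)).prod

/-- Solutions with integer weights that satisfy the reciprocity law. -/
structure Gd (s : Sol f x) (y : ι → K) (n : ι → ℤ) : Prop where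
  W : ∀ i, s.W i = n i * y i
  q : s.q.natDegree ≤ 2
  A : Rt s.A
  B : Rt s.B
  weil : ∀ (a : K[X]) (M : ℕ), (a ^ 2 - f).natDegree = 2 * M → a.natDegree ≤ M →
    (∀ i, (a ^ 2 - f).eval (x i) ≠ 0) →
    s.V a ^ 2 * ∏ i, ((y i + a.eval (x i)) / (y i - a.eval (x i))) ^ (2 * n i) = 1

theorem root_sq {a : K[X]} {ξ : K} (h : ξ ∈ (a ^ 2 - f).roots) : a.eval ξ ^ 2 = f.eval ξ := by
  have := isRoot_of_mem_roots h
  simpa [sub_eq_zero] using this

theorem hh_ne {a : K[X]} {z y : K} (hy : y ^ 2 = f.eval z) (h : (a ^ 2 - f).eval z ≠ 0) :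
    y + a.eval z ≠ 0 ∧ y - a.eval z ≠ 0 := by
  rw [show (a ^ 2 - f).eval z = -((y + a.eval z) * (y - a.eval z)) by
    simp only [eval_sub, eval_pow, ← hy]; ring, neg_ne_zero] at h
  exact mul_ne_zero_iff.1 h

variable {y : ι → K} {n n' : ι → ℤ} {s t : Sol f x}

theorem Gd.mul (hf : Rt f) (hy : ∀ i, y i ^ 2 = f.eval (x i)) (h : Gd s y n) (h' : Gd t y n') :
    Gd (s.mul t) y (n + n') where
  W i := by simp [Sol.mul, h.W, h'.W, add_mul]
  q := (natDegree_add_le _ _).trans (max_le h.q h'.q)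
  A := (h.A.mul h'.A).add ((h.B.mul h'.B).mul hf)
  B := (h.A.mul h'.B).add (h'.A.mul h.B)
  weil a M h1 h3 h4 := by
    have e : (s.mul t).V a = s.V a * t.V a := by
      rw [Sol.V, Sol.V, Sol.V, ← Multiset.prod_map_mul]
      congr 1
      exact Multiset.map_congr rfl fun ξ hξ => s.val_mul t (root_sq hξ)
    rw [e, Finset.prod_congr rfl fun i _ => by
      rw [Pi.add_apply, mul_add, zpow_add₀ (div_ne_zero (hh_ne (hy i) (h4 i)).1
        (hh_ne (hy i) (h4 i)).2)], Finset.prod_mul_distrib, mul_pow, mul_mul_mul_comm,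
      h.weil a M h1 h3 h4, h'.weil a M h1 h3 h4, one_mul]

theorem Gd.inv (h : Gd s y n) : Gd s.inv y (-n) where
  W i := by simp [Sol.inv, h.W]
  q := by simpa [Sol.inv] using h.q
  A := h.A
  B := h.B.neg
  weil a M h1 h3 h4 := by
    have e : s.V a * s.inv.V a = 1 := by
      rw [Sol.V, Sol.V, ← Multiset.prod_map_mul]
      refine Multiset.prod_eq_one fun z hz => ?_
      obtain ⟨ξ, hξ, rfl⟩ := Multiset.mem_map.1 hz
      exact s.val_inv (root_sq hξ) fun i e => h4 i (e ▸ isRoot_of_mem_roots hξ)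
    have := congrArg (·⁻¹) (h.weil a M h1 h3 h4)
    simp only [mul_inv, ← Finset.prod_inv_distrib, ← zpow_neg, inv_one, ← inv_pow] at this
    rw [eq_inv_of_mul_eq_one_right e]
    simpa using this

theorem gd_base [DecidableEq ι] (i₀ : ι) (hy : y i₀ ^ 2 = f.eval (x i₀))
    {m : ℕ} (hm : 0 < m) {A B S : K[X]} (rA : Rt A) (rB : Rt B)
    (hp : A ^ 2 - B ^ 2 * f = (X - C (x i₀)) ^ (2 * m)) (hd : A.natDegree ≤ m)
    (ha : A.eval (x i₀) ≠ 0) (dS : S.natDegree ≤ 3)
    (hS : derivative A * (X - C (x i₀)) - (m : K[X]) * A = B * S)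
    (hS2 : 2 * f * (derivative B * (X - C (x i₀)) - (m : K[X]) * B) +
      derivative f * B * (X - C (x i₀)) = 2 * A * S) : ∃ (s : Sol f x) (k : ℤ), k.natAbs = m ∧ Gd s y (Pi.single i₀ k) ∧ s.A = A ∧
      s.B = B ∧ s.e = Pi.single i₀ m ∧ S = C (k * y i₀) + (X - C (x i₀)) * s.q := by
  obtain ⟨s, e1, e2, e3, e4, e5⟩ := mkSol i₀ hm hp hd hS hS2
  have p0 := congrArg (eval (x i₀)) hp
  have p1 := congrArg (eval (x i₀)) hS
  simp only [eval_sub, eval_mul, eval_pow, eval_X, eval_C, sub_self, mul_zero, zero_sub,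
    eval_natCast, zero_pow (show 2 * m ≠ 0 by omega), ← hy] at p0 p1
  have hB : B.eval (x i₀) ≠ 0 := fun e => ha (by simpa [e] using p0)
  obtain ⟨ε, hε, hz⟩ : ∃ ε : ℤ, (ε = 1 ∨ ε = -1) ∧ A.eval (x i₀) + B.eval (x i₀) * (ε * y i₀) = 0 := by
    have : (A.eval (x i₀) + B.eval (x i₀) * y i₀) * (A.eval (x i₀) - B.eval (x i₀) * y i₀) = 0 := by
      linear_combination p0
    rcases mul_eq_zero.1 this with h | h
    · exact ⟨1, .inl rfl, by simpa using h⟩
    · exact ⟨-1, .inr rfl, by push_cast; linear_combination h⟩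
  have hW : S.eval (x i₀) = ((ε * m : ℤ) : K) * y i₀ := by
    apply mul_left_cancel₀ hB
    push_cast
    linear_combination -p1 - m * hz
  refine ⟨s, ε * m, by rcases hε with rfl | rfl <;> simp, ⟨fun i => ?_, ?_, e1 ▸ rA, e2 ▸ rB,
    fun a M h1 h3 h4 => ?_⟩, e1, e2, e3, by rw [← e5, ← hW]; ring⟩
  · rw [e4, hW]
    by_cases h : i = i₀
    · subst h; simp
    · simp [h]
  · by_cases q0 : s.q = 0
    · simp [q0]
    have := congrArg natDegree e5
    rw [natDegree_sub_C, natDegree_mul (X_sub_C_ne_zero _) q0, natDegree_X_sub_C] at this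
    omega
  · have hden : den x s.e = (X - C (x i₀)) ^ m := by
      rw [e3, den, Finset.prod_eq_single i₀ (fun i _ hi => by simp [hi]) (by simp)]
      simp
    have e : s.V a = pr (a ^ 2 - f) (A + B * a) / pr (a ^ 2 - f) (X - C (x i₀)) ^ m := by
      rw [← pr_pow, pr, pr, ← Multiset.prod_map_div, Sol.V]
      simp only [Sol.val, e1, e2, hden, eval_add, eval_mul]
    have := weil0 hp hd hB hz (by rcases hε with rfl | rfl <;> simpa using hy) h1 h3 (h4 i₀)
    rw [e, Finset.prod_eq_single i₀ (fun i _ hi => by simp [hi]) (by simp), Pi.single_eq_same,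
      ← this]
    congr 1
    rcases hε with rfl | rfl
    · simp [← zpow_natCast]
    · rw [show (2 * (-1 * m) : ℤ) = -((2 * m : ℕ) : ℤ) by push_cast; ring, zpow_neg, zpow_natCast,
        ← inv_pow, inv_div]
      congr 1
      rw [← neg_div_neg_eq]
      push_cast
      congr 1 <;> ring

namespace Cfg

variable (Z : Cfg) {a : ι → ℚ}

theorem gbase [DecidableEq ι] (hy : ∀ i, y i ^ 2 = Z.F.eval (a i : K)) (i₀ : ι) (h : a i₀ ∈ Z.T)
    (h' : Z.f.eval (a i₀) ≠ 0) : ∃ (σ : Sol Z.F fun i => (a i : K)) (k : ℤ), k ≠ 0 ∧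
      Gd σ y (Pi.single i₀ k) := by
  obtain ⟨n, hn, A, B, h1, h2, h3⟩ := (Z.good _ h).2 h'
  have p1 : A.map (Rat.castHom K) ^ 2 - B.map (Rat.castHom K) ^ 2 * Z.F =
      (X - C (a i₀ : K)) ^ (2 * n) := by
    simpa [F] using congrArg (Polynomial.map (Rat.castHom K)) h1
  have p3 : (A.map (Rat.castHom K)).eval (a i₀ : K) ≠ 0 := by
    rw [eval_map]
    exact fun h => h3 ((map_eq_zero _).1 ((eval₂_at_apply (Rat.castHom K) _).symm.trans h))
  obtain ⟨S, s1, s2, s3⟩ := exS hn p1 p3 Z.F_deg (natDegree_map_le.trans h2)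
  obtain ⟨σ, k, k1, k2, -⟩ := gd_base (x := fun i => (a i : K)) i₀ (hy i₀) hn ⟨_, rfl⟩ ⟨_, rfl⟩ p1
    (natDegree_map_le.trans h2) p3 s1 s2 s3
  exact ⟨σ, k, by omega, k2⟩

omit [Fintype ι] in
theorem y_ne (hy : ∀ i, y i ^ 2 = Z.F.eval (a i : K)) {i : ι} (h' : Z.f.eval (a i) ≠ 0) :
    y i ≠ 0 := fun e => h' (by
  have := hy i
  rw [e, F_eval] at this
  exact_mod_cast (by simpa using this.symm : ((Z.f.eval (a i) : ℚ) : K) = 0))

theorem gelim (hy : ∀ i, y i ^ 2 = Z.F.eval (a i : K)) {r : ℝ} (hr : P5 r)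
    (p : Sol Z.F (fun i => (a i : K)) → Prop) (pm : ∀ s t, p s → p t → p (s.mul t))
    (pi : ∀ s, p s → p s.inv) {s t : Sol Z.F fun i => (a i : K)} (hs : Gd s y n) (ht : Gd t y n')
    (ps : p s) (pt : p t) (hi : LinearIndependent K ![s.W, t.W]) :
    ∃ u m, Gd u y m ∧ p u ∧ u.Bdd r ∧ u.W ≠ 0 := by
  obtain ⟨u, -, ⟨⟨m, h1⟩, h2⟩, h⟩ := Z.elimQ hr (fun u => (∃ m, Gd u y m) ∧ p u)
    (fun s t ⟨⟨_, h1⟩, h2⟩ ⟨⟨_, h3⟩, h4⟩ => ⟨⟨_, h1.mul Z.F_rt hy h3⟩, pm _ _ h2 h4⟩)
    (fun s ⟨⟨_, h1⟩, h2⟩ => ⟨⟨_, h1.inv⟩, pi _ h2⟩) s t ⟨hs.A, hs.B⟩ ⟨ht.A, ht.B⟩ ⟨⟨_, hs⟩, ps⟩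
    ⟨⟨_, ht⟩, pt⟩ hi
  exact ⟨u, m, h1, h2, h⟩

theorem gpair [DecidableEq ι] (hy : ∀ i, y i ^ 2 = Z.F.eval (a i : K)) (hT : ∀ i, a i ∈ Z.T)
    (hf : ∀ i, Z.f.eval (a i) ≠ 0) {r : ℝ} (hr : P5 r) {i j : ι} (hij : i ≠ j) :
    ∃ (u : Sol Z.F fun i => (a i : K)) (m : ι → ℤ), Gd u y m ∧
      (∀ k, k ≠ i → k ≠ j → u.W k = 0) ∧ u.Bdd r ∧ u.W ≠ 0 := by
  obtain ⟨s, k, k0, hs⟩ := Z.gbase hy i (hT i) (hf i)
  obtain ⟨t, l, l0, ht⟩ := Z.gbase hy j (hT j) (hf j)
  refine Z.gelim hy hr (fun u => ∀ k, k ≠ i → k ≠ j → u.W k = 0)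
    (fun s t hs ht k h1 h2 => by simp [Sol.mul, hs k h1 h2, ht k h1 h2])
    (fun s hs k h1 h2 => by simp [Sol.inv, hs k h1 h2]) hs ht
    (fun k h1 _ => by simp [hs.W, h1]) (fun k _ h2 => by simp [ht.W, h2])
    (indep (i := i) (by simp [hs.W, k0, Z.y_ne hy (hf i)]) (by simp [ht.W, hij]) fun h => ?_)
  have := congrFun h j
  simp [ht.W, l0, Z.y_ne hy (hf j)] at this

theorem gbdd3 {a : Fin 3 → ℚ} {y : Fin 3 → K} (hy : ∀ i, y i ^ 2 = Z.F.eval (a i : K))
    (hT : ∀ i, a i ∈ Z.T) (hf : ∀ i, Z.f.eval (a i) ≠ 0) {r₁ r₂ : ℝ} (h1 : P5 r₁) (h2 : P5 r₂) :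
    ∃ (σ : Sol Z.F fun i => (a i : K)) (m : Fin 3 → ℤ), Gd σ y m ∧ σ.Bdd r₁ ∧ σ.Bdd r₂ ∧
      σ.W ≠ 0 := by
  obtain ⟨u, m, u1, -, u3, u4⟩ := Z.gpair hy hT hf h1 (show (0 : Fin 3) ≠ 1 by simp)
  obtain ⟨k, hk, t, l, t1, t2, t3, t4⟩ : ∃ k, u.W k ≠ 0 ∧ ∃ (t : Sol Z.F fun i => (a i : K))
      (l : Fin 3 → ℤ), Gd t y l ∧ t.W k = 0 ∧ t.Bdd r₁ ∧ t.W ≠ 0 := by
    obtain ⟨k, hk⟩ := Function.ne_iff.1 u4
    obtain ⟨i, j, hij, hi, hj⟩ : ∃ i j : Fin 3, i ≠ j ∧ k ≠ i ∧ k ≠ j :=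
      (by decide : ∀ k : Fin 3, ∃ i j : Fin 3, i ≠ j ∧ k ≠ i ∧ k ≠ j) k
    obtain ⟨t, l, t1, t2, t3⟩ := Z.gpair hy hT hf h1 hij
    exact ⟨k, hk, t, l, t1, t2 k hi hj, t3⟩
  exact Z.gelim hy h2 (fun u => u.Bdd r₁) (fun s t hs ht => hs.mul h1.pos ht)
    (fun s hs => hs) u1 t1 u3 t3 (indep hk t2 t4)

end Cfg

end Pool.Agent.MP_8d06cc_nt.H27
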