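import Pool.Agent.MP_8d06cc_nt.H90.Pure
import Pool.Agent.MP_8d06cc_nt.H27.Global

/-! The estimates at the ends for solutions, and the logarithmic form of reciprocity. -/

namespace Pool.Agent.MP_8d06cc_nt.H27

open Polynomial Filter

variable {f : K[X]} {ι : Type} [Fintype ι] {x : ι → K} {d : Prop}

theorem Sd.dl2 {σ : ℤ} {r : ℝ} (h : Sd σ r x) (hf : f.natDegree = 8) (u : Sol f x)
    (hρ : gn r (u.B ^ 2 * f) < gn r (den x u.e) ^ 2) {c : K} {κ : ℤ} {U : LP}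
    (hF : toLaurent f = .C c * .T κ * U) {r₁ r₂ : ℝ} (p1 : 0 < r₁) (p2 : 0 < r₂)
    (l1 : r₁ ^ σ ≤ r ^ σ) (l2 : r₂ ^ σ ≤ r ^ σ) (U1 : LB r₁ U 1) (U2 : LB r₂ U 1) {ε : ℝ}
    (hε : 0 < ε) : ∃ δ, 0 < δ ∧ ∀ μ, LB r₁ μ 1 → LB r₂ μ 1 → LB r₁ (μ ^ 2 * U - 1) δ →
      LB r₂ (μ ^ 2 * U - 1) δ → ∀ᶠ k in atTop,
        Dat σ κ μ (u.R σ) (u.BB σ c κ k) (u.BB σ c κ k * ev σ (μ * U)) r₁ ε ∧
        Dat σ κ μ (u.R σ) (u.BB σ c κ k) (u.BB σ c κ k * ev σ (μ * U)) r₂ ε := by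
  obtain ⟨C₁, c1, h1⟩ := h.dl hf u hρ hF p1 l1 U1
  obtain ⟨C₂, c2, h2⟩ := h.dl hf u hρ hF p2 l2 U2
  have kk : ∀ C, C ≤ C₁ + C₂ → C * (ε / 2 / (C₁ + C₂ + 1)) + ε / 2 ≤ ε := fun C hC => by
    rw [← mul_div_assoc, ← le_sub_iff_add_le, div_le_iff₀ (by positivity)]
    nlinarith
  exact ⟨ε / 2 / (C₁ + C₂ + 1), by positivity, fun μ a1 a2 b1 b2 =>
    ((h1 _ μ a1 b1 _ (half_pos hε)).and (h2 _ μ a2 b2 _ (half_pos hε))).mono fun k hk =>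
      ⟨hk.1.mono (kk _ (by linarith)), hk.2.mono (kk _ (by linarith))⟩⟩

theorem gn_of_lb {r c : ℝ} {P : K[X]} (h : LB r (toLaurent P) c) : gn r P ≤ c := gn_le fun i => by
  have := h i
  rwa [coeff_toL, zpow_natCast] at this

theorem gn_fac {r : ℝ} (hr : 0 < r) {c : K} {κ : ℤ} {U : LP}
    (hF : toLaurent f = .C c * .T κ * U) (hU : LB r U 1) : gn r f ≤ ‖c‖ * r ^ κ :=
  gn_of_lb (by simpa [hF] using ((lb_C hr c).mul hr (lb_T hr κ)).mul hr hU)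

theorem Sol.R_ord (u : Sol f x) (hx : ∀ i, x i ≠ 0) : Ord (u.R 1) 1 :=
  (lo_iff.1 (lo_T 1)).mul ((Ord.sum _ _ fun i _ => by
    simpa using (ord_alg _).mul (in_ord hx i)).add (lo_iff.1 (lo_toL u.q)))

theorem Sol.R_coeff (u : Sol f x) (hx : ∀ i, x i ≠ 0) (m : ℕ) :
    (u.R 1).coeff (m + 1) = u.q.coeff m - ∑ i, u.W i * (x i)⁻¹ ^ (m + 1) := by
  rw [Sol.R]
  simp only [in_inv (hx _)]
  rw [ev_T, HahnSeries.coeff_single_mul, mul_one, add_sub_cancel_right, one_mul,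
    HahnSeries.coeff_add, ev_coeff rfl, one_mul, coeff_toL, HahnSeries.coeff_sum, sub_eq_neg_add,
    ← Finset.sum_neg_distrib]
  congr 1
  refine Finset.sum_congr rfl fun i _ => ?_
  rw [coeff_alg_mul, coeff_alg_mul, geo_coeff, if_pos (by omega), zpow_natCast]
  ring

theorem Sd.ordB {σ κ : ℤ} {r : ℝ} (h : Sd σ r x) (hf : f.natDegree = 8) (u : Sol f x) (c : K)
    (k : ℕ) : Ord (u.BB σ c κ k) (σ * κ + if σ = 1 then 0 else 4) := by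
  rw [Sol.BB, map_mul, ev_C, ev_T]
  have := ((ord_alg (c / (4 * 5 ^ k))).mul (ord_single (σ * κ) (1 : K))).mul (h.ord hf (u.it k)).2
  rwa [zero_add] at this

theorem win {κ a E : ℤ} (a1 : 1 ≤ a) (aE : a ≤ E) (h30 : a + E ≤ 30) (hκ : 2 ≤ κ)
    (hv : ∀ m, κ ≤ m → ∀ v : ℕ, 20 * (v : ℤ) ≤ |2 * m - κ| + 15 → (v = 0 ∨ 5 ∣ 2 * m - κ) →
      25 * v + E ≤ a * m ∧ 25 * v + E ≤ 30 + (a - 1) * m)
    (u : Sol f x) (hf : f.natDegree = 8) (hx : ∀ i, 1 ≤ ‖x i‖)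
    (hρ : gn (1 / s) (u.B ^ 2 * f) < gn (1 / s) (den x u.e) ^ 2)
    (hF : Fac f (.T κ) (s ^ (-2 * a)) 1 d) {w : ℝ} (w0 : 0 < w)
    (hR : ∀ m : ℕ, 1 ≤ m → ‖(u.R 1).coeff (m + 1)‖ ≤ w) :
    ‖(u.R 1).coeff 1‖ ≤ w * s ^ (-a) ∧ ∃ c, gn (s ^ (-a)) f ≤ ‖c‖ * (s ^ (-a)) ^ κ ∧
      ∀ᶠ k in atTop, SB 1 (s ^ (-a)) (u.BB 1 c κ k) (w * s ^ (-E)) := by
  rw [one_div, ← zpow_neg_one] at hρ
  have t1 : s ^ (-1 : ℤ) < 1 := zl (by norm_num)
  have h : Sd 1 (s ^ (-1 : ℤ)) x := ⟨zp _, .inr ⟨rfl, fun i => t1.le.trans (hx i)⟩⟩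
  have l1 : s ^ (-2 * a) < s ^ (-a) := zpow_lt_zpow_right₀ s1 (by omega)
  have l2 : s ^ (-a) ≤ s ^ (-1 : ℤ) := zs (by omega)
  obtain ⟨c, U, e, hU, hμ⟩ := mu_of hF (zp _) l1 l2 t1
  have U2 := hU _ l1.le (l2.trans t1.le)
  obtain ⟨δ, δ0, hδ⟩ := h.dl2 hf u hρ e (zp (-1)) (zp (-a)) le_rfl (by simpa using l2)
    (hU _ (l1.le.trans l2) t1.le) U2 (mul_pos w0 (zp (-30)))
  obtain ⟨μ, m1, m2⟩ := hμ δ δ0
  have D := hδ μ (m1.mid (zp _) (l1.le.trans l2) t1.le) (m1.mid (zp _) l1.le (l2.trans t1.le))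
    (m2 _ l2 le_rfl) (m2 _ le_rfl l2)
  have oR := u.R_ord fun i => norm_pos_iff.1 (one_pos.trans_le (hx i))
  have key : ∀ w', w ≤ w' → ‖(u.R 1).coeff 1‖ ≤ w' → ∀ᶠ k in atTop,
      ‖(u.R 1).coeff 1‖ ≤ w' * s ^ (-a) ∧ SB 1 (s ^ (-a)) (u.BB 1 c κ k) (w' * s ^ (-E)) :=
    fun w' h1 h2 => D.mono fun k hk => pin a1 aE h30 hκ hv m1 hk.1 hk.2 (fun m => by
      simp only [one_zpow, mul_one]
      rcases lt_trichotomy m 1 with hm | rfl | hm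
      · rw [oR m hm, norm_zero]; linarith
      · exact h2
      · obtain ⟨n, rfl⟩ : ∃ n : ℕ, m = n + 1 := ⟨(m - 1).toNat, by omega⟩
        exact (hR n (by omega)).trans h1) oR (by simpa using h.ordB (κ := κ) hf u c k)
      (mul_le_mul_of_nonneg_right h1 (zp _).le)
  have t2 : s ^ (-a) < 1 := zl (by omega)
  have r1 := rfix (zp _).le t2 w0.le (key _ (le_max_left _ _) (le_max_right _ _)).exists.choose_spec.1
  exact ⟨r1, c, gn_fac (zp _) e U2,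
    (key w le_rfl (r1.trans (mul_le_of_le_one_right w0.le t2.le))).mono fun k hk => hk.2⟩

/-- A simple pole, expanded at infinity. -/
noncomputable def pole (W z : K) : L :=
  ev (-1) (.T 1) * (algebraMap K L W * (ev (-1) (.T 1) - algebraMap K L z)⁻¹)

theorem Sol.R_out (u : Sol f x) : u.R (-1) = ∑ i, pole (u.W i) (x i) + ev (-1) (xg u.q) := by
  simp only [Sol.R, pole, mul_add, Finset.mul_sum, xg, map_mul]

theorem pole_bd {r : ℝ} (hr : 0 < r) (W : K) {z : K} (hz : ‖z‖ ≤ r) :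
    SB (-1) r (pole W z) ‖W‖ ∧ Ord (pole W z) 0 := by
  have h := Sd.inv (σ := -1) (x := fun _ : Unit => z) ⟨hr, .inl ⟨rfl, fun _ => hz⟩⟩ ()
  refine ⟨(((sb_ev rfl).2 (lb_T hr 1)).mul hr (h.2.1.smul hr W)).mono (le_of_eq ?_), ?_⟩
  · rw [max_eq_left hz]
    field_simp
  · have := (ord_single (-1 * 1) (1 : K)).mul ((ord_alg W).mul h.2.2)
    rwa [← ev_T] at this

theorem wout2 {ι' : Type} [Fintype ι'] {x' : ι' → K} (u : Sol f x) (u' : Sol f x')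
    (hf : f.natDegree = 8) {r : ℝ} (hr : 0 < r) (hx : ∀ i, ‖x i‖ ≤ r) (hx' : ∀ i, ‖x' i‖ ≤ r)
    (hρ : gn (r * s) (u.B ^ 2 * f) < gn (r * s) (den x u.e) ^ 2)
    (hρ' : gn (r * s) (u'.B ^ 2 * f) < gn (r * s) (den x' u'.e) ^ 2)
    (hF : Fac f (.T 4) r (r * s ^ (24 : ℤ)) d) {a b : K} (ha : ‖a‖ ≤ 1) (hb : ‖b‖ ≤ 1) {P : L}
    {q : K[X]} (e : algebraMap K L a * u.R (-1) + algebraMap K L b * u'.R (-1) =
      P + ev (-1) (xg q)) {w : ℝ} (w0 : 0 < w) (hP : SB (-1) r P w) (oP : Ord P 0) :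
    gn (r * s ^ (12 : ℤ)) (X * q) ≤ w * s ^ (-12 : ℤ) ∧ ∃ c,
      gn (r * s ^ (12 : ℤ)) f ≤ ‖c‖ * (r * s ^ (12 : ℤ)) ^ (4 : ℤ) ∧
      ∀ᶠ k in atTop, SB (-1) (r * s ^ (12 : ℤ))
        (algebraMap K L a * u.BB (-1) c 4 k + algebraMap K L b * u'.BB (-1) c 4 k) w := by
  rw [← zpow_one s] at hρ hρ'
  have l1 : r < r * s ^ (1 : ℤ) := lt_mul_of_one_lt_right hr (by simpa using s1)
  have l2 : r * s ^ (1 : ℤ) ≤ r * s ^ (12 : ℤ) := zw hr.le (by norm_num)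
  have l3 : r * s ^ (12 : ℤ) < r * s ^ (24 : ℤ) :=
    mul_lt_mul_of_pos_left (zpow_lt_zpow_right₀ s1 (by norm_num)) hr
  have p1 := hr.trans l1
  have p2 := p1.trans_le l2
  have h : Sd (-1) (r * s ^ (1 : ℤ)) x := ⟨p1, .inl ⟨rfl, fun i => (hx i).trans l1.le⟩⟩
  have h' : Sd (-1) (r * s ^ (1 : ℤ)) x' := ⟨p1, .inl ⟨rfl, fun i => (hx' i).trans l1.le⟩⟩
  obtain ⟨c, U, e', hU, hμ⟩ := mu_of hF hr l1 l2 l3
  have U1 := hU _ l1.le (l2.trans l3.le)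
  have U2 := hU _ (l1.le.trans l2) l3.le
  have l4 : (r * s ^ (12 : ℤ)) ^ (-1 : ℤ) ≤ (r * s ^ (1 : ℤ)) ^ (-1 : ℤ) := by
    rw [zpow_neg_one, zpow_neg_one]; exact inv_anti₀ p1 l2
  obtain ⟨δ, δ0, hδ⟩ := h.dl2 hf u hρ e' p1 p2 le_rfl l4 U1 U2 (mul_pos w0 (zp (-12)))
  obtain ⟨δ', δ0', hδ'⟩ := h'.dl2 hf u' hρ' e' p1 p2 le_rfl l4 U1 U2 (mul_pos w0 (zp (-12)))
  obtain ⟨μ, m1, m2⟩ := hμ _ (lt_min δ0 δ0')
  have a1 := m1.mid hr l1.le (l2.trans l3.le)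
  have a2 := m1.mid hr (l1.le.trans l2) l3.le
  have D := ((hδ μ a1 a2 ((m2 _ le_rfl l2).mono (min_le_left _ _))
    ((m2 _ l2 le_rfl).mono (min_le_left _ _))).and (hδ' μ a1 a2
      ((m2 _ le_rfl l2).mono (min_le_right _ _)) ((m2 _ l2 le_rfl).mono (min_le_right _ _)))).mono
    fun k hk => pout hr m1 (e ▸ hk.1.1.lin p1 hk.2.1 ha hb) (e ▸ hk.1.2.lin p2 hk.2.2 ha hb) hP oP
      (((ord_alg a).mul (h.ordB hf u c k)).add ((ord_alg b).mul (h'.ordB hf u' c k))) le_rfl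
  exact ⟨D.exists.choose_spec.1, c, gn_fac p2 e' U2, D.mono fun k hk => hk.2⟩

theorem wout (u : Sol f x) (hf : f.natDegree = 8) {r : ℝ} (hr : 0 < r) (hx : ∀ i, ‖x i‖ ≤ r)
    (hρ : gn (r * s) (u.B ^ 2 * f) < gn (r * s) (den x u.e) ^ 2)
    (hF : Fac f (.T 4) r (r * s ^ (24 : ℤ)) d) {w : ℝ} (w0 : 0 < w) (hW : ∀ i, ‖u.W i‖ ≤ w) :
    gn (r * s ^ (12 : ℤ)) (X * u.q) ≤ w * s ^ (-12 : ℤ) ∧ ∃ c,
      gn (r * s ^ (12 : ℤ)) f ≤ ‖c‖ * (r * s ^ (12 : ℤ)) ^ (4 : ℤ) ∧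
      ∀ᶠ k in atTop, SB (-1) (r * s ^ (12 : ℤ)) (u.BB (-1) c 4 k) w := by
  simpa using wout2 u u hf hr hx hx hρ hρ hF (a := 1) (b := 0) (by simp) (by simp)
    (by simpa using u.R_out) w0 (Finset.sum_induction _ (fun z => SB (-1) r z w)
      (fun _ _ => SB.add hr) (bd_zero w0.le) fun i _ => (pole_bd hr _ (hx i)).1.mono (hW i))
    (Ord.sum _ _ fun i _ => (pole_bd hr _ (hx i)).2)

theorem bsb {σ κ : ℤ} (hσ : σ * σ = 1) {ρ Y : ℝ} (hρ : 0 < ρ) {c : K} (c0 : c ≠ 0) {u : Sol f x}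
    {k : ℕ} (h : SB σ ρ (u.BB σ c κ k) Y) :
    SB σ ρ ((u.it k).bL σ) ((1 / 5) ^ k * Y / (‖c‖ * ρ ^ κ)) := by
  have := ((sb_ev hσ).2 ((lb_C hρ (4 * 5 ^ k / c)).mul hρ (lb_T hρ (-κ)))).mul hρ h
  rw [Sol.BB, ← mul_assoc, ← map_mul, mul_mul_mul_comm, ← map_mul, ← LaurentPolynomial.T_add,
    neg_add_cancel, div_mul_div_comm, mul_comm c, div_self (mul_ne_zero (mul_ne_zero (by norm_num)
      (pow_ne_zero _ (by norm_num))) c0), norm_div, norm_N, zpow_neg] at this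
  simp only [map_one, LaurentPolynomial.T_zero, one_mul] at this
  exact this.mono (le_of_eq (by ring))

theorem Sol.near (u : Sol f x) {ξ η : K} (h : η ^ 2 = f.eval ξ) (h0 : ∀ i, ξ ≠ x i) {t : ℝ}
    (t0 : 0 ≤ t) (t1 : t < 1) (ht : ‖(u.B ^ 2 * f).eval ξ‖ ≤ (t * ‖(den x u.e).eval ξ‖) ^ 2) :
    ‖u.val ξ η ^ 2 - 1‖ ≤ t := by
  have e := u.val_inv h h0
  have d := den_ne h0 u.e
  have e2 : u.val ξ η ^ 2 - 1 = 2 * (u.B.eval ξ * η / (den x u.e).eval ξ) * u.val ξ η := by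
    rw [← e]
    simp only [Sol.val, Sol.inv, eval_neg]
    ring
  have e3 : ‖u.B.eval ξ * η / (den x u.e).eval ξ‖ ≤ t := by
    rw [norm_div, div_le_iff₀ (norm_pos_iff.2 d)]
    refine le_of_sq_le_sq₀ (by positivity) ?_
    rwa [← norm_pow, mul_pow, h, ← eval_pow, ← eval_mul]
  have e4 : ‖u.val ξ η ^ 2 - 1‖ ≤ t * ‖u.val ξ η‖ := by
    rw [e2, norm_mul, norm_mul, norm_two, one_mul]
    gcongr
  rcases le_or_gt ‖u.val ξ η‖ 1 with g | g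
  · exact e4.trans (mul_le_of_le_one_right t0 g)
  · rw [norm_sub_big (by rw [norm_one, norm_pow]; nlinarith), norm_pow] at e4
    nlinarith

theorem fin_ev {σ κ : ℤ} {ρ Y G : ℝ} (hρ : 0 < ρ) (u : Sol f x)
    (h : ∃ c, gn ρ f ≤ ‖c‖ * ρ ^ κ ∧ ∀ᶠ k in atTop, SB σ ρ (u.BB σ c κ k) Y) (G0 : 0 < G)
    (hG : G ^ 2 ≤ gn ρ f) (hx : (σ = 1 ∧ ∀ i, ρ < ‖x i‖) ∨ (σ = -1 ∧ ∀ i, ‖x i‖ < ρ)) :
    ∀ᶠ k in atTop, ∀ ξ η : K, (σ = 1 → ‖ξ‖ ≤ ρ) → (σ = -1 → ρ ≤ ‖ξ‖) → η ^ 2 = f.eval ξ →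
      ‖u.val ξ η ^ (4 * 5 ^ k) - 1‖ ≤ (1 / 5) ^ k * (Y / G) := by
  obtain ⟨c, hc, h⟩ := h
  have hs : Sd σ ρ x := ⟨hρ, hx.symm.imp (fun h => ⟨h.1, fun i => (h.2 i).le⟩)
    fun h => ⟨h.1, fun i => (h.2 i).le⟩⟩
  have g0 : 0 < gn ρ f := lt_of_lt_of_le (by positivity) hG
  have c0 : c ≠ 0 := by rintro rfl; simp [g0.not_ge] at hc
  have t := ((tendsto_pow_atTop_nhds_zero_of_lt_one (r := (1 / 5 : ℝ)) (by norm_num)
    (by norm_num)).mul_const (Y / G)).eventually_lt_const (u := 1) (by simp)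
  filter_upwards [h, t] with k hk t1 ξ η h1 h2 hη
  have Y0 := hk.nonneg hρ
  have b := hs.back (bsb hs.sq hρ c0 hk)
  have d := gn_den_pos (x := x) hρ (u.it k).e
  have b2 : gn ρ ((u.it k).B ^ 2 * f) ≤ ((1 / 5) ^ k * (Y / G) * gn ρ (den x (u.it k).e)) ^ 2 := by
    rw [gn_mul hρ, gn_pow hρ]
    have : gn ρ (u.it k).B ≤ (1 / 5) ^ k * Y / gn ρ f * gn ρ (den x (u.it k).e) :=
      b.trans (by gcongr)
    refine (mul_le_mul_of_nonneg_right (pow_le_pow_left₀ (gn_nonneg hρ _) this 2) g0.le).trans ?_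
    calc _ = ((1 / 5) ^ k * Y * gn ρ (den x (u.it k).e)) ^ 2 / gn ρ f := by field_simp
      _ ≤ ((1 / 5) ^ k * Y * gn ρ (den x (u.it k).e)) ^ 2 / G ^ 2 := by gcongr
      _ = _ := by ring
  rw [show 4 * 5 ^ k = 2 * 5 ^ k * 2 by ring, pow_mul, ← u.val_it hη]
  have dn : ‖(den x (u.it k).e).eval ξ‖ = ∏ i, ‖ξ - x i‖ ^ (u.it k).e i := by simp [den, eval_prod]
  rcases hx with ⟨e, hx⟩ | ⟨e, hx⟩
  · have l := fun i => (h1 e).trans_lt (hx i)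
    refine Sol.near _ hη (fun i e => (l i).ne (by rw [e])) (by positivity) t1
      (((eval_le hρ (h1 e) _).trans b2).trans (le_of_eq ?_))
    rw [dn, gn_den hρ, Finset.prod_congr rfl fun i _ => by
      rw [max_eq_right (hx i).le, ← norm_sub_big (l i), norm_sub_rev]]
  · have l := fun i => (hx i).trans_le (h2 e)
    have p := hρ.trans_le (h2 e)
    refine Sol.near _ hη (fun i e => (l i).ne (by rw [e])) (by positivity) t1
      (((eval_le p le_rfl _).trans (gn_up hρ (h2 e) (u.it k).degP)).trans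
        ((mul_le_mul_of_nonneg_right b2 (by positivity)).trans (le_of_eq ?_)))
    rw [dn, gn_den_out hρ fun i => (hx i).le, Finset.prod_congr rfl fun i _ => by
      rw [norm_sub_big (l i)], Finset.prod_pow_eq_pow_sum, pow_mul', div_pow ‖ξ‖]
    field_simp

theorem five_pow {z : K} {c : ℝ} (hz : ‖z‖ ≤ c) (hc : 5 * c ^ 3 ≤ 1) :
    ‖(1 + z) ^ 5 - 1 - 5 * z‖ ≤ c ^ 2 / 5 := by
  have c0 := (norm_nonneg _).trans hz
  have c1 : c ≤ 1 := by by_contra! h; nlinarith [one_lt_pow₀ h three_ne_zero]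
  rw [show (1 + z) ^ 5 - 1 - 5 * z = z ^ 2 * (5 * (2 + z * (2 + z)) + z ^ 3) by ring, norm_mul,
    norm_pow, div_eq_mul_one_div]
  refine mul_le_mul (by gcongr) (norm_add_le' ?_ ?_) (norm_nonneg _) (by positivity)
  · rw [norm_mul, norm_five]
    refine mul_le_of_le_one_right (by norm_num) (norm_add_le' norm_two.le ?_)
    rw [norm_mul]
    exact mul_le_one₀ (hz.trans c1) (norm_nonneg _) (norm_add_le' norm_two.le (hz.trans c1))
  · rw [norm_pow]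
    exact (pow_le_pow_left₀ (norm_nonneg _) hz 3).trans (by linarith)

theorem zpow_near {u : K} (hu : 5 * ‖u‖ ^ 3 ≤ 1) (n : ℤ) :
    ‖(1 + u) ^ n - 1 - n * u‖ ≤ ‖(n : K)‖ * ‖u‖ ^ 2 := by
  have u1 : ‖u‖ < 1 := by by_contra! h; nlinarith [one_le_pow₀ (n := 3) h]
  have u0 := norm_nonneg u
  have n1 : ‖1 + u‖ = 1 := by simpa using norm_eq_of_sub_lt (x := 1 + u) (y := 1) (by simpa)
  have ne : 1 + u ≠ 0 := by rw [← norm_pos_iff, n1]; exact one_pos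
  have sq : ∀ m : ℤ, ‖m * u * u‖ ≤ ‖u‖ ^ 2 := fun m => by
    rw [mul_assoc, norm_mul, ← sq, norm_pow]
    exact mul_le_of_le_one_left (by positivity) (norm_int_le m)
  have weak : ∀ m : ℤ, ‖(1 + u) ^ m - 1 - m * u‖ ≤ ‖u‖ ^ 2 := fun m => by
    induction m using Int.induction_on with
    | zero => simp
    | succ m ih =>
      rw [show (1 + u) ^ ((m : ℤ) + 1) - 1 - ((m : ℤ) + 1 : ℤ) * u =
        (1 + u) * ((1 + u) ^ (m : ℤ) - 1 - (m : ℤ) * u) + (m : ℤ) * u * u by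
          rw [zpow_add_one₀ ne]; push_cast; ring]
      exact norm_add_le' (by rwa [norm_mul, n1, one_mul]) (sq _)
    | pred m ih =>
      rw [← one_mul ‖_‖, ← n1, ← norm_mul, show (1 + u) * ((1 + u) ^ (-(m : ℤ) - 1) - 1 -
        (-(m : ℤ) - 1 : ℤ) * u) = (1 + u) ^ (-(m : ℤ)) - 1 - (-(m : ℤ) : ℤ) * u +
          ((m : ℤ) + 1 : ℤ) * u * u by
          rw [zpow_sub_one₀ ne]; push_cast; field_simp; ring]
      exact norm_add_le' ih (sq _)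
  induction h : n.natAbs using Nat.strong_induction_on generalizing n with
  | _ N ih =>
  by_cases h5 : 5 ∣ n
  · obtain ⟨m, rfl⟩ := h5
    by_cases m0 : m = 0
    · simp [m0]
    have h1 := ih m.natAbs (by omega) m rfl
    have m1 := norm_int_le m
    have h2 : ‖(1 + u) ^ m - 1‖ ≤ ‖(m : K)‖ * ‖u‖ := by
      rw [← sub_add_cancel (_ - 1) (m * u)]
      exact norm_add_le' (h1.trans (by gcongr; nlinarith)) (norm_mul _ _).le
    have h3 := five_pow h2 (le_trans (by gcongr; exact mul_le_of_le_one_left u0 m1) hu)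
    rw [add_sub_cancel, ← zpow_natCast, ← zpow_mul, mul_comm m] at h3
    rw [show (1 + u) ^ (5 * m) - 1 - (5 * m : ℤ) * u = (1 + u) ^ (((5 : ℕ) : ℤ) * m) - 1 -
      5 * ((1 + u) ^ m - 1) + 5 * ((1 + u) ^ m - 1 - m * u) by push_cast; ring,
      Int.cast_mul, norm_mul, Int.cast_ofNat, norm_five]
    refine norm_add_le' (h3.trans ?_) (by rw [norm_mul, norm_five, mul_assoc]; gcongr)
    have := norm_nonneg (m : K)
    nlinarith [mul_nonneg (mul_nonneg this (sub_nonneg.2 m1)) (sq_nonneg ‖u‖)]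
  · rw [norm_int_eq n h5, one_mul]
    exact weak n

theorem prod_near {κ : Type} (S : Finset κ) (z : κ → K) {t : ℝ} (t0 : 0 ≤ t) (t1 : t ≤ 1)
    (h : ∀ i ∈ S, ‖z i‖ ≤ t) :
    ‖∏ i ∈ S, (1 + z i) - 1‖ ≤ t ∧ ‖∏ i ∈ S, (1 + z i) - 1 - ∑ i ∈ S, z i‖ ≤ t ^ 2 := by
  classical
  induction S using Finset.induction_on with
  | empty => simp [t0]
  | insert a S ha ih =>
    obtain ⟨h1, h2⟩ := ih fun i hi => h i (by simp [hi])
    have h3 := h a (by simp)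
    have h4 : ‖z a * (∏ i ∈ S, (1 + z i) - 1)‖ ≤ t ^ 2 := by rw [norm_mul, sq]; gcongr
    rw [Finset.prod_insert ha, Finset.sum_insert ha]
    exact ⟨by convert norm_add_le' (norm_add_le' h1 h3) (h4.trans (by nlinarith)) using 2; ring,
      by convert norm_add_le' h2 h4 using 2; ring⟩

theorem root_near {z : K} (hz : 5 * ‖z‖ ^ 3 ≤ 1) (k : ℕ) :
    ‖(1 + z) ^ 5 ^ k - 1‖ = (1 / 5) ^ k * ‖z‖ := by
  have z1 : ‖z‖ < 1 := by by_contra! h; nlinarith [one_le_pow₀ (n := 3) h]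
  rcases eq_or_ne z 0 with rfl | z0
  · simp
  have p := norm_pos_iff.2 z0
  have := zpow_near hz (5 ^ k)
  have e : ‖((5 ^ k : ℤ) : K) * z‖ = (1 / 5) ^ k * ‖z‖ := by simp [norm_five]
  rw [← e, ← zpow_natCast]
  refine norm_eq_of_sub_lt ((le_of_eq_of_le (by simp) this).trans_lt ?_)
  rw [norm_mul, sq, ← mul_assoc]
  exact mul_lt_of_lt_one_right (by rw [← norm_mul, e]; positivity) z1

/-- The logarithmic form of the reciprocity law. -/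
theorem logl {V : K} {G u : ι → K} {t n : ι → ℤ} {Y : ℝ} (h : V ^ 2 * ∏ i, G i ^ (2 * n i) = 1)
    (hG : ∀ i, (5 ^ t i * G i) ^ 4 = 1 + u i) (hu : ∀ i, 5 * ‖u i‖ ^ 3 ≤ 1)
    (hV : ∀ᶠ k in atTop, ‖V ^ (4 * 5 ^ k) - 1‖ ≤ (1 / 5) ^ k * Y) :
    ∑ i, n i * t i = 0 ∧ ∀ T, 0 ≤ T → Y ≤ T → (∀ i, ‖(n i : K)‖ * ‖u i‖ ^ 2 ≤ T) →
      ‖∑ i, n i * u i‖ ≤ T := by
  obtain ⟨k, hk, t1⟩ := (hV.and (((tendsto_pow_atTop_nhds_zero_of_lt_one (r := (1 / 5 : ℝ))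
    (by norm_num) (by norm_num)).mul_const Y).eventually_lt_const (u := 1) (by simp))).exists
  have u1 : ∀ i, ‖u i‖ < 1 := fun i => by
    by_contra! h; nlinarith [one_le_pow₀ (n := 3) h, hu i]
  have v1 : ‖V‖ = 1 := by
    have := norm_eq_of_sub_lt (y := 1) (by simpa using hk.trans_lt t1)
    rwa [norm_pow, norm_one, pow_eq_one_iff_of_nonneg (norm_nonneg _) (by positivity)] at this
  have g1 : ∀ i, ‖G i‖ = 5 ^ t i := fun i => by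
    have := norm_eq_of_sub_lt (x := 1 + u i) (y := 1) (by simpa using u1 i)
    rw [← hG, norm_pow, norm_one, pow_eq_one_iff_of_nonneg (norm_nonneg _) (by norm_num), norm_mul,
      norm_zpow, norm_five, one_div, inv_zpow, inv_mul_eq_one₀ (by positivity)] at this
    exact this.symm
  have pz : ∀ {F : Type} [Field F] {a : F}, a ≠ 0 → ∀ (S : Finset ι) (e : ι → ℤ),
      ∏ i ∈ S, a ^ e i = a ^ ∑ i ∈ S, e i := fun {F} _ {a} ha S e => by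
    classical
    induction S using Finset.induction_on with
    | empty => simp
    | insert i S hi ih => rw [Finset.prod_insert hi, Finset.sum_insert hi, ih, zpow_add₀ ha]
  have e0 : ∑ i, n i * t i = 0 := by
    have := congrArg norm h
    simp only [norm_mul, norm_pow, v1, one_pow, one_mul, norm_prod, norm_zpow, g1, ← zpow_mul,
      norm_one] at this
    rw [pz (by norm_num), zpow_eq_one_iff_right₀ (by norm_num) (by norm_num)] at this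
    have e : ∑ i, t i * (2 * n i) = 2 * ∑ i, n i * t i := by
      rw [Finset.mul_sum]; exact Finset.sum_congr rfl fun i _ => by ring
    omega
  refine ⟨e0, fun T T0 hT hn => ?_⟩
  have e1 : V ^ 4 * ∏ i, (1 + ((1 + u i) ^ n i - 1)) = 1 := by
    have : ∀ i, 1 + ((1 + u i) ^ n i - 1) = 5 ^ (4 * (n i * t i)) * (G i ^ (2 * n i)) ^ 2 := fun i => by
      rw [add_sub_cancel, ← hG, mul_pow, mul_zpow]
      simp only [← zpow_natCast, ← zpow_mul]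
      congr 2 <;> push_cast <;> ring
    simp only [this, Finset.prod_mul_distrib, Finset.prod_pow]
    rw [pz (by norm_num), ← Finset.mul_sum, e0]
    simp only [mul_zero, zpow_zero, one_mul]
    linear_combination (V ^ 2 * ∏ i, G i ^ (2 * n i) + 1) * h
  have z1 : ∀ i, ‖(1 + u i) ^ n i - 1‖ ≤ ‖(n i : K)‖ * ‖u i‖ := fun i => by
    rw [← sub_add_cancel (_ - 1) (n i * u i)]
    exact norm_add_le' ((zpow_near (hu i) _).trans (by
      gcongr; nlinarith [u1 i, norm_nonneg (u i)])) (norm_mul _ _).le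
  obtain ⟨c, c0, c1, c2, c3⟩ : ∃ c : ℝ, 0 ≤ c ∧ 5 * c ^ 3 ≤ 1 ∧ c ^ 2 ≤ T ∧
      ∀ i, ‖(1 + u i) ^ n i - 1‖ ≤ c := by
    rcases isEmpty_or_nonempty ι with e | e
    · exact ⟨0, le_rfl, by norm_num, by simpa, fun i => e.elim i⟩
    obtain ⟨i, -, hi⟩ := Finset.exists_max_image Finset.univ (fun i => ‖(n i : K)‖ * ‖u i‖)
      Finset.univ_nonempty
    have := norm_int_le (n i)
    have := norm_nonneg (n i : K)
    refine ⟨_, by positivity, le_trans (by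
      gcongr; exact mul_le_of_le_one_left (norm_nonneg _) ‹_›) (hu i), le_trans ?_ (hn i),
      fun j => (z1 j).trans (hi j (Finset.mem_univ j))⟩
    rw [mul_pow]
    gcongr
    nlinarith
  obtain ⟨p1, p2⟩ := prod_near Finset.univ _ c0
    (by by_contra! h; nlinarith [one_lt_pow₀ h three_ne_zero]) fun i _ => c3 i
  have p3 := root_near (le_trans (by gcongr) c1 : 5 * ‖∏ i, (1 + ((1 + u i) ^ n i - 1)) - 1‖ ^ 3 ≤ 1) k
  rw [add_sub_cancel] at p3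
  rw [← one_pow (5 ^ k), ← e1, mul_pow, ← pow_mul, ← mul_one_sub, norm_mul, norm_pow, v1, one_pow,
    one_mul, norm_sub_rev, p3] at hk
  have p4 := (le_of_mul_le_mul_left hk (by positivity)).trans hT
  have p5 : ‖∑ i, ((1 + u i) ^ n i - 1 - n i * u i)‖ ≤ T :=
    IsUltrametricDist.norm_sum_le_of_forall_le_of_nonneg T0 fun i _ => (zpow_near (hu i) _).trans (hn i)
  have := norm_sub_le' (norm_sub_le' p4 (p2.trans c2)) p5
  rw [sub_sub_cancel, ← Finset.sum_sub_distrib] at this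
  simpa only [sub_sub_cancel] using this

end Pool.Agent.MP_8d06cc_nt.H27
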